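import Mathlib

/-!
# The rotation number
-/

set_option autoImplicit false

open Filter Topology

namespace Pool.Agent.H453R3

/-- exponents -/
def ee (k : ℕ) : ℕ := (k + 2).factorial

theorem ee_succ (k : ℕ) : ee (k + 1) = (k + 3) * ee k := by
  simp [ee, Nat.factorial_succ]

theorem ee_pos (k : ℕ) : 0 < ee k := Nat.factorial_pos _

theorem ee_two (k : ℕ) : k + 2 ≤ ee k := Nat.self_le_factorial _

theorem ee_mono {a b : ℕ} (h : a ≤ b) : ee a ≤ ee b := Nat.factorial_le (by omega)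

theorem ee_step (k : ℕ) : 3 * ee k ≤ ee (k + 1) := by
  rw [ee_succ]; exact Nat.mul_le_mul_right _ (by omega)

theorem ee_step' (k : ℕ) : 3 * ee (k + 1) ≤ ee (k + 2) := ee_step (k + 1)

attribute [irreducible] ee

theorem ee_add (k i : ℕ) : ee k + i ≤ ee (k + i) := by
  induction i with
  | zero => simp
  | succ i ih =>
    have h1 := ee_step (k + i)
    have h2 := ee_pos (k + i)
    have h3 : k + (i + 1) = k + i + 1 := by ring
    rw [h3]
    omega

theorem summable_ee : Summable fun j => (1 / 2 : ℝ) ^ ee j := by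
  refine Summable.of_nonneg_of_le (fun j => by positivity) (fun j => ?_)
    (summable_geometric_of_lt_one (r := (1 / 2 : ℝ)) (by norm_num) (by norm_num))
  exact pow_le_pow_of_le_one (by norm_num) (by norm_num) (by have := ee_two j; omega)

/-- the rotation number -/
noncomputable def al : ℝ := ∑' j, (1 / 2 : ℝ) ^ ee j

/-- partial sums -/
noncomputable def ps (k : ℕ) : ℝ := ∑ j ∈ Finset.range (k + 1), (1 / 2 : ℝ) ^ ee j

/-- remainders -/
noncomputable def rm (k : ℕ) : ℝ := ∑' i, (1 / 2 : ℝ) ^ ee (i + (k + 1))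

theorem al_eq (k : ℕ) : al = ps k + rm k :=
  (summable_ee.sum_add_tsum_nat_add (k + 1)).symm

theorem rm_pos (k : ℕ) : 0 < rm k := by
  refine ((summable_nat_add_iff (k + 1)).2 summable_ee).tsum_pos (fun i => by positivity) 0
    (by positivity)

theorem rm_le (k : ℕ) : rm k ≤ 2 * (1 / 2 : ℝ) ^ ee (k + 1) := by
  have h1 : ∀ i, (1 / 2 : ℝ) ^ ee (i + (k + 1)) ≤ (1 / 2 : ℝ) ^ ee (k + 1) * (1 / 2) ^ i := by
    intro i
    rw [← pow_add]
    refine pow_le_pow_of_le_one (by norm_num) (by norm_num) ?_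
    have := ee_add (k + 1) i
    rwa [show i + (k + 1) = k + 1 + i by ring]
  have h2 : Summable fun i => (1 / 2 : ℝ) ^ ee (k + 1) * (1 / 2) ^ i :=
    (summable_geometric_of_lt_one (r := (1 / 2 : ℝ)) (by norm_num) (by norm_num)).mul_left _
  calc rm k ≤ ∑' i, (1 / 2 : ℝ) ^ ee (k + 1) * (1 / 2) ^ i :=
        Summable.tsum_le_tsum h1 ((summable_nat_add_iff (k + 1)).2 summable_ee) h2
    _ = 2 * (1 / 2 : ℝ) ^ ee (k + 1) := by
        rw [tsum_mul_left, tsum_geometric_two]; ring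

theorem rm_succ (k : ℕ) : rm k = (1 / 2 : ℝ) ^ ee (k + 1) + rm (k + 1) := by
  have h1 := al_eq k
  have h2 := al_eq (k + 1)
  have h3 : ps (k + 1) = ps k + (1 / 2 : ℝ) ^ ee (k + 1) := by
    unfold ps
    rw [Finset.sum_range_succ]
  linarith

theorem two_pow_mul {m n : ℕ} (h : n ≤ m) : (2 : ℝ) ^ m * (1 / 2) ^ n = 2 ^ (m - n) := by
  obtain ⟨d, rfl⟩ := Nat.exists_eq_add_of_le h
  rw [Nat.add_sub_cancel_left, pow_add, one_div, inv_pow]
  field_simp

theorem two_pow_mul' {m n : ℕ} (h : m ≤ n) : (2 : ℝ) ^ m * (1 / 2) ^ n = (1 / 2) ^ (n - m) := by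
  obtain ⟨d, rfl⟩ := Nat.exists_eq_add_of_le h
  rw [Nat.add_sub_cancel_left, pow_add, one_div, inv_pow, inv_pow]
  field_simp

theorem ps_int (k m : ℕ) (h : ee k ≤ m) : ∃ z : ℤ, (2 : ℝ) ^ m * ps k = z := by
  refine ⟨∑ j ∈ Finset.range (k + 1), (2 : ℤ) ^ (m - ee j), ?_⟩
  unfold ps
  rw [Finset.mul_sum]
  push_cast
  refine Finset.sum_congr rfl fun j hj => ?_
  rw [Finset.mem_range] at hj
  exact two_pow_mul ((ee_mono (by omega)).trans h)

/-- the rotation angle in the circle -/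
noncomputable def A : UnitAddCircle := (al : UnitAddCircle)

/-- frequencies -/
def Q (k : ℕ) : ℕ := 2 ^ ee k

/-- rigidity times -/
def q (k : ℕ) : ℕ := 2 ^ (ee (k + 1) - ee k - 1)

theorem coe_int (z : ℤ) : ((z : ℝ) : UnitAddCircle) = 0 := by
  rw [AddCircle.coe_eq_zero_iff]
  exact ⟨z, by simp⟩

theorem pow_A (k m : ℕ) (h : ee k ≤ m) :
    (2 ^ m : ℕ) • A = (((2 : ℝ) ^ m * rm k : ℝ) : UnitAddCircle) := by
  obtain ⟨z, hz⟩ := ps_int k m h
  unfold A
  rw [← AddCircle.coe_nsmul, nsmul_eq_mul, al_eq k]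
  push_cast
  rw [mul_add, hz, AddCircle.coe_add, coe_int, zero_add]

theorem norm_coe_le (x : ℝ) : ‖(x : UnitAddCircle)‖ ≤ |x| := by
  rw [UnitAddCircle.norm_eq]
  have := round_le x 0
  simpa using this

/-- the lifted small angle -/
noncomputable def th (k : ℕ) : ℝ := (2 : ℝ) ^ ee k * rm k

theorem Q_A (k : ℕ) : Q k • A = ((th k : ℝ) : UnitAddCircle) := pow_A k (ee k) le_rfl

theorem th_pos (k : ℕ) : 0 < th k := mul_pos (by positivity) (rm_pos k)

theorem th_le (k : ℕ) : th k ≤ 2 * (1 / 2) ^ (ee (k + 1) - ee k) := by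
  have h1 := rm_le k
  unfold th
  calc (2 : ℝ) ^ ee k * rm k ≤ 2 ^ ee k * (2 * (1 / 2 : ℝ) ^ ee (k + 1)) := by gcongr
    _ = 2 * (2 ^ ee k * (1 / 2) ^ ee (k + 1)) := by ring
    _ = _ := by rw [two_pow_mul' (ee_mono (by omega))]

theorem norm_Q_A (k : ℕ) : ‖Q k • A‖ ≤ 2 * (1 / 2) ^ (ee (k + 1) - ee k) := by
  rw [Q_A]
  refine (norm_coe_le _).trans ?_
  rw [abs_of_pos (th_pos k)]
  exact th_le k

theorem norm_q_A (k : ℕ) : ‖q k • A‖ ≤ (1 / 2) ^ ee k := by
  have h0 := ee_step k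
  have h1 := ee_pos k
  unfold q
  rw [pow_A k _ (by omega)]
  refine (norm_coe_le _).trans ?_
  rw [abs_of_pos (mul_pos (by positivity) (rm_pos k))]
  calc (2 : ℝ) ^ (ee (k + 1) - ee k - 1) * rm k
      ≤ 2 ^ (ee (k + 1) - ee k - 1) * (2 * (1 / 2 : ℝ) ^ ee (k + 1)) := by
        gcongr; exact rm_le k
    _ = 2 ^ (ee (k + 1) - ee k - 1 + 1) * (1 / 2) ^ ee (k + 1) := by ring
    _ = _ := by
        rw [two_pow_mul' (by omega)]
        congr 1
        omega

theorem norm_qQ_A (k : ℕ) : ‖(q k * Q k) • A - ((1 / 2 : ℝ) : UnitAddCircle)‖ ≤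
    (1 / 2) ^ (ee (k + 2) - ee (k + 1)) := by
  have h0 := ee_step k
  have h00 := ee_step' k
  have h01 := ee_pos (k + 1)
  have h1 := ee_pos k
  have h2 : q k * Q k = 2 ^ (ee (k + 1) - 1) := by
    unfold q Q
    rw [← pow_add]
    congr 1
    omega
  rw [h2, pow_A k _ (by omega), rm_succ, mul_add]
  have h3 : (2 : ℝ) ^ (ee (k + 1) - 1) * (1 / 2) ^ ee (k + 1) = 1 / 2 := by
    rw [two_pow_mul' (by omega)]
    rw [show ee (k + 1) - (ee (k + 1) - 1) = 1 by omega, pow_one]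
  rw [h3, AddCircle.coe_add, add_sub_cancel_left]
  refine (norm_coe_le _).trans ?_
  rw [abs_of_pos (mul_pos (by positivity) (rm_pos _))]
  calc (2 : ℝ) ^ (ee (k + 1) - 1) * rm (k + 1)
      ≤ 2 ^ (ee (k + 1) - 1) * (2 * (1 / 2 : ℝ) ^ ee (k + 2)) := by
        gcongr; exact rm_le (k + 1)
    _ = 2 ^ (ee (k + 1) - 1 + 1) * (1 / 2) ^ ee (k + 2) := by ring
    _ = _ := by
        rw [two_pow_mul' (by omega)]
        congr 1
        omega

theorem half_norm : ‖((1 / 2 : ℝ) : UnitAddCircle)‖ = 1 / 2 := by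
  rw [UnitAddCircle.norm_eq, round_eq]
  norm_num

/-- the angle has infinite order -/
theorem order_A : addOrderOf A = 0 := by
  rw [addOrderOf_eq_zero_iff']
  intro n hn h0
  -- pick k with a small remainder
  have h1 : Q n • A ≠ 0 ∧ True := by
    refine ⟨?_, trivial⟩
    intro h
    have h2 := norm_qQ_A n
    rw [mul_nsmul', h, nsmul_zero, zero_sub, norm_neg, half_norm] at h2
    have h3 : ((1 : ℝ) / 2) ^ (ee (n + 2) - ee (n + 1)) ≤ (1 / 2) ^ 2 := by
      refine pow_le_pow_of_le_one (by norm_num) (by norm_num) ?_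
      have := ee_step' n
      have := ee_pos (n + 1)
      omega
    norm_num at h3
    linarith
  -- from n • A = 0 get the angle times Q n small and of order dividing n
  have h2 : n • (Q n • A) = 0 := by
    rw [← mul_nsmul', mul_comm, mul_nsmul', h0, nsmul_zero]
  rw [Q_A, ← AddCircle.coe_nsmul, nsmul_eq_mul] at h2
  have h3 : (n : ℝ) * th n < 1 := by
    have h4 := th_le n
    have h5 : (n : ℝ) < 2 ^ n := by exact_mod_cast Nat.lt_two_pow_self
    have h6 : ((1 : ℝ) / 2) ^ (ee (n + 1) - ee n) ≤ (1 / 2) ^ (n + 1) := by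
      refine pow_le_pow_of_le_one (by norm_num) (by norm_num) ?_
      have := ee_step n
      have := ee_two n
      omega
    have hn' : (0 : ℝ) < n := by exact_mod_cast hn
    calc (n : ℝ) * th n ≤ n * (2 * (1 / 2) ^ (n + 1)) := by
          gcongr; linarith
      _ < 2 ^ n * (2 * (1 / 2) ^ (n + 1)) := by
          gcongr
      _ = 1 := by
          rw [pow_succ, one_div, inv_pow]; field_simp
  have h7 := (AddCircle.coe_eq_zero_iff_of_mem_Ico (p := (1 : ℝ)) (a := n * th n)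
    ⟨(mul_pos (by exact_mod_cast hn) (th_pos n)).le, by simpa using h3⟩).1 h2
  have h8 : 0 < (n : ℝ) * th n := mul_pos (by exact_mod_cast hn) (th_pos n)
  linarith

end Pool.Agent.H453R3
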