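import Mathlib

/-!
# A canonical homeomorphism from the closure of a set without isolated points onto `ℕ → Bool`
-/

set_option autoImplicit false

open Filter Topology Set

namespace Pool.Agent.H453R3.TC

variable {I : Type} (q : ℕ ≃ I)

/-- agreement on the first `n` coordinates -/
def agr (n : ℕ) (x y : I → Bool) : Prop := ∀ j < n, x (q j) = y (q j)

variable {q}

theorem agr_refl (n : ℕ) (x : I → Bool) : agr q n x x := fun _ _ => rfl

theorem agr_symm {n : ℕ} {x y : I → Bool} (h : agr q n x y) : agr q n y x :=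
  fun j hj => (h j hj).symm

theorem agr_trans {n : ℕ} {x y z : I → Bool} (h : agr q n x y) (h' : agr q n y z) : agr q n x z :=
  fun j hj => (h j hj).trans (h' j hj)

theorem agr_mono {n m : ℕ} {x y : I → Bool} (hnm : n ≤ m) (h : agr q m x y) : agr q n x y :=
  fun j hj => h j (hj.trans_le hnm)

theorem agr_succ {n : ℕ} {x y : I → Bool} (h : agr q n x y) (h' : x (q n) = y (q n)) :
    agr q (n + 1) x y := by
  intro j hj
  rcases Nat.lt_succ_iff_lt_or_eq.1 hj with h1 | h1
  · exact h j h1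
  · rw [h1]; exact h'

/-- the first difference -/
theorem exists_first {x y : I → Bool} (h : x ≠ y) : ∃ n, agr q n x y ∧ x (q n) ≠ y (q n) := by
  classical
  have h1 : ∃ n, x (q n) ≠ y (q n) := by
    by_contra hc
    push Not at hc
    apply h
    funext i
    have := hc (q.symm i)
    rwa [q.apply_symm_apply] at this
  refine ⟨Nat.find h1, fun j hj => ?_, Nat.find_spec h1⟩
  have := Nat.find_min h1 hj
  push Not at this
  exact this

theorem first_ge {x y : I → Bool} {n m : ℕ} (h : agr q m x y) (h' : x (q n) ≠ y (q n)) : m ≤ n := by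
  by_contra hc
  exact h' (h n (not_le.1 hc))

theorem exists_agr_of_nhds (x : I → Bool) (U : Set (I → Bool)) (hU : U ∈ 𝓝 x) :
    ∃ n, ∀ y, agr q n x y → y ∈ U := by
  rw [nhds_pi, Filter.mem_pi] at hU
  obtain ⟨F, hF, t, ht, hsub⟩ := hU
  obtain ⟨n, hn⟩ : ∃ n : ℕ, ∀ i ∈ F, q.symm i < n := by
    obtain ⟨n, hn⟩ := (hF.image q.symm).bddAbove
    exact ⟨n + 1, fun i hi => Nat.lt_succ_of_le (hn ⟨i, hi, rfl⟩)⟩
  refine ⟨n, fun y hy => hsub fun i hi => ?_⟩
  have h1 := hy (q.symm i) (hn i hi)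
  rw [q.apply_symm_apply] at h1
  rw [← h1]
  exact mem_of_mem_nhds (ht i)

theorem isOpen_agr (n : ℕ) (x : I → Bool) : IsOpen {y | agr q n x y} := by
  have : {y | agr q n x y} = ⋂ j ∈ Set.Iio n, {y : I → Bool | x (q j) = y (q j)} := by
    ext y; simp [agr]
  rw [this]
  refine (Set.finite_Iio n).isOpen_biInter fun j _ => ?_
  have h1 : IsOpen {b : Bool | x (q j) = b} := isOpen_discrete _
  exact h1.preimage (continuous_apply (q j))

theorem mem_closure_agr {D : Set (I → Bool)} {x : I → Bool} :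
    x ∈ closure D ↔ ∀ n, ∃ y ∈ D, agr q n x y := by
  constructor
  · intro h n
    rw [mem_closure_iff] at h
    obtain ⟨y, hy, hyD⟩ := h _ (isOpen_agr (q := q) n x) (agr_refl n x)
    exact ⟨y, hyD, hy⟩
  · intro h
    rw [mem_closure_iff]
    intro U hU hx
    obtain ⟨n, hn⟩ := exists_agr_of_nhds (q := q) x U (hU.mem_nhds hx)
    obtain ⟨y, hy, hy'⟩ := h n
    exact ⟨y, hn y hy', hy⟩

variable (q) in
/-- splitting levels of `x` -/
def spl (D : Set (I → Bool)) (x : I → Bool) (n : ℕ) : Prop :=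
  (∃ y ∈ D, agr q n x y ∧ y (q n) = false) ∧ (∃ y ∈ D, agr q n x y ∧ y (q n) = true)

variable (q) in
/-- the bits at the splitting levels -/
noncomputable def ev (D : Set (I → Bool)) (x : I → Bool) (j : ℕ) : Bool :=
  x (q (Nat.nth (spl q D x) j))

theorem spl_congr {D : Set (I → Bool)} {x x' : I → Bool} {n : ℕ} (h : agr q n x x') :
    spl q D x n ↔ spl q D x' n := by
  unfold spl
  constructor
  · rintro ⟨⟨y, hy, h1, h2⟩, ⟨z, hz, h3, h4⟩⟩
    exact ⟨⟨y, hy, agr_trans (agr_symm h) h1, h2⟩, ⟨z, hz, agr_trans (agr_symm h) h3, h4⟩⟩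
  · rintro ⟨⟨y, hy, h1, h2⟩, ⟨z, hz, h3, h4⟩⟩
    exact ⟨⟨y, hy, agr_trans h h1, h2⟩, ⟨z, hz, agr_trans h h3, h4⟩⟩

theorem spl_of_ne {D : Set (I → Bool)} {x y : I → Bool} (hx : x ∈ closure D) (hy : y ∈ closure D)
    {n : ℕ} (h : agr q n x y) (hn : x (q n) ≠ y (q n)) : spl q D x n := by
  obtain ⟨x', hx', h1⟩ := (mem_closure_agr (q := q)).1 hx (n + 1)
  obtain ⟨y', hy', h2⟩ := (mem_closure_agr (q := q)).1 hy (n + 1)
  have e1 := h1 n (Nat.lt_succ_self n)
  have e2 := h2 n (Nat.lt_succ_self n)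
  have a1 : agr q n x x' := agr_mono (Nat.le_succ n) h1
  have a2 : agr q n x y' := agr_trans h (agr_mono (Nat.le_succ n) h2)
  cases hb : x (q n) with
  | false =>
    have h3 : y (q n) = true := by
      rw [hb] at hn
      cases hyb : y (q n) with
      | false => exact absurd hyb.symm hn
      | true => rfl
    exact ⟨⟨x', hx', a1, by rw [← e1, hb]⟩, ⟨y', hy', a2, by rw [← e2, h3]⟩⟩
  | true =>
    have h3 : y (q n) = false := by
      rw [hb] at hn
      cases hyb : y (q n) with
      | false => rfl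
      | true => exact absurd hyb.symm hn
    exact ⟨⟨y', hy', a2, by rw [← e2, h3]⟩, ⟨x', hx', a1, by rw [← e1, hb]⟩⟩

variable (q) in
/-- no isolated points -/
def Perf (D : Set (I → Bool)) : Prop := ∀ x ∈ D, ∀ n, ∃ y ∈ D, agr q n x y ∧ y ≠ x

theorem exists_ne {D : Set (I → Bool)} (hD : Perf q D) {x : I → Bool} (hx : x ∈ closure D)
    (N : ℕ) : ∃ y ∈ D, agr q N x y ∧ y ≠ x := by
  obtain ⟨y, hy, h1⟩ := (mem_closure_agr (q := q)).1 hx N
  by_cases h : y = x
  · subst h
    exact hD y hy N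
  · exact ⟨y, hy, h1, h⟩

theorem spl_inf {D : Set (I → Bool)} (hD : Perf q D) {x : I → Bool} (hx : x ∈ closure D) :
    {n | spl q D x n}.Infinite := by
  refine Set.infinite_of_forall_exists_gt fun N => ?_
  obtain ⟨y, hy, h1, h2⟩ := exists_ne hD hx (N + 1)
  obtain ⟨n, h3, h4⟩ := exists_first (q := q) (Ne.symm h2)
  exact ⟨n, spl_of_ne hx (subset_closure hy) h3 h4, first_ge h1 h4⟩

theorem nth_local {p p' : ℕ → Prop} (hp : {n | p n}.Infinite) (j : ℕ)
    (h : ∀ n ≤ Nat.nth p j, (p n ↔ p' n)) : Nat.nth p' j = Nat.nth p j := by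
  classical
  have h1 : p (Nat.nth p j) := Nat.nth_mem_of_infinite hp j
  have h2 : p' (Nat.nth p j) := (h _ le_rfl).1 h1
  have h3 : Nat.count p' (Nat.nth p j) = Nat.count p (Nat.nth p j) := by
    rw [Nat.count_eq_card_filter_range, Nat.count_eq_card_filter_range]
    congr 1
    apply Finset.filter_congr
    intro k hk
    exact (h k (Finset.mem_range.1 hk).le).symm
  rw [Nat.count_nth_of_infinite hp j] at h3
  have h4 := Nat.nth_count h2
  rwa [h3] at h4

theorem nth_spl_congr {D : Set (I → Bool)} (hD : Perf q D) {x x' : I → Bool}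
    (hx : x ∈ closure D) (j : ℕ) (h : agr q (Nat.nth (spl q D x) j) x x') :
    Nat.nth (spl q D x') j = Nat.nth (spl q D x) j :=
  nth_local (spl_inf hD hx) j fun _ hn => spl_congr (agr_mono hn h)

theorem ev_congr {D : Set (I → Bool)} (hD : Perf q D) {x x' : I → Bool}
    (hx : x ∈ closure D) (j : ℕ) (h : agr q (Nat.nth (spl q D x) j + 1) x x') :
    ev q D x' j = ev q D x j := by
  unfold ev
  rw [nth_spl_congr hD hx j (agr_mono (Nat.le_succ _) h)]
  exact (h _ (Nat.lt_succ_self _)).symm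

theorem ev_inj {D : Set (I → Bool)} {x x' : I → Bool}
    (hx : x ∈ closure D) (hx' : x' ∈ closure D) (h : ev q D x = ev q D x') : x = x' := by
  classical
  by_contra hne
  obtain ⟨n, h1, h2⟩ := exists_first (q := q) hne
  have s1 := spl_of_ne hx hx' h1 h2
  have s2 := spl_of_ne hx' hx (agr_symm h1) (Ne.symm h2)
  have c1 : Nat.count (spl q D x) n = Nat.count (spl q D x') n := by
    rw [Nat.count_eq_card_filter_range, Nat.count_eq_card_filter_range]
    congr 1
    apply Finset.filter_congr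
    intro k hk
    exact spl_congr (agr_mono (Finset.mem_range.1 hk).le h1)
  have h3 := congrFun h (Nat.count (spl q D x) n)
  unfold ev at h3
  rw [Nat.nth_count s1] at h3
  rw [c1, Nat.nth_count s2] at h3
  exact h2 h3

/-- the range is dense -/
theorem ev_dense {D : Set (I → Bool)} (hD : Perf q D) (hne : D.Nonempty) (z : ℕ → Bool) (m : ℕ) :
    ∃ x ∈ D, ∀ j < m, ev q D x j = z j := by
  induction m with
  | zero =>
    obtain ⟨x, hx⟩ := hne
    exact ⟨x, hx, fun j hj => absurd hj (Nat.not_lt_zero j)⟩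
  | succ m ih =>
    obtain ⟨x, hx, h⟩ := ih
    have hinf := spl_inf hD (subset_closure hx)
    have hs : spl q D x (Nat.nth (spl q D x) m) := Nat.nth_mem_of_infinite hinf m
    obtain ⟨y, hy, h1, h2⟩ : ∃ y ∈ D, agr q (Nat.nth (spl q D x) m) x y ∧
        y (q (Nat.nth (spl q D x) m)) = z m := by
      cases hz : z m with
      | false => exact hs.1
      | true => exact hs.2
    refine ⟨y, hy, fun j hj => ?_⟩
    rcases Nat.lt_succ_iff_lt_or_eq.1 hj with h3 | h3
    · rw [← h j h3]
      refine ev_congr hD (subset_closure hx) j (agr_mono ?_ h1)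
      exact Nat.nth_strictMono hinf h3
    · subst h3
      unfold ev
      rw [nth_spl_congr hD (subset_closure hx) j h1]
      exact h2

theorem ev_continuous {D : Set (I → Bool)} (hD : Perf q D) :
    Continuous fun x : closure D => ev q D x.1 := by
  refine continuous_pi fun j => ?_
  rw [continuous_iff_continuousAt]
  intro x
  have h1 : ∀ᶠ y : closure D in 𝓝 x, ev q D y.1 j = ev q D x.1 j := by
    have h2 : {y : I → Bool | agr q (Nat.nth (spl q D x.1) j + 1) x.1 y} ∈ 𝓝 x.1 :=
      (isOpen_agr _ _).mem_nhds (agr_refl _ _)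
    have h3 := continuous_subtype_val.continuousAt.preimage_mem_nhds (x := x) h2
    filter_upwards [h3] with y hy
    exact ev_congr hD x.2 j hy
  have h4 : (fun y : closure D => ev q D y.1 j) =ᶠ[𝓝 x] fun _ => ev q D x.1 j := h1
  exact (continuousAt_const).congr h4.symm

theorem ev_surj {D : Set (I → Bool)} (hD : Perf q D) (hne : D.Nonempty) :
    Function.Surjective fun x : closure D => ev q D x.1 := by
  haveI : CompactSpace (closure D) := isCompact_iff_compactSpace.1 isClosed_closure.isCompact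
  intro z
  have hcl : IsClosed (Set.range fun x : closure D => ev q D x.1) :=
    (isCompact_range (ev_continuous hD)).isClosed
  have hmem : z ∈ closure (Set.range fun x : closure D => ev q D x.1) := by
    rw [mem_closure_agr (q := Equiv.refl ℕ)]
    intro n
    obtain ⟨x, hx, h⟩ := ev_dense hD hne z n
    exact ⟨ev q D x, ⟨⟨x, subset_closure hx⟩, rfl⟩, fun j hj => (h j hj).symm⟩
  rw [hcl.closure_eq] at hmem
  exact hmem

variable (q) in
/-- the canonical homeomorphism -/
noncomputable def EE (D : Set (I → Bool)) (hD : Perf q D) (hne : D.Nonempty) :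
    closure D ≃ₜ (ℕ → Bool) :=
  haveI : CompactSpace (closure D) := isCompact_iff_compactSpace.1 isClosed_closure.isCompact
  Continuous.homeoOfEquivCompactToT2
    (f := Equiv.ofBijective (fun x : closure D => ev q D x.1)
      ⟨fun x x' h => Subtype.ext (ev_inj x.2 x'.2 h), ev_surj hD hne⟩) (ev_continuous hD)

theorem EE_apply (D : Set (I → Bool)) (hD : Perf q D) (hne : D.Nonempty) (x : closure D) :
    EE q D hD hne x = ev q D x.1 := rfl

/-- transfer of a homeomorphism of the closure -/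
noncomputable def TF (D : Set (I → Bool)) (hD : Perf q D) (hne : D.Nonempty)
    (τ : closure D ≃ₜ closure D) : (ℕ → Bool) ≃ₜ (ℕ → Bool) :=
  ((EE q D hD hne).symm.trans τ).trans (EE q D hD hne)

theorem TF_EE (D : Set (I → Bool)) (hD : Perf q D) (hne : D.Nonempty)
    (τ : closure D ≃ₜ closure D) (x : closure D) :
    TF D hD hne τ (EE q D hD hne x) = EE q D hD hne (τ x) := by
  simp [TF]

theorem TF_iff (D : Set (I → Bool)) (hD : Perf q D) (hne : D.Nonempty)
    (τ : closure D ≃ₜ closure D) (z : ℕ → Bool) (j : ℕ) (b : Bool) :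
    TF D hD hne τ z j = b ↔ ∀ m, ∃ c : closure D, c.1 ∈ D ∧ (∀ i < m, ev q D c.1 i = z i) ∧
      ev q D (τ c).1 j = b := by
  have hc : Continuous fun z => TF D hD hne τ z j :=
    (continuous_apply j).comp (TF D hD hne τ).continuous
  have hloc : ∀ z : ℕ → Bool, ∃ m, ∀ z' : ℕ → Bool, (∀ i < m, z' i = z i) →
      TF D hD hne τ z' j = TF D hD hne τ z j := by
    intro z
    have h1 : {z' | TF D hD hne τ z' j = TF D hD hne τ z j} ∈ 𝓝 z :=
      ((isOpen_discrete ({TF D hD hne τ z j} : Set Bool)).preimage hc).mem_nhds rfl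
    obtain ⟨m, hm⟩ := exists_agr_of_nhds (q := Equiv.refl ℕ) z _ h1
    exact ⟨m, fun z' hz' => hm z' fun i hi => (hz' i hi).symm⟩
  obtain ⟨M, hM⟩ := hloc z
  constructor
  · intro h m
    obtain ⟨c, hcD, hc'⟩ := ev_dense hD hne z (max m M)
    refine ⟨⟨c, subset_closure hcD⟩, hcD, fun i hi => hc' i (lt_of_lt_of_le hi (le_max_left _ _)),
      ?_⟩
    have h2 := TF_EE D hD hne τ ⟨c, subset_closure hcD⟩
    have h3 := hM (ev q D c) fun i hi => hc' i (lt_of_lt_of_le hi (le_max_right _ _))
    rw [h] at h3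
    rw [EE_apply, EE_apply] at h2
    rw [← h2]
    exact h3
  · intro h
    obtain ⟨c, hcD, h1, h2⟩ := h M
    have h3 := hM (ev q D c.1) h1
    have h4 := TF_EE D hD hne τ c
    rw [EE_apply, EE_apply] at h4
    rw [← h3, h4, h2]

end Pool.Agent.H453R3.TC
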