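import Pool.Agent.H453R3.Arith

/-!
# The cosine function on the circle, and the cocycles
-/

set_option autoImplicit false

open Filter Topology MeasureTheory

namespace Pool.Agent.H453R3

/-- cosine on the circle -/
noncomputable def w (z : UnitAddCircle) : ℝ := (AddCircle.toCircle z : ℂ).re

theorem w_coe (x : ℝ) : w (x : UnitAddCircle) = Real.cos (2 * Real.pi * x) := by
  unfold w
  rw [AddCircle.toCircle_apply_mk, Circle.coe_exp, Complex.exp_ofReal_mul_I_re]
  norm_num

theorem continuous_w : Continuous w :=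
  Complex.continuous_re.comp (continuous_subtype_val.comp AddCircle.continuous_toCircle)

/-- a short representative -/
theorem exists_rep (z : UnitAddCircle) : ∃ d : ℝ, (d : UnitAddCircle) = z ∧ |d| = ‖z‖ := by
  obtain ⟨x, rfl⟩ := QuotientAddGroup.mk_surjective z
  refine ⟨x - round x, ?_, ?_⟩
  · rw [AddCircle.coe_sub, coe_int, sub_zero]
  · exact (UnitAddCircle.norm_eq (x := x)).symm

theorem w_lip (a b : UnitAddCircle) : |w a - w b| ≤ 2 * Real.pi * ‖a - b‖ := by
  obtain ⟨d, hd, hd'⟩ := exists_rep (a - b)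
  obtain ⟨y, rfl⟩ := QuotientAddGroup.mk_surjective b
  have ha : a = ((y + d : ℝ) : UnitAddCircle) := by
    rw [AddCircle.coe_add, hd]
    simp
  have hb : (QuotientAddGroup.mk y : UnitAddCircle) = ((y : ℝ) : UnitAddCircle) := rfl
  rw [hb] at hd' ⊢
  rw [ha] at hd' ⊢
  rw [w_coe, w_coe, ← hd']
  refine (Real.abs_cos_sub_cos_le _ _).trans ?_
  rw [← mul_sub, add_sub_cancel_left, abs_mul, abs_of_pos (by positivity : 0 < 2 * Real.pi)]

theorem abs_w_le (z : UnitAddCircle) : |w z| ≤ 1 := by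
  obtain ⟨x, rfl⟩ := QuotientAddGroup.mk_surjective z
  have : w (QuotientAddGroup.mk x : UnitAddCircle) = _ := w_coe x
  rw [this]
  exact Real.abs_cos_le_one _

theorem w_half (z : UnitAddCircle) : w (z + ((1 / 2 : ℝ) : UnitAddCircle)) = - w z := by
  obtain ⟨x, rfl⟩ := QuotientAddGroup.mk_surjective z
  have hb : (QuotientAddGroup.mk x : UnitAddCircle) = ((x : ℝ) : UnitAddCircle) := rfl
  rw [hb, ← AddCircle.coe_add, w_coe, w_coe]
  rw [show 2 * Real.pi * (x + 1 / 2) = 2 * Real.pi * x + Real.pi by ring, Real.cos_add_pi]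

/-- coefficients -/
noncomputable def lam (c : ℕ → ℝ) (k : ℕ) : ℝ :=
  if k % 2 = 0 then 1 else (1 - Real.cos (c (k / 2))) / 2

theorem lam_nonneg (c : ℕ → ℝ) (k : ℕ) : 0 ≤ lam c k := by
  unfold lam
  split_ifs
  · norm_num
  · have := Real.cos_le_one (c (k / 2)); linarith

theorem lam_le (c : ℕ → ℝ) (k : ℕ) : lam c k ≤ 1 := by
  unfold lam
  split_ifs
  · norm_num
  · have := Real.neg_one_le_cos (c (k / 2)); linarith

theorem abs_lam_le (c : ℕ → ℝ) (k : ℕ) : |lam c k| ≤ 1 := by
  rw [abs_of_nonneg (lam_nonneg c k)]; exact lam_le c k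

theorem lam_even (c : ℕ → ℝ) (n : ℕ) : lam c (2 * n) = 1 := by
  unfold lam; rw [if_pos (by omega)]

theorem lam_odd (c : ℕ → ℝ) (n : ℕ) : lam c (2 * n + 1) = (1 - Real.cos (c n)) / 2 := by
  unfold lam; rw [if_neg (by omega)]
  rw [show (2 * n + 1) / 2 = n by omega]

theorem continuous_lam (k : ℕ) : Continuous fun c => lam c k := by
  unfold lam
  split_ifs
  · exact continuous_const
  · fun_prop

theorem summable_lam_sub (x y : ℕ → ℝ) (h : Summable fun n => |x n - y n|) :
    Summable fun k => |lam y k - lam x k| := by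
  have he : Summable fun k => |lam y (2 * k) - lam x (2 * k)| := by
    simp only [lam_even, sub_self, abs_zero]
    exact summable_zero
  have ho : Summable fun k => |lam y (2 * k + 1) - lam x (2 * k + 1)| := by
    refine Summable.of_nonneg_of_le (fun k => abs_nonneg _) (fun k => ?_) h
    rw [lam_odd, lam_odd]
    have h1 := Real.abs_cos_sub_cos_le (x k) (y k)
    rw [show (1 - Real.cos (y k)) / 2 - (1 - Real.cos (x k)) / 2 =
      (Real.cos (x k) - Real.cos (y k)) / 2 by ring, abs_div, abs_two]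
    have := abs_nonneg (x k - y k)
    linarith
  exact (he.hasSum.even_add_odd ho.hasSum).summable

/-- coboundary terms -/
noncomputable def D (k m : ℕ) (x : UnitAddCircle) : ℝ := w (Q k • (x + m • A)) - w (Q k • x)

theorem continuous_D (k m : ℕ) : Continuous (D k m) := by
  unfold D
  exact (continuous_w.comp ((continuous_id.add continuous_const).nsmul _)).sub
    (continuous_w.comp (continuous_id.nsmul _))

theorem norm_nsmul_le' (n : ℕ) (a : UnitAddCircle) : ‖n • a‖ ≤ n * ‖a‖ := by
  have := norm_nsmul_le (a := a) (n := n)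
  simpa [nsmul_eq_mul] using this

theorem abs_D_le (k m : ℕ) (x : UnitAddCircle) :
    |D k m x| ≤ 2 * Real.pi * m * (2 * (1 / 2) ^ (ee (k + 1) - ee k)) := by
  unfold D
  refine (w_lip _ _).trans ?_
  rw [nsmul_add, add_sub_cancel_left, ← mul_nsmul', mul_comm (Q k) m, mul_nsmul',
    mul_assoc (2 * Real.pi) (m : ℝ)]
  gcongr
  refine (norm_nsmul_le' _ _).trans ?_
  gcongr
  exact norm_Q_A k

theorem half_pow_le (a b : ℕ) (h : a ≤ b) : (1 / 2 : ℝ) ^ b ≤ (1 / 2) ^ a :=
  pow_le_pow_of_le_one (by norm_num) (by norm_num) h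

theorem abs_D_le' (k m : ℕ) (x : UnitAddCircle) :
    |D k m x| ≤ 2 * Real.pi * m * (1 / 2) ^ k := by
  refine (abs_D_le k m x).trans ?_
  gcongr
  have h1 : (1 / 2 : ℝ) ^ (ee (k + 1) - ee k) ≤ (1 / 2) ^ (k + 1) := by
    apply half_pow_le
    have := ee_step k
    have := ee_two k
    omega
  rw [pow_succ] at h1
  linarith

theorem summable_bd (C : ℝ) : Summable fun k : ℕ => C * (1 / 2 : ℝ) ^ k :=
  (summable_geometric_of_lt_one (by norm_num) (by norm_num)).mul_left _

theorem tsum_bd (C : ℝ) : ∑' k : ℕ, C * (1 / 2 : ℝ) ^ k = 2 * C := by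
  rw [tsum_mul_left, tsum_geometric_two]; ring

/-- general sums with bounded coefficients -/
noncomputable def Ph (l : ℕ → ℝ) (m : ℕ) (x : UnitAddCircle) : ℝ := ∑' k, l k * D k m x

theorem abs_term_le (l : ℕ → ℝ) (B : ℝ) (hl : ∀ k, |l k| ≤ B) (k m : ℕ) (x : UnitAddCircle) :
    |l k * D k m x| ≤ (B * (2 * Real.pi * m)) * (1 / 2) ^ k := by
  rw [abs_mul, mul_assoc B]
  exact mul_le_mul (hl k) (abs_D_le' k m x) (abs_nonneg _) ((abs_nonneg _).trans (hl k))

theorem summable_Ph (l : ℕ → ℝ) (B : ℝ) (hl : ∀ k, |l k| ≤ B) (m : ℕ) (x : UnitAddCircle) :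
    Summable fun k => l k * D k m x :=
  Summable.of_norm_bounded (summable_bd (B * (2 * Real.pi * m))) fun k =>
    abs_term_le l B hl k m x

theorem continuous_Ph (l : ℕ → ℝ) (B : ℝ) (hl : ∀ k, |l k| ≤ B) (m : ℕ) :
    Continuous (Ph l m) :=
  continuous_tsum (fun k => continuous_const.mul (continuous_D k m))
    (summable_bd (B * (2 * Real.pi * m))) fun k x => abs_term_le l B hl k m x

theorem Ph_zero (l : ℕ → ℝ) (x : UnitAddCircle) : Ph l 0 x = 0 := by
  unfold Ph D
  simp

theorem Ph_succ (l : ℕ → ℝ) (B : ℝ) (hl : ∀ k, |l k| ≤ B) (m : ℕ) (x : UnitAddCircle) :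
    Ph l (m + 1) x = Ph l m x + Ph l 1 (x + m • A) := by
  unfold Ph
  rw [← (summable_Ph l B hl m x).tsum_add (summable_Ph l B hl 1 (x + m • A))]
  refine tsum_congr fun k => ?_
  unfold D
  rw [one_nsmul, add_nsmul, one_nsmul, ← add_assoc]
  ring

/-- the key approximation -/
theorem key_term (k j : ℕ) (x : UnitAddCircle) :
    |D j (q k) x - (if j = k then -2 * w (Q k • x) else 0)| ≤
      (2 * Real.pi * (1 / 2) ^ k) * (1 / 2) ^ j := by
  rcases lt_trichotomy j k with h | h | h
  · rw [if_neg h.ne, sub_zero]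
    unfold D
    refine (w_lip _ _).trans ?_
    rw [nsmul_add, add_sub_cancel_left, mul_assoc (2 * Real.pi) ((1 / 2 : ℝ) ^ k)]
    gcongr
    refine (norm_nsmul_le' _ _).trans ?_
    have h1 := norm_q_A k
    have h2 : ee j ≤ ee k := ee_mono h.le
    have h3 : k + j ≤ ee k - ee j := by
      obtain ⟨d, rfl⟩ : ∃ d, k = d + 1 := ⟨k - 1, by omega⟩
      have := ee_step d
      have := ee_mono (show j ≤ d by omega)
      have := ee_two d
      omega
    calc (Q j : ℝ) * ‖q k • A‖ ≤ Q j * (1 / 2) ^ ee k := by gcongr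
      _ = (1 / 2) ^ (ee k - ee j) := by
          unfold Q
          push_cast
          exact two_pow_mul' h2
      _ ≤ (1 / 2) ^ (k + j) := half_pow_le _ _ h3
      _ = _ := by rw [pow_add]
  · subst h
    rw [if_pos rfl]
    unfold D
    have h1 : w (Q j • (x + q j • A)) - w (Q j • x) - -2 * w (Q j • x) =
        w (Q j • (x + q j • A)) - w (Q j • x + ((1 / 2 : ℝ) : UnitAddCircle)) := by
      rw [w_half]; ring
    rw [h1]
    refine (w_lip _ _).trans ?_
    have h2 : Q j • (x + q j • A) - (Q j • x + ((1 / 2 : ℝ) : UnitAddCircle)) =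
        (q j * Q j) • A - ((1 / 2 : ℝ) : UnitAddCircle) := by
      rw [nsmul_add, ← mul_nsmul', mul_comm (Q j)]
      abel
    rw [h2, mul_assoc (2 * Real.pi) ((1 / 2 : ℝ) ^ j)]
    gcongr
    refine (norm_qQ_A j).trans ?_
    rw [← pow_add]
    apply half_pow_le
    have := ee_step' j
    have := ee_two (j + 1)
    omega
  · rw [if_neg h.ne', sub_zero]
    refine (abs_D_le j (q k) x).trans ?_
    rw [mul_assoc (2 * Real.pi) (q k : ℝ), mul_assoc (2 * Real.pi) ((1 / 2 : ℝ) ^ k)]
    refine mul_le_mul_of_nonneg_left ?_ (by positivity)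
    have h3 : k + j + (ee (k + 1) - ee k) ≤ ee (j + 1) - ee j := by
      have := ee_step j
      have := ee_mono (show k + 1 ≤ j by omega)
      have := ee_two j
      have := ee_two k
      have := ee_step k
      omega
    have h4 : 1 ≤ ee (k + 1) - ee k := by
      have := ee_step k
      have := ee_two k
      omega
    calc (q k : ℝ) * (2 * (1 / 2) ^ (ee (j + 1) - ee j))
        = (2 ^ (ee (k + 1) - ee k - 1 + 1)) * (1 / 2) ^ (ee (j + 1) - ee j) := by
          unfold q; push_cast; ring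
      _ = (1 / 2) ^ (ee (j + 1) - ee j - (ee (k + 1) - ee k)) := by
          rw [show ee (k + 1) - ee k - 1 + 1 = ee (k + 1) - ee k by omega]
          exact two_pow_mul' (by omega)
      _ ≤ (1 / 2) ^ (k + j) := half_pow_le _ _ (by omega)
      _ = _ := by rw [pow_add]

theorem key (l : ℕ → ℝ) (hl : ∀ k, |l k| ≤ 1) (k : ℕ) (x : UnitAddCircle) :
    |Ph l (q k) x + 2 * l k * w (Q k • x)| ≤ 4 * Real.pi * (1 / 2) ^ k := by
  have h1 : Summable fun j => (if j = k then -2 * l k * w (Q k • x) else 0) :=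
    (hasSum_ite_eq k _).summable
  have h2 : ∑' j, (if j = k then -2 * l k * w (Q k • x) else 0) = -2 * l k * w (Q k • x) :=
    tsum_ite_eq k _
  have h3 : Ph l (q k) x + 2 * l k * w (Q k • x) =
      ∑' j, (l j * D j (q k) x - (if j = k then -2 * l k * w (Q k • x) else 0)) := by
    rw [(summable_Ph l 1 hl (q k) x).tsum_sub h1, h2]
    unfold Ph
    ring
  have h4 : ∀ j, |l j * D j (q k) x - (if j = k then -2 * l k * w (Q k • x) else 0)| ≤
      (2 * Real.pi * (1 / 2) ^ k) * (1 / 2) ^ j := by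
    intro j
    have h5 : l j * D j (q k) x - (if j = k then -2 * l k * w (Q k • x) else 0) =
        l j * (D j (q k) x - (if j = k then -2 * w (Q k • x) else 0)) := by
      split_ifs with h
      · subst h; ring
      · ring
    rw [h5, abs_mul]
    calc |l j| * |D j (q k) x - (if j = k then -2 * w (Q k • x) else 0)|
        ≤ 1 * ((2 * Real.pi * (1 / 2) ^ k) * (1 / 2) ^ j) :=
          mul_le_mul (hl j) (key_term k j x) (abs_nonneg _) zero_le_one
      _ = _ := one_mul _
  rw [h3]
  have h6 := tsum_of_norm_bounded (summable_bd (2 * Real.pi * (1 / 2) ^ k)).hasSum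
    (f := fun j => l j * D j (q k) x - (if j = k then -2 * l k * w (Q k • x) else 0)) h4
  rw [tsum_bd] at h6
  rw [Real.norm_eq_abs] at h6
  linarith

end Pool.Agent.H453R3
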