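import Mathlib

/-!
# The two-torus as a smooth manifold modelled on `EuclideanSpace ℝ (Fin 2)`
-/

set_option autoImplicit false

open MeasureTheory Set Filter Topology
open scoped Manifold ContDiff

namespace Pool.Agent.H453R3

/-- the Euclidean plane -/
abbrev E2 : Type := EuclideanSpace ℝ (Fin 2)

/-- the torus -/
abbrev T2 : Type := UnitAddCircle × UnitAddCircle

/-- the plane as a product -/
noncomputable def LL : E2 ≃L[ℝ] ℝ × ℝ :=
  (EuclideanSpace.equiv (Fin 2) ℝ).trans (ContinuousLinearEquiv.finTwoArrow ℝ ℝ)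

theorem LL_apply (x : E2) : LL x = (x 0, x 1) := rfl

/-- the covering map -/
noncomputable def pr2 (x : E2) : T2 := (((x 0 : ℝ) : UnitAddCircle), ((x 1 : ℝ) : UnitAddCircle))

/-- the covering map from the product -/
noncomputable def prr (x : ℝ × ℝ) : T2 := ((x.1 : UnitAddCircle), (x.2 : UnitAddCircle))

theorem pr2_eq (x : E2) : pr2 x = prr (LL x) := rfl

theorem continuous_prr : Continuous prr := by
  unfold prr
  exact ((AddCircle.continuous_mk' 1).comp continuous_fst).prodMk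
    ((AddCircle.continuous_mk' 1).comp continuous_snd)

theorem continuous_pr2 : Continuous pr2 := continuous_prr.comp LL.continuous

theorem pr2_add (x y : E2) : pr2 (x + y) = pr2 x + pr2 y := by
  simp [pr2]

theorem pr2_sub (x y : E2) : pr2 (x - y) = pr2 x - pr2 y := by
  simp [pr2]

/-- the charts -/
noncomputable def ch (a : ℝ × ℝ) : OpenPartialHomeomorph T2 E2 :=
  (((AddCircle.openPartialHomeomorphCoe (1 : ℝ) a.1).symm).prod
    ((AddCircle.openPartialHomeomorphCoe (1 : ℝ) a.2).symm)).transHomeomorph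
      LL.symm.toHomeomorph

theorem ch_symm (a : ℝ × ℝ) (x : E2) : (ch a).symm x = pr2 x := by
  rfl

theorem ch_source (a : ℝ × ℝ) : (ch a).source =
    {p : T2 | p.1 ≠ (a.1 : UnitAddCircle) ∧ p.2 ≠ (a.2 : UnitAddCircle)} := by
  ext p
  simp [ch, OpenPartialHomeomorph.transHomeomorph]

theorem ch_target (a : ℝ × ℝ) : (ch a).target =
    {x : E2 | (a.1 < x 0 ∧ x 0 < a.1 + 1) ∧ (a.2 < x 1 ∧ x 1 < a.2 + 1)} := by
  ext p
  simp [ch, OpenPartialHomeomorph.transHomeomorph, LL_apply]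

theorem half_ne (x : ℝ) : (x : UnitAddCircle) ≠ ((x + 1 / 2 : ℝ) : UnitAddCircle) := by
  intro h
  have h1 : ((1 / 2 : ℝ) : UnitAddCircle) = 0 := by
    rw [AddCircle.coe_add] at h
    exact (left_eq_add.1 h)
  have h2 := (AddCircle.coe_eq_zero_iff_of_mem_Ico (p := (1 : ℝ)) (a := 1 / 2)
    ⟨by norm_num, by norm_num⟩).1 h1
  norm_num at h2

theorem exists_ch (p : T2) : ∃ a : ℝ × ℝ, p ∈ (ch a).source := by
  obtain ⟨x, hx⟩ := QuotientAddGroup.mk_surjective p.1
  obtain ⟨y, hy⟩ := QuotientAddGroup.mk_surjective p.2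
  refine ⟨(x + 1 / 2, y + 1 / 2), ?_⟩
  rw [ch_source]
  refine ⟨?_, ?_⟩
  · rw [← hx]; exact half_ne x
  · rw [← hy]; exact half_ne y

/-- the charted space structure -/
@[reducible] noncomputable def csT2 : ChartedSpace E2 T2 where
  atlas := range ch
  chartAt := fun p => ch (exists_ch p).choose
  mem_chart_source := fun p => (exists_ch p).choose_spec
  chart_mem_atlas := fun p => ⟨_, rfl⟩

/-- a chart of a point of the plane is locally a translation -/
theorem local_trans (b : ℝ × ℝ) (x₀ : E2) (h : pr2 x₀ ∈ (ch b).source) :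
    ∃ n : E2, (∀ x, pr2 (x + n) = pr2 x) ∧ ∀ᶠ x in 𝓝 x₀, ch b (pr2 x) = x + n := by
  refine ⟨ch b (pr2 x₀) - x₀, ?_, ?_⟩
  · intro x
    have h1 : pr2 (ch b (pr2 x₀)) = pr2 x₀ := by
      rw [← ch_symm b]
      exact (ch b).left_inv h
    rw [pr2_add, pr2_sub, h1, sub_self, add_zero]
  · have h2 : ∀ᶠ x in 𝓝 x₀, x + (ch b (pr2 x₀) - x₀) ∈ (ch b).target := by
      have hc : Continuous fun x : E2 => x + (ch b (pr2 x₀) - x₀) := by fun_prop
      have h3 : x₀ + (ch b (pr2 x₀) - x₀) ∈ (ch b).target := by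
        rw [add_sub_cancel]
        exact (ch b).map_source h
      exact hc.continuousAt.eventually_mem ((ch b).open_target.mem_nhds h3)
    filter_upwards [h2] with x hx
    have h4 : pr2 (x + (ch b (pr2 x₀) - x₀)) = pr2 x := by
      have h1 : pr2 (ch b (pr2 x₀)) = pr2 x₀ := by
        rw [← ch_symm b]
        exact (ch b).left_inv h
      rw [pr2_add, pr2_sub, h1, sub_self, add_zero]
    rw [← h4, ← ch_symm b]
    exact (ch b).right_inv hx

/-- maps with smooth lifts are smooth in charts -/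
theorem contDiffAt_lift (F : T2 → T2) (F' : E2 → E2) (hF : ∀ x, F (pr2 x) = pr2 (F' x))
    (x₀ : E2) (hF' : ContDiffAt ℝ ∞ F' x₀) (b : ℝ × ℝ) (h : F (pr2 x₀) ∈ (ch b).source) :
    ContDiffAt ℝ ∞ (fun x => ch b (F (pr2 x))) x₀ := by
  rw [hF] at h
  obtain ⟨n, -, hn⟩ := local_trans b (F' x₀) h
  have h1 : ∀ᶠ x in 𝓝 x₀, ch b (F (pr2 x)) = F' x + n := by
    have := hF'.continuousAt.eventually hn
    filter_upwards [this] with x hx
    rw [hF, hx]
  exact (hF'.add contDiffAt_const).congr_of_eventuallyEq h1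

theorem imT2 : @IsManifold ℝ _ E2 _ _ E2 _ (𝓡 2) ∞ T2 _ csT2 := by
  letI := csT2
  apply isManifold_of_contDiffOn
  rintro _ _ ⟨a, rfl⟩ ⟨b, rfl⟩
  have h2 : ContDiffOn ℝ ∞ (⇑((ch a).symm ≫ₕ ch b)) ((ch a).symm ≫ₕ ch b).source := by
    intro x hx
    have h3 : pr2 x ∈ (ch b).source := by
      have := hx.2
      rw [mem_preimage] at this
      exact this
    have := contDiffAt_lift id id (fun _ => rfl) x contDiffAt_id b h3
    exact this.contDiffWithinAt
  simpa using h2

theorem contMDiff_lift (F : T2 → T2) (hc : Continuous F) (F' : E2 → E2)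
    (hF : ∀ x, F (pr2 x) = pr2 (F' x)) (hF' : ContDiff ℝ ∞ F') :
    @ContMDiff ℝ _ E2 _ _ E2 _ (𝓡 2) T2 _ csT2 E2 _ _ E2 _ (𝓡 2) T2 _ csT2 ∞ F := by
  letI := csT2
  haveI := imT2
  intro p
  rw [contMDiffAt_iff]
  refine ⟨hc.continuousAt, ?_⟩
  have h5 : ContDiffAt ℝ ∞ (fun x => ch (exists_ch (F p)).choose (F (pr2 x)))
      (ch (exists_ch p).choose p) := by
    apply contDiffAt_lift F F' hF _ hF'.contDiffAt
    have h6 : pr2 (ch (exists_ch p).choose p) = p := by
      rw [← ch_symm (exists_ch p).choose]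
      exact (ch _).left_inv (exists_ch p).choose_spec
    rw [h6]
    exact (exists_ch (F p)).choose_spec
  exact h5.contDiffWithinAt

end Pool.Agent.H453R3
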