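import Pool.Agent.H453R3.Circ
import Pool.Agent.H453R3.Torus

/-!
# Smoothness of the cocycles and the diffeomorphisms
-/

set_option autoImplicit false

open Filter Topology MeasureTheory
open scoped Manifold ContDiff

namespace Pool.Agent.H453R3

/-- lifted terms -/
noncomputable def tm (l a θ : ℝ) (t : ℝ) : ℝ := l * (Real.cos (a * t + θ) - Real.cos (a * t))

theorem D_coe (k : ℕ) (t : ℝ) : D k 1 (t : UnitAddCircle) =
    Real.cos ((2 * Real.pi * 2 ^ ee k) * t + 2 * Real.pi * th k) -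
      Real.cos ((2 * Real.pi * 2 ^ ee k) * t) := by
  have h1 : Q k • (t : UnitAddCircle) = ((2 ^ ee k * t : ℝ) : UnitAddCircle) := by
    rw [← AddCircle.coe_nsmul, nsmul_eq_mul]
    unfold Q
    push_cast
    rfl
  unfold D
  rw [one_nsmul, nsmul_add, Q_A, h1, ← AddCircle.coe_add, w_coe, w_coe]
  congr 2 <;> ring

theorem hasDerivAt_cos_aff (a b t : ℝ) :
    HasDerivAt (fun t => Real.cos (a * t + b)) (a * Real.cos (a * t + b + Real.pi / 2)) t := by
  rw [Real.cos_add_pi_div_two]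
  have h1 : HasDerivAt (fun t => a * t + b) a t := by
    simpa using ((hasDerivAt_id t).const_mul a).add_const b
  have := h1.cos
  convert this using 1
  ring

theorem iter_tm (l a θ : ℝ) (n : ℕ) : iteratedDeriv n (tm l a θ) =
    fun t => l * a ^ n * (Real.cos (a * t + (θ + n * (Real.pi / 2))) -
      Real.cos (a * t + (n * (Real.pi / 2)))) := by
  induction n with
  | zero =>
    rw [iteratedDeriv_zero]
    unfold tm
    simp
  | succ n ih =>
    rw [iteratedDeriv_succ, ih]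
    funext t
    have h1 := ((hasDerivAt_cos_aff a (θ + n * (Real.pi / 2)) t).sub
      (hasDerivAt_cos_aff a (n * (Real.pi / 2)) t)).const_mul (l * a ^ n)
    have h2 := h1.deriv
    have h3 : deriv (fun t => l * a ^ n * (Real.cos (a * t + (θ + n * (Real.pi / 2))) -
      Real.cos (a * t + (n * (Real.pi / 2))))) t =
      l * a ^ n * (a * Real.cos (a * t + (θ + n * (Real.pi / 2)) + Real.pi / 2) -
        a * Real.cos (a * t + (n * (Real.pi / 2)) + Real.pi / 2)) := h2
    rw [h3]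
    have e1 : a * t + (θ + n * (Real.pi / 2)) + Real.pi / 2 =
      a * t + (θ + (n + 1 : ℕ) * (Real.pi / 2)) := by push_cast; ring
    have e2 : a * t + (n * (Real.pi / 2)) + Real.pi / 2 =
      a * t + ((n + 1 : ℕ) * (Real.pi / 2)) := by push_cast; ring
    rw [e1, e2]
    ring

theorem bound_tm (l a θ : ℝ) (hl : |l| ≤ 1) (n : ℕ) (t : ℝ) :
    ‖iteratedFDeriv ℝ n (tm l a θ) t‖ ≤ |a| ^ n * |θ| := by
  rw [norm_iteratedFDeriv_eq_norm_iteratedDeriv, iter_tm, Real.norm_eq_abs, abs_mul, abs_mul,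
    abs_pow]
  have h1 := Real.abs_cos_sub_cos_le (a * t + (θ + n * (Real.pi / 2)))
    (a * t + (n * (Real.pi / 2)))
  rw [show a * t + (θ + n * (Real.pi / 2)) - (a * t + (n * (Real.pi / 2))) = θ by ring] at h1
  calc |l| * |a| ^ n * |Real.cos (a * t + (θ + n * (Real.pi / 2))) -
      Real.cos (a * t + (n * (Real.pi / 2)))| ≤ 1 * |a| ^ n * |θ| := by gcongr
    _ = _ := by ring

theorem contDiff_tm (l a θ : ℝ) : ContDiff ℝ ∞ (tm l a θ) := by
  unfold tm
  fun_prop

/-- the lifted cocycle -/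
noncomputable def phl (l : ℕ → ℝ) (t : ℝ) : ℝ :=
  ∑' k, tm (l k) (2 * Real.pi * 2 ^ ee k) (2 * Real.pi * th k) t

theorem phl_eq (l : ℕ → ℝ) (t : ℝ) : Ph l 1 (t : UnitAddCircle) = phl l t := by
  unfold Ph phl tm
  refine tsum_congr fun k => ?_
  rw [D_coe]

theorem summable_v (n : ℕ) : Summable fun k =>
    |2 * Real.pi * 2 ^ ee k| ^ n * |2 * Real.pi * th k| := by
  refine Summable.of_norm_bounded_eventually_nat
    (g := fun k => ((2 * Real.pi) ^ n * (4 * Real.pi)) * (1 / 2 : ℝ) ^ k) (summable_bd _) ?_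
  filter_upwards [eventually_ge_atTop n] with k hk
  have h1 := th_le k
  have h2 := th_pos k
  rw [Real.norm_eq_abs, abs_of_nonneg (by positivity), abs_of_pos (by positivity),
    abs_of_pos (by positivity)]
  have h3 : (2 : ℝ) ^ (n * ee k) * (1 / 2) ^ (ee (k + 1) - ee k) ≤ (1 / 2) ^ k := by
    have h4 : n * ee k ≤ k * ee k := Nat.mul_le_mul_right _ hk
    have h5 : ee (k + 1) = k * ee k + 3 * ee k := by rw [ee_succ]; ring
    have h6 := ee_two k
    rw [two_pow_mul' (by omega)]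
    exact half_pow_le _ _ (by omega)
  calc (2 * Real.pi * 2 ^ ee k) ^ n * (2 * Real.pi * th k)
      ≤ (2 * Real.pi * 2 ^ ee k) ^ n *
          (2 * Real.pi * (2 * (1 / 2) ^ (ee (k + 1) - ee k))) := by gcongr
    _ = ((2 * Real.pi) ^ n * (4 * Real.pi)) *
          ((2 : ℝ) ^ (n * ee k) * (1 / 2) ^ (ee (k + 1) - ee k)) := by
        rw [mul_pow, ← pow_mul, mul_comm (ee k) n]; ring
    _ ≤ _ := by gcongr

theorem contDiff_phl (l : ℕ → ℝ) (hl : ∀ k, |l k| ≤ 1) : ContDiff ℝ ∞ (phl l) := by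
  unfold phl
  exact contDiff_tsum (𝕜 := ℝ) (N := ⊤)
    (f := fun k => tm (l k) (2 * Real.pi * 2 ^ ee k) (2 * Real.pi * th k))
    (v := fun n k => |2 * Real.pi * 2 ^ ee k| ^ n * |2 * Real.pi * th k|)
    (fun k => contDiff_tm _ _ _) (fun n _ => summable_v n)
    (fun n k t _ => bound_tm _ _ _ (hl k) n t)

/-- the skew product -/
noncomputable def TT (l : ℕ → ℝ) (p : T2) : T2 := (p.1 + A, p.2 + ((Ph l 1 p.1 : ℝ) : UnitAddCircle))

/-- its inverse -/
noncomputable def TI (l : ℕ → ℝ) (p : T2) : T2 :=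
  (p.1 - A, p.2 - ((Ph l 1 (p.1 - A) : ℝ) : UnitAddCircle))

theorem TI_TT (l : ℕ → ℝ) (p : T2) : TI l (TT l p) = p := by
  unfold TI TT
  simp

theorem TT_TI (l : ℕ → ℝ) (p : T2) : TT l (TI l p) = p := by
  unfold TI TT
  simp

theorem continuous_TT (l : ℕ → ℝ) (hl : ∀ k, |l k| ≤ 1) : Continuous (TT l) := by
  unfold TT
  have := continuous_Ph l 1 hl 1
  refine (continuous_fst.add continuous_const).prodMk (continuous_snd.add ?_)
  exact (AddCircle.continuous_mk' 1).comp (this.comp continuous_fst)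

theorem continuous_TI (l : ℕ → ℝ) (hl : ∀ k, |l k| ≤ 1) : Continuous (TI l) := by
  unfold TI
  have := continuous_Ph l 1 hl 1
  refine (continuous_fst.sub continuous_const).prodMk (continuous_snd.sub ?_)
  exact (AddCircle.continuous_mk' 1).comp (this.comp (continuous_fst.sub continuous_const))

/-- lift of the skew product -/
noncomputable def TTl (l : ℕ → ℝ) (x : E2) : E2 := LL.symm (x 0 + al, x 1 + phl l (x 0))

/-- lift of the inverse -/
noncomputable def TIl (l : ℕ → ℝ) (x : E2) : E2 :=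
  LL.symm (x 0 - al, x 1 - phl l (x 0 - al))

theorem pr2_LLsymm (a b : ℝ) : pr2 (LL.symm (a, b)) = ((a : UnitAddCircle), (b : UnitAddCircle)) := by
  rw [pr2_eq, ContinuousLinearEquiv.apply_symm_apply]
  rfl

theorem TTl_lift (l : ℕ → ℝ) (x : E2) : TT l (pr2 x) = pr2 (TTl l x) := by
  unfold TTl
  rw [pr2_LLsymm]
  unfold TT pr2
  rw [phl_eq, AddCircle.coe_add, AddCircle.coe_add]
  rfl

theorem TIl_lift (l : ℕ → ℝ) (x : E2) : TI l (pr2 x) = pr2 (TIl l x) := by
  unfold TIl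
  rw [pr2_LLsymm]
  unfold TI pr2
  rw [AddCircle.coe_sub, AddCircle.coe_sub, ← phl_eq, AddCircle.coe_sub]
  rfl

theorem contDiff_coord (i : Fin 2) : ContDiff ℝ ∞ (fun x : E2 => x i) := by
  fun_prop

theorem contDiff_TTl (l : ℕ → ℝ) (hl : ∀ k, |l k| ≤ 1) : ContDiff ℝ ∞ (TTl l) := by
  unfold TTl
  refine LL.symm.contDiff.comp ?_
  exact ((contDiff_coord 0).add contDiff_const).prodMk
    ((contDiff_coord 1).add ((contDiff_phl l hl).comp (contDiff_coord 0)))

theorem contDiff_TIl (l : ℕ → ℝ) (hl : ∀ k, |l k| ≤ 1) : ContDiff ℝ ∞ (TIl l) := by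
  unfold TIl
  refine LL.symm.contDiff.comp ?_
  exact ((contDiff_coord 0).sub contDiff_const).prodMk
    ((contDiff_coord 1).sub ((contDiff_phl l hl).comp ((contDiff_coord 0).sub contDiff_const)))

/-- the diffeomorphism -/
noncomputable def TD (l : ℕ → ℝ) (hl : ∀ k, |l k| ≤ 1) :
    @Diffeomorph ℝ _ E2 _ _ E2 _ _ E2 _ E2 _ (𝓡 2) (𝓡 2) T2 _ csT2 T2 _ csT2 ∞ :=
  letI := csT2
  { toFun := TT l
    invFun := TI l
    left_inv := TI_TT l
    right_inv := TT_TI l
    contMDiff_toFun := contMDiff_lift (TT l) (continuous_TT l hl) (TTl l) (TTl_lift l)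
      (contDiff_TTl l hl)
    contMDiff_invFun := contMDiff_lift (TI l) (continuous_TI l hl) (TIl l) (TIl_lift l)
      (contDiff_TIl l hl) }

end Pool.Agent.H453R3
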