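import Pool.Agent.H453R3.Near
import Pool.Agent.H453R3.Smooth

/-!
# Ergodicity of the skew products
-/

set_option autoImplicit false

open Filter Topology MeasureTheory

namespace Pool.Agent.H453R3

instance instProbCircle : IsProbabilityMeasure (volume : Measure UnitAddCircle) :=
  ⟨UnitAddCircle.measure_univ⟩

theorem TT_iter (l : ℕ → ℝ) (hl : ∀ k, |l k| ≤ 1) (m : ℕ) (p : T2) :
    (TT l)^[m] p = (p.1 + m • A, p.2 + ((Ph l m p.1 : ℝ) : UnitAddCircle)) := by
  induction m with
  | zero =>
    rw [Ph_zero]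
    simp
  | succ m ih =>
    rw [Function.iterate_succ_apply', ih]
    unfold TT
    rw [Ph_succ l 1 hl m p.1, AddCircle.coe_add, succ_nsmul]
    simp only [add_assoc]

/-- skew translations preserve the measure -/
theorem mp_skew (a : UnitAddCircle) (g : UnitAddCircle → ℝ) (hg : Continuous g) :
    MeasurePreserving (fun p : T2 => (p.1 + a, p.2 + ((g p.1 : ℝ) : UnitAddCircle)))
      (volume : Measure T2) volume := by
  have h1 : MeasurePreserving (fun x : UnitAddCircle => x + a) volume volume :=
    measurePreserving_add_right volume a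
  have hc : Continuous fun x : UnitAddCircle => ((g x : ℝ) : UnitAddCircle) :=
    (AddCircle.continuous_mk' 1).comp hg
  have h2 := h1.skew_product (μc := (volume : Measure UnitAddCircle))
    (μd := (volume : Measure UnitAddCircle))
    (g := fun x y => y + ((g x : ℝ) : UnitAddCircle))
    (continuous_snd.add (hc.comp continuous_fst)).measurable
    (Filter.Eventually.of_forall fun x => (measurePreserving_add_right volume _).map_eq)
  exact h2

theorem mp_TT (l : ℕ → ℝ) (hl : ∀ k, |l k| ≤ 1) : MeasurePreserving (TT l)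
    (volume : Measure T2) volume :=
  mp_skew A (Ph l 1) (continuous_Ph l 1 hl 1)

theorem vol_haar : (volume : Measure UnitAddCircle) = AddCircle.haarAddCircle := by
  rw [AddCircle.volume_eq_smul_haarAddCircle, ENNReal.ofReal_one, one_smul]

theorem const_of_coeff (f : UnitAddCircle → ℂ) (hf : MemLp f 2 (volume : Measure UnitAddCircle))
    (h0 : ∀ m : ℤ, m ≠ 0 → ∫ y, ec (-m) y * f y = 0) :
    ∀ᵐ y : UnitAddCircle, f y = ∫ z, ec 0 z * f z := by
  rw [vol_haar] at hf h0 ⊢
  have hL := hasSum_fourier_series_L2 (T := 1) (hf.toLp f)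
  have hc : ∀ m : ℤ, fourierCoeff (hf.toLp f) m =
      ∫ y, ec (-m) y * f y ∂AddCircle.haarAddCircle := by
    intro m
    unfold fourierCoeff
    refine integral_congr_ae ?_
    filter_upwards [hf.coeFn_toLp] with y hy
    rw [hy, smul_eq_mul, fourier_apply]
    rfl
  have h1 : HasSum (fun i => fourierCoeff (hf.toLp f) i • fourierLp (T := 1) 2 i)
      (fourierCoeff (hf.toLp f) 0 • fourierLp (T := 1) 2 0) := by
    refine hasSum_single 0 fun m hm => ?_
    rw [hc m, h0 m hm, zero_smul]
  have h2 := hL.unique h1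
  have h3 := coeFn_fourierLp (T := 1) 2 0
  have h4 := Lp.coeFn_smul (fourierCoeff (hf.toLp f) 0) (fourierLp (T := 1) 2 0)
  filter_upwards [hf.coeFn_toLp, h3, h4] with y h5 h6 h7
  rw [← h5, h2, h7, Pi.smul_apply, h6, hc 0]
  simp

/-- indicator of a set as a complex function -/
noncomputable def hh (s : Set T2) (p : T2) : ℂ := s.indicator (fun _ => (1 : ℂ)) p

theorem norm_hh_le (s : Set T2) (p : T2) : ‖hh s p‖ ≤ 1 := by
  unfold hh
  by_cases h : p ∈ s
  · simp [h]
  · simp [h]

theorem measurable_hh (s : Set T2) (hs : MeasurableSet s) : Measurable (hh s) :=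
  measurable_const.indicator hs

/-- fibrewise Fourier coefficients -/
noncomputable def GG (s : Set T2) (m : ℤ) (x : UnitAddCircle) : ℂ :=
  ∫ y : UnitAddCircle, ec (-m) y * hh s (x, y)

theorem sm_GG (s : Set T2) (hs : MeasurableSet s) (m : ℤ) : StronglyMeasurable (GG s m) := by
  unfold GG
  have h1 : Measurable fun p : T2 => ec (-m) p.2 * hh s p :=
    ((continuous_ec (-m)).measurable.comp measurable_snd).mul (measurable_hh s hs)
  exact h1.stronglyMeasurable.integral_prod_right'
    (f := fun p : UnitAddCircle × UnitAddCircle => ec (-m) p.2 * hh s p)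

theorem norm_GG_le (s : Set T2) (m : ℤ) (x : UnitAddCircle) : ‖GG s m x‖ ≤ 1 := by
  unfold GG
  have h1 := norm_integral_le_of_norm_le_const (μ := (volume : Measure UnitAddCircle))
    (f := fun y => ec (-m) y * hh s (x, y)) (C := 1)
    (Filter.Eventually.of_forall fun y => by
      rw [norm_mul, norm_ec, one_mul]; exact norm_hh_le s _)
  simpa using h1

theorem GG_rot (l : ℕ → ℝ) (hl : ∀ k, |l k| ≤ 1) (s : Set T2) (hs : TT l ⁻¹' s = s) (m : ℤ)
    (n : ℕ) (x : UnitAddCircle) :
    GG s m (x + n • A) = ec (-m) ((Ph l n x : ℝ) : UnitAddCircle) * GG s m x := by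
  have hsn : ((TT l)^[n]) ⁻¹' s = s := by
    induction n with
    | zero => rfl
    | succ n ih => rw [Function.iterate_succ, Set.preimage_comp, ih, hs]
  have h1 : ∀ p, hh s ((TT l)^[n] p) = hh s p := by
    intro p
    unfold hh
    have h2 : (TT l)^[n] p ∈ s ↔ p ∈ s := by
      conv_rhs => rw [← hsn]
      rfl
    by_cases h : p ∈ s
    · simp [h, h2.2 h]
    · have h3 : (TT l)^[n] p ∉ s := fun h4 => h (h2.1 h4)
      simp [h, h3]
  have h2 : ∀ y, hh s (x + n • A, y + ((Ph l n x : ℝ) : UnitAddCircle)) = hh s (x, y) := by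
    intro y
    have := h1 (x, y)
    rwa [TT_iter l hl] at this
  unfold GG
  rw [← integral_add_right_eq_self (μ := (volume : Measure UnitAddCircle))
    (fun y => ec (-m) y * hh s (x + n • A, y)) ((Ph l n x : ℝ) : UnitAddCircle),
    ← integral_const_mul]
  refine integral_congr_ae (Filter.Eventually.of_forall fun y => ?_)
  show ec (-m) (y + ((Ph l n x : ℝ) : UnitAddCircle)) *
    hh s (x + n • A, y + ((Ph l n x : ℝ) : UnitAddCircle)) = _
  rw [h2, ec_add]
  ring

theorem rot_erg : Ergodic (fun x : UnitAddCircle => x + A) volume :=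
  AddCircle.ergodic_add_right.2 order_A

theorem GG_ae_zero (l : ℕ → ℝ) (hl : ∀ k, |l k| ≤ 1) (he : ∀ n, l (2 * n) = 1)
    (s : Set T2) (hsm : MeasurableSet s) (hs : TT l ⁻¹' s = s) (m : ℤ) (hm : m ≠ 0) :
    ∀ᵐ x : UnitAddCircle, GG s m x = 0 := by
  -- the modulus is constant
  have h1 : (fun x => ‖GG s m x‖) ∘ (fun x : UnitAddCircle => x + A)
      =ᵐ[volume] fun x => ‖GG s m x‖ := by
    refine Filter.Eventually.of_forall fun x => ?_
    have h2 := GG_rot l hl s hs m 1 x
    rw [one_nsmul] at h2
    show ‖GG s m (x + A)‖ = ‖GG s m x‖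
    rw [h2, norm_mul, norm_ec, one_mul]
  obtain ⟨C, hC⟩ := rot_erg.quasiErgodic.ae_eq_const_of_ae_eq_comp_ae
    (sm_GG s hsm m).norm.aestronglyMeasurable h1
  have hC' : ∀ᵐ x : UnitAddCircle, ‖GG s m x‖ = C := hC
  have hC0 : 0 ≤ C := by
    obtain ⟨x, hx⟩ := hC'.exists
    rw [← hx]; exact norm_nonneg _
  -- integrability
  have hint : Integrable (GG s m) (volume : Measure UnitAddCircle) :=
    (integrable_const (1 : ℝ)).mono' (sm_GG s hsm m).aestronglyMeasurable
      (Filter.Eventually.of_forall fun x => norm_GG_le s m x)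
  -- near identity
  have hlim := near_id (volume : Measure UnitAddCircle) (fun n x => x + q (2 * n) • A)
    (fun n => measurePreserving_add_right volume _) (fun n => (1 / 2 : ℝ) ^ ee (2 * n))
    (by
      refine squeeze_zero (fun n => by positivity) (fun n => half_pow_le n _ ?_)
        (tendsto_pow_atTop_nhds_zero_of_lt_one (by norm_num) (by norm_num))
      have := ee_two (2 * n); omega)
    (fun n x => by
      rw [dist_eq_norm, add_sub_cancel_left]
      exact norm_q_A _) (GG s m) hint
  -- lower bound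
  have hlow : ∀ n : ℕ, C * (kap (-m) - 2 * Real.pi * |((-m : ℤ) : ℝ)| *
      (4 * Real.pi * (1 / 2) ^ (2 * n) + 2 * |1 - l (2 * n)|)) ≤
      ∫ x : UnitAddCircle, ‖GG s m (x + q (2 * n) • A) - GG s m x‖ := by
    intro n
    have h3 : ∫ x : UnitAddCircle, ‖GG s m (x + q (2 * n) • A) - GG s m x‖ =
        ∫ x : UnitAddCircle,
          C * ‖ec (-m) ((Ph l (q (2 * n)) x : ℝ) : UnitAddCircle) - 1‖ := by
      refine integral_congr_ae ?_
      filter_upwards [hC'] with x hx
      rw [GG_rot l hl s hs m]
      rw [show ec (-m) ((Ph l (q (2 * n)) x : ℝ) : UnitAddCircle) * GG s m x - GG s m x =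
        (ec (-m) ((Ph l (q (2 * n)) x : ℝ) : UnitAddCircle) - 1) * GG s m x by ring]
      rw [norm_mul, hx, mul_comm]
    rw [h3, integral_const_mul]
    exact mul_le_mul_of_nonneg_left (lower l hl (-m) (2 * n)) hC0
  have hlim2 : Tendsto (fun n : ℕ => C * (kap (-m) - 2 * Real.pi * |((-m : ℤ) : ℝ)| *
      (4 * Real.pi * (1 / 2) ^ (2 * n) + 2 * |1 - l (2 * n)|))) atTop
      (𝓝 (C * (kap (-m) - 2 * Real.pi * |((-m : ℤ) : ℝ)| * (4 * Real.pi * 0 + 2 * |1 - 1|)))) := by
    have h4 : Tendsto (fun n : ℕ => (1 / 2 : ℝ) ^ (2 * n)) atTop (𝓝 0) := by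
      refine squeeze_zero (fun n => by positivity) (fun n => half_pow_le n _ (by omega))
        (tendsto_pow_atTop_nhds_zero_of_lt_one (by norm_num) (by norm_num))
    simp only [he]
    exact (tendsto_const_nhds.sub (((h4.const_mul _).add tendsto_const_nhds).const_mul _)).const_mul _
  have h5 := le_of_tendsto_of_tendsto' hlim2 hlim hlow
  simp only [mul_zero, sub_self, abs_zero, add_zero, sub_zero] at h5
  have h6 := kap_pos (-m) (neg_ne_zero.2 hm)
  have h7 : C = 0 := by
    by_contra hne
    have : 0 < C := lt_of_le_of_ne hC0 (Ne.symm hne)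
    have := mul_pos this h6
    linarith
  filter_upwards [hC'] with x hx
  rw [h7] at hx
  exact norm_eq_zero.1 hx

theorem ergodic_TT (l : ℕ → ℝ) (hl : ∀ k, |l k| ≤ 1) (he : ∀ n, l (2 * n) = 1) :
    Ergodic (TT l) (volume : Measure T2) := by
  refine { toMeasurePreserving := mp_TT l hl, aeconst_set := ?_ }
  intro s hsm hs
  have h1 : ∀ᵐ x : UnitAddCircle, ∀ m : ℤ, m ≠ 0 → GG s m x = 0 := by
    rw [ae_all_iff]
    intro m
    by_cases hm : m = 0
    · exact Filter.Eventually.of_forall fun x h => absurd hm h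
    · filter_upwards [GG_ae_zero l hl he s hsm hs m hm] with x hx _
      exact hx
  -- the zeroth coefficient is constant
  have h2 : (GG s 0) ∘ (fun x : UnitAddCircle => x + A) =ᵐ[volume] GG s 0 := by
    refine Filter.Eventually.of_forall fun x => ?_
    have h2 := GG_rot l hl s hs 0 1 x
    rw [one_nsmul, neg_zero, ec_zero, one_mul] at h2
    exact h2
  obtain ⟨c, hc⟩ := rot_erg.quasiErgodic.ae_eq_const_of_ae_eq_comp_ae
    (sm_GG s hsm 0).aestronglyMeasurable h2
  have hc' : ∀ᵐ x : UnitAddCircle, GG s 0 x = c := hc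
  have h3 : ∀ᵐ x : UnitAddCircle, ∀ᵐ y : UnitAddCircle, hh s (x, y) = c := by
    filter_upwards [h1, hc'] with x hx hx0
    have hm : Measurable fun y => hh s (x, y) := (measurable_hh s hsm).comp measurable_prodMk_left
    have hL : MemLp (fun y => hh s (x, y)) 2 (volume : Measure UnitAddCircle) :=
      MemLp.of_bound hm.aestronglyMeasurable 1
        (Filter.Eventually.of_forall fun y => norm_hh_le s _)
    have h4 := const_of_coeff (fun y => hh s (x, y)) hL (fun m hm => hx m hm)
    have h5 : (∫ z, ec 0 z * hh s (x, z)) = c := by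
      rw [← hx0]
      unfold GG
      rw [neg_zero]
    filter_upwards [h4] with y hy
    rw [hy, h5]
  have h4 : ∀ᵐ p : T2, hh s p = c := by
    have hms : MeasurableSet {p : T2 | hh s p = c} :=
      measurable_hh s hsm (measurableSet_singleton c)
    exact (Measure.ae_prod_iff_ae_ae (μ := (volume : Measure UnitAddCircle))
      (ν := (volume : Measure UnitAddCircle)) hms).2 h3
  rw [eventuallyConst_set]
  by_cases hc1 : c = 1
  · left
    filter_upwards [h4] with p hp
    by_contra hps
    rw [hc1] at hp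
    unfold hh at hp
    simp [hps] at hp
  · right
    filter_upwards [h4] with p hp hps
    apply hc1
    rw [← hp]
    unfold hh
    simp [hps]

end Pool.Agent.H453R3
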