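import Pool.Agent.H453R3.Torus

/-!
# Lebesgue measure of the torus in the charts
-/

set_option autoImplicit false

open MeasureTheory Set Filter Topology
open scoped Manifold ContDiff

namespace Pool.Agent.H453R3

theorem mp_prr (a : ℝ × ℝ) : MeasurePreserving prr
    ((volume : Measure (ℝ × ℝ)).restrict (Ioc a.1 (a.1 + 1) ×ˢ Ioc a.2 (a.2 + 1)))
    (volume : Measure T2) := by
  have h1 := (UnitAddCircle.measurePreserving_mk a.1).prod (UnitAddCircle.measurePreserving_mk a.2)
  rw [Measure.prod_restrict] at h1
  exact h1

theorem mp_LL : MeasurePreserving LL (volume : Measure E2) (volume : Measure (ℝ × ℝ)) := by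
  have h1 := EuclideanSpace.volume_preserving_symm_measurableEquiv_toLp (Fin 2)
  have h2 := volume_preserving_finTwoArrow ℝ
  exact h2.comp h1

theorem map_ch (a : ℝ × ℝ) :
    Measure.map (ch a) ((volume : Measure T2).restrict (ch a).source) =
      (volume : Measure E2).restrict (ch a).target := by
  have hmt : MeasurableSet (ch a).target := (ch a).open_target.measurableSet
  have hms : MeasurableSet (ch a).source := (ch a).open_source.measurableSet
  -- the box
  have hbox : (ch a).target = LL ⁻¹' (Ioo a.1 (a.1 + 1) ×ˢ Ioo a.2 (a.2 + 1)) := by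
    rw [ch_target]
    ext x
    simp [LL_apply]
  have h1 : MeasurePreserving pr2 ((volume : Measure E2).restrict (ch a).target)
      (volume : Measure T2) := by
    have h2 : MeasurePreserving LL ((volume : Measure E2).restrict (ch a).target)
        ((volume : Measure (ℝ × ℝ)).restrict (Ioo a.1 (a.1 + 1) ×ˢ Ioo a.2 (a.2 + 1))) := by
      rw [hbox]
      exact mp_LL.restrict_preimage (measurableSet_Ioo.prod measurableSet_Ioo)
    have h3 : (volume : Measure (ℝ × ℝ)).restrict (Ioo a.1 (a.1 + 1) ×ˢ Ioo a.2 (a.2 + 1)) =
        (volume : Measure (ℝ × ℝ)).restrict (Ioc a.1 (a.1 + 1) ×ˢ Ioc a.2 (a.2 + 1)) := by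
      apply Measure.restrict_congr_set
      exact Measure.set_prod_ae_eq Ioo_ae_eq_Ioc Ioo_ae_eq_Ioc
    rw [h3] at h2
    exact (mp_prr a).comp h2
  have hsrc : (volume : Measure T2).restrict (ch a).source = volume := by
    rw [Measure.restrict_eq_self_of_ae_mem]
    have h4 : ∀ᵐ p ∂(volume : Measure T2), p ∈ (ch a).source := by
      have h6 : ∀ᵐ x ∂((volume : Measure E2).restrict (ch a).target), pr2 x ∈ (ch a).source := by
        filter_upwards [ae_restrict_mem hmt] with x hx
        rw [← ch_symm a]
        exact (ch a).map_target hx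
      have h7 := (ae_map_iff (p := fun p => p ∈ (ch a).source)
        continuous_pr2.measurable.aemeasurable hms).2 h6
      rwa [h1.map_eq] at h7
    exact h4
  have hae : AEMeasurable (ch a) (volume : Measure T2) := by
    rw [← hsrc]
    exact (ch a).continuousOn.aemeasurable hms
  rw [hsrc]
  have hae2 : AEMeasurable (ch a) (Measure.map pr2 ((volume : Measure E2).restrict (ch a).target)) := by
    rw [h1.map_eq]; exact hae
  conv_lhs => rw [← h1.map_eq]
  rw [AEMeasurable.map_map_of_aemeasurable hae2 continuous_pr2.measurable.aemeasurable]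
  have h5 : (ch a ∘ pr2) =ᵐ[(volume : Measure E2).restrict (ch a).target] id := by
    filter_upwards [ae_restrict_mem hmt] with x hx
    simp only [Function.comp, id]
    rw [← ch_symm a]
    exact (ch a).right_inv hx
  rw [Measure.map_congr h5, Measure.map_id]

theorem dens : ∀ e ∈ range ch, ∃ ρ : E2 → ℝ,
    ContDiffOn ℝ ∞ ρ e.target ∧ (∀ y ∈ e.target, 0 < ρ y) ∧
      Measure.map (⇑e) ((volume : Measure T2).restrict e.source) =
        ((volume : Measure E2).withDensity (fun y => ENNReal.ofReal (ρ y))).restrict e.target := by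
  rintro _ ⟨a, rfl⟩
  refine ⟨fun _ => 1, contDiffOn_const, fun _ _ => one_pos, ?_⟩
  rw [map_ch]
  simp

end Pool.Agent.H453R3
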