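import Pool.Agent.H453R3.IsoNon
import Pool.Agent.H453R3.TorusMeas
import Pool.Agent.H468R2.MA.P_T_BF
import Pool.Agent.H468R2.MA.P_T_C
import Pool.Agent.H468R2.MA.P_T_CH
import Pool.Agent.H468R2.MA.P_T_GEN
import Pool.Agent.H468R2.MA.P_T_LOC
import Pool.Agent.H468R2.MA.P_T_LOC1
import Pool.Agent.H468R2.MA.P_T_SC

/-!
# Turbulence argument
-/

set_option autoImplicit false

open Filter Topology MeasureTheory
open Pool.Agent.H468R2.MA (RS Iso Hm Gen t_T_ERG t_T_C t_T_SC t_T_LOC t_T_LOC1 t_T_CH t_T_GEN)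
open scoped Manifold ContDiff

namespace Pool.Agent.H453R3

theorem turb_false (f : (ℕ → ℝ) → (ℕ → ℕ → Bool)) (hf : Measurable f)
    (hinv : ∀ x y : ℕ → ℝ, Summable (fun n => |x n - y n|) →
      ∃ σ : Equiv.Perm ℕ, ∀ i j, f x i j = f y (σ i) (σ j))
    (hgen : ∀ x y : ℕ → ℝ, Gen x y → ¬ ∃ σ : Equiv.Perm ℕ, ∀ i j, f x i j = f y (σ i) (σ j)) :
    False := by
  have hE := t_T_ERG (t_T_C t_T_SC (t_T_LOC t_T_SC (t_T_LOC1 t_T_SC))) t_T_CH
  let F : (ℕ → ℝ) → RS Unit (fun _ => 2) := fun x _ a => f x (a 0) (a 1) = true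
  have hF : Hm F := by
    constructor
    · intro r a
      have h1 : Measurable fun x => f x (a 0) (a 1) :=
        (measurable_pi_apply (a 1)).comp ((measurable_pi_apply (a 0)).comp hf)
      exact h1 (measurableSet_singleton true)
    · intro x y hxy
      obtain ⟨σ, hσ⟩ := hinv x y hxy
      refine ⟨σ, fun r a => ?_⟩
      show f y (σ (a 0)) (σ (a 1)) = true ↔ f x (a 0) (a 1) = true
      rw [hσ]
  obtain ⟨C, hC, hC'⟩ := hE Unit (fun _ => 2) F hF
  obtain ⟨x, hx, y, hy, hxy⟩ := t_T_GEN C hC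
  obtain ⟨σ, hσ⟩ := hC' x hx y hy
  refine hgen x y hxy ⟨σ, fun i j => ?_⟩
  have h1 := hσ () ![i, j]
  have h2 : f y (σ i) (σ j) = true ↔ f x i j = true := h1
  exact (Bool.eq_iff_iff.2 h2).symm

/-- measurability of the evaluation -/
theorem measurable_TT (p : T2) : Measurable fun c : ℕ → ℝ => TT (lam c) p := by
  have h1 : Continuous fun c : ℕ → ℝ => Ph (lam c) 1 p.1 := by
    unfold Ph
    refine continuous_tsum (fun k => (continuous_lam k).mul continuous_const)
      (summable_bd (1 * (2 * Real.pi * (1 : ℕ)))) fun k c => ?_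
    exact abs_term_le (lam c) 1 (abs_lam_le c) k 1 p.1
  have h2 : Continuous fun c : ℕ → ℝ => TT (lam c) p := by
    unfold TT
    exact continuous_const.prodMk (continuous_const.add ((AddCircle.continuous_mk' 1).comp h1))
  exact h2.measurable

theorem not_iso_of_gen (x y : ℕ → ℝ) (h : Gen x y) (φ : T2 → T2)
    (hφ : MeasurePreserving φ (volume : Measure T2) volume)
    (hi : φ ∘ TT (lam x) =ᵐ[volume] TT (lam y) ∘ φ) : False := by
  choose kk hk h1 h2 using h
  have hz : Tendsto (fun n : ℕ => 1 / ((n : ℝ) + 1)) atTop (𝓝 0) :=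
    tendsto_one_div_add_atTop_nhds_zero_nat
  refine not_iso (lam x) (lam y) (abs_lam_le x) (abs_lam_le y) (fun n => 2 * kk n + 1)
    (fun n => by have := hk n; omega) ?_ ?_ φ hφ hi
  · refine squeeze_zero (fun n => abs_nonneg _) (fun n => ?_) hz
    rw [lam_odd]
    have h3 := Real.abs_cos_sub_cos_le 0 (x (kk n))
    rw [Real.cos_zero, zero_sub, abs_neg] at h3
    rw [abs_div, abs_two]
    have h4 := h1 n
    have h5 := abs_nonneg (x (kk n))
    linarith
  · refine squeeze_zero (fun n => abs_nonneg _) (fun n => ?_) hz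
    rw [lam_odd]
    have h3 := Real.abs_cos_sub_cos_le (y (kk n)) Real.pi
    rw [Real.cos_pi] at h3
    rw [show 1 - (1 - Real.cos (y (kk n))) / 2 = (Real.cos (y (kk n)) - -1) / 2 by ring,
      abs_div, abs_two]
    have h4 := h2 n
    have h5 := abs_nonneg (y (kk n) - Real.pi)
    linarith

end Pool.Agent.H453R3
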