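import Mathlib

/-!
# Binary relations coded into simple graphs
-/

set_option autoImplicit false

open Set MeasureTheory

namespace Pool.Agent.H453R3.TC

/-- vertices: points, and two vertices for each ordered pair -/
abbrev VV : Type := ℕ ⊕ ((ℕ × ℕ) ⊕ (ℕ × ℕ))

/-- adjacency -/
def adj (R : ℕ → ℕ → Bool) : VV → VV → Prop
  | Sum.inl _, Sum.inl _ => False
  | Sum.inl a, Sum.inr (Sum.inl p) => a = p.1 ∨ (a = p.2 ∧ R p.1 p.2 = true)
  | Sum.inl a, Sum.inr (Sum.inr p) => a = p.2 ∧ (p.1 ≠ p.2 ∨ R p.1 p.2 = true)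
  | Sum.inr (Sum.inl p), Sum.inl a => a = p.1 ∨ (a = p.2 ∧ R p.1 p.2 = true)
  | Sum.inr (Sum.inl _), Sum.inr (Sum.inl _) => False
  | Sum.inr (Sum.inl p), Sum.inr (Sum.inr p') => p = p'
  | Sum.inr (Sum.inr p), Sum.inl a => a = p.2 ∧ (p.1 ≠ p.2 ∨ R p.1 p.2 = true)
  | Sum.inr (Sum.inr p'), Sum.inr (Sum.inl p) => p = p'
  | Sum.inr (Sum.inr _), Sum.inr (Sum.inr _) => False

theorem adj_symm (R : ℕ → ℕ → Bool) (x y : VV) (h : adj R x y) : adj R y x := by
  rcases x with a | p | p <;> rcases y with b | q | q <;> exact h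

theorem adj_irrefl (R : ℕ → ℕ → Bool) (x : VV) : ¬ adj R x x := by
  rcases x with a | p | p <;> exact id

/-- infinite degree -/
theorem inf_deg (R : ℕ → ℕ → Bool) (x : VV) : {y | adj R x y}.Infinite ↔ ∃ a, x = Sum.inl a := by
  constructor
  · intro h
    rcases x with a | p | p
    · exact ⟨a, rfl⟩
    · exfalso
      apply h
      refine (Set.toFinite ({Sum.inl p.1, Sum.inl p.2, Sum.inr (Sum.inr p)} : Set VV)).subset ?_
      rintro (b | q | q) hy
      · have hy' : b = p.1 ∨ (b = p.2 ∧ R p.1 p.2 = true) := hy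
        rcases hy' with h1 | h1
        · rw [h1]; simp
        · rw [h1.1]; simp
      · exact absurd hy id
      · have hy' : p = q := hy
        rw [hy']; simp
    · exfalso
      apply h
      refine (Set.toFinite ({Sum.inl p.2, Sum.inr (Sum.inl p)} : Set VV)).subset ?_
      rintro (b | q | q) hy
      · have hy' : b = p.2 ∧ (p.1 ≠ p.2 ∨ R p.1 p.2 = true) := hy
        rw [hy'.1]; simp
      · have hy' : q = p := hy
        rw [hy']; simp
      · exact absurd hy id
  · rintro ⟨a, rfl⟩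
    have h1 : Function.Injective fun b : ℕ => (Sum.inr (Sum.inl (a, b)) : VV) := by
      intro b b' h
      simpa using h
    refine (Set.infinite_range_of_injective h1).mono ?_
    rintro _ ⟨b, rfl⟩
    exact Or.inl rfl

/-- the formula recovering the relation -/
def Phi (R : ℕ → ℕ → Bool) (a b : ℕ) : Prop :=
  ∃ x y : VV, (∀ c, x ≠ Sum.inl c) ∧ (∀ c, y ≠ Sum.inl c) ∧ adj R x y ∧
    adj R x (Sum.inl a) ∧ adj R x (Sum.inl b) ∧ adj R y (Sum.inl b) ∧
    (∀ c, adj R x (Sum.inl c) → c = a ∨ c = b) ∧ (∀ c, adj R y (Sum.inl c) → c = b)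

theorem phi_iff (R : ℕ → ℕ → Bool) (a b : ℕ) : Phi R a b ↔ R a b = true := by
  constructor
  · rintro ⟨x, y, hx, hy, h1, h2, h3, h4, h5, h6⟩
    rcases x with a' | p | p
    · exact absurd rfl (hx a')
    · rcases y with b' | q | q
      · exact absurd rfl (hy b')
      · exact absurd h1 id
      · have e : p = q := h1
        subst e
        obtain ⟨c, d⟩ := p
        have k4 : b = d ∧ (c ≠ d ∨ R c d = true) := h4
        have k2 : a = c ∨ (a = d ∧ R c d = true) := h2
        have k3 : b = c ∨ (b = d ∧ R c d = true) := h3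
        have k5 : c = a ∨ c = b := h5 c (Or.inl rfl)
        have hac : a = c := by
          rcases k5 with h7 | h7
          · exact h7.symm
          · rcases k2 with h8 | h8
            · exact h8
            · rw [h8.1, h7, k4.1]
        have hR : R c d = true := by
          rcases k3 with h7 | h7
          · rcases k4.2 with h8 | h8
            · exact absurd (h7.symm.trans k4.1) h8
            · exact h8
          · exact h7.2
        rw [hac, k4.1]
        exact hR
    · rcases y with b' | q | q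
      · exact absurd rfl (hy b')
      · have e : q = p := h1
        subst e
        obtain ⟨c, d⟩ := q
        have k2 : a = d ∧ (c ≠ d ∨ R c d = true) := h2
        have k3 : b = d ∧ (c ≠ d ∨ R c d = true) := h3
        have k6 : c = b := h6 c (Or.inl rfl)
        rw [k2.1, k3.1]
        rcases k2.2 with h7 | h7
        · exact absurd (k6.trans k3.1) h7
        · rw [k6, k3.1] at h7
          exact h7
      · exact absurd h1 id
  · intro h
    refine ⟨Sum.inr (Sum.inl (a, b)), Sum.inr (Sum.inr (a, b)), fun c => by simp,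
      fun c => by simp, rfl, Or.inl rfl, Or.inr ⟨rfl, h⟩, ⟨rfl, Or.inr h⟩, fun c hc => ?_,
      fun c hc => ?_⟩
    · have hc' : c = a ∨ (c = b ∧ R a b = true) := hc
      rcases hc' with h1 | h1
      · exact Or.inl h1
      · exact Or.inr h1.1
    · have hc' : c = b ∧ (a ≠ b ∨ R a b = true) := hc
      exact hc'.1

theorem adj_of_iso (R R' : ℕ → ℕ → Bool) (σ : Equiv.Perm ℕ)
    (hσ : ∀ i j, R i j = R' (σ i) (σ j)) :
    ∃ φ : VV ≃ VV, ∀ x y, adj R x y ↔ adj R' (φ x) (φ y) := by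
  refine ⟨Equiv.sumCongr σ (Equiv.sumCongr (Equiv.prodCongr σ σ) (Equiv.prodCongr σ σ)), ?_⟩
  have e : ∀ i j : ℕ, i = j ↔ σ i = σ j := fun i j => σ.injective.eq_iff.symm
  have e2 : ∀ p p' : ℕ × ℕ, p = p' ↔ (σ p.1, σ p.2) = (σ p'.1, σ p'.2) := by
    intro p p'
    rw [Prod.ext_iff, Prod.ext_iff]
    exact and_congr (e _ _) (e _ _)
  have c1 : ∀ (a : ℕ) (p : ℕ × ℕ), (a = p.1 ∨ (a = p.2 ∧ R p.1 p.2 = true)) ↔
      (σ a = σ p.1 ∨ (σ a = σ p.2 ∧ R' (σ p.1) (σ p.2) = true)) := by
    intro a p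
    rw [← e, ← e, ← hσ]
  have c2 : ∀ (a : ℕ) (p : ℕ × ℕ), (a = p.2 ∧ (p.1 ≠ p.2 ∨ R p.1 p.2 = true)) ↔
      (σ a = σ p.2 ∧ (σ p.1 ≠ σ p.2 ∨ R' (σ p.1) (σ p.2) = true)) := by
    intro a p
    rw [← e, ← hσ, Ne, Ne, ← e]
  intro x y
  rcases x with a | p | p <;> rcases y with b | q | q
  · exact Iff.rfl
  · exact c1 a q
  · exact c2 a q
  · exact c1 b p
  · exact Iff.rfl
  · exact e2 p q
  · exact c2 b p
  · exact e2 q p
  · exact Iff.rfl

theorem iso_of_adj (R R' : ℕ → ℕ → Bool) (φ : VV ≃ VV)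
    (h : ∀ x y, adj R x y ↔ adj R' (φ x) (φ y)) :
    ∃ σ : Equiv.Perm ℕ, ∀ i j, R i j = R' (σ i) (σ j) := by
  have hinf : ∀ x, {y | adj R x y}.Infinite ↔ {y | adj R' (φ x) y}.Infinite := by
    intro x
    have h1 : {y | adj R' (φ x) y} = φ '' {y | adj R x y} := by
      ext z
      constructor
      · intro hz
        refine ⟨φ.symm z, ?_, φ.apply_symm_apply z⟩
        show adj R x (φ.symm z)
        rw [h, φ.apply_symm_apply]
        exact hz
      · rintro ⟨y, hy, rfl⟩
        exact (h x y).1 hy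
    rw [h1, Set.infinite_image_iff φ.injective.injOn]
  have hA : ∀ x, (∃ a, x = Sum.inl a) ↔ ∃ a, φ x = Sum.inl a := by
    intro x
    rw [← inf_deg R x, ← inf_deg R' (φ x)]
    exact hinf x
  have h1 : ∀ a : ℕ, ∃ b, φ (Sum.inl a) = Sum.inl b := fun a => (hA _).1 ⟨a, rfl⟩
  have h2 : ∀ b : ℕ, ∃ a, φ.symm (Sum.inl b) = Sum.inl a := fun b =>
    (hA _).2 ⟨b, φ.apply_symm_apply _⟩
  choose f hf using h1
  choose g hg using h2
  have fg : ∀ b, f (g b) = b := by
    intro b
    have h1 := hf (g b)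
    rw [← hg b, φ.apply_symm_apply] at h1
    exact (Sum.inl.inj h1).symm
  have gf : ∀ a, g (f a) = a := by
    intro a
    have h1 := hg (f a)
    rw [← hf a, φ.symm_apply_apply] at h1
    exact (Sum.inl.inj h1).symm
  have one : ∀ (R R' : ℕ → ℕ → Bool) (φ : VV ≃ VV) (f g : ℕ → ℕ)
      (_ : ∀ x y, adj R x y ↔ adj R' (φ x) (φ y))
      (_ : ∀ x, (∃ a, x = Sum.inl a) ↔ ∃ a, φ x = Sum.inl a)
      (_ : ∀ a, φ (Sum.inl a) = Sum.inl (f a)) (_ : ∀ b, f (g b) = b) (a b : ℕ),
      Phi R a b → Phi R' (f a) (f b) := by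
    intro R R' φ f g h hA hf fg a b
    rintro ⟨x, y, hx, hy, k1, k2, k3, k4, k5, k6⟩
    refine ⟨φ x, φ y, ?_, ?_, (h _ _).1 k1, ?_, ?_, ?_, ?_, ?_⟩
    · intro c hc
      obtain ⟨c', hc'⟩ := (hA x).2 ⟨c, hc⟩
      exact hx c' hc'
    · intro c hc
      obtain ⟨c', hc'⟩ := (hA y).2 ⟨c, hc⟩
      exact hy c' hc'
    · rw [← hf]; exact (h _ _).1 k2
    · rw [← hf]; exact (h _ _).1 k3
    · rw [← hf]; exact (h _ _).1 k4
    · intro c hc
      rw [← fg c, ← hf, ← h] at hc
      rw [← fg c]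
      rcases k5 _ hc with h7 | h7
      · exact Or.inl (congrArg f h7)
      · exact Or.inr (congrArg f h7)
    · intro c hc
      rw [← fg c, ← hf, ← h] at hc
      rw [← fg c]
      exact congrArg f (k6 _ hc)
  have hs : ∀ x y, adj R' x y ↔ adj R (φ.symm x) (φ.symm y) := by
    intro x y
    rw [h, φ.apply_symm_apply, φ.apply_symm_apply]
  have hAs : ∀ x, (∃ a, x = Sum.inl a) ↔ ∃ a, φ.symm x = Sum.inl a := by
    intro x
    rw [hA (φ.symm x), φ.apply_symm_apply]
  refine ⟨⟨f, g, gf, fg⟩, fun i j => ?_⟩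
  show R i j = R' (f i) (f j)
  have h3 : R i j = true ↔ R' (f i) (f j) = true := by
    rw [← phi_iff, ← phi_iff]
    constructor
    · exact one R R' φ f g h hA hf fg i j
    · intro h4
      have h5 := one R' R φ.symm g f hs hAs hg gf (f i) (f j) h4
      rwa [gf, gf] at h5
  exact Bool.eq_iff_iff.2 h3

/-- an enumeration of the vertices -/
noncomputable def vn : ℕ ≃ VV := (Denumerable.eqv VV).symm

open Classical in
/-- the simple graph coding a binary relation -/
noncomputable def gr (R : ℕ → ℕ → Bool) : ℕ → ℕ → Bool := fun i j => decide (adj R (vn i) (vn j))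

theorem gr_symm (R : ℕ → ℕ → Bool) (i j : ℕ) : gr R i j = gr R j i := by
  classical
  unfold gr
  exact decide_eq_decide.2 ⟨adj_symm R _ _, adj_symm R _ _⟩

theorem gr_irrefl (R : ℕ → ℕ → Bool) (i : ℕ) : gr R i i = false := by
  classical
  unfold gr
  exact decide_eq_false (adj_irrefl R _)

theorem gr_iff (R R' : ℕ → ℕ → Bool) :
    (∃ σ : Equiv.Perm ℕ, ∀ i j, R i j = R' (σ i) (σ j)) ↔
      ∃ σ : Equiv.Perm ℕ, ∀ i j, gr R i j = gr R' (σ i) (σ j) := by
  classical
  constructor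
  · rintro ⟨σ, hσ⟩
    obtain ⟨φ, hφ⟩ := adj_of_iso R R' σ hσ
    refine ⟨(vn.trans φ).trans vn.symm, fun i j => ?_⟩
    unfold gr
    have h1 : ∀ i, vn (((vn.trans φ).trans vn.symm) i) = φ (vn i) := by
      intro i
      simp
    rw [h1, h1]
    exact decide_eq_decide.2 (hφ _ _)
  · rintro ⟨σ, hσ⟩
    refine iso_of_adj R R' ((vn.symm.trans σ).trans vn) fun x y => ?_
    have h1 := hσ (vn.symm x) (vn.symm y)
    unfold gr at h1
    rw [vn.apply_symm_apply, vn.apply_symm_apply] at h1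
    exact decide_eq_decide.1 h1

theorem meas_gr : Measurable gr := by
  classical
  have hR : ∀ n m : ℕ, MeasurableSet {R : ℕ → ℕ → Bool | R n m = true} := by
    intro n m
    have h1 : Measurable fun R : ℕ → ℕ → Bool => R n m :=
      (measurable_pi_apply m).comp (measurable_pi_apply n)
    exact h1 (measurableSet_singleton true)
  have c1 : ∀ (a : ℕ) (p : ℕ × ℕ), MeasurableSet
      {R : ℕ → ℕ → Bool | a = p.1 ∨ (a = p.2 ∧ R p.1 p.2 = true)} := fun a p =>
    (MeasurableSet.const _).union ((MeasurableSet.const _).inter (hR _ _))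
  have c2 : ∀ (a : ℕ) (p : ℕ × ℕ), MeasurableSet
      {R : ℕ → ℕ → Bool | a = p.2 ∧ (p.1 ≠ p.2 ∨ R p.1 p.2 = true)} := fun a p =>
    (MeasurableSet.const _).inter ((MeasurableSet.const _).union (hR _ _))
  have h2 : ∀ x y : VV, MeasurableSet {R : ℕ → ℕ → Bool | adj R x y} := by
    intro x y
    rcases x with a | p | p <;> rcases y with b | q | q
    · exact MeasurableSet.const False
    · exact c1 a q
    · exact c2 a q
    · exact c1 b p
    · exact MeasurableSet.const False
    · exact MeasurableSet.const (p = q)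
    · exact c2 b p
    · exact MeasurableSet.const (q = p)
    · exact MeasurableSet.const False
  refine measurable_pi_lambda _ fun i => measurable_pi_lambda _ fun j => ?_
  refine measurable_to_bool ?_
  have h3 : (fun R : ℕ → ℕ → Bool => gr R i j) ⁻¹' {true} =
      {R : ℕ → ℕ → Bool | adj R (vn i) (vn j)} := by
    ext R
    simp [gr]
  rw [h3]
  exact h2 _ _

end Pool.Agent.H453R3.TC
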