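import Pool.Agent.H453R3.Erg

/-!
# Isomorphism and non-isomorphism
-/

set_option autoImplicit false

open Filter Topology MeasureTheory

namespace Pool.Agent.H453R3

/-- the transfer function -/
noncomputable def uu (d : ℕ → ℝ) (x : UnitAddCircle) : ℝ := ∑' k, d k * w (Q k • x)

theorem summable_uu (d : ℕ → ℝ) (hd : Summable fun k => |d k|) (x : UnitAddCircle) :
    Summable fun k => d k * w (Q k • x) := by
  refine Summable.of_norm_bounded hd fun k => ?_
  rw [Real.norm_eq_abs, abs_mul]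
  exact mul_le_of_le_one_right (abs_nonneg _) (abs_w_le _)

theorem continuous_uu (d : ℕ → ℝ) (hd : Summable fun k => |d k|) : Continuous (uu d) := by
  unfold uu
  refine continuous_tsum (fun k => continuous_const.mul (continuous_w.comp (continuous_nsmul _)))
    hd fun k x => ?_
  rw [Real.norm_eq_abs, abs_mul]
  exact mul_le_of_le_one_right (abs_nonneg _) (abs_w_le _)

theorem uu_eq (lx ly : ℕ → ℝ) (hx : ∀ k, |lx k| ≤ 1) (hy : ∀ k, |ly k| ≤ 1)
    (hd : Summable fun k => |ly k - lx k|) (x : UnitAddCircle) :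
    Ph lx 1 x + uu (fun k => ly k - lx k) (x + A) = uu (fun k => ly k - lx k) x + Ph ly 1 x := by
  have h1 : uu (fun k => ly k - lx k) (x + A) - uu (fun k => ly k - lx k) x =
      Ph ly 1 x - Ph lx 1 x := by
    unfold uu Ph
    rw [← (summable_uu _ hd (x + A)).tsum_sub (summable_uu _ hd x),
      ← (summable_Ph ly 1 hy 1 x).tsum_sub (summable_Ph lx 1 hx 1 x)]
    refine tsum_congr fun k => ?_
    unfold D
    rw [one_nsmul]
    ring
  linarith

theorem iso_of_summable (lx ly : ℕ → ℝ) (hx : ∀ k, |lx k| ≤ 1) (hy : ∀ k, |ly k| ≤ 1)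
    (hd : Summable fun k => |ly k - lx k|) :
    ∃ φ ψ : T2 → T2, MeasurePreserving φ volume volume ∧ MeasurePreserving ψ volume volume ∧
      ψ ∘ φ =ᵐ[volume] id ∧ φ ∘ ψ =ᵐ[volume] id ∧ φ ∘ TT lx =ᵐ[volume] TT ly ∘ φ := by
  have hc := continuous_uu _ hd
  have m1 := mp_skew 0 (uu fun k => ly k - lx k) hc
  have m2 := mp_skew 0 (fun x => - uu (fun k => ly k - lx k) x) hc.neg
  refine ⟨_, _, m1, m2, ?_, ?_, ?_⟩
  · refine Filter.Eventually.of_forall fun p => ?_
    simp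
  · refine Filter.Eventually.of_forall fun p => ?_
    simp
  · refine Filter.Eventually.of_forall fun p => ?_
    have h1 := uu_eq lx ly hx hy hd p.1
    have h2 := congrArg (fun t : ℝ => (t : UnitAddCircle)) h1
    simp only [AddCircle.coe_add] at h2
    unfold TT
    simp only [Function.comp, add_zero]
    refine Prod.ext rfl ?_
    show p.2 + ((Ph lx 1 p.1 : ℝ) : UnitAddCircle) +
      ((uu (fun k => ly k - lx k) (p.1 + A) : ℝ) : UnitAddCircle) =
      p.2 + ((uu (fun k => ly k - lx k) p.1 : ℝ) : UnitAddCircle) +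
        ((Ph ly 1 p.1 : ℝ) : UnitAddCircle)
    rw [add_assoc, h2, add_assoc]

theorem iter_intertwine (lx ly : ℕ → ℝ) (hx : ∀ k, |lx k| ≤ 1) (φ : T2 → T2)
    (h : φ ∘ TT lx =ᵐ[volume] TT ly ∘ φ) (m : ℕ) :
    φ ∘ (TT lx)^[m] =ᵐ[volume] (TT ly)^[m] ∘ φ := by
  induction m with
  | zero => exact Filter.Eventually.of_forall fun p => rfl
  | succ m ih =>
    have h1 : (φ ∘ (TT lx)^[m]) ∘ TT lx =ᵐ[volume] ((TT ly)^[m] ∘ φ) ∘ TT lx :=
      (mp_TT lx hx).quasiMeasurePreserving.ae_eq_comp ih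
    have h2 : (TT ly)^[m] ∘ (φ ∘ TT lx) =ᵐ[volume] (TT ly)^[m] ∘ (TT ly ∘ φ) := by
      filter_upwards [h] with p hp
      simp only [Function.comp] at hp ⊢
      rw [hp]
    filter_upwards [h1, h2] with p h3 h4
    simp only [Function.comp] at h3 h4 ⊢
    rw [Function.iterate_succ_apply, Function.iterate_succ_apply, h3, h4]

theorem not_iso (lx ly : ℕ → ℝ) (hx : ∀ k, |lx k| ≤ 1) (hy : ∀ k, |ly k| ≤ 1)
    (kn : ℕ → ℕ) (hk : ∀ n, n ≤ kn n) (h1 : Tendsto (fun n => |lx (kn n)|) atTop (𝓝 0))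
    (h2 : Tendsto (fun n => |1 - ly (kn n)|) atTop (𝓝 0)) (φ : T2 → T2)
    (hφ : MeasurePreserving φ (volume : Measure T2) volume)
    (h : φ ∘ TT lx =ᵐ[volume] TT ly ∘ φ) : False := by
  have hp0 : Tendsto (fun n => (1 / 2 : ℝ) ^ (kn n)) atTop (𝓝 0) :=
    squeeze_zero (fun n => by positivity) (fun n => half_pow_le n _ (hk n))
      (tendsto_pow_atTop_nhds_zero_of_lt_one (by norm_num) (by norm_num))
  -- the test function
  have hgm : Measurable fun p : T2 => ec 1 (φ p).2 :=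
    (continuous_ec 1).measurable.comp (measurable_snd.comp hφ.measurable)
  have hgi : Integrable (fun p : T2 => ec 1 (φ p).2) volume :=
    (integrable_const (1 : ℝ)).mono' hgm.aestronglyMeasurable
      (Filter.Eventually.of_forall fun x => (norm_ec _ _).le)
  have hlim := near_id (volume : Measure T2) (fun n => (TT lx)^[q (kn n)])
    (fun n => (mp_TT lx hx).iterate _)
    (fun n => (1 / 2 : ℝ) ^ (kn n) + (2 * |lx (kn n)| + 4 * Real.pi * (1 / 2) ^ (kn n)))
    (by
      have := hp0.add ((h1.const_mul 2).add (hp0.const_mul (4 * Real.pi)))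
      simpa using this)
    (fun n p => by
      rw [TT_iter lx hx, Prod.dist_eq, dist_eq_norm, dist_eq_norm, add_sub_cancel_left,
        add_sub_cancel_left]
      have e1 : ‖q (kn n) • A‖ ≤ (1 / 2 : ℝ) ^ (kn n) :=
        (norm_q_A _).trans (half_pow_le _ _ (by have := ee_two (kn n); omega))
      have e2 : ‖((Ph lx (q (kn n)) p.1 : ℝ) : UnitAddCircle)‖ ≤
          2 * |lx (kn n)| + 4 * Real.pi * (1 / 2) ^ (kn n) := by
        refine (norm_coe_le _).trans ?_
        have e3 := key lx hx (kn n) p.1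
        have e4 : Ph lx (q (kn n)) p.1 =
          (Ph lx (q (kn n)) p.1 + 2 * lx (kn n) * w (Q (kn n) • p.1)) +
            (-2 * lx (kn n)) * w (Q (kn n) • p.1) := by ring
        rw [e4]
        refine (abs_add_le _ _).trans ?_
        rw [add_comm]
        refine add_le_add ?_ e3
        rw [abs_mul, abs_mul]
        norm_num
        have h5 := abs_w_le (Q (kn n) • p.1)
        nlinarith [abs_nonneg (lx (kn n))]
      refine max_le ?_ ?_
      · have : 0 ≤ 2 * |lx (kn n)| + 4 * Real.pi * (1 / 2) ^ (kn n) := by positivity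
        linarith
      · have : (0 : ℝ) ≤ (1 / 2) ^ (kn n) := by positivity
        linarith)
    (fun p : T2 => ec 1 (φ p).2) hgi
  -- lower bound
  have hlow : ∀ n : ℕ, kap 1 - 2 * Real.pi * |((1 : ℤ) : ℝ)| *
      (4 * Real.pi * (1 / 2) ^ (kn n) + 2 * |1 - ly (kn n)|) ≤
      ∫ p : T2, ‖ec 1 (φ ((TT lx)^[q (kn n)] p)).2 - ec 1 (φ p).2‖ := by
    intro n
    have c2 : Continuous fun x : UnitAddCircle =>
        ‖ec 1 ((Ph ly (q (kn n)) x : ℝ) : UnitAddCircle) - 1‖ :=
      (((continuous_ec 1).comp ((AddCircle.continuous_mk' 1).comp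
        (continuous_Ph ly 1 hy (q (kn n))))).sub continuous_const).norm
    have e1 : ∫ p : T2, ‖ec 1 (φ ((TT lx)^[q (kn n)] p)).2 - ec 1 (φ p).2‖ =
        ∫ p : T2, ‖ec 1 ((Ph ly (q (kn n)) (φ p).1 : ℝ) : UnitAddCircle) - 1‖ := by
      refine integral_congr_ae ?_
      filter_upwards [iter_intertwine lx ly hx φ h (q (kn n))] with p hp
      simp only [Function.comp] at hp
      rw [hp, TT_iter ly hy]
      show ‖ec 1 ((φ p).2 + ((Ph ly (q (kn n)) (φ p).1 : ℝ) : UnitAddCircle)) - ec 1 (φ p).2‖ = _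
      rw [ec_add, show ec 1 (φ p).2 * ec 1 ((Ph ly (q (kn n)) (φ p).1 : ℝ) : UnitAddCircle) -
        ec 1 (φ p).2 = ec 1 (φ p).2 *
          (ec 1 ((Ph ly (q (kn n)) (φ p).1 : ℝ) : UnitAddCircle) - 1) by ring, norm_mul, norm_ec,
        one_mul]
    have e2 : ∫ p : T2, ‖ec 1 ((Ph ly (q (kn n)) (φ p).1 : ℝ) : UnitAddCircle) - 1‖ =
        ∫ p : T2, ‖ec 1 ((Ph ly (q (kn n)) p.1 : ℝ) : UnitAddCircle) - 1‖ :=
      mp_integral hφ (f := fun p : T2 => ‖ec 1 ((Ph ly (q (kn n)) p.1 : ℝ) : UnitAddCircle) - 1‖)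
        (c2.comp continuous_fst).aestronglyMeasurable
    have e3 : ∫ p : T2, ‖ec 1 ((Ph ly (q (kn n)) p.1 : ℝ) : UnitAddCircle) - 1‖ =
        ∫ x : UnitAddCircle, ‖ec 1 ((Ph ly (q (kn n)) x : ℝ) : UnitAddCircle) - 1‖ := by
      have hfst : MeasurePreserving (Prod.fst : T2 → UnitAddCircle) volume volume :=
        measurePreserving_fst
      exact mp_integral hfst
        (f := fun x : UnitAddCircle => ‖ec 1 ((Ph ly (q (kn n)) x : ℝ) : UnitAddCircle) - 1‖)
        c2.aestronglyMeasurable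
    rw [e1, e2, e3]
    exact lower ly hy 1 (kn n)
  have hlim2 : Tendsto (fun n : ℕ => kap 1 - 2 * Real.pi * |((1 : ℤ) : ℝ)| *
      (4 * Real.pi * (1 / 2) ^ (kn n) + 2 * |1 - ly (kn n)|)) atTop
      (𝓝 (kap 1 - 2 * Real.pi * |((1 : ℤ) : ℝ)| * (4 * Real.pi * 0 + 2 * 0))) :=
    tendsto_const_nhds.sub (((hp0.const_mul _).add (h2.const_mul _)).const_mul _)
  have h5 := le_of_tendsto_of_tendsto' hlim2 hlim hlow
  simp only [mul_zero, add_zero, sub_zero] at h5
  have h6 := kap_pos 1 one_ne_zero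
  linarith

end Pool.Agent.H453R3
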