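import Pool.Agent.H453R3.Circ

/-!
# Near-identity maps, characters
-/

set_option autoImplicit false

open Filter Topology MeasureTheory

namespace Pool.Agent.H453R3

/-- change of variables for a measure preserving map -/
theorem mp_integral {X Y E : Type*} [MeasurableSpace X] [MeasurableSpace Y]
    [NormedAddCommGroup E] [NormedSpace ℝ E] {μ : Measure X} {ν : Measure Y} {S : X → Y}
    (hS : MeasurePreserving S μ ν) {f : Y → E} (hf : AEStronglyMeasurable f ν) :
    ∫ x, f (S x) ∂μ = ∫ y, f y ∂ν := by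
  rw [← integral_map hS.measurable.aemeasurable (by rwa [hS.map_eq]), hS.map_eq]

theorem near_id {X : Type*} [PseudoMetricSpace X] [CompactSpace X] [MeasurableSpace X] [BorelSpace X]
    (μ : Measure X) [IsProbabilityMeasure μ] [μ.WeaklyRegular]
    (S : ℕ → X → X) (hS : ∀ n, MeasurePreserving (S n) μ μ) (δ : ℕ → ℝ)
    (hδ : Tendsto δ atTop (𝓝 0)) (hSδ : ∀ n x, dist (S n x) x ≤ δ n) (g : X → ℂ)
    (hg : Integrable g μ) :
    Tendsto (fun n => ∫ x, ‖g (S n x) - g x‖ ∂μ) atTop (𝓝 0) := by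
  rw [Metric.tendsto_atTop]
  intro ε hε
  obtain ⟨h, hh, hhi⟩ := hg.exists_boundedContinuous_integral_sub_le (show 0 < ε / 4 by positivity)
  have huc : UniformContinuous h := CompactSpace.uniformContinuous_of_continuous h.continuous
  rw [Metric.uniformContinuous_iff] at huc
  obtain ⟨d, hd, hd'⟩ := huc (ε / 4) (by positivity)
  obtain ⟨N, hN⟩ := (Metric.tendsto_atTop.1 hδ) d hd
  refine ⟨N, fun n hn => ?_⟩
  have h1 := hN n hn
  rw [Real.dist_eq, sub_zero] at h1
  have h2 : ∀ x, dist (h (S n x)) (h x) < ε / 4 := fun x =>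
    hd' (((hSδ n x).trans (le_abs_self _)).trans_lt h1)
  have i1 : Integrable (fun x => ‖g x - h x‖) μ := (hg.sub hhi).norm
  have i2 : Integrable (fun x => ‖g (S n x) - h (S n x)‖) μ :=
    (hS n).integrable_comp_of_integrable i1
  have i3 : Integrable (fun x => g (S n x) - g x) μ :=
    ((hS n).integrable_comp_of_integrable hg).sub hg
  have e1 : ∫ x, ‖g (S n x) - h (S n x)‖ ∂μ = ∫ x, ‖g x - h x‖ ∂μ :=
    mp_integral (hS n) (f := fun x => ‖g x - h x‖) i1.aestronglyMeasurable
  have h3 : ∫ x, ‖g (S n x) - g x‖ ∂μ ≤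
      ∫ x, (‖g (S n x) - h (S n x)‖ + (ε / 4 + ‖g x - h x‖)) ∂μ := by
    refine integral_mono i3.norm (i2.add ((integrable_const _).add i1)) fun x => ?_
    have h4 := (h2 x).le
    rw [dist_eq_norm] at h4
    have h5 : g (S n x) - g x = (g (S n x) - h (S n x)) + ((h (S n x) - h x) - (g x - h x)) := by
      ring
    show ‖g (S n x) - g x‖ ≤ ‖g (S n x) - h (S n x)‖ + (ε / 4 + ‖g x - h x‖)
    rw [h5]
    refine (norm_add_le _ _).trans ?_
    gcongr
    refine (norm_sub_le _ _).trans ?_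
    gcongr
  have i4 : Integrable (fun x => ε / 4 + ‖g x - h x‖) μ := (integrable_const _).add i1
  rw [integral_add i2 i4, integral_add (integrable_const _) i1, e1, integral_const] at h3
  have h6 : μ.real Set.univ = 1 := by simp
  rw [h6, one_smul] at h3
  rw [Real.dist_eq, sub_zero, abs_of_nonneg (integral_nonneg fun _ => norm_nonneg _)]
  linarith

/-- characters -/
noncomputable def ec (m : ℤ) (z : UnitAddCircle) : ℂ := (AddCircle.toCircle (m • z) : ℂ)

theorem ec_add (m : ℤ) (a b : UnitAddCircle) : ec m (a + b) = ec m a * ec m b := by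
  unfold ec
  rw [smul_add, AddCircle.toCircle_add, Circle.coe_mul]

theorem norm_ec (m : ℤ) (a : UnitAddCircle) : ‖ec m a‖ = 1 := by
  unfold ec; simp

theorem ec_zero (a : UnitAddCircle) : ec 0 a = 1 := by
  unfold ec; simp

theorem ec_at_zero (m : ℤ) : ec m 0 = 1 := by
  unfold ec; simp

theorem continuous_ec (m : ℤ) : Continuous (ec m) := by
  unfold ec
  exact continuous_subtype_val.comp (AddCircle.continuous_toCircle.comp (continuous_zsmul m))

theorem ec_coe (m : ℤ) (t : ℝ) :
    ec m (t : UnitAddCircle) = Complex.exp (Complex.I * ((2 * Real.pi * (m * t) : ℝ) : ℂ)) := by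
  unfold ec
  rw [← AddCircle.coe_zsmul, AddCircle.toCircle_apply_mk, Circle.coe_exp, mul_comm Complex.I]
  congr 3
  rw [zsmul_eq_mul]
  ring

theorem ec_sub_one (m : ℤ) (t : ℝ) :
    ‖ec m (t : UnitAddCircle) - 1‖ ≤ 2 * Real.pi * |(m : ℝ)| * |t| := by
  rw [ec_coe]
  refine Real.norm_exp_I_mul_ofReal_sub_one_le.trans ?_
  rw [Real.norm_eq_abs, abs_mul (2 * Real.pi), abs_mul (m : ℝ),
    abs_of_pos (by positivity : 0 < 2 * Real.pi)]
  exact le_of_eq (by ring)

theorem ec_sub (m : ℤ) (s t : ℝ) :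
    ‖ec m (s : UnitAddCircle) - ec m (t : UnitAddCircle)‖ ≤ 2 * Real.pi * |(m : ℝ)| * |s - t| := by
  have h1 : ec m (s : UnitAddCircle) =
      ec m (t : UnitAddCircle) * ec m ((s - t : ℝ) : UnitAddCircle) := by
    rw [← ec_add, ← AddCircle.coe_add]
    congr 2
    ring
  have h2 : ec m (s : UnitAddCircle) - ec m (t : UnitAddCircle) =
      ec m (t : UnitAddCircle) * (ec m ((s - t : ℝ) : UnitAddCircle) - 1) := by
    rw [h1]; ring
  rw [h2, norm_mul, norm_ec, one_mul]
  exact ec_sub_one m _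

/-- the limiting constant -/
noncomputable def kap (m : ℤ) : ℝ :=
  ∫ z : UnitAddCircle, ‖ec m ((-2 * w z : ℝ) : UnitAddCircle) - 1‖

theorem continuous_kap_integrand (m : ℤ) :
    Continuous fun z : UnitAddCircle => ‖ec m ((-2 * w z : ℝ) : UnitAddCircle) - 1‖ := by
  refine (((continuous_ec m).comp ((AddCircle.continuous_mk' 1).comp
    (continuous_const.mul continuous_w))).sub continuous_const).norm

theorem integrable_of_cont {f : UnitAddCircle → ℝ} (hf : Continuous f) : Integrable f :=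
  hf.integrable_of_hasCompactSupport (HasCompactSupport.of_compactSpace f)

theorem kap_pos (m : ℤ) (hm : m ≠ 0) : 0 < kap m := by
  unfold kap
  have hm' : (1 : ℝ) ≤ |(m : ℝ)| := by
    exact_mod_cast Int.one_le_abs hm
  have hm0 : (m : ℝ) ≠ 0 := by exact_mod_cast hm
  have habs : |1 / (4 * (m : ℝ))| ≤ 1 := by
    rw [abs_div, abs_one, abs_mul]
    rw [div_le_one (by positivity)]
    norm_num
    linarith
  have h0 := abs_le.1 habs
  refine Continuous.integral_pos_of_hasCompactSupport_nonneg_nonzero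
    (x := ((Real.arccos (1 / (4 * m)) / (2 * Real.pi) : ℝ) : UnitAddCircle))
    (continuous_kap_integrand m) (HasCompactSupport.of_compactSpace _)
    (fun _ => norm_nonneg _) ?_
  show ‖ec m ((-2 * w ((Real.arccos (1 / (4 * m)) / (2 * Real.pi) : ℝ) : UnitAddCircle) : ℝ) :
    UnitAddCircle) - 1‖ ≠ 0
  rw [w_coe, mul_div_cancel₀ _ (by positivity), Real.cos_arccos h0.1 h0.2, ec_coe]
  have h1 : (2 * Real.pi * (m * (-2 * (1 / (4 * (m : ℝ))))) : ℝ) = -Real.pi := by
    field_simp
    ring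
  rw [h1]
  have h2 : Complex.exp (Complex.I * ((-Real.pi : ℝ) : ℂ)) = -1 := by
    rw [mul_comm]
    push_cast
    rw [neg_mul, Complex.exp_neg, Complex.exp_pi_mul_I]
    norm_num
  rw [h2]
  norm_num

theorem mp_nsmul (k : ℕ) : MeasurePreserving (fun x : UnitAddCircle => Q k • x) volume volume := by
  refine (AddCircle.ergodic_nsmul ?_).toMeasurePreserving
  unfold Q
  exact Nat.one_lt_two_pow (ee_pos k).ne'

theorem lower (l : ℕ → ℝ) (hl : ∀ k, |l k| ≤ 1) (m : ℤ) (k : ℕ) :
    kap m - 2 * Real.pi * |(m : ℝ)| * (4 * Real.pi * (1 / 2) ^ k + 2 * |1 - l k|) ≤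
      ∫ x : UnitAddCircle, ‖ec m ((Ph l (q k) x : ℝ) : UnitAddCircle) - 1‖ := by
  have e1 : kap m = ∫ x : UnitAddCircle,
      ‖ec m ((-2 * w (Q k • x) : ℝ) : UnitAddCircle) - 1‖ :=
    (mp_integral (mp_nsmul k)
      (f := fun z : UnitAddCircle => ‖ec m ((-2 * w z : ℝ) : UnitAddCircle) - 1‖)
      (continuous_kap_integrand m).aestronglyMeasurable).symm
  have c1 : Continuous fun x : UnitAddCircle =>
      ‖ec m ((-2 * w (Q k • x) : ℝ) : UnitAddCircle) - 1‖ :=
    (continuous_kap_integrand m).comp (continuous_nsmul _)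
  have c2 : Continuous fun x : UnitAddCircle =>
      ‖ec m ((Ph l (q k) x : ℝ) : UnitAddCircle) - 1‖ :=
    (((continuous_ec m).comp ((AddCircle.continuous_mk' 1).comp
      (continuous_Ph l 1 hl (q k)))).sub continuous_const).norm
  have h1 : kap m ≤ ∫ x : UnitAddCircle, (‖ec m ((Ph l (q k) x : ℝ) : UnitAddCircle) - 1‖ +
      2 * Real.pi * |(m : ℝ)| * (4 * Real.pi * (1 / 2) ^ k + 2 * |1 - l k|)) := by
    rw [e1]
    refine integral_mono (integrable_of_cont c1)
      ((integrable_of_cont c2).add (integrable_const _)) fun x => ?_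
    show ‖ec m ((-2 * w (Q k • x) : ℝ) : UnitAddCircle) - 1‖ ≤
      ‖ec m ((Ph l (q k) x : ℝ) : UnitAddCircle) - 1‖ +
      2 * Real.pi * |(m : ℝ)| * (4 * Real.pi * (1 / 2) ^ k + 2 * |1 - l k|)
    have h2 : ec m ((-2 * w (Q k • x) : ℝ) : UnitAddCircle) - 1 =
        (ec m ((Ph l (q k) x : ℝ) : UnitAddCircle) - 1) +
        (ec m ((-2 * w (Q k • x) : ℝ) : UnitAddCircle) -
          ec m ((Ph l (q k) x : ℝ) : UnitAddCircle)) := by ring
    rw [h2]
    refine (norm_add_le _ _).trans ?_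
    gcongr
    refine (ec_sub m _ _).trans ?_
    gcongr
    have h3 := key l hl k x
    have h4 : -2 * w (Q k • x) - Ph l (q k) x =
      -(Ph l (q k) x + 2 * l k * w (Q k • x)) + (-2 * (1 - l k)) * w (Q k • x) := by ring
    rw [h4]
    refine (abs_add_le _ _).trans ?_
    rw [abs_neg]
    refine add_le_add h3 ?_
    rw [abs_mul, abs_mul]
    norm_num
    have h5 := abs_w_le (Q k • x)
    nlinarith [abs_nonneg (1 - l k)]
  rw [integral_add (integrable_of_cont c2) (integrable_const _), integral_const] at h1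
  have h6 : (volume : Measure UnitAddCircle).real Set.univ = 1 := by
    rw [Measure.real, UnitAddCircle.measure_univ]
    rfl
  rw [h6, one_smul] at h1
  linarith

end Pool.Agent.H453R3
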