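import Mathlib

/-!
# Abstract fusion: data and generic points
-/

set_option autoImplicit false

open Filter Topology Set MeasureTheory

namespace Pool.Agent.H453R3.QA

/-- the abstract data -/
structure Data (Y G : Type) [MetricSpace Y] [Group G] [MulAction G Y] where
  f : Y → ℕ → ℝ
  ν : G → ℝ
  Far : ℕ → G → Prop
  Low : ℕ → G → Prop
  Gd : ℕ → ℝ → Y → Prop
  Wit : ℕ → Y → Y → Prop
  hcont : ∀ γ : G, Continuous fun y : Y => γ • y
  hν1 : ν 1 = 0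
  hνinv : ∀ γ, ν γ⁻¹ = ν γ
  hA : ∀ g : ℕ → G, (∀ l, ν ((g l)⁻¹ * g (l + 1)) ≤ (1 / 2 : ℝ) ^ l) → ∀ p q : Y,
    Tendsto (fun l => g l • p) atTop (𝓝 q) → Tendsto (fun j => f q j - f p j) atTop (𝓝 0)
  hF : ∀ (y : Y) (z : ℕ → Y) (β : ℕ → G), (∀ k, Far k (β k)) → Tendsto z atTop (𝓝 y) →
    Tendsto (fun k => β k • z k) atTop (𝓝 y)
  hFmono : ∀ M M' β, Far M β → M' ≤ M → Far M' β
  hFmul : ∀ M β β', Far M β → Far M β' → Far M (β * β')
  hL : ∀ g, ∃ M, Low M g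
  hLmono : ∀ M M' g, Low M g → M ≤ M' → Low M' g
  h4 : ∀ V : Set Y, IsOpen V → V.Nonempty → ∀ M, ∃ i, M ≤ i ∧ ∀ η > 0, ∃ V' ⊆ V,
    IsOpen V' ∧ V'.Nonempty ∧ ∀ q ∈ V', Gd i η q
  hB : ∀ δ > 0, ∃ (K : ℕ) (Bl : ℕ → (ℕ → ℕ) → G) (η : ℝ), 0 < η ∧ (∀ i, Bl 0 i = 1) ∧
    (∀ s i i', (∀ t < s, i t = i' t) → Bl s i = Bl s i') ∧
    (∀ s i M, (∀ t < s, M ≤ i t) → Far M (Bl s i)) ∧
    (∀ i : ℕ → ℕ, (∀ t, i t + 1 < i (t + 1)) → ∀ s < K, ∃ β : G,
      (∀ M, (∀ t, s < t → M ≤ i t) → Far M β) ∧ ν (Bl K i * (β * Bl s i)⁻¹) < δ) ∧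
    (∀ i : ℕ → ℕ, (∀ t, i t + 1 < i (t + 1)) → ∀ M, (∀ t, M ≤ i t) → ∀ g, Low M g → ∀ q : Y,
      (∀ t < K, Gd (i t) η q) → Wit M (g⁻¹ • q) (Bl K i • q))
  hO : ∀ M, IsOpen {x : Y × Y | Wit M x.1 x.2}
  hWmono : ∀ M M' p q, Wit M p q → M' ≤ M → Wit M' p q
  hN : ∀ p q, (∀ M, Wit M p q) → ¬ Tendsto (fun j => f q j - f p j) atTop (𝓝 0)

variable {Y G : Type} [MetricSpace Y] [Group G] [MulAction G Y] (D : Data Y G)

theorem Data.hG (γ : G) (y : Y) : Tendsto (fun j => D.f (γ • y) j - D.f y j) atTop (𝓝 0) := by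
  refine D.hA (fun _ => γ) (fun l => ?_) y (γ • y) tendsto_const_nhds
  simp only [inv_mul_cancel]
  rw [D.hν1]; positivity

/-- the homeomorphism given by a group element -/
def Data.ho (γ : G) : Y ≃ₜ Y where
  toFun y := γ • y
  invFun y := γ⁻¹ • y
  left_inv y := by simp
  right_inv y := by simp
  continuous_toFun := D.hcont γ
  continuous_invFun := D.hcont γ⁻¹

theorem generic [CompleteSpace Y] [MeasurableSpace Y] [BorelSpace Y] [Countable G]
    (hf : Measurable D.f) : ∃ (C C' : Set Y) (O : ℕ → Set Y), (∀ r, IsOpen (O r)) ∧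
    (⋂ r, O r) ⊆ C ∧ C' ⊆ (⋂ r, O r) ∧ C' ∈ residual Y ∧ (∀ γ : G, ∀ y ∈ C', γ • y ∈ C') ∧
    (∀ y ∈ C, ∀ j, ∀ ε > 0, ∃ U ∈ 𝓝 y, ∀ z ∈ U, z ∈ C → |D.f z j - D.f y j| < ε) ∧
    (∀ γ : G, ∀ V : Set Y, IsOpen V → V.Nonempty → ∀ ε > 0, ∃ V' ⊆ V, IsOpen V' ∧ V'.Nonempty ∧
      ∃ J, ∀ q ∈ V', q ∈ C' → ∀ j, J ≤ j → |D.f (γ • q) j - D.f q j| ≤ ε) := by
  classical
  let S1 : ℕ × ℚ × ℚ → Set Y := fun t => {y | (t.2.1 : ℝ) < D.f y t.1 ∧ D.f y t.1 < t.2.2}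
  let S2 : G × ℕ × ℕ → Set Y := fun t =>
    {y | ∀ j, t.2.1 ≤ j → |D.f (t.1 • y) j - D.f y j| ≤ 1 / ((t.2.2 : ℝ) + 1)}
  have hfj : ∀ j, Measurable fun y => D.f y j := fun j => (measurable_pi_apply j).comp hf
  have hS1 : ∀ t, MeasurableSet (S1 t) := fun t =>
    (measurableSet_lt measurable_const (hfj _)).inter (measurableSet_lt (hfj _) measurable_const)
  have hS2 : ∀ t, MeasurableSet (S2 t) := by
    intro t
    have : S2 t = ⋂ j, ⋂ _ : t.2.1 ≤ j,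
        {y | |D.f (t.1 • y) j - D.f y j| ≤ 1 / ((t.2.2 : ℝ) + 1)} := by
      ext y; simp [S2]
    rw [this]
    refine MeasurableSet.iInter fun j => MeasurableSet.iInter fun _ => ?_
    have h1 : Measurable fun y => D.f (t.1 • y) j :=
      (hfj j).comp (D.hcont t.1).measurable
    exact measurableSet_le (h1.sub (hfj j)).abs measurable_const
  choose U1 hU1 hSU1 using fun t => (hS1 t).residualEq_isOpen
  choose U2 hU2 hSU2 using fun t => (hS2 t).residualEq_isOpen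
  let C : Set Y := (⋂ t, {x | x ∈ S1 t ↔ x ∈ U1 t}) ∩ ⋂ t, {x | x ∈ S2 t ↔ x ∈ U2 t}
  have hC : C ∈ residual Y := by
    refine inter_mem (countable_iInter_mem.2 fun i => (hSU1 i).mem_iff)
      (countable_iInter_mem.2 fun i => (hSU2 i).mem_iff)
  obtain ⟨O, hO1, hO2, hO3⟩ : ∃ O : ℕ → Set Y, (∀ r, IsOpen (O r)) ∧ (⋂ r, O r) ⊆ C ∧
      (⋂ r, O r) ∈ residual Y := by
    obtain ⟨S, h1, h2, h3, h4⟩ := mem_residual_iff.1 hC
    rcases S.eq_empty_or_nonempty with h | h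
    · refine ⟨fun _ => univ, fun _ => isOpen_univ, ?_, by simp⟩
      rw [h, sInter_empty] at h4
      exact (subset_univ _).trans h4
    · obtain ⟨O, hO⟩ := h3.exists_eq_range h
      refine ⟨O, fun r => h1 _ (by rw [hO]; exact ⟨r, rfl⟩), ?_, ?_⟩
      · rw [← sInter_range, ← hO]; exact h4
      · refine countable_iInter_mem.2 fun r => ?_
        have hr : O r ∈ S := by rw [hO]; exact ⟨r, rfl⟩
        exact residual_of_dense_open (h1 _ hr) (h2 _ hr)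
  let C' : Set Y := ⋂ γ : G, (fun y : Y => γ • y) ⁻¹' (⋂ r, O r)
  have hC' : C' ∈ residual Y := by
    refine countable_iInter_mem.2 fun γ => ?_
    exact (tendsto_residual_of_isOpenMap (D.ho γ).continuous (D.ho γ).isOpenMap) hO3
  have hC'O : C' ⊆ ⋂ r, O r := by
    intro y hy
    have := mem_iInter.1 hy 1
    simpa using this
  refine ⟨C, C', O, hO1, hO2, hC'O, hC', ?_, ?_, ?_⟩
  · intro γ y hy
    refine mem_iInter.2 fun γ' => ?_
    have := mem_iInter.1 hy (γ' * γ)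
    simpa [mul_smul] using this
  · intro y hy j ε hε
    obtain ⟨a, ha1, ha2⟩ := exists_rat_btwn (sub_lt_self (D.f y j) hε)
    obtain ⟨b, hb1, hb2⟩ := exists_rat_btwn (lt_add_of_pos_right (D.f y j) hε)
    have h1 : y ∈ S1 (j, a, b) := ⟨ha2, hb1⟩
    have h2 : y ∈ U1 (j, a, b) := (mem_iInter.1 hy.1 (j, a, b)).1 h1
    refine ⟨U1 (j, a, b), (hU1 _).mem_nhds h2, fun z hz hzC => ?_⟩
    have h3 : z ∈ S1 (j, a, b) := (mem_iInter.1 hzC.1 (j, a, b)).2 hz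
    have h4 : (a : ℝ) < D.f z j := h3.1
    have h5 : D.f z j < b := h3.2
    rw [abs_lt]; constructor <;> linarith
  · intro γ V hV hVn ε hε
    obtain ⟨m, hm⟩ := exists_nat_one_div_lt hε
    obtain ⟨y, hyV, hyC⟩ := (dense_of_mem_residual hC').inter_open_nonempty V hV hVn
    have h1 := D.hG γ y
    rw [Metric.tendsto_atTop] at h1
    obtain ⟨J, hJ⟩ := h1 (1 / ((m : ℝ) + 1)) (by positivity)
    have h2 : y ∈ S2 (γ, J, m) := fun j hj => by
      have := hJ j hj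
      rw [Real.dist_eq, sub_zero] at this
      exact this.le
    have hyC2 : y ∈ C := hO2 (hC'O hyC)
    have h3 : y ∈ U2 (γ, J, m) := (mem_iInter.1 hyC2.2 (γ, J, m)).1 h2
    refine ⟨V ∩ U2 (γ, J, m), inter_subset_left, hV.inter (hU2 _), ⟨y, hyV, h3⟩, J, ?_⟩
    intro q hq hqC j hj
    have h4 : q ∈ S2 (γ, J, m) := (mem_iInter.1 (hO2 (hC'O hqC)).2 (γ, J, m)).2 hq.2
    exact (h4 j hj).trans hm.le

/-- dependent choice of a sequence -/
theorem seq_of_step {S : Type} (P : ℕ → S → Prop) (R : ℕ → S → S → Prop) (h0 : ∃ s, P 0 s)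
    (hs : ∀ n s, P n s → ∃ s', P (n + 1) s' ∧ R n s s') :
    ∃ s : ℕ → S, (∀ n, P n (s n)) ∧ ∀ n, R n (s n) (s (n + 1)) := by
  classical
  obtain ⟨s0, h0⟩ := h0
  choose! F hF using hs
  let u : ℕ → S := fun n => Nat.rec s0 (fun n s => F n s) n
  have hP : ∀ n, P n (u n) := by
    intro n
    induction n with
    | zero => exact h0
    | succ n ih => exact (hF n (u n) ih).1
  exact ⟨u, hP, fun n => (hF n (u n) (hP n)).2⟩

/-- the limit of a fusion -/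
theorem limit [CompleteSpace Y] (hcont : ∀ γ : G, Continuous fun y : Y => γ • y)
    (g : ℕ → G) (W : ℕ → Set Y) (hW : ∀ l, (W l).Nonempty)
    (h1 : ∀ l, closure (W (l + 1)) ⊆ W l)
    (h2 : ∀ l, closure ((fun y => g (l + 1) • y) '' W (l + 1)) ⊆ (fun y => g l • y) '' W l)
    (h3 : ∀ l, ∀ x ∈ W (l + 1), ∀ y ∈ W (l + 1), dist x y ≤ (1 / 2 : ℝ) ^ l)
    (h4 : ∀ l, ∀ x ∈ W (l + 1), ∀ y ∈ W (l + 1), dist (g (l + 1) • x) (g (l + 1) • y) ≤
      (1 / 2 : ℝ) ^ l) :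
    ∃ p q : Y, (∀ l, p ∈ W l) ∧ (∀ l, q ∈ (fun y => g l • y) '' W l) ∧
      Tendsto (fun l => g l • p) atTop (𝓝 q) := by
  have hanti : ∀ l m, l ≤ m → W m ⊆ W l := by
    intro l m hlm
    induction m, hlm using Nat.le_induction with
    | base => exact Subset.rfl
    | succ m _ ih => exact (subset_closure.trans (h1 m)).trans ih
  have hantiV : ∀ l m, l ≤ m → (fun y => g m • y) '' W m ⊆ (fun y => g l • y) '' W l := by
    intro l m hlm
    induction m, hlm using Nat.le_induction with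
    | base => exact Subset.rfl
    | succ m _ ih => exact (subset_closure.trans (h2 m)).trans ih
  choose x hx using hW
  have hc : CauchySeq fun l => x (l + 1) := by
    refine cauchySeq_of_le_geometric (1 / 2 : ℝ) 1 (by norm_num) fun l => ?_
    rw [one_mul]
    exact h3 l _ (hx _) _ (hanti (l + 1) (l + 1 + 1) (by omega) (hx _))
  obtain ⟨p, hp⟩ := cauchySeq_tendsto_of_complete hc
  have hpW : ∀ l, p ∈ W l := by
    intro l
    refine h1 l (mem_closure_of_tendsto hp ?_)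
    filter_upwards [eventually_ge_atTop l] with m hm
    exact hanti (l + 1) (m + 1) (by omega) (hx _)
  have hc2 : CauchySeq fun l => g (l + 1) • p := by
    refine cauchySeq_of_le_geometric (1 / 2 : ℝ) 1 (by norm_num) fun l => ?_
    rw [one_mul]
    have hm : g (l + 1 + 1) • p ∈ (fun y => g (l + 1) • y) '' W (l + 1) :=
      hantiV (l + 1) (l + 1 + 1) (by omega) ⟨p, hpW _, rfl⟩
    obtain ⟨y, hy, hy2⟩ := hm
    rw [← hy2]
    exact h4 l _ (hpW _) _ hy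
  obtain ⟨q, hq⟩ := cauchySeq_tendsto_of_complete hc2
  refine ⟨p, q, hpW, fun l => ?_, (tendsto_add_atTop_iff_nat 1).1 hq⟩
  refine h2 l (mem_closure_of_tendsto hq ?_)
  filter_upwards [eventually_ge_atTop l] with m hm
  exact hantiV (l + 1) (m + 1) (by omega) ⟨p, hpW _, rfl⟩

/-- shrinking -/
theorem shrink (hcont : ∀ γ : G, Continuous fun y : Y => γ • y) (g : G) (p : Y) (U1 U2 : Set Y)
    (h1 : U1 ∈ 𝓝 p) (h2 : U2 ∈ 𝓝 (g • p)) (ρ : ℝ) (hρ : 0 < ρ) :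
    ∃ W : Set Y, IsOpen W ∧ p ∈ W ∧ closure W ⊆ U1 ∧ closure ((fun y => g • y) '' W) ⊆ U2 ∧
      (∀ x ∈ W, ∀ y ∈ W, dist x y ≤ ρ) ∧ (∀ x ∈ W, ∀ y ∈ W, dist (g • x) (g • y) ≤ ρ) := by
  obtain ⟨r1, hr1, hb1⟩ := Metric.mem_nhds_iff.1 h1
  obtain ⟨r2, hr2, hb2⟩ := Metric.mem_nhds_iff.1 h2
  let a := min (r1 / 2) (ρ / 2)
  let b := min (r2 / 2) (ρ / 2)
  have ha : 0 < a := by positivity
  have hb : 0 < b := by positivity
  refine ⟨Metric.ball p a ∩ (fun y => g • y) ⁻¹' Metric.ball (g • p) b,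
    Metric.isOpen_ball.inter (Metric.isOpen_ball.preimage (hcont g)),
    ⟨Metric.mem_ball_self ha, Metric.mem_ball_self hb⟩, ?_, ?_, ?_, ?_⟩
  · refine (closure_mono inter_subset_left).trans (Metric.closure_ball_subset_closedBall.trans
      ((Metric.closedBall_subset_ball ?_).trans hb1))
    exact lt_of_le_of_lt (min_le_left _ _) (by linarith)
  · have h5 : (fun y => g • y) '' (Metric.ball p a ∩ (fun y => g • y) ⁻¹' Metric.ball (g • p) b) ⊆
        Metric.ball (g • p) b := by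
      rintro _ ⟨y, hy, rfl⟩; exact hy.2
    refine (closure_mono h5).trans (Metric.closure_ball_subset_closedBall.trans
      ((Metric.closedBall_subset_ball ?_).trans hb2))
    exact lt_of_le_of_lt (min_le_left _ _) (by linarith)
  · intro x hx y hy
    have h5 := Metric.mem_ball.1 hx.1
    have h6 := Metric.mem_ball.1 hy.1
    have h7 := dist_triangle_right x y p
    have h8 : a ≤ ρ / 2 := min_le_right _ _
    linarith
  · intro x hx y hy
    have h5 := Metric.mem_ball.1 hx.2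
    have h6 := Metric.mem_ball.1 hy.2
    have h7 := dist_triangle_right (g • x) (g • y) (g • p)
    have h8 : b ≤ ρ / 2 := min_le_right _ _
    linarith

end Pool.Agent.H453R3.QA
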