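import Pool.Agent.H453R3.QA1

/-!
# Abstract fusion: the three constructions
-/

set_option autoImplicit false

open Filter Topology Set MeasureTheory

namespace Pool.Agent.H453R3.QA

variable {Y G : Type} [MetricSpace Y] [Group G] [MulAction G Y] (D : Data Y G)

/-- generic package -/
structure Gen (C C' : Set Y) (O : ℕ → Set Y) : Prop where
  hO : ∀ r, IsOpen (O r)
  hOC : (⋂ r, O r) ⊆ C
  hC'O : C' ⊆ ⋂ r, O r
  hd : Dense C'
  hinv : ∀ γ : G, ∀ y ∈ C', γ • y ∈ C'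
  hct : ∀ y ∈ C, ∀ j, ∀ ε > 0, ∃ U ∈ 𝓝 y, ∀ z ∈ U, z ∈ C → |D.f z j - D.f y j| < ε
  hF2 : ∀ γ : G, ∀ V : Set Y, IsOpen V → V.Nonempty → ∀ ε > 0, ∃ V' ⊆ V, IsOpen V' ∧
    V'.Nonempty ∧ ∃ J, ∀ q ∈ V', q ∈ C' → ∀ j, J ≤ j → |D.f (γ • q) j - D.f q j| ≤ ε

variable {D}
variable {C C' : Set Y} {O : ℕ → Set Y}

theorem Gen.osc (hG : Gen D C C' O) (y : Y) (hy : y ∈ C) (J : ℕ) (ε : ℝ) (hε : 0 < ε) :
    ∃ U ∈ 𝓝 y, ∀ z ∈ U, z ∈ C → ∀ j < J, |D.f z j - D.f y j| < ε := by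
  choose U hU hU2 using fun j => hG.hct y hy j ε hε
  refine ⟨⋂ j ∈ Set.Iio J, U j, (Filter.biInter_mem (Set.finite_Iio J)).2 fun j _ => hU j, ?_⟩
  intro z hz hzC j hj
  exact hU2 j z (mem_iInter₂.1 hz j hj) hzC

theorem Gen.sub (hG : Gen D C C' O) : C' ⊆ C := hG.hC'O.trans hG.hOC

variable (D)

/-- small perturbations -/
def AP (C' V : Set Y) (ε δ : ℝ) (N : ℕ) : Prop :=
  ∀ q ∈ V, q ∈ C' → ∀ γ : G, D.ν γ < δ → γ • q ∈ V → ∀ j, N ≤ j → |D.f (γ • q) j - D.f q j| ≤ ε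

theorem image_mem (D : Data Y G) (g : G) (W : Set Y) (hW : IsOpen W) (p : Y) (hp : p ∈ W) :
    (fun y => g • y) '' W ∈ 𝓝 (g • p) :=
  ((D.ho g).isOpenMap W hW).mem_nhds ⟨p, hp, rfl⟩

theorem stepA [CompleteSpace Y] (hG : Gen D C C' O) (V : Set Y) (hV : IsOpen V)
    (hVn : V.Nonempty) (ε : ℝ) (hε : 0 < ε) : ∃ V' ⊆ V, IsOpen V' ∧ V'.Nonempty ∧
    ∃ δ > 0, ∃ N, AP D C' V' ε δ N := by
  by_contra hcon
  have hbad : ∀ V' ⊆ V, IsOpen V' → V'.Nonempty → ∀ δ > 0, ∀ N, ∃ q ∈ V', q ∈ C' ∧ ∃ γ : G,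
      D.ν γ < δ ∧ γ • q ∈ V' ∧ ∃ j, N ≤ j ∧ ε < |D.f (γ • q) j - D.f q j| := by
    intro V' h1 h2 h3 δ hδ N
    by_contra h
    apply hcon
    refine ⟨V', h1, h2, h3, δ, hδ, N, ?_⟩
    intro q hq hqC γ hγ hγV j hj
    by_contra hlt
    exact h ⟨q, hq, hqC, γ, hγ, hγV, j, hj, lt_of_not_ge hlt⟩
  obtain ⟨s, hP, hR⟩ := seq_of_step (S := G × Set Y)
    (fun _ s => IsOpen s.2 ∧ s.2.Nonempty ∧ s.2 ⊆ V)
    (fun l s s' => closure s'.2 ⊆ s.2 ∧
      closure ((fun y => s'.1 • y) '' s'.2) ⊆ (fun y => s.1 • y) '' s.2 ∧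
      (∀ x ∈ s'.2, ∀ y ∈ s'.2, dist x y ≤ (1 / 2 : ℝ) ^ l) ∧
      (∀ x ∈ s'.2, ∀ y ∈ s'.2, dist (s'.1 • x) (s'.1 • y) ≤ (1 / 2 : ℝ) ^ l) ∧
      s'.2 ⊆ O l ∧ (fun y => s'.1 • y) '' s'.2 ⊆ O l ∧ D.ν (s.1⁻¹ * s'.1) ≤ (1 / 2 : ℝ) ^ l ∧
      ∃ j, l ≤ j ∧ ∀ x ∈ s'.2, ∀ y ∈ (fun y => s'.1 • y) '' s'.2, x ∈ C → y ∈ C →
        ε / 4 ≤ |D.f y j - D.f x j|)
    ⟨(1, V), hV, hVn, Subset.rfl⟩ (by
      rintro l ⟨g, W⟩ ⟨hW1, hW2, hW3⟩
      dsimp only at hW1 hW2 hW3 ⊢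
      obtain ⟨p', hp', hp'C, γ, hγ, hγW, j, hj, hjε⟩ :=
        hbad W hW3 hW1 hW2 ((1 / 2 : ℝ) ^ l) (by positivity) l
      have key : ∃ (g' : G) (p1 : Y), p1 ∈ W ∧ p1 ∈ C' ∧ g' • p1 = g • p' ∧
          D.ν (g⁻¹ * g') ≤ (1 / 2 : ℝ) ^ l ∧ ε / 2 ≤ |D.f (g • p') j - D.f p1 j| := by
        by_cases hc : ε / 2 ≤ |D.f (g • p') j - D.f p' j|
        · refine ⟨g, p', hp', hp'C, rfl, ?_, hc⟩
          rw [inv_mul_cancel, D.hν1]; positivity
        · refine ⟨g * γ⁻¹, γ • p', hγW, hG.hinv _ _ hp'C, by simp [mul_smul], ?_, ?_⟩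
          · rw [← mul_assoc, inv_mul_cancel, one_mul, D.hνinv]; exact hγ.le
          · push Not at hc
            have h5 := abs_sub_abs_le_abs_sub (D.f (γ • p') j - D.f p' j)
              (D.f (g • p') j - D.f p' j)
            have h6 : D.f (γ • p') j - D.f p' j - (D.f (g • p') j - D.f p' j) =
              -(D.f (g • p') j - D.f (γ • p') j) := by ring
            rw [h6, abs_neg] at h5
            linarith
      obtain ⟨g', p1, hp1W, hp1C, hgp, hν, hgap⟩ := key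
      have hqC : g • p' ∈ C' := hG.hinv _ _ hp'C
      obtain ⟨U1, hU1, hU1'⟩ := hG.hct p1 (hG.sub hp1C) j (ε / 8) (by positivity)
      obtain ⟨U2, hU2, hU2'⟩ := hG.hct (g • p') (hG.sub hqC) j (ε / 8) (by positivity)
      have hn1 : W ∩ O l ∩ U1 ∈ 𝓝 p1 := inter_mem (inter_mem (hW1.mem_nhds hp1W)
        ((hG.hO l).mem_nhds (mem_iInter.1 (hG.hC'O hp1C) l))) hU1
      have hn2 : (fun y => g • y) '' W ∩ O l ∩ U2 ∈ 𝓝 (g' • p1) := by
        rw [hgp]
        exact inter_mem (inter_mem (image_mem D g W hW1 p' hp')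
          ((hG.hO l).mem_nhds (mem_iInter.1 (hG.hC'O hqC) l))) hU2
      obtain ⟨W', h1, h2, h3, h4, h5, h6⟩ := shrink D.hcont g' p1 _ _ hn1 hn2
        ((1 / 2 : ℝ) ^ l) (by positivity)
      refine ⟨(g', W'), ⟨h1, ⟨p1, h2⟩, ?_⟩, ?_⟩
      · exact (subset_closure.trans h3).trans ((inter_subset_left.trans inter_subset_left).trans hW3)
      · dsimp only
        refine ⟨h3.trans (inter_subset_left.trans inter_subset_left),
          h4.trans (inter_subset_left.trans inter_subset_left), h5, h6,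
          (subset_closure.trans h3).trans (inter_subset_left.trans inter_subset_right),
          (subset_closure.trans h4).trans (inter_subset_left.trans inter_subset_right), hν,
          j, hj, ?_⟩
        intro x hx y hy hxC hyC
        have h7 := hU1' x (h3 (subset_closure hx)).2 hxC
        have h8 := hU2' y (h4 (subset_closure hy)).2 hyC
        have h9 := abs_lt.1 h7
        have h10 := abs_lt.1 h8
        rcases le_abs.1 hgap with h | h
        · refine le_trans ?_ (le_abs_self _); linarith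
        · refine le_trans ?_ (neg_le_abs _); linarith)
  obtain ⟨p, q, hp, hq, ht⟩ := limit D.hcont (fun l => (s l).1) (fun l => (s l).2)
    (fun l => (hP l).2.1) (fun l => (hR l).1) (fun l => (hR l).2.1) (fun l => (hR l).2.2.1)
    (fun l => (hR l).2.2.2.1)
  have hpC : p ∈ C := hG.hOC (mem_iInter.2 fun r => (hR r).2.2.2.2.1 (hp (r + 1)))
  have hqC : q ∈ C := hG.hOC (mem_iInter.2 fun r => (hR r).2.2.2.2.2.1 (hq (r + 1)))
  have h1 := D.hA (fun l => (s l).1) (fun l => (hR l).2.2.2.2.2.2.1) p q ht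
  rw [Metric.tendsto_atTop] at h1
  obtain ⟨L, hL⟩ := h1 (ε / 4) (by positivity)
  obtain ⟨j, hj, hj2⟩ := (hR L).2.2.2.2.2.2.2
  have h2 := hL j hj
  rw [Real.dist_eq, sub_zero] at h2
  have h3 := hj2 p (hp (L + 1)) q (hq (L + 1)) hpC hqC
  linarith

theorem far_nhds (y : Y) (U : Set Y) (hU : U ∈ 𝓝 y) :
    ∃ U' ⊆ U, IsOpen U' ∧ y ∈ U' ∧ ∃ M, ∀ β, D.Far M β → ∀ z ∈ U', β • z ∈ U := by
  by_contra hcon
  have hbad : ∀ k : ℕ, ∃ z ∈ Metric.ball y (1 / ((k : ℝ) + 1)), ∃ β, D.Far k β ∧ β • z ∉ U := by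
    intro k
    by_contra h
    apply hcon
    obtain ⟨r, hr, hb⟩ := Metric.mem_nhds_iff.1 hU
    refine ⟨Metric.ball y (1 / ((k : ℝ) + 1)) ∩ Metric.ball y r, inter_subset_right.trans hb,
      Metric.isOpen_ball.inter Metric.isOpen_ball, ⟨Metric.mem_ball_self (by positivity),
        Metric.mem_ball_self hr⟩, k, fun β hβ z hz => ?_⟩
    by_contra hzU
    exact h ⟨z, hz.1, β, hβ, hzU⟩
  choose z hz β hβ hU2 using hbad
  have h1 : Tendsto z atTop (𝓝 y) := by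
    rw [tendsto_iff_dist_tendsto_zero]
    exact squeeze_zero (fun _ => dist_nonneg) (fun k => (Metric.mem_ball.1 (hz k)).le)
      tendsto_one_div_add_atTop_nhds_zero_nat
  have h2 := D.hF y z β hβ h1
  obtain ⟨k, hk⟩ := (h2.eventually hU).exists
  exact hU2 k hk

theorem core (hG : Gen D C C' O) (V : Set Y) (hV : IsOpen V)
    (hVn : V.Nonempty) (ε : ℝ) (hε : 0 < ε) (δ : ℝ) (hδ : 0 < δ) (N : ℕ)
    (hAP : AP D C' V ε δ N) (M0 : ℕ) : ∃ γ : G, ∃ V' ⊆ V, IsOpen V' ∧ V'.Nonempty ∧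
    (∀ q ∈ V', γ • q ∈ V) ∧
    (∀ q ∈ V', q ∈ C' → ∀ j, N ≤ j → |D.f (γ • q) j - D.f q j| ≤ 3 * ε) ∧
    (∀ g, D.Low M0 g → ∀ q ∈ V', D.Wit M0 (g⁻¹ • q) (γ • q)) := by
  classical
  obtain ⟨K, Bl, η, hη, hb0, hb1, hb2, hb3, hb4⟩ := D.hB δ hδ
  obtain ⟨y, hy⟩ := hVn
  obtain ⟨V0, hV0V, hV0o, hyV0, M1, hM1⟩ := far_nhds D y V (hV.mem_nhds hy)
  have main : ∀ s, s ≤ K → ∃ (i : ℕ → ℕ) (Vs : Set Y) (J M : ℕ), Vs ⊆ V0 ∧ IsOpen Vs ∧
      Vs.Nonempty ∧ N ≤ J ∧ max M0 M1 ≤ M ∧ (∀ t < s, max M0 M1 ≤ i t) ∧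
      (∀ t, t + 1 < s → i t + 1 < i (t + 1)) ∧ (∀ t < s, i t + 1 < M) ∧
      (∀ q ∈ Vs, ∀ t < s, D.Gd (i t) η q) ∧
      (∀ q ∈ Vs, q ∈ C' → ∀ j, J ≤ j → |D.f (Bl s i • q) j - D.f q j| ≤ ε) ∧
      (∀ q ∈ Vs, q ∈ C' → ∀ j, N ≤ j → j < J → ∃ s' < s, ∃ M' ≤ M,
        (∀ t, s' < t → t < s → M' ≤ i t) ∧
        ∀ β, D.Far M' β → |D.f (β • (Bl s' i • q)) j - D.f q j| ≤ 2 * ε) := by
    intro s
    induction s with
    | zero =>
      intro _
      refine ⟨fun _ => 0, V0, N, max M0 M1, Subset.rfl, hV0o, ⟨y, hyV0⟩, le_rfl, le_rfl,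
        fun t ht => absurd ht (Nat.not_lt_zero t), fun t ht => absurd ht (Nat.not_lt_zero _),
        fun t ht => absurd ht (Nat.not_lt_zero t), fun q _ t ht => absurd ht (Nat.not_lt_zero t),
        ?_, ?_⟩
      · intro q _ _ j _
        rw [hb0, one_smul, sub_self, abs_zero]; exact hε.le
      · intro q _ _ j h1 h2; omega
    | succ s ih =>
      intro hs
      obtain ⟨i, Vs, J, M, h1, h2, h3, h4, h5, h6, h7, h8, h9, h10, h11⟩ := ih (by omega)
      obtain ⟨is, his, h12⟩ := D.h4 Vs h2 h3 M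
      obtain ⟨V', hV'1, hV'2, hV'3, hV'4⟩ := h12 η hη
      let i' : ℕ → ℕ := Function.update i s is
      have hi's : i' s = is := Function.update_self _ _ _
      have hi't : ∀ t < s, i' t = i t := fun t ht => Function.update_of_ne (by omega) _ _
      have hBl : ∀ s' ≤ s, Bl s' i' = Bl s' i := fun s' hs' =>
        hb1 s' _ _ fun t ht => hi't t (by omega)
      obtain ⟨V'', hV''1, hV''2, hV''3, J', hJ'⟩ := hG.hF2 (Bl (s + 1) i') V' hV'2 hV'3 ε hε
      obtain ⟨q0, hq0V, hq0C⟩ := hG.hd.inter_open_nonempty V'' hV''2 hV''3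
      have hy1C : Bl s i' • q0 ∈ C' := hG.hinv _ _ hq0C
      obtain ⟨U, hU, hU2⟩ := hG.osc (Bl s i' • q0) (hG.sub hy1C) (max J J') (ε / 2)
        (by positivity)
      obtain ⟨U', hU'U, hU'o, hU'm, M'', hM''⟩ := far_nhds D (Bl s i' • q0) U hU
      refine ⟨i', V'' ∩ (fun q => Bl s i' • q) ⁻¹' U', max J J', max (max M M'') (is + 2),
        ((inter_subset_left.trans hV''1).trans hV'1).trans h1,
        hV''2.inter (hU'o.preimage (D.hcont _)), ⟨q0, hq0V, hU'm⟩, h4.trans (le_max_left _ _),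
        h5.trans ((le_max_left _ _).trans (le_max_left _ _)), ?_, ?_, ?_, ?_, ?_, ?_⟩
      · intro t ht
        rcases Nat.lt_succ_iff_lt_or_eq.1 ht with h | h
        · rw [hi't t h]; exact h6 t h
        · rw [h, hi's]; exact h5.trans his
      · intro t ht
        rcases Nat.lt_succ_iff_lt_or_eq.1 ht with h | h
        · rw [hi't t (by omega), hi't (t + 1) h]; exact h7 t h
        · rw [h, hi's, hi't t (by omega)]
          exact lt_of_lt_of_le (h8 t (by omega)) his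
      · intro t ht
        rcases Nat.lt_succ_iff_lt_or_eq.1 ht with h | h
        · rw [hi't t h]
          exact lt_of_lt_of_le (h8 t h) ((le_max_left _ _).trans (le_max_left _ _))
        · rw [h, hi's]
          exact lt_of_lt_of_le (by omega) (le_max_right _ _)
      · intro q hq t ht
        rcases Nat.lt_succ_iff_lt_or_eq.1 ht with h | h
        · rw [hi't t h]; exact h9 q (hV'1 (hV''1 hq.1)) t h
        · rw [h, hi's]; exact hV'4 q (hV''1 hq.1)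
      · intro q hq hqC j hj
        exact hJ' q hq.1 hqC j ((le_max_right _ _).trans hj)
      · intro q hq hqC j hj1 hj2
        by_cases hjJ : j < J
        · obtain ⟨s', hs', M', hM', h13, h14⟩ := h11 q (hV'1 (hV''1 hq.1)) hqC j hj1 hjJ
          refine ⟨s', by omega, M', hM'.trans ((le_max_left _ _).trans (le_max_left _ _)),
            fun t ht1 ht2 => ?_, fun β hβ => ?_⟩
          · rcases Nat.lt_succ_iff_lt_or_eq.1 ht2 with h | h
            · rw [hi't t h]; exact h13 t ht1 h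
            · rw [h, hi's]; exact hM'.trans his
          · rw [hBl s' (by omega)]; exact h14 β hβ
        · refine ⟨s, by omega, _, le_rfl, fun t ht1 ht2 => by omega, fun β hβ => ?_⟩
          have hzC : Bl s i' • q ∈ C' := hG.hinv _ _ hqC
          have hz1 := hU2 _ (hU'U hq.2) (hG.sub hzC) j hj2
          have hz2 := hU2 _ (hM'' β (D.hFmono _ _ β hβ
            ((le_max_right _ _).trans (le_max_left _ _))) _ hq.2)
            (hG.sub (hG.hinv _ _ hzC)) j hj2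
          have hz3 := h10 q (hV'1 (hV''1 hq.1)) hqC j (by omega)
          rw [← hBl s le_rfl] at hz3
          have a1 := abs_lt.1 hz1
          have a2 := abs_lt.1 hz2
          have a3 := abs_le.1 hz3
          rw [abs_le]; constructor <;> linarith
  obtain ⟨i, Vs, J, M, h1, h2, h3, h4, h5, h6, h7, h8, h9, h10, h11⟩ := main K le_rfl
  let i' : ℕ → ℕ := fun t => if t < K then i t else M + 2 * t
  have hi't : ∀ t < K, i' t = i t := fun t ht => if_pos ht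
  have hi'g : ∀ t, K ≤ t → i' t = M + 2 * t := fun t ht => if_neg (by omega)
  have hBl : ∀ s' ≤ K, Bl s' i' = Bl s' i := fun s' hs' =>
    hb1 s' _ _ fun t ht => hi't t (by omega)
  have hAdm : ∀ t, i' t + 1 < i' (t + 1) := by
    intro t
    by_cases ht : t + 1 < K
    · rw [hi't t (by omega), hi't _ ht]; exact h7 t ht
    · rw [hi'g (t + 1) (by omega)]
      by_cases ht2 : t < K
      · rw [hi't t ht2]; have := h8 t ht2; omega
      · rw [hi'g t (by omega)]; omega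
  have hlow : ∀ t, max M0 M1 ≤ i' t := by
    intro t
    by_cases ht : t < K
    · rw [hi't t ht]; exact h6 t ht
    · rw [hi'g t (by omega)]; exact h5.trans (by omega)
  have hfar : ∀ s, D.Far M1 (Bl s i') := fun s => hb2 s i' M1 fun t _ =>
    (le_max_right _ _).trans (hlow t)
  refine ⟨Bl K i', Vs, h1.trans hV0V, h2, h3, fun q hq => hM1 _ (hfar K) _ (h1 hq), ?_, ?_⟩
  · intro q hq hqC j hj
    by_cases hjJ : J ≤ j
    · have := h10 q hq hqC j hjJ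
      rw [hBl K le_rfl]
      linarith
    · obtain ⟨s', hs', M', hM', h13, h14⟩ := h11 q hq hqC j hj (by omega)
      obtain ⟨β, hβ1, hβ2⟩ := hb3 i' hAdm s' hs'
      have hβM' : D.Far M' β := hβ1 M' fun t ht => by
        by_cases htK : t < K
        · rw [hi't t htK]; exact h13 t ht htK
        · rw [hi'g t (by omega)]; exact hM'.trans (by omega)
      have hβM1 : D.Far M1 β := hβ1 M1 fun t _ => (le_max_right _ _).trans (hlow t)
      have e1 : (Bl K i' * (β * Bl s' i')⁻¹) • ((β * Bl s' i') • q) = Bl K i' • q := by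
        rw [← mul_smul]; congr 1; group
      have hm1 : (β * Bl s' i') • q ∈ V := hM1 _ (D.hFmul _ _ _ hβM1 (hfar s')) _ (h1 hq)
      have hm2 : Bl K i' • q ∈ V := hM1 _ (hfar K) _ (h1 hq)
      have h15 := hAP ((β * Bl s' i') • q) hm1 (hG.hinv _ _ hqC) _ hβ2 (by rw [e1]; exact hm2) j hj
      rw [e1] at h15
      have h16 := h14 β hβM'
      rw [← hBl s' hs'.le, ← mul_smul] at h16
      have a1 := abs_le.1 h15
      have a2 := abs_le.1 h16
      rw [abs_le]; constructor <;> linarith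
  · intro g hg q hq
    refine hb4 i' hAdm M0 (fun t => (le_max_left _ _).trans (hlow t)) g hg q fun t ht => ?_
    rw [hi't t ht]; exact h9 q hq t ht

/-- there is no such configuration -/
theorem main [CompleteSpace Y] [MeasurableSpace Y] [BorelSpace Y] [Countable G] [Nonempty Y]
    (hf : Measurable D.f) : False := by
  obtain ⟨C, C', O, g1, g2, g3, g4, g5, g6, g7⟩ := generic D hf
  have hG : Gen D C C' O := ⟨g1, g2, g3, dense_of_mem_residual g4, g5, g6, g7⟩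
  -- the block step without thresholds
  have core' : ∀ V : Set Y, IsOpen V → V.Nonempty → ∀ ε > 0, ∀ M0, ∃ γ : G, ∃ V' ⊆ V,
      IsOpen V' ∧ V'.Nonempty ∧ (∀ q ∈ V', γ • q ∈ V) ∧
      (∀ q ∈ V', q ∈ C' → ∀ j, |D.f (γ • q) j - D.f q j| ≤ 3 * ε) ∧
      (∀ g, D.Low M0 g → ∀ q ∈ V', D.Wit M0 (g⁻¹ • q) (γ • q)) := by
    intro V hV hVn ε hε M0
    obtain ⟨V1, a1, a2, a3, δ, hδ, N, hAP⟩ := stepA D hG V hV hVn ε hε
    obtain ⟨q0, hq0V, hq0C⟩ := hG.hd.inter_open_nonempty V1 a2 a3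
    obtain ⟨U, hU, hU2⟩ := hG.osc q0 (hG.sub hq0C) N ε hε
    have b1 : (V1 ∩ interior U).Nonempty := ⟨q0, hq0V, mem_interior_iff_mem_nhds.2 hU⟩
    have hAP2 : AP D C' (V1 ∩ interior U) ε δ N := fun q hq hqC γ hγ hγV j hj =>
      hAP q hq.1 hqC γ hγ hγV.1 j hj
    obtain ⟨γ, V', c1, c2, c3, c4, c5, c6⟩ := core D hG (V1 ∩ interior U)
      (a2.inter isOpen_interior) b1 ε hε δ hδ N hAP2 M0
    refine ⟨γ, V', c1.trans (inter_subset_left.trans a1), c2, c3, fun q hq => a1 (c4 q hq).1,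
      fun q hq hqC j => ?_, c6⟩
    by_cases hj : N ≤ j
    · exact c5 q hq hqC j hj
    · have d1 := hU2 q (interior_subset (c1 hq).2) (hG.sub hqC) j (by omega)
      have d2 := hU2 (γ • q) (interior_subset (c4 q hq).2) (hG.sub (hG.hinv _ _ hqC)) j (by omega)
      have e1 := abs_lt.1 d1
      have e2 := abs_lt.1 d2
      rw [abs_le]; constructor <;> linarith
  obtain ⟨s, hP, hR⟩ := seq_of_step (S := G × Set Y × ℕ)
    (fun l s => IsOpen s.2.1 ∧ s.2.1.Nonempty ∧ l ≤ s.2.2 ∧ ∀ p ∈ s.2.1, p ∈ C' →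
      ∀ j, s.2.2 ≤ j → |D.f (s.1 • p) j - D.f p j| ≤ (1 / 2 : ℝ) ^ l)
    (fun l s s' => closure s'.2.1 ⊆ s.2.1 ∧
      closure ((fun y => s'.1 • y) '' s'.2.1) ⊆ (fun y => s.1 • y) '' s.2.1 ∧
      (∀ x ∈ s'.2.1, ∀ y ∈ s'.2.1, dist x y ≤ (1 / 2 : ℝ) ^ l) ∧
      (∀ x ∈ s'.2.1, ∀ y ∈ s'.2.1, dist (s'.1 • x) (s'.1 • y) ≤ (1 / 2 : ℝ) ^ l) ∧
      s'.2.1 ⊆ O l ∧ (fun y => s'.1 • y) '' s'.2.1 ⊆ O l ∧ s.2.2 < s'.2.2 ∧
      (∀ x ∈ s'.2.1, ∀ y ∈ (fun y => s'.1 • y) '' s'.2.1, D.Wit l x y) ∧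
      (∀ x ∈ s'.2.1, ∀ y ∈ (fun y => s'.1 • y) '' s'.2.1, x ∈ C → y ∈ C →
        ∀ j, s.2.2 ≤ j → j < s'.2.2 → |D.f y j - D.f x j| ≤ 6 * (1 / 2 : ℝ) ^ l))
    ⟨(1, univ, 0), isOpen_univ, univ_nonempty, le_rfl, fun p _ _ j _ => by simp⟩ (by
      rintro l ⟨g, W, J⟩ ⟨hW1, hW2, hlJ, hW3⟩
      dsimp only at hW1 hW2 hW3 hlJ ⊢
      have hε : (0 : ℝ) < (1 / 2) ^ l := by positivity
      obtain ⟨Mg, hMg⟩ := D.hL g
      have hV : IsOpen ((fun y => g • y) '' W) := (D.ho g).isOpenMap W hW1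
      obtain ⟨γ, V3, c1, c2, c3, c4, c5, c6⟩ := core' _ hV (hW2.image _) _ hε (max l Mg)
      have hW1o : IsOpen (W ∩ (fun y => g • y) ⁻¹' V3) := hW1.inter (c2.preimage (D.hcont g))
      have hW1n : (W ∩ (fun y => g • y) ⁻¹' V3).Nonempty := by
        obtain ⟨v, hv⟩ := c3
        obtain ⟨w, hw, hwv⟩ := c1 hv
        exact ⟨w, hw, by rw [mem_preimage]; dsimp only at hwv ⊢; rw [hwv]; exact hv⟩
      obtain ⟨W2, d1, d2, d3, J', hJ'⟩ := hG.hF2 (γ * g) _ hW1o hW1n ((1 / 2 : ℝ) ^ (l + 1))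
        (by positivity)
      obtain ⟨p1, hp1W, hp1C⟩ := hG.hd.inter_open_nonempty W2 d2 d3
      have hp1 := d1 hp1W
      have hq1C : (γ * g) • p1 ∈ C' := hG.hinv _ _ hp1C
      have hgp : g • p1 ∈ C' := hG.hinv _ _ hp1C
      have hwit : D.Wit (max l Mg) p1 ((γ * g) • p1) := by
        have := c6 g (D.hLmono _ _ _ hMg (le_max_right _ _)) (g • p1) hp1.2
        rwa [inv_smul_smul, ← mul_smul] at this
      obtain ⟨A1, hA1, A2, hA2, hA12⟩ := mem_nhds_prod_iff.1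
        ((D.hO (max l Mg)).mem_nhds (show (p1, (γ * g) • p1) ∈ _ from hwit))
      let J2 := max J' (J + 1)
      obtain ⟨U1, hU1, hU1'⟩ := hG.osc p1 (hG.sub hp1C) J2 _ hε
      obtain ⟨U2, hU2, hU2'⟩ := hG.osc _ (hG.sub hq1C) J2 _ hε
      have hn1 : W2 ∩ O l ∩ (U1 ∩ A1) ∈ 𝓝 p1 := inter_mem (inter_mem (d2.mem_nhds hp1W)
        ((hG.hO l).mem_nhds (mem_iInter.1 (hG.hC'O hp1C) l))) (inter_mem hU1 hA1)
      have hq1V : (γ * g) • p1 ∈ (fun y => g • y) '' W := by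
        rw [mul_smul]; exact c4 _ hp1.2
      have hn2 : (fun y => g • y) '' W ∩ O l ∩ (U2 ∩ A2) ∈ 𝓝 ((γ * g) • p1) :=
        inter_mem (inter_mem (hV.mem_nhds hq1V)
          ((hG.hO l).mem_nhds (mem_iInter.1 (hG.hC'O hq1C) l))) (inter_mem hU2 hA2)
      obtain ⟨W', h1, h2, h3, h4, h5, h6⟩ := shrink D.hcont (γ * g) p1 _ _ hn1 hn2
        ((1 / 2 : ℝ) ^ l) (by positivity)
      refine ⟨(γ * g, W', J2), ⟨h1, ⟨p1, h2⟩, ?_, ?_⟩, ?_⟩
      · dsimp only; exact le_trans (by omega) (le_max_right _ _)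
      · intro p hp hpC j hj
        exact hJ' p (h3 (subset_closure hp)).1.1 hpC j ((le_max_left _ _).trans hj)
      · dsimp only
        refine ⟨h3.trans ((inter_subset_left.trans inter_subset_left).trans
          (d1.trans inter_subset_left)), h4.trans (inter_subset_left.trans inter_subset_left),
          h5, h6, (subset_closure.trans h3).trans (inter_subset_left.trans inter_subset_right),
          (subset_closure.trans h4).trans (inter_subset_left.trans inter_subset_right),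
          lt_of_lt_of_le (Nat.lt_succ_self J) (le_max_right _ _), ?_, ?_⟩
        · intro x hx y hy
          refine D.hWmono _ _ _ _ (hA12 (show (x, y) ∈ A1 ×ˢ A2 from
            ⟨(h3 (subset_closure hx)).2.2, (h4 (subset_closure hy)).2.2⟩)) (le_max_left _ _)
        · intro x hx y hy hxC hyC j hj1 hj2
          have e1 := hU1' x (h3 (subset_closure hx)).2.1 hxC j hj2
          have e2 := hU2' y (h4 (subset_closure hy)).2.1 hyC j hj2
          have e3 := hW3 p1 hp1.1 hp1C j hj1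
          have e4 := c5 (g • p1) hp1.2 hgp j
          rw [← mul_smul] at e4
          have a1 := abs_lt.1 e1
          have a2 := abs_lt.1 e2
          have a3 := abs_le.1 e3
          have a4 := abs_le.1 e4
          rw [abs_le]; constructor <;> linarith)
  obtain ⟨p, q, hp, hq, ht⟩ := limit D.hcont (fun l => (s l).1) (fun l => (s l).2.1)
    (fun l => (hP l).2.1) (fun l => (hR l).1) (fun l => (hR l).2.1) (fun l => (hR l).2.2.1)
    (fun l => (hR l).2.2.2.1)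
  have hpC : p ∈ C := hG.hOC (mem_iInter.2 fun r => (hR r).2.2.2.2.1 (hp (r + 1)))
  have hqC : q ∈ C := hG.hOC (mem_iInter.2 fun r => (hR r).2.2.2.2.2.1 (hq (r + 1)))
  refine D.hN p q (fun M => (hR M).2.2.2.2.2.2.2.1 p (hp (M + 1)) q (hq (M + 1))) ?_
  rw [Metric.tendsto_atTop]
  intro ε hε
  obtain ⟨L, hL⟩ : ∃ L : ℕ, 6 * (1 / 2 : ℝ) ^ L < ε := by
    obtain ⟨L, hL⟩ := exists_pow_lt_of_lt_one (show (0 : ℝ) < ε / 6 by positivity)
      (show (1 / 2 : ℝ) < 1 by norm_num)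
    exact ⟨L, by linarith⟩
  refine ⟨(s L).2.2, fun j hj => ?_⟩
  -- find the window
  have hmono : StrictMono fun l => (s l).2.2 := strictMono_nat_of_lt_succ fun l =>
    (hR l).2.2.2.2.2.2.1
  have hex : ∃ l, j < (s l).2.2 := ⟨j + 1, lt_of_lt_of_le (Nat.lt_succ_self j) (hP (j + 1)).2.2.1⟩
  classical
  have hspec := Nat.find_spec hex
  have hpos : L < Nat.find hex := by
    by_contra h
    have : (s (Nat.find hex)).2.2 ≤ (s L).2.2 := hmono.monotone (not_lt.1 h)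
    omega
  obtain ⟨l, hl⟩ : ∃ l, Nat.find hex = l + 1 := ⟨Nat.find hex - 1, by omega⟩
  have hmin : ¬ j < (s l).2.2 := Nat.find_min hex (by omega)
  rw [hl] at hspec
  have h1 := (hR l).2.2.2.2.2.2.2.2 p (hp (l + 1)) q (hq (l + 1)) hpC hqC j (not_lt.1 hmin) hspec
  rw [Real.dist_eq, sub_zero]
  refine lt_of_le_of_lt (h1.trans ?_) hL
  have : (1 / 2 : ℝ) ^ l ≤ (1 / 2 : ℝ) ^ L := pow_le_pow_of_le_one (by norm_num) (by norm_num)
    (by omega)
  linarith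

end Pool.Agent.H453R3.QA
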