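import Mathlib

/-!
# A dyadic matrix with row sums `L` and small corners
-/

set_option autoImplicit false

open Finset

namespace Pool.Agent.H453R3.QB

/-- the dyadic matrix -/
def yq : ℕ → ℕ → ℕ → ℚ
  | 0, _, _ => 0
  | L + 1, a, b => if a < 2 ^ L then (if b < 2 ^ L then yq L a b else 1 / 2 ^ L) else
      (if b < 2 ^ L then 1 / 2 ^ L else yq L (a - 2 ^ L) (b - 2 ^ L))

theorem yq_symm (L a b : ℕ) : yq L a b = yq L b a := by
  induction L generalizing a b with
  | zero => rfl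
  | succ L ih =>
    simp only [yq]
    by_cases ha : a < 2 ^ L <;> by_cases hb : b < 2 ^ L <;> simp [ha, hb, ih]

theorem yq_diag (L a : ℕ) : yq L a a = 0 := by
  induction L generalizing a with
  | zero => rfl
  | succ L ih =>
    simp only [yq]
    by_cases ha : a < 2 ^ L <;> simp [ha, ih]

theorem sum_split (L : ℕ) (F : ℕ → ℚ) : ∑ b ∈ range (2 ^ (L + 1)), F b =
    ∑ b ∈ range (2 ^ L), F b + ∑ b ∈ range (2 ^ L), F (2 ^ L + b) := by
  rw [pow_succ, mul_two, Finset.sum_range_add]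

theorem yq11 {L a b : ℕ} (ha : a < 2 ^ L) (hb : b < 2 ^ L) : yq (L + 1) a b = yq L a b := by
  simp [yq, ha, hb]

theorem yq12 {L a b : ℕ} (ha : a < 2 ^ L) : yq (L + 1) a (2 ^ L + b) = 1 / 2 ^ L := by
  simp [yq, ha]

theorem yq21 {L a b : ℕ} (hb : b < 2 ^ L) : yq (L + 1) (2 ^ L + a) b = 1 / 2 ^ L := by
  simp [yq, hb]

theorem yq22 {L a b : ℕ} : yq (L + 1) (2 ^ L + a) (2 ^ L + b) = yq L a b := by
  simp [yq]

theorem yq_row (L a : ℕ) (ha : a < 2 ^ L) : ∑ b ∈ range (2 ^ L), yq L a b = L := by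
  induction L generalizing a with
  | zero => simp [yq]
  | succ L ih =>
    rw [sum_split]
    have hc : ∑ b ∈ range (2 ^ L), (1 / 2 ^ L : ℚ) = 1 := by
      rw [sum_const, card_range, nsmul_eq_mul]; push_cast; field_simp
    by_cases h : a < 2 ^ L
    · have e1 : ∑ b ∈ range (2 ^ L), yq (L + 1) a b = ∑ b ∈ range (2 ^ L), yq L a b :=
        sum_congr rfl fun b hb => yq11 h (mem_range.1 hb)
      have e2 : ∑ b ∈ range (2 ^ L), yq (L + 1) a (2 ^ L + b) =
          ∑ b ∈ range (2 ^ L), (1 / 2 ^ L : ℚ) := sum_congr rfl fun b _ => yq12 h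
      rw [e1, e2, ih a h, hc]; push_cast; ring
    · obtain ⟨a', rfl⟩ : ∃ a', a = 2 ^ L + a' := ⟨a - 2 ^ L, by omega⟩
      have ha' : a' < 2 ^ L := by rw [pow_succ] at ha; omega
      have e1 : ∑ b ∈ range (2 ^ L), yq (L + 1) (2 ^ L + a') b =
          ∑ b ∈ range (2 ^ L), (1 / 2 ^ L : ℚ) :=
        sum_congr rfl fun b hb => yq21 (mem_range.1 hb)
      have e2 : ∑ b ∈ range (2 ^ L), yq (L + 1) (2 ^ L + a') (2 ^ L + b) =
          ∑ b ∈ range (2 ^ L), yq L a' b := sum_congr rfl fun b _ => yq22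
      rw [e1, e2, ih a' ha', hc]; push_cast; ring

/-- the corner sum at the cut `s` -/
def cor (L s : ℕ) : ℚ :=
  ∑ a ∈ range (2 ^ L), ∑ b ∈ range (2 ^ L), if a < s ∧ s ≤ b then (yq L a b) ^ 2 else 0

theorem cor_le (L s : ℕ) : cor L s ≤ L := by
  induction L generalizing s with
  | zero =>
    simp only [cor, pow_zero, range_one, sum_singleton, yq]
    simp
  | succ L ih =>
    unfold cor
    rw [sum_split]
    simp_rw [sum_split]
    rw [sum_add_distrib, sum_add_distrib]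
    have h2 : ∑ a ∈ range (2 ^ L), ∑ b ∈ range (2 ^ L),
        (if a < s ∧ s ≤ 2 ^ L + b then (yq (L + 1) a (2 ^ L + b)) ^ 2 else 0) ≤ 1 := by
      have : ∑ a ∈ range (2 ^ L), ∑ b ∈ range (2 ^ L), ((1 / 2 ^ L) ^ 2 : ℚ) = 1 := by
        simp only [sum_const, card_range, nsmul_eq_mul]; push_cast; field_simp
      rw [← this]
      refine sum_le_sum fun a ha => sum_le_sum fun b _ => ?_
      rw [yq12 (mem_range.1 ha)]
      split_ifs
      · exact le_rfl
      · positivity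
    rcases le_or_gt s (2 ^ L) with hs | hs
    · have h1 : ∑ a ∈ range (2 ^ L), ∑ b ∈ range (2 ^ L),
          (if a < s ∧ s ≤ b then (yq (L + 1) a b) ^ 2 else 0) = cor L s :=
        sum_congr rfl fun a ha => sum_congr rfl fun b hb => by
          rw [yq11 (mem_range.1 ha) (mem_range.1 hb)]
      have h3 : ∑ a ∈ range (2 ^ L), ∑ b ∈ range (2 ^ L),
          (if 2 ^ L + a < s ∧ s ≤ b then (yq (L + 1) (2 ^ L + a) b) ^ 2 else 0) = 0 :=
        sum_eq_zero fun a _ => sum_eq_zero fun b _ => if_neg (by omega)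
      have h4 : ∑ a ∈ range (2 ^ L), ∑ b ∈ range (2 ^ L),
          (if 2 ^ L + a < s ∧ s ≤ 2 ^ L + b then (yq (L + 1) (2 ^ L + a) (2 ^ L + b)) ^ 2 else 0) =
          0 := sum_eq_zero fun a _ => sum_eq_zero fun b _ => if_neg (by omega)
      rw [h1, h3, h4]
      have := ih s
      push_cast
      linarith
    · obtain ⟨s', rfl⟩ : ∃ s', s = 2 ^ L + s' := ⟨s - 2 ^ L, by omega⟩
      have h1 : ∑ a ∈ range (2 ^ L), ∑ b ∈ range (2 ^ L),
          (if a < 2 ^ L + s' ∧ 2 ^ L + s' ≤ b then (yq (L + 1) a b) ^ 2 else 0) = 0 :=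
        sum_eq_zero fun a _ => sum_eq_zero fun b hb => if_neg (by
          have := mem_range.1 hb; omega)
      have h3 : ∑ a ∈ range (2 ^ L), ∑ b ∈ range (2 ^ L),
          (if 2 ^ L + a < 2 ^ L + s' ∧ 2 ^ L + s' ≤ b then (yq (L + 1) (2 ^ L + a) b) ^ 2 else 0) =
          0 := sum_eq_zero fun a _ => sum_eq_zero fun b hb => if_neg (by
            have := mem_range.1 hb; omega)
      have h4 : ∑ a ∈ range (2 ^ L), ∑ b ∈ range (2 ^ L),
          (if 2 ^ L + a < 2 ^ L + s' ∧ 2 ^ L + s' ≤ 2 ^ L + b then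
            (yq (L + 1) (2 ^ L + a) (2 ^ L + b)) ^ 2 else 0) = cor L s' :=
        sum_congr rfl fun a _ => sum_congr rfl fun b _ => by
          rw [yq22]
          simp only [Nat.add_lt_add_iff_left, Nat.add_le_add_iff_left]
      rw [h1, h3, h4]
      have := ih s'
      push_cast
      linarith

theorem cross_le (L s : ℕ) : ∑ a ∈ range (2 ^ L), ∑ b ∈ range (2 ^ L),
    (if (a < s ∧ b < s) ∨ (s < a ∧ s < b) then 0 else (yq L a b) ^ 2) ≤ 4 * L := by
  have h1 := cor_le L s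
  have h2 := cor_le L (s + 1)
  have e1 : cor L s = ∑ a ∈ range (2 ^ L), ∑ b ∈ range (2 ^ L),
      if b < s ∧ s ≤ a then (yq L a b) ^ 2 else 0 := by
    unfold cor
    rw [sum_comm]
    refine sum_congr rfl fun a _ => sum_congr rfl fun b _ => by rw [yq_symm L b a]
  have e2 : cor L (s + 1) = ∑ a ∈ range (2 ^ L), ∑ b ∈ range (2 ^ L),
      if b < s + 1 ∧ s + 1 ≤ a then (yq L a b) ^ 2 else 0 := by
    unfold cor
    rw [sum_comm]
    refine sum_congr rfl fun a _ => sum_congr rfl fun b _ => by rw [yq_symm L b a]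
  have key : ∑ a ∈ range (2 ^ L), ∑ b ∈ range (2 ^ L),
      (if (a < s ∧ b < s) ∨ (s < a ∧ s < b) then 0 else (yq L a b) ^ 2) ≤
      (∑ a ∈ range (2 ^ L), ∑ b ∈ range (2 ^ L),
        if a < s ∧ s ≤ b then (yq L a b) ^ 2 else 0) +
      (∑ a ∈ range (2 ^ L), ∑ b ∈ range (2 ^ L),
        if a < s + 1 ∧ s + 1 ≤ b then (yq L a b) ^ 2 else 0) +
      (∑ a ∈ range (2 ^ L), ∑ b ∈ range (2 ^ L),
        if b < s ∧ s ≤ a then (yq L a b) ^ 2 else 0) +
      (∑ a ∈ range (2 ^ L), ∑ b ∈ range (2 ^ L),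
        if b < s + 1 ∧ s + 1 ≤ a then (yq L a b) ^ 2 else 0) := by
    simp only [← sum_add_distrib]
    refine sum_le_sum fun a _ => sum_le_sum fun b _ => ?_
    have hnn : (0 : ℚ) ≤ (yq L a b) ^ 2 := sq_nonneg _
    rcases lt_trichotomy a b with h | h | h
    · by_cases c : (a < s ∧ b < s) ∨ (s < a ∧ s < b)
      · rw [if_pos c]; split_ifs <;> linarith
      · rw [if_neg c]
        by_cases c1 : a < s ∧ s ≤ b
        · rw [if_pos c1]; split_ifs <;> linarith
        · have c2 : a < s + 1 ∧ s + 1 ≤ b := by omega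
          rw [if_pos c2]; split_ifs <;> linarith
    · subst h
      rw [yq_diag]; simp
    · by_cases c : (a < s ∧ b < s) ∨ (s < a ∧ s < b)
      · rw [if_pos c]; split_ifs <;> linarith
      · rw [if_neg c]
        by_cases c1 : b < s ∧ s ≤ a
        · rw [if_pos c1]; split_ifs <;> linarith
        · have c2 : b < s + 1 ∧ s + 1 ≤ a := by omega
          rw [if_pos c2]; split_ifs <;> linarith
  rw [← e1, ← e2] at key
  change _ ≤ cor L s + cor L (s + 1) + cor L s + cor L (s + 1) at key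
  linarith

end Pool.Agent.H453R3.QB
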