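import Mathlib

/-!
# Cayley transforms
-/

set_option autoImplicit false

open scoped InnerProductSpace

namespace Pool.Agent.H453R3.QC

variable {H : Type} [NormedAddCommGroup H] [InnerProductSpace ℂ H] [CompleteSpace H]

theorem isUnit_den (x : H →L[ℂ] H) (hx : IsSelfAdjoint x) : IsUnit (1 - Complex.I • x) := by
  have h1 : (-Complex.I) ∉ spectrum ℂ x := by
    intro h
    have h2 := hx.mem_spectrum_eq_re h
    have h3 := congrArg Complex.im h2
    simp at h3
  rw [spectrum.notMem_iff] at h1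
  have h2 : 1 - Complex.I • x = algebraMap ℂ (H →L[ℂ] H) Complex.I *
      (algebraMap ℂ (H →L[ℂ] H) (-Complex.I) - x) := by
    rw [mul_sub, ← map_mul, mul_neg, Complex.I_mul_I, neg_neg, map_one, ← Algebra.smul_def]
  rw [h2]
  exact ((IsUnit.mk0 Complex.I Complex.I_ne_zero).map (algebraMap ℂ (H →L[ℂ] H))).mul h1

/-- the resolvent -/
noncomputable def Rs (x : H →L[ℂ] H) : H →L[ℂ] H := Ring.inverse (1 - Complex.I • x)

theorem den_mul (x : H →L[ℂ] H) (hx : IsSelfAdjoint x) : (1 - Complex.I • x) * Rs x = 1 :=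
  Ring.mul_inverse_cancel _ (isUnit_den x hx)

theorem mul_den (x : H →L[ℂ] H) (hx : IsSelfAdjoint x) : Rs x * (1 - Complex.I • x) = 1 :=
  Ring.inverse_mul_cancel _ (isUnit_den x hx)

/-- the Cayley transform -/
noncomputable def cay (x : H →L[ℂ] H) : H →L[ℂ] H := (2 : ℂ) • Rs x - 1

theorem Rs_eq (x r : H →L[ℂ] H) (hx : IsSelfAdjoint x) (h : (1 - Complex.I • x) * r = 1) :
    Rs x = r := by
  calc Rs x = Rs x * ((1 - Complex.I • x) * r) := by rw [h, mul_one]
    _ = r := by rw [← mul_assoc, mul_den x hx, one_mul]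

theorem Rs_eq' (x r : H →L[ℂ] H) (hx : IsSelfAdjoint x) (h : r * (1 - Complex.I • x) = 1) :
    Rs x = r := by
  calc Rs x = (r * (1 - Complex.I • x)) * Rs x := by rw [h, one_mul]
    _ = r := by rw [mul_assoc, den_mul x hx, mul_one]

theorem star_den (x : H →L[ℂ] H) (hx : IsSelfAdjoint x) :
    star (1 - Complex.I • x) = 1 - Complex.I • (-x) := by
  rw [star_sub, star_one, star_smul, hx.star_eq]
  simp

theorem star_Rs (x : H →L[ℂ] H) (hx : IsSelfAdjoint x) : star (Rs x) = Rs (-x) := by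
  refine (Rs_eq' (-x) (star (Rs x)) hx.neg ?_).symm
  rw [← star_den x hx, ← star_mul, den_mul x hx, star_one]

theorem star_cay (x : H →L[ℂ] H) (hx : IsSelfAdjoint x) : star (cay x) = cay (-x) := by
  rw [cay, cay, star_sub, star_one, star_smul, star_Rs x hx]
  simp

theorem Rs_add_Rs (x : H →L[ℂ] H) (hx : IsSelfAdjoint x) :
    Rs x + Rs (-x) = (2 : ℂ) • (Rs x * Rs (-x)) := by
  have h1 : (1 - Complex.I • x) + (1 - Complex.I • (-x)) = (2 : ℂ) • (1 : H →L[ℂ] H) := by
    rw [smul_neg]; module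
  calc Rs x + Rs (-x) = Rs x * ((1 - Complex.I • (-x)) * Rs (-x)) +
        (Rs x * (1 - Complex.I • x)) * Rs (-x) := by
        rw [den_mul (-x) hx.neg, mul_den x hx, mul_one, one_mul]
    _ = Rs x * ((1 - Complex.I • x) + (1 - Complex.I • (-x))) * Rs (-x) := by noncomm_ring
    _ = (2 : ℂ) • (Rs x * Rs (-x)) := by rw [h1]; simp

theorem cay_mul_neg (x : H →L[ℂ] H) (hx : IsSelfAdjoint x) : cay x * cay (-x) = 1 := by
  have h := Rs_add_Rs x hx
  have e : cay x * cay (-x) = (2 : ℂ) • ((2 : ℂ) • (Rs x * Rs (-x)) - (Rs x + Rs (-x))) + 1 := by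
    rw [cay, cay, sub_mul, mul_sub, smul_mul_smul_comm, mul_one, one_mul]
    module
  rw [e, ← h]; simp

/-- the unitary Cayley transform -/
noncomputable def cayU (x : H →L[ℂ] H) (hx : IsSelfAdjoint x) : unitary (H →L[ℂ] H) :=
  ⟨cay x, by
    rw [Unitary.mem_iff, star_cay x hx]
    refine ⟨?_, cay_mul_neg x hx⟩
    have := cay_mul_neg (-x) hx.neg
    rwa [neg_neg] at this⟩

theorem norm_Rs_apply (x : H →L[ℂ] H) (hx : IsSelfAdjoint x) (ξ : H) : ‖Rs x ξ‖ ≤ ‖ξ‖ := by
  have h1 : (1 - Complex.I • x) (Rs x ξ) = ξ := by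
    have := congrArg (fun T : H →L[ℂ] H => T ξ) (den_mul x hx)
    simpa using this
  set ζ := Rs x ξ with hζ
  have h2 : ξ = ζ - Complex.I • x ζ := by rw [← h1]; simp
  have h3 : (⟪ξ, ζ⟫_ℂ).re = ‖ζ‖ ^ 2 := by
    have h4 : (⟪x ζ, ζ⟫_ℂ).im = 0 := by
      have h5 : ⟪x ζ, ζ⟫_ℂ = ⟪ζ, x ζ⟫_ℂ := by
        have := ContinuousLinearMap.isSelfAdjoint_iff_isSymmetric.1 hx ζ ζ
        simpa using this
      have h6 : (starRingEnd ℂ) ⟪x ζ, ζ⟫_ℂ = ⟪x ζ, ζ⟫_ℂ := by
        rw [inner_conj_symm]; exact h5.symm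
      exact Complex.conj_eq_iff_im.1 h6
    rw [h2, inner_sub_left, inner_smul_left]
    have h7 : (⟪ζ, ζ⟫_ℂ).re = ‖ζ‖ ^ 2 := by
      rw [inner_self_eq_norm_sq_to_K]; norm_cast
    rw [Complex.sub_re, h7]
    simp [h4]
  rcases eq_or_ne ζ 0 with h | h
  · rw [h, norm_zero]; positivity
  · have h4 : ‖ζ‖ ^ 2 ≤ ‖ξ‖ * ‖ζ‖ := by
      rw [← h3]
      exact (Complex.re_le_norm _).trans (norm_inner_le_norm _ _)
    have h5 : 0 < ‖ζ‖ := norm_pos_iff.2 h
    nlinarith

theorem norm_Rs (x : H →L[ℂ] H) (hx : IsSelfAdjoint x) : ‖Rs x‖ ≤ 1 :=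
  ContinuousLinearMap.opNorm_le_bound _ zero_le_one fun ξ => by
    rw [one_mul]; exact norm_Rs_apply x hx ξ

theorem norm_cay_sub (x y : H →L[ℂ] H) (hx : IsSelfAdjoint x) (hy : IsSelfAdjoint y) :
    ‖cay x - cay y‖ ≤ 2 * ‖x - y‖ := by
  have h1 : Rs x - Rs y = Rs x * (Complex.I • (x - y)) * Rs y := by
    calc Rs x - Rs y = Rs x * ((1 - Complex.I • y) * Rs y) - (Rs x * (1 - Complex.I • x)) * Rs y := by
          rw [den_mul y hy, mul_den x hx, mul_one, one_mul]
      _ = Rs x * ((1 - Complex.I • y) - (1 - Complex.I • x)) * Rs y := by noncomm_ring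
      _ = _ := by congr 2; rw [smul_sub]; abel
  have h2 : cay x - cay y = (2 : ℂ) • (Rs x - Rs y) := by rw [cay, cay, smul_sub]; abel
  rw [h2, h1, norm_smul]
  have h3 : ‖Rs x * (Complex.I • (x - y)) * Rs y‖ ≤ 1 * ‖x - y‖ * 1 := by
    refine (norm_mul_le _ _).trans ?_
    gcongr
    · refine (norm_mul_le _ _).trans ?_
      gcongr
      · exact norm_Rs x hx
      · rw [norm_smul]; simp
    · exact norm_Rs y hy
  simp only [Complex.norm_ofNat]
  linarith

theorem cay_mul (x y : H →L[ℂ] H) (hx : IsSelfAdjoint x) (hy : IsSelfAdjoint y)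
    (hxy : x * y = 0) : cay x * cay y = cay (x + y) := by
  have hyx : y * x = 0 := by
    have := congrArg star hxy
    rwa [star_mul, hx.star_eq, hy.star_eq, star_zero] at this
  have h1 : Rs (x + y) = Rs x * Rs y := by
    refine Rs_eq _ _ (hx.add hy) ?_
    have e : 1 - Complex.I • (x + y) = (1 - Complex.I • y) * (1 - Complex.I • x) := by
      rw [sub_mul, one_mul, mul_sub, mul_one, smul_mul_smul_comm, hyx]
      simp only [smul_add, smul_zero, sub_zero]
      abel
    rw [e, mul_assoc, ← mul_assoc (1 - Complex.I • x), den_mul x hx, one_mul, den_mul y hy]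
  have h2 : (Rs x - 1) * (Rs y - 1) = 0 := by
    have e1 : Rs x - 1 = Rs x * (Complex.I • x) := by
      calc Rs x - 1 = Rs x - Rs x * (1 - Complex.I • x) := by rw [mul_den x hx]
        _ = _ := by noncomm_ring
    have e2 : Rs y - 1 = (Complex.I • y) * Rs y := by
      calc Rs y - 1 = Rs y - (1 - Complex.I • y) * Rs y := by rw [den_mul y hy]
        _ = _ := by noncomm_ring
    rw [e1, e2, mul_assoc, ← mul_assoc (Complex.I • x), smul_mul_smul_comm, hxy]
    simp
  have e : cay x * cay y = (2 : ℂ) • (Rs x * Rs y) - 1 + (2 : ℂ) • ((Rs x - 1) * (Rs y - 1)) := by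
    rw [cay, cay, sub_mul, mul_sub, smul_mul_smul_comm, mul_one, one_mul, sub_mul, mul_sub, one_mul,
      mul_one]
    module
  rw [e, h2, cay, h1]; simp

theorem cay_apply_of_zero (x : H →L[ℂ] H) (hx : IsSelfAdjoint x) (v : H) (h : x v = 0) :
    cay x v = v := by
  have h1 : Rs x v = v := by
    have := congrArg (fun T : H →L[ℂ] H => T v) (mul_den x hx)
    simpa [h] using this
  simp only [cay, ContinuousLinearMap.sub_apply, ContinuousLinearMap.smul_apply, h1,
    ContinuousLinearMap.one_apply]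
  rw [two_smul]; abel

theorem cay_apply_of_swap (x : H →L[ℂ] H) (hx : IsSelfAdjoint x) (u v : H) (h : x u = v)
    (h' : x v = u) : cay x u = Complex.I • v := by
  have h1 : Rs x u = (1 / 2 : ℂ) • (u + Complex.I • v) := by
    have h2 : (1 - Complex.I • x) ((1 / 2 : ℂ) • (u + Complex.I • v)) = u := by
      simp only [ContinuousLinearMap.sub_apply, ContinuousLinearMap.smul_apply, map_smul, map_add,
        h, h', ContinuousLinearMap.one_apply, smul_add, smul_smul]
      have e : 1 / 2 * Complex.I * Complex.I = -(1 / 2) := by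
        rw [mul_assoc, Complex.I_mul_I]; norm_num
      simp only [smul_sub, smul_smul, e]
      module
    have h3 := congrArg (fun T : H →L[ℂ] H => T ((1 / 2 : ℂ) • (u + Complex.I • v))) (mul_den x hx)
    simp only [ContinuousLinearMap.mul_apply, h2] at h3
    simpa using h3
  simp only [cay, ContinuousLinearMap.sub_apply, ContinuousLinearMap.smul_apply, h1,
    ContinuousLinearMap.one_apply]
  module

theorem isCompact_cay (x : H →L[ℂ] H) (hx : IsSelfAdjoint x) (hc : IsCompactOperator x) :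
    IsCompactOperator (cay x - 1 : H →L[ℂ] H) := by
  have e1 : Rs x - 1 = Rs x * (Complex.I • x) := by
    calc Rs x - 1 = Rs x - Rs x * (1 - Complex.I • x) := by rw [mul_den x hx]
      _ = _ := by noncomm_ring
  have e2 : cay x - 1 = ((2 : ℂ) • Rs x) * (Complex.I • x) := by
    rw [smul_mul_assoc, ← e1, cay]; module
  rw [e2]
  exact (hc.smul Complex.I).clm_comp ((2 : ℂ) • Rs x)

end Pool.Agent.H453R3.QC
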