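import Pool.Agent.H453R3.QC1
import Pool.Agent.H453R3.QB

/-!
# Finite rank generators
-/

set_option autoImplicit false

open scoped InnerProductSpace

namespace Pool.Agent.H453R3.QC

variable {H : Type} [NormedAddCommGroup H] [InnerProductSpace ℂ H] [CompleteSpace H]
variable (e : HilbertBasis ℕ ℂ H)

/-- matrix units -/
noncomputable def E (a b : ℕ) : H →L[ℂ] H := (innerSL ℂ (e b)).smulRight (e a)

theorem E_apply (a b : ℕ) (z : H) : E e a b z = ⟪e b, z⟫_ℂ • e a := rfl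

theorem star_E (a b : ℕ) : star (E e a b) = E e b a := by
  rw [ContinuousLinearMap.star_eq_adjoint]
  symm
  rw [ContinuousLinearMap.eq_adjoint_iff]
  intro x y
  rw [E_apply, E_apply, inner_smul_left, inner_smul_right, inner_conj_symm]
  ring

/-- symmetrised matrix units -/
noncomputable def Sy (a b : ℕ) : H →L[ℂ] H := E e a b + E e b a

theorem star_Sy (a b : ℕ) : star (Sy e a b) = Sy e a b := by
  rw [Sy, star_add, star_E, star_E, add_comm]

theorem inner_e (a b : ℕ) : ⟪e a, e b⟫_ℂ = if a = b then 1 else 0 := by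
  have := orthonormal_iff_ite.1 e.orthonormal a b
  simpa using this

theorem Sy_of_ne {a b n : ℕ} (h1 : a ≠ n) (h2 : b ≠ n) : Sy e a b (e n) = 0 := by
  rw [Sy, add_apply, E_apply, E_apply, inner_e, inner_e, if_neg h2, if_neg h1]
  simp

theorem E_compact (a b : ℕ) : IsCompactOperator (E e a b) := by
  have h1 : IsCompactOperator (innerSL ℂ (e b) : H →L[ℂ] ℂ) :=
    isCompactOperator_of_locallyCompactSpace_dom _
  have h2 := h1.clm_comp (ContinuousLinearMap.toSpanSingleton ℂ (e a) : ℂ →L[ℂ] H)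
  have h3 : (E e a b : H → H) = (ContinuousLinearMap.toSpanSingleton ℂ (e a) : ℂ →L[ℂ] H) ∘
      (innerSL ℂ (e b)) := by
    funext z
    simp [E_apply]
  rw [h3]; exact h2

/-- the generators -/
noncomputable def X : ((ℕ × ℕ) →₀ ℚ) →+ (H →L[ℂ] H) :=
  Finsupp.liftAddHom fun ab => { toFun := fun r => (r : ℂ) • Sy e ab.1 ab.2
                                 map_zero' := by simp
                                 map_add' := by intro a b; push_cast; rw [add_smul] }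

theorem X_single (a b : ℕ) (r : ℚ) : X e (Finsupp.single (a, b) r) = (r : ℂ) • Sy e a b := by
  rw [X, Finsupp.liftAddHom_apply_single]; rfl

theorem X_sa (F : (ℕ × ℕ) →₀ ℚ) : IsSelfAdjoint (X e F) := by
  induction F using Finsupp.induction_linear with
  | zero => rw [map_zero]; exact IsSelfAdjoint.zero _
  | add f g hf hg => rw [map_add]; exact hf.add hg
  | single ab r =>
    obtain ⟨a, b⟩ := ab
    rw [X_single, IsSelfAdjoint, star_smul, star_Sy]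
    congr 1
    simp

theorem X_compact (F : (ℕ × ℕ) →₀ ℚ) : IsCompactOperator (X e F) := by
  induction F using Finsupp.induction_linear with
  | zero => rw [map_zero]; exact isCompactOperator_zero
  | add f g hf hg => rw [map_add]; exact hf.add hg
  | single ab r =>
    obtain ⟨a, b⟩ := ab
    rw [X_single]
    exact ((E_compact e a b).add (E_compact e b a)).smul (r : ℂ)

theorem X_low (F : (ℕ × ℕ) →₀ ℚ) : ∃ M, ∀ n, M ≤ n → X e F (e n) = 0 := by
  induction F using Finsupp.induction_linear with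
  | zero => exact ⟨0, fun n _ => by rw [map_zero]; rfl⟩
  | add f g hf hg =>
    obtain ⟨M, hM⟩ := hf
    obtain ⟨M', hM'⟩ := hg
    refine ⟨max M M', fun n hn => ?_⟩
    rw [map_add, add_apply, hM n ((le_max_left _ _).trans hn),
      hM' n ((le_max_right _ _).trans hn), add_zero]
  | single ab r =>
    obtain ⟨a, b⟩ := ab
    refine ⟨a + b + 1, fun n hn => ?_⟩
    rw [X_single, smul_apply, Sy_of_ne e (by omega) (by omega), smul_zero]

/-- block parameters -/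
noncomputable def FB (K : ℕ) (i : ℕ → ℕ) (w : ℕ → ℕ → ℚ) : (ℕ × ℕ) →₀ ℚ :=
  ∑ a ∈ Finset.range K, ∑ b ∈ Finset.range K, Finsupp.single (i a, i b + 1) (w a b)

theorem X_FB (K : ℕ) (i : ℕ → ℕ) (w : ℕ → ℕ → ℚ) : X e (FB K i w) =
    ∑ a ∈ Finset.range K, ∑ b ∈ Finset.range K, (w a b : ℂ) • Sy e (i a) (i b + 1) := by
  rw [FB, map_sum]
  refine Finset.sum_congr rfl fun a _ => ?_
  rw [map_sum]
  exact Finset.sum_congr rfl fun b _ => X_single e _ _ _

theorem X_FB_apply (K : ℕ) (i : ℕ → ℕ) (w : ℕ → ℕ → ℚ) (z : H) : X e (FB K i w) z =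
    ∑ a ∈ Finset.range K, ∑ b ∈ Finset.range K, (w a b : ℂ) • Sy e (i a) (i b + 1) z := by
  rw [X_FB]
  simp only [ContinuousLinearMap.sum_apply, smul_apply]

theorem X_FB_zero (K : ℕ) (i : ℕ → ℕ) (w : ℕ → ℕ → ℚ) (n : ℕ)
    (h : ∀ a < K, ∀ b < K, w a b ≠ 0 → i a ≠ n ∧ i b + 1 ≠ n) : X e (FB K i w) (e n) = 0 := by
  rw [X_FB_apply]
  refine Finset.sum_eq_zero fun a ha => Finset.sum_eq_zero fun b hb => ?_
  by_cases hw : w a b = 0
  · rw [hw]; simp
  · obtain ⟨h1, h2⟩ := h a (Finset.mem_range.1 ha) b (Finset.mem_range.1 hb) hw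
    rw [Sy_of_ne e h1 h2, smul_zero]

theorem FB_add (K : ℕ) (i : ℕ → ℕ) (w w' : ℕ → ℕ → ℚ) :
    FB K i (fun a b => w a b + w' a b) = FB K i w + FB K i w' := by
  simp only [FB, Finsupp.single_add, Finset.sum_add_distrib]

theorem norm_E_sum (K : ℕ) (α β : ℕ → ℕ) (hα : Function.Injective α) (hβ : Function.Injective β)
    (w : ℕ → ℕ → ℚ) (C : ℝ) (hC : 0 ≤ C)
    (hw : ∑ a ∈ Finset.range K, ∑ b ∈ Finset.range K, ((w a b : ℝ)) ^ 2 ≤ C ^ 2) :
    ‖∑ a ∈ Finset.range K, ∑ b ∈ Finset.range K, (w a b : ℂ) • E e (α a) (β b)‖ ≤ C := by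
  refine ContinuousLinearMap.opNorm_le_bound _ hC fun ξ => ?_
  set A := ∑ a ∈ Finset.range K, ∑ b ∈ Finset.range K, (w a b : ℂ) • E e (α a) (β b) with hA
  have hbess : ∀ (γ : ℕ → ℕ), Function.Injective γ → ∀ v : H,
      ∑ b ∈ Finset.range K, ‖⟪e (γ b), v⟫_ℂ‖ ^ 2 ≤ ‖v‖ ^ 2 := fun γ hγ v =>
    (e.orthonormal.comp γ hγ).sum_inner_products_le v
  have h1 : ∀ η : H, ‖⟪η, A ξ⟫_ℂ‖ ≤ C * (‖ξ‖ * ‖η‖) := by
    intro η
    have e1 : ⟪η, A ξ⟫_ℂ = ∑ p ∈ Finset.range K ×ˢ Finset.range K,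
        (w p.1 p.2 : ℂ) * (⟪e (β p.2), ξ⟫_ℂ * ⟪η, e (α p.1)⟫_ℂ) := by
      rw [Finset.sum_product, hA]
      simp only [ContinuousLinearMap.sum_apply, smul_apply, E_apply, inner_sum,
        inner_smul_right]
    have h2 : ‖⟪η, A ξ⟫_ℂ‖ ≤ ∑ p ∈ Finset.range K ×ˢ Finset.range K,
        |(w p.1 p.2 : ℝ)| * (‖⟪e (β p.2), ξ⟫_ℂ‖ * ‖⟪e (α p.1), η⟫_ℂ‖) := by
      rw [e1]
      refine (norm_sum_le _ _).trans (Finset.sum_le_sum fun p _ => ?_)
      rw [norm_mul, norm_mul, norm_inner_symm η, Complex.norm_ratCast]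
    have h3 := Finset.sum_mul_sq_le_sq_mul_sq (Finset.range K ×ˢ Finset.range K)
      (fun p => |(w p.1 p.2 : ℝ)|) (fun p => ‖⟪e (β p.2), ξ⟫_ℂ‖ * ‖⟪e (α p.1), η⟫_ℂ‖)
    have h4 : ∑ p ∈ Finset.range K ×ˢ Finset.range K, |(w p.1 p.2 : ℝ)| ^ 2 ≤ C ^ 2 := by
      rw [Finset.sum_product]
      simpa only [sq_abs] using hw
    have h5 : ∑ p ∈ Finset.range K ×ˢ Finset.range K,
        (‖⟪e (β p.2), ξ⟫_ℂ‖ * ‖⟪e (α p.1), η⟫_ℂ‖) ^ 2 ≤ (‖ξ‖ * ‖η‖) ^ 2 := by
      rw [Finset.sum_product]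
      simp only [mul_pow]
      have : ∑ a ∈ Finset.range K, ∑ b ∈ Finset.range K,
          ‖⟪e (β b), ξ⟫_ℂ‖ ^ 2 * ‖⟪e (α a), η⟫_ℂ‖ ^ 2 =
          (∑ b ∈ Finset.range K, ‖⟪e (β b), ξ⟫_ℂ‖ ^ 2) *
            ∑ a ∈ Finset.range K, ‖⟪e (α a), η⟫_ℂ‖ ^ 2 := by
        rw [Finset.mul_sum]
        refine Finset.sum_congr rfl fun a _ => ?_
        rw [Finset.sum_mul]
      rw [this]
      exact mul_le_mul (hbess β hβ ξ) (hbess α hα η)
        (Finset.sum_nonneg fun _ _ => sq_nonneg _) (sq_nonneg _)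
    have h6 : (∑ p ∈ Finset.range K ×ˢ Finset.range K,
        |(w p.1 p.2 : ℝ)| * (‖⟪e (β p.2), ξ⟫_ℂ‖ * ‖⟪e (α p.1), η⟫_ℂ‖)) ^ 2 ≤
        (C * (‖ξ‖ * ‖η‖)) ^ 2 := by
      refine h3.trans ?_
      rw [mul_pow]
      exact mul_le_mul h4 h5 (Finset.sum_nonneg fun _ _ => sq_nonneg _) (sq_nonneg _)
    exact h2.trans (abs_le_of_sq_le_sq' h6 (by positivity)).2
  have h7 := h1 (A ξ)
  rw [inner_self_eq_norm_sq_to_K] at h7
  have h8 : ‖A ξ‖ ^ 2 ≤ C * (‖ξ‖ * ‖A ξ‖) := by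
    have : ‖((‖A ξ‖ : ℂ)) ^ 2‖ = ‖A ξ‖ ^ 2 := by
      rw [norm_pow, Complex.norm_real, norm_norm]
    rw [← this]; exact h7
  rcases eq_or_ne (A ξ) 0 with h | h
  · rw [h, norm_zero]; positivity
  · have : 0 < ‖A ξ‖ := norm_pos_iff.2 h
    nlinarith

theorem norm_X_FB (K : ℕ) (i : ℕ → ℕ) (hi : Function.Injective i) (w : ℕ → ℕ → ℚ) (C : ℝ)
    (hC : 0 ≤ C)
    (hw : ∑ a ∈ Finset.range K, ∑ b ∈ Finset.range K, ((w a b : ℝ)) ^ 2 ≤ C ^ 2) :
    ‖X e (FB K i w)‖ ≤ 2 * C := by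
  have hi1 : Function.Injective fun b => i b + 1 := fun a b h => hi (by simpa using h)
  have e1 : X e (FB K i w) =
      (∑ a ∈ Finset.range K, ∑ b ∈ Finset.range K, (w a b : ℂ) • E e (i a) (i b + 1)) +
      ∑ a ∈ Finset.range K, ∑ b ∈ Finset.range K, ((fun b a => w a b) a b : ℂ) •
        E e (i a + 1) (i b) := by
    rw [X_FB]
    have : ∑ a ∈ Finset.range K, ∑ b ∈ Finset.range K, ((fun b a => w a b) a b : ℂ) •
        E e (i a + 1) (i b) = ∑ a ∈ Finset.range K, ∑ b ∈ Finset.range K, (w a b : ℂ) •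
        E e (i b + 1) (i a) := by
      rw [Finset.sum_comm]
    rw [this, ← Finset.sum_add_distrib]
    refine Finset.sum_congr rfl fun a _ => ?_
    rw [← Finset.sum_add_distrib]
    refine Finset.sum_congr rfl fun b _ => ?_
    rw [Sy, smul_add]
  rw [e1]
  refine (norm_add_le _ _).trans ?_
  have h1 := norm_E_sum e K i (fun b => i b + 1) hi hi1 w C hC hw
  have h2 := norm_E_sum e K (fun b => i b + 1) i hi1 hi (fun b a => w a b) C hC (by
    rw [Finset.sum_comm]; exact hw)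
  linarith

end Pool.Agent.H453R3.QC
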