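import Pool.Agent.H453R3.QC2

/-!
# The space of projections
-/

set_option autoImplicit false

open scoped InnerProductSpace
open Filter Topology

namespace Pool.Agent.H453R3.QC

variable {H : Type} [NormedAddCommGroup H] [InnerProductSpace ℂ H] [CompleteSpace H]

/-- projections -/
def IsPr (p : H →L[ℂ] H) : Prop := IsSelfAdjoint p ∧ p * p = p

theorem IsPr.inner {p : H →L[ℂ] H} (hp : IsPr p) (x y : H) : ⟪p x, y⟫_ℂ = ⟪x, p y⟫_ℂ :=
  ContinuousLinearMap.isSelfAdjoint_iff_isSymmetric.1 hp.1 x y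

theorem IsPr.idem {p : H →L[ℂ] H} (hp : IsPr p) (x : H) : p (p x) = p x :=
  congrArg (fun T : H →L[ℂ] H => T x) hp.2

theorem IsPr.norm_apply {p : H →L[ℂ] H} (hp : IsPr p) (x : H) : ‖p x‖ ≤ ‖x‖ := by
  have h1 : ‖p x‖ ^ 2 ≤ ‖p x‖ * ‖x‖ := by
    have h2 : ⟪p x, p x⟫_ℂ = ⟪p x, x⟫_ℂ := by
      rw [← hp.inner (p x) x, hp.idem]
    have h3 : (⟪p x, p x⟫_ℂ).re = ‖p x‖ ^ 2 := by
      rw [inner_self_eq_norm_sq_to_K]; norm_cast
    rw [← h3, h2]
    exact (Complex.re_le_norm _).trans (norm_inner_le_norm _ _)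
  rcases eq_or_ne (p x) 0 with h | h
  · rw [h, norm_zero]; positivity
  · have : 0 < ‖p x‖ := norm_pos_iff.2 h
    nlinarith

theorem IsPr.norm_le {p : H →L[ℂ] H} (hp : IsPr p) : ‖p‖ ≤ 1 :=
  ContinuousLinearMap.opNorm_le_bound _ zero_le_one fun x => by
    rw [one_mul]; exact hp.norm_apply x

theorem IsPr.conj {p : H →L[ℂ] H} (hp : IsPr p) (u : unitary (H →L[ℂ] H)) :
    IsPr ((u : H →L[ℂ] H) * p * star (u : H →L[ℂ] H)) := by
  have hu : star (u : H →L[ℂ] H) * u = 1 := Unitary.coe_star_mul_self u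
  constructor
  · rw [IsSelfAdjoint, star_mul, star_mul, star_star, hp.1.star_eq, mul_assoc]
  · calc (u : H →L[ℂ] H) * p * star (u : H →L[ℂ] H) * (u * p * star (u : H →L[ℂ] H))
        = (u : H →L[ℂ] H) * p * (star (u : H →L[ℂ] H) * u) * p * star (u : H →L[ℂ] H) := by
          noncomm_ring
      _ = (u : H →L[ℂ] H) * (p * p) * star (u : H →L[ℂ] H) := by rw [hu]; noncomm_ring
      _ = _ := by rw [hp.2]

variable (e : HilbertBasis ℕ ℂ H)

theorem ext_e (A B : H →L[ℂ] H) (h : ∀ n, A (e n) = B (e n)) : A = B := by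
  refine ContinuousLinearMap.ext_on (s := Set.range e) ?_ ?_
  · have := e.dense_span
    exact Submodule.dense_iff_topologicalClosure_eq_top.2 this
  · rintro _ ⟨n, rfl⟩; exact h n

theorem approx (ξ : H) (ε : ℝ) (hε : 0 < ε) : ∃ ζ ∈ Submodule.span ℂ (Set.range e), ‖ξ - ζ‖ < ε := by
  have h1 : Dense (Submodule.span ℂ (Set.range e) : Set H) :=
    Submodule.dense_iff_topologicalClosure_eq_top.2 e.dense_span
  obtain ⟨ζ, hζ, hd⟩ := Metric.dense_iff.1 h1 ξ ε hε
  exact ⟨ζ, hd, by rw [← dist_eq_norm, dist_comm]; exact hζ⟩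

/-- strong convergence from convergence on the basis -/
theorem sot (p : ℕ → H →L[ℂ] H) (hp : ∀ k ξ, ‖p k ξ‖ ≤ ‖ξ‖) (y : ℕ → H)
    (hy : ∀ n, Tendsto (fun k => p k (e n)) atTop (𝓝 (y n))) :
    ∃ q : H →L[ℂ] H, ∀ ξ, Tendsto (fun k => p k ξ) atTop (𝓝 (q ξ)) := by
  have hspan : ∀ ζ ∈ Submodule.span ℂ (Set.range e), ∃ l, Tendsto (fun k => p k ζ) atTop (𝓝 l) := by
    intro ζ hζ
    induction hζ using Submodule.span_induction with
    | mem x hx =>
      obtain ⟨n, rfl⟩ := hx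
      exact ⟨y n, hy n⟩
    | zero => exact ⟨0, by simp⟩
    | add a b _ _ ha hb =>
      obtain ⟨la, hla⟩ := ha
      obtain ⟨lb, hlb⟩ := hb
      exact ⟨la + lb, by simpa only [map_add] using hla.add hlb⟩
    | smul c a _ ha =>
      obtain ⟨la, hla⟩ := ha
      exact ⟨c • la, by simpa only [map_smul] using hla.const_smul c⟩
  have hall : ∀ ξ, ∃ l, Tendsto (fun k => p k ξ) atTop (𝓝 l) := by
    intro ξ
    apply cauchySeq_tendsto_of_complete
    rw [Metric.cauchySeq_iff]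
    intro ε hε
    obtain ⟨ζ, hζ, hd⟩ := approx e ξ (ε / 3) (by positivity)
    obtain ⟨l, hl⟩ := hspan ζ hζ
    obtain ⟨N, hN⟩ := Metric.cauchySeq_iff.1 hl.cauchySeq (ε / 3) (by positivity)
    refine ⟨N, fun m hm n hn => ?_⟩
    have h1 := hN m hm n hn
    have h2 : ‖p m ξ - p m ζ‖ < ε / 3 := by
      rw [← map_sub]; exact (hp m _).trans_lt hd
    have h3 : ‖p n ξ - p n ζ‖ < ε / 3 := by
      rw [← map_sub]; exact (hp n _).trans_lt hd
    rw [← dist_eq_norm] at h2 h3
    have h4 := dist_triangle4 (p m ξ) (p m ζ) (p n ζ) (p n ξ)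
    rw [dist_comm (p n ζ)] at h4
    linarith
  choose q hq using hall
  let q' : H →ₗ[ℂ] H :=
    { toFun := q
      map_add' := fun a b => tendsto_nhds_unique (hq (a + b))
        (by simpa only [map_add] using (hq a).add (hq b))
      map_smul' := fun c a => tendsto_nhds_unique (hq (c • a))
        (by simpa only [map_smul, RingHom.id_apply] using (hq a).const_smul c) }
  refine ⟨q'.mkContinuous 1 fun x => ?_, hq⟩
  rw [one_mul]
  exact le_of_tendsto (hq x).norm (Eventually.of_forall fun k => hp k x)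

theorem isPr_lim (p : ℕ → H →L[ℂ] H) (hp : ∀ k, IsPr (p k)) (q : H →L[ℂ] H)
    (hq : ∀ ξ, Tendsto (fun k => p k ξ) atTop (𝓝 (q ξ))) : IsPr q := by
  have h1 : ∀ x y, ⟪q x, y⟫_ℂ = ⟪x, q y⟫_ℂ := by
    intro x y
    refine tendsto_nhds_unique ((hq x).inner tendsto_const_nhds) ?_
    refine Tendsto.congr (fun k => ((hp k).inner x y).symm) ?_
    exact tendsto_const_nhds.inner (hq y)
  refine ⟨ContinuousLinearMap.isSelfAdjoint_iff_isSymmetric.2 h1, ?_⟩
  ext x
  refine ext_inner_right ℂ fun y => ?_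
  rw [ContinuousLinearMap.mul_apply, h1]
  refine tendsto_nhds_unique ((hq x).inner (hq y)) ?_
  refine Tendsto.congr (fun k => ?_) ((hq x).inner (tendsto_const_nhds (x := y)))
  rw [← (hp k).inner, (hp k).idem]

/-- the group -/
abbrev GG : Type := FreeGroup ((ℕ × ℕ) →₀ ℚ)

instance : Countable GG := by
  unfold GG FreeGroup
  infer_instance

/-- its unitary representation -/
noncomputable def UU : GG →* unitary (H →L[ℂ] H) :=
  FreeGroup.lift fun F => cayU (X e F) (X_sa e F)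

/-- the representing operators -/
noncomputable def uu (γ : GG) : H →L[ℂ] H := (UU e γ : H →L[ℂ] H)

theorem uu_of (F : (ℕ × ℕ) →₀ ℚ) : uu e (FreeGroup.of F) = cay (X e F) := by
  rw [uu, UU, FreeGroup.lift_apply_of]; rfl

theorem uu_one : uu e 1 = 1 := by rw [uu, map_one]; rfl

theorem uu_mul (γ γ' : GG) : uu e (γ * γ') = uu e γ * uu e γ' := by
  rw [uu, map_mul]; rfl

theorem uu_inv (γ : GG) : uu e γ⁻¹ = star (uu e γ) := by
  rw [uu, map_inv]; rfl

theorem star_uu_mul (γ : GG) : star (uu e γ) * uu e γ = 1 := Unitary.coe_star_mul_self _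

theorem uu_mul_star (γ : GG) : uu e γ * star (uu e γ) = 1 := Unitary.coe_mul_star_self _

theorem norm_uu_apply (γ : GG) (x : H) : ‖uu e γ x‖ = ‖x‖ := by
  have h1 : ⟪uu e γ x, uu e γ x⟫_ℂ = ⟪x, x⟫_ℂ := by
    rw [← ContinuousLinearMap.adjoint_inner_right, ← ContinuousLinearMap.star_eq_adjoint]
    have := congrArg (fun T : H →L[ℂ] H => T x) (star_uu_mul e γ)
    simp only [ContinuousLinearMap.mul_apply] at this
    rw [this]; rfl
  have h2 : ‖uu e γ x‖ ^ 2 = ‖x‖ ^ 2 := by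
    rw [inner_self_eq_norm_sq_to_K, inner_self_eq_norm_sq_to_K] at h1
    exact_mod_cast h1
  exact (pow_left_inj₀ (norm_nonneg _) (norm_nonneg _) two_ne_zero).1 h2

theorem norm_uu_le (γ : GG) : ‖uu e γ‖ ≤ 1 :=
  ContinuousLinearMap.opNorm_le_bound _ zero_le_one fun x => by
    rw [one_mul, norm_uu_apply]

/-- conjugation -/
noncomputable def cj (γ : GG) (p : H →L[ℂ] H) : H →L[ℂ] H := uu e γ * p * star (uu e γ)

theorem cj_pr (γ : GG) {p : H →L[ℂ] H} (hp : IsPr p) : IsPr (cj e γ p) := hp.conj (UU e γ)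

theorem cj_one (p : H →L[ℂ] H) : cj e 1 p = p := by
  rw [cj, uu_one, star_one, one_mul, mul_one]

theorem cj_mul (γ γ' : GG) (p : H →L[ℂ] H) : cj e (γ * γ') p = cj e γ (cj e γ' p) := by
  rw [cj, cj, cj, uu_mul, star_mul]; noncomm_ring

/-- the diagonal projection -/
noncomputable def p0 : H →L[ℂ] H :=
  ((Submodule.span ℂ (Set.range fun n : ℕ => e (2 * n))).topologicalClosure).starProjection

theorem p0_pr : IsPr (p0 e) := by
  constructor
  · exact isSelfAdjoint_starProjection _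
  · ext x
    rw [ContinuousLinearMap.mul_apply]
    exact Submodule.starProjection_eq_self_iff.2 (Submodule.starProjection_apply_mem _ _)

theorem p0_even (n : ℕ) : p0 e (e (2 * n)) = e (2 * n) :=
  Submodule.starProjection_eq_self_iff.2 (Submodule.le_topologicalClosure _
    (Submodule.subset_span ⟨n, rfl⟩))

theorem p0_odd (n : ℕ) : p0 e (e (2 * n + 1)) = 0 := by
  rw [p0, Submodule.starProjection_apply_eq_zero_iff, Submodule.orthogonal_closure,
    Submodule.mem_orthogonal]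
  intro u hu
  induction hu using Submodule.span_induction with
  | mem x hx =>
    obtain ⟨m, rfl⟩ := hx
    rw [inner_e, if_neg (by omega)]
  | zero => simp
  | add a b _ _ ha hb => rw [inner_add_left, ha, hb, add_zero]
  | smul c a _ ha => rw [inner_smul_left, ha, mul_zero]

/-- the orbit -/
def Orb : Set (ℕ → H) := {y | ∃ γ : GG, y = fun n => cj e γ (p0 e) (e n)}

/-- the space -/
def YY : Type := ↥(closure (Orb e))

instance : TopologicalSpace (YY e) := inferInstanceAs (TopologicalSpace ↥(closure (Orb e)))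

theorem exists_seq (y : YY e) : ∃ γ : ℕ → GG, ∀ n,
    Tendsto (fun k => cj e (γ k) (p0 e) (e n)) atTop (𝓝 (y.1 n)) := by
  obtain ⟨z, hz, hlim⟩ := mem_closure_iff_seq_limit.1 y.2
  choose γ hγ using hz
  refine ⟨γ, fun n => ?_⟩
  have := (tendsto_pi_nhds.1 hlim) n
  refine this.congr fun k => ?_
  rw [hγ k]

theorem exists_op (y : YY e) : ∃ p : H →L[ℂ] H, IsPr p ∧ ∀ n, p (e n) = y.1 n := by
  obtain ⟨γ, hγ⟩ := exists_seq e y
  obtain ⟨q, hq⟩ := sot e (fun k => cj e (γ k) (p0 e))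
    (fun k ξ => (cj_pr e (γ k) (p0_pr e)).norm_apply ξ) y.1 hγ
  exact ⟨q, isPr_lim _ (fun k => cj_pr e (γ k) (p0_pr e)) q hq,
    fun n => tendsto_nhds_unique (hq (e n)) (hγ n)⟩

/-- the operator of a point -/
noncomputable def Ps (y : YY e) : H →L[ℂ] H := Classical.choose (exists_op e y)

theorem Ps_pr (y : YY e) : IsPr (Ps e y) := (Classical.choose_spec (exists_op e y)).1

theorem Ps_e (y : YY e) (n : ℕ) : Ps e y (e n) = y.1 n :=
  (Classical.choose_spec (exists_op e y)).2 n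

theorem sotY (z : ℕ → YY e) (y : YY e) (h : ∀ n, Tendsto (fun k => (z k).1 n) atTop (𝓝 (y.1 n)))
    (ξ : H) : Tendsto (fun k => Ps e (z k) ξ) atTop (𝓝 (Ps e y ξ)) := by
  obtain ⟨q, hq⟩ := sot e (fun k => Ps e (z k)) (fun k ξ => (Ps_pr e (z k)).norm_apply ξ) y.1
    (fun n => by simpa only [Ps_e] using h n)
  have : q = Ps e y := ext_e e _ _ fun n => by
    rw [Ps_e]
    exact tendsto_nhds_unique (hq (e n)) (by simpa only [Ps_e] using h n)
  rw [← this]; exact hq ξ

/-- the action -/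
noncomputable def act (γ : GG) (y : YY e) : YY e :=
  ⟨fun n => cj e γ (Ps e y) (e n), by
    obtain ⟨δ, hδ⟩ := exists_seq e y
    obtain ⟨q, hq⟩ := sot e (fun k => cj e (δ k) (p0 e))
      (fun k ξ => (cj_pr e (δ k) (p0_pr e)).norm_apply ξ) y.1 hδ
    have hqP : q = Ps e y := ext_e e _ _ fun n => by
      rw [Ps_e]; exact tendsto_nhds_unique (hq (e n)) (hδ n)
    refine mem_closure_iff_seq_limit.2 ⟨fun k n => cj e (γ * δ k) (p0 e) (e n),
      fun k => ⟨γ * δ k, rfl⟩, tendsto_pi_nhds.2 fun n => ?_⟩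
    have h1 := ((uu e γ).continuous.tendsto _).comp (hq (star (uu e γ) (e n)))
    rw [hqP] at h1
    refine h1.congr fun k => ?_
    rw [cj_mul]; rfl⟩

theorem Ps_act (γ : GG) (y : YY e) : Ps e (act e γ y) = cj e γ (Ps e y) :=
  ext_e e _ _ fun n => by rw [Ps_e]; rfl

theorem YY_ext (y z : YY e) (h : Ps e y = Ps e z) : y = z := by
  apply Subtype.ext
  funext n
  rw [← Ps_e, ← Ps_e, h]

noncomputable instance : MulAction GG (YY e) where
  smul := act e
  one_smul y := YY_ext e _ _ (by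
    change Ps e (act e 1 y) = _
    rw [Ps_act, cj_one])
  mul_smul γ γ' y := YY_ext e _ _ (by
    change Ps e (act e (γ * γ') y) = Ps e (act e γ (act e γ' y))
    rw [Ps_act, Ps_act, Ps_act, cj_mul])

theorem Ps_smul (γ : GG) (y : YY e) : Ps e (γ • y) = cj e γ (Ps e y) := Ps_act e γ y

end Pool.Agent.H453R3.QC
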