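import Pool.Agent.H453R3.QC3
import Pool.Agent.H453R3.QA2

/-!
# Verification of the hypotheses, first part
-/

set_option autoImplicit false

open scoped InnerProductSpace
open Filter Topology

namespace Pool.Agent.H453R3.QC

variable {H : Type} [NormedAddCommGroup H] [InnerProductSpace ℂ H] [CompleteSpace H]
variable (e : HilbertBasis ℕ ℂ H)

instance : FirstCountableTopology (YY e) :=
  inferInstanceAs (FirstCountableTopology ↥(closure (Orb e)))

theorem cont_val (n : ℕ) : Continuous fun y : YY e => y.1 n :=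
  (continuous_apply n).comp (continuous_subtype_val (p := fun y => y ∈ closure (Orb e)))

theorem tendsto_YY (z : ℕ → YY e) (y : YY e)
    (h : ∀ n, Tendsto (fun k => (z k).1 n) atTop (𝓝 (y.1 n))) : Tendsto z atTop (𝓝 y) :=
  tendsto_subtype_rng.2 (tendsto_pi_nhds.2 h)

theorem cont_Ps (ξ : H) : Continuous fun y : YY e => Ps e y ξ :=
  continuous_iff_seqContinuous.2 fun z y hz =>
    sotY e z y (fun n => ((cont_val e n).tendsto y).comp hz) ξ

theorem cont_act (γ : GG) : Continuous fun y : YY e => γ • y := by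
  refine Continuous.subtype_mk (continuous_pi fun n => ?_) _
  exact (uu e γ).continuous.comp (cont_Ps e (star (uu e γ) (e n)))

/-- far supported elements -/
def FarP (M : ℕ) (γ : GG) : Prop := ∀ n < M, uu e γ (e n) = e n

/-- low supported elements -/
def LowP (M : ℕ) (γ : GG) : Prop := ∀ n, M ≤ n → uu e γ (e n) = e n

theorem star_fix {γ : GG} {v : H} (h : uu e γ v = v) : star (uu e γ) v = v := by
  have := congrArg (fun T : H →L[ℂ] H => T v) (star_uu_mul e γ)
  simp only [ContinuousLinearMap.mul_apply, h] at this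
  exact this

theorem far_mul (M : ℕ) (β β' : GG) (h : FarP e M β) (h' : FarP e M β') : FarP e M (β * β') := by
  intro n hn
  rw [uu_mul, ContinuousLinearMap.mul_apply, h' n hn, h n hn]

theorem low_exists (γ : GG) : ∃ M, LowP e M γ := by
  induction γ using FreeGroup.induction_on with
  | C1 => exact ⟨0, fun n _ => by rw [uu_one]; rfl⟩
  | of F =>
    obtain ⟨M, hM⟩ := X_low e F
    refine ⟨M, fun n hn => ?_⟩
    rw [uu_of]
    exact cay_apply_of_zero _ (X_sa e F) _ (hM n hn)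
  | inv_of F ih =>
    obtain ⟨M, hM⟩ := ih
    refine ⟨M, fun n hn => ?_⟩
    rw [uu_inv]
    exact star_fix e (hM n hn)
  | mul x y hx hy =>
    obtain ⟨M, hM⟩ := hx
    obtain ⟨M', hM'⟩ := hy
    refine ⟨max M M', fun n hn => ?_⟩
    rw [uu_mul, ContinuousLinearMap.mul_apply, hM' n ((le_max_right _ _).trans hn),
      hM n ((le_max_left _ _).trans hn)]

theorem uu_compact (γ : GG) : IsCompactOperator (uu e γ - 1 : H →L[ℂ] H) := by
  induction γ using FreeGroup.induction_on with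
  | C1 => rw [uu_one, sub_self]; exact isCompactOperator_zero
  | of F =>
    rw [uu_of]
    exact isCompact_cay _ (X_sa e F) (X_compact e F)
  | inv_of F _ =>
    rw [uu_inv, uu_of, star_cay _ (X_sa e F)]
    exact isCompact_cay _ (X_sa e F).neg (X_compact e F).neg
  | mul x y hx hy =>
    have e1 : uu e (x * y) - 1 = (uu e x - 1) * uu e y + (uu e y - 1) := by
      rw [uu_mul]; noncomm_ring
    rw [e1]
    exact (hx.comp_clm (uu e y)).add hy

theorem far_strong (β : ℕ → GG) (h : ∀ k, FarP e k (β k)) (ξ : H) :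
    Tendsto (fun k => uu e (β k) ξ) atTop (𝓝 ξ) := by
  have h1 : ∀ n, Tendsto (fun k => uu e (β k) (e n)) atTop (𝓝 (e n)) := by
    intro n
    refine tendsto_const_nhds.congr' ?_
    filter_upwards [eventually_gt_atTop n] with k hk
    exact (h k n hk).symm
  obtain ⟨q, hq⟩ := sot e (fun k => uu e (β k)) (fun k ξ => (norm_uu_apply e _ ξ).le) _ h1
  have : q = 1 := ext_e e _ _ fun n => tendsto_nhds_unique (hq (e n)) (h1 n)
  have := hq ξ
  rwa [‹q = 1›] at this

theorem act_val (γ : GG) (y : YY e) (n : ℕ) : (γ • y).1 n = cj e γ (Ps e y) (e n) := rfl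

theorem hF (y : YY e) (z : ℕ → YY e) (β : ℕ → GG) (hβ : ∀ k, FarP e k (β k))
    (hz : Tendsto z atTop (𝓝 y)) : Tendsto (fun k => β k • z k) atTop (𝓝 y) := by
  refine tendsto_YY e _ _ fun n => ?_
  have h1 : Tendsto (fun k => uu e (β k) ((z k).1 n)) atTop (𝓝 (y.1 n)) := by
    have h2 : Tendsto (fun k => uu e (β k) ((z k).1 n - y.1 n)) atTop (𝓝 0) := by
      rw [tendsto_zero_iff_norm_tendsto_zero]
      simp only [norm_uu_apply]
      rw [← tendsto_iff_norm_sub_tendsto_zero]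
      exact ((cont_val e n).tendsto y).comp hz
    have h3 := h2.add (far_strong e β hβ (y.1 n))
    rw [zero_add] at h3
    refine h3.congr fun k => ?_
    rw [map_sub]; abel
  refine h1.congr' ?_
  filter_upwards [eventually_gt_atTop n] with k hk
  rw [act_val, cj, ContinuousLinearMap.mul_apply, star_fix e (hβ k n hk),
    ContinuousLinearMap.mul_apply, Ps_e]

theorem h4 (V : Set (YY e)) (hV : IsOpen V) (hVn : V.Nonempty) (M : ℕ) : ∃ i, M ≤ i ∧ ∀ η > 0,
    ∃ V' ⊆ V, IsOpen V' ∧ V'.Nonempty ∧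
      ∀ q ∈ V', ‖q.1 i - e i‖ < η ∧ ‖q.1 (i + 1)‖ < η := by
  obtain ⟨O, hO, hOV⟩ := isOpen_induced_iff.1 hV
  obtain ⟨y, hy⟩ := hVn
  have hyO : y.1 ∈ O := by
    have h := hy
    rw [← hOV] at h
    exact h
  obtain ⟨w, hwO, γ, hwγ⟩ := mem_closure_iff.1 y.2 O hO hyO
  let y' : YY e := ⟨w, subset_closure ⟨γ, hwγ⟩⟩
  have hy'V : y' ∈ V := by rw [← hOV]; exact hwO
  have hPs : Ps e y' = cj e γ (p0 e) := ext_e e _ _ fun n => by
    rw [Ps_e]; change w n = _; rw [hwγ]
  obtain ⟨M', hM'⟩ := low_exists e γ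
  refine ⟨2 * max M M', by omega, fun η hη => ?_⟩
  have h1 : y'.1 (2 * max M M') = e (2 * max M M') := by
    rw [← Ps_e, hPs, cj, ContinuousLinearMap.mul_apply,
      star_fix e (hM' _ (by omega)), ContinuousLinearMap.mul_apply, p0_even,
      hM' _ (by omega)]
  have h2 : y'.1 (2 * max M M' + 1) = 0 := by
    rw [← Ps_e, hPs, cj, ContinuousLinearMap.mul_apply,
      star_fix e (hM' _ (by omega)), ContinuousLinearMap.mul_apply, p0_odd, map_zero]
  refine ⟨V ∩ ({q | ‖q.1 (2 * max M M') - e (2 * max M M')‖ < η} ∩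
    {q | ‖q.1 (2 * max M M' + 1)‖ < η}), Set.inter_subset_left, ?_, ⟨y', hy'V, ?_, ?_⟩,
    fun q hq => ⟨hq.2.1, hq.2.2⟩⟩
  · exact hV.inter ((isOpen_lt ((cont_val e _).sub continuous_const).norm continuous_const).inter
      (isOpen_lt (cont_val e _).norm continuous_const))
  · change ‖y'.1 _ - _‖ < η
    rw [h1, sub_self, norm_zero]; exact hη
  · change ‖y'.1 _‖ < η
    rw [h2, norm_zero]; exact hη

/-- compactness of norm limits -/
theorem lim_compact (g : ℕ → GG) (hg : ∀ l, ‖uu e ((g l)⁻¹ * g (l + 1)) - 1‖ ≤ (1 / 2 : ℝ) ^ l)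
    (p q : YY e) (h : Tendsto (fun l => g l • p) atTop (𝓝 q)) :
    IsCompactOperator (Ps e q - Ps e p : H →L[ℂ] H) := by
  set P := Ps e p with hP
  have hPn : ‖P‖ ≤ 1 := (Ps_pr e p).norm_le
  have h1 : ∀ l, ‖uu e (g (l + 1)) - uu e (g l)‖ ≤ (1 / 2 : ℝ) ^ l := by
    intro l
    have e1 : uu e (g (l + 1)) - uu e (g l) = uu e (g l) * (uu e ((g l)⁻¹ * g (l + 1)) - 1) := by
      rw [uu_mul, uu_inv, mul_sub, ← mul_assoc, uu_mul_star, one_mul, mul_one]
    rw [e1]
    refine (norm_mul_le _ _).trans ?_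
    calc ‖uu e (g l)‖ * ‖uu e ((g l)⁻¹ * g (l + 1)) - 1‖ ≤ 1 * (1 / 2 : ℝ) ^ l :=
          mul_le_mul (norm_uu_le e _) (hg l) (norm_nonneg _) zero_le_one
      _ = _ := one_mul _
  have h2 : ∀ l, dist (cj e (g l) P) (cj e (g (l + 1)) P) ≤ 2 * (1 / 2 : ℝ) ^ l := by
    intro l
    rw [dist_comm, dist_eq_norm]
    have e1 : cj e (g (l + 1)) P - cj e (g l) P = (uu e (g (l + 1)) - uu e (g l)) * P *
        star (uu e (g (l + 1))) + uu e (g l) * P * star (uu e (g (l + 1)) - uu e (g l)) := by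
      rw [cj, cj, star_sub]; noncomm_ring
    rw [e1]
    have a1 : ‖(uu e (g (l + 1)) - uu e (g l)) * P * star (uu e (g (l + 1)))‖ ≤
        (1 / 2 : ℝ) ^ l * 1 * 1 := by
      refine (norm_mul_le _ _).trans (mul_le_mul ((norm_mul_le _ _).trans
        (mul_le_mul (h1 l) hPn (norm_nonneg _) (by positivity))) ?_ (norm_nonneg _) (by positivity))
      rw [norm_star]; exact norm_uu_le e _
    have a2 : ‖uu e (g l) * P * star (uu e (g (l + 1)) - uu e (g l))‖ ≤
        1 * 1 * (1 / 2 : ℝ) ^ l := by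
      refine (norm_mul_le _ _).trans (mul_le_mul ((norm_mul_le _ _).trans
        (mul_le_mul (norm_uu_le e _) hPn (norm_nonneg _) (by positivity))) ?_ (norm_nonneg _)
        (by positivity))
      rw [norm_star]; exact h1 l
    refine (norm_add_le _ _).trans ?_
    linarith
  have hc : CauchySeq fun l => cj e (g l) P :=
    cauchySeq_of_le_geometric (1 / 2 : ℝ) 2 (by norm_num) h2
  obtain ⟨T, hT⟩ := cauchySeq_tendsto_of_complete hc
  have hTq : T = Ps e q := ext_e e _ _ fun n => by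
    rw [Ps_e]
    have b1 : Tendsto (fun l => cj e (g l) P (e n)) atTop (𝓝 (T (e n))) :=
      ((ContinuousLinearMap.apply ℂ H (e n)).continuous.tendsto T).comp hT
    have b2 : Tendsto (fun l => (g l • p).1 n) atTop (𝓝 (q.1 n)) :=
      ((cont_val e n).tendsto q).comp h
    exact tendsto_nhds_unique b1 b2
  have hcl : IsClosed {f : H →L[ℂ] H | IsCompactOperator f} := isClosed_setOfPred_isCompactOperator
  rw [← hTq]
  refine hcl.mem_of_tendsto (hT.sub_const P) (Eventually.of_forall fun l => ?_)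
  change IsCompactOperator (cj e (g l) P - P : H →L[ℂ] H)
  have e2 : cj e (g l) P - P = (uu e (g l) - 1) * (P * star (uu e (g l))) +
      P * (uu e (g l)⁻¹ - 1) := by
    rw [cj, uu_inv]; noncomm_ring
  rw [e2]
  exact ((uu_compact e (g l)).comp_clm (P * star (uu e (g l)))).add
    ((uu_compact e (g l)⁻¹).clm_comp P)

/-- witnesses -/
def WitP (M : ℕ) (p q : YY e) : Prop :=
  ∃ ξ : H, ‖ξ‖ ≤ 1 ∧ (∀ n < M, ⟪e n, ξ⟫_ℂ = 0) ∧ 1 / 2 < ‖Ps e q ξ - Ps e p ξ‖

theorem wit_open (M : ℕ) : IsOpen {x : YY e × YY e | WitP e M x.1 x.2} := by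
  have : {x : YY e × YY e | WitP e M x.1 x.2} =
      ⋃ ξ : {ξ : H // ‖ξ‖ ≤ 1 ∧ ∀ n < M, ⟪e n, ξ⟫_ℂ = 0},
        {x : YY e × YY e | 1 / 2 < ‖Ps e x.2 ξ.1 - Ps e x.1 ξ.1‖} := by
    ext x
    simp only [WitP, Set.mem_setOf_eq, Set.mem_iUnion, Subtype.exists]
    constructor
    · rintro ⟨ξ, h1, h2, h3⟩; exact ⟨ξ, ⟨h1, h2⟩, h3⟩
    · rintro ⟨ξ, ⟨h1, h2⟩, h3⟩; exact ⟨ξ, h1, h2, h3⟩
  rw [this]
  refine isOpen_iUnion fun ξ => isOpen_lt continuous_const ?_
  exact (((cont_Ps e ξ.1).comp continuous_snd).sub ((cont_Ps e ξ.1).comp continuous_fst)).norm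

theorem wit_not_compact (p q : YY e) (h : ∀ M, WitP e M p q) :
    ¬ IsCompactOperator (Ps e q - Ps e p : H →L[ℂ] H) := by
  intro hT
  set T : H →L[ℂ] H := Ps e q - Ps e p with hTd
  choose ξ h1 h2 h3 using h
  have hsym : ∀ x y, ⟪T x, y⟫_ℂ = ⟪x, T y⟫_ℂ := by
    intro x y
    rw [hTd, sub_apply, sub_apply, inner_sub_left, inner_sub_right, (Ps_pr e q).inner,
      (Ps_pr e p).inner]
  have hspan : ∀ ζ ∈ Submodule.span ℂ (Set.range e), ∃ N, ∀ M, N ≤ M → ⟪ζ, ξ M⟫_ℂ = 0 := by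
    intro ζ hζ
    induction hζ using Submodule.span_induction with
    | mem x hx =>
      obtain ⟨n, rfl⟩ := hx
      exact ⟨n + 1, fun M hM => h2 M n (by omega)⟩
    | zero => exact ⟨0, fun M _ => inner_zero_left _⟩
    | add a b _ _ ha hb =>
      obtain ⟨N, hN⟩ := ha
      obtain ⟨N', hN'⟩ := hb
      exact ⟨max N N', fun M hM => by
        rw [inner_add_left, hN M ((le_max_left _ _).trans hM),
          hN' M ((le_max_right _ _).trans hM), add_zero]⟩
    | smul c a _ ha =>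
      obtain ⟨N, hN⟩ := ha
      exact ⟨N, fun M hM => by rw [inner_smul_left, hN M hM, mul_zero]⟩
  have hweak : ∀ v : H, Tendsto (fun M => ⟪v, ξ M⟫_ℂ) atTop (𝓝 0) := by
    intro v
    rw [Metric.tendsto_atTop]
    intro ε hε
    obtain ⟨ζ, hζ, hd⟩ := approx e v ε hε
    obtain ⟨N, hN⟩ := hspan ζ hζ
    refine ⟨N, fun M hM => ?_⟩
    have e1 : ⟪v, ξ M⟫_ℂ = ⟪v - ζ, ξ M⟫_ℂ := by rw [inner_sub_left, hN M hM, sub_zero]
    rw [dist_zero_right, e1]
    calc ‖⟪v - ζ, ξ M⟫_ℂ‖ ≤ ‖v - ζ‖ * ‖ξ M‖ := norm_inner_le_norm _ _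
      _ ≤ ‖v - ζ‖ * 1 := mul_le_mul_of_nonneg_left (h1 M) (norm_nonneg _)
      _ < ε := by rw [mul_one]; exact hd
  have hK := (show IsCompactOperator (T : H →ₗ[ℂ] H) from hT).isCompact_closure_image_closedBall 1
  have hmem : ∀ M, T (ξ M) ∈ closure ((T : H →ₗ[ℂ] H) '' Metric.closedBall 0 1) := fun M =>
    subset_closure ⟨ξ M, by rw [mem_closedBall_zero_iff]; exact h1 M, rfl⟩
  obtain ⟨ζ, -, φ, hφ, hlim⟩ := hK.tendsto_subseq hmem
  have hz : ∀ n, ⟪e n, ζ⟫_ℂ = 0 := by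
    intro n
    have a1 : Tendsto (fun k => ⟪e n, T (ξ (φ k))⟫_ℂ) atTop (𝓝 ⟪e n, ζ⟫_ℂ) :=
      tendsto_const_nhds.inner hlim
    have a2 : Tendsto (fun k => ⟪T (e n), ξ (φ k)⟫_ℂ) atTop (𝓝 0) :=
      (hweak (T (e n))).comp hφ.tendsto_atTop
    refine tendsto_nhds_unique a1 (a2.congr fun k => hsym _ _)
  have hζ0 : ζ = 0 := by
    have a1 : e.repr ζ = 0 := by
      ext n
      rw [e.repr_apply_apply, hz n]; rfl
    exact (LinearIsometryEquiv.map_eq_zero_iff e.repr).1 a1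
  have h5 : 1 / 2 ≤ ‖ζ‖ := by
    refine ge_of_tendsto hlim.norm (Eventually.of_forall fun k => ?_)
    have := h3 (φ k)
    rw [← sub_apply] at this
    exact this.le
  rw [hζ0, norm_zero] at h5
  linarith

end Pool.Agent.H453R3.QC
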