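import Pool.Agent.H453R3.QC5a

/-!
# Verification of the block condition
-/

set_option autoImplicit false

open scoped InnerProductSpace
open Filter Topology

namespace Pool.Agent.H453R3.QC

variable {H : Type} [NormedAddCommGroup H] [InnerProductSpace ℂ H] [CompleteSpace H]
variable (e : HilbertBasis ℕ ℂ H)

theorem si1 (K : ℕ) (α : ℕ → ℕ) (hα : Function.Injective α) (b : ℕ) (hb : b < K) :
    ⟪e (α b), ∑ c ∈ Finset.range K, e (α c)⟫_ℂ = 1 := by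
  rw [inner_sum, Finset.sum_eq_single b]
  · rw [inner_e, if_pos rfl]
  · intro c _ hc
    rw [inner_e, if_neg fun h => hc (hα h).symm]
  · intro h
    exact absurd (Finset.mem_range.2 hb) h

theorem si0 (K : ℕ) (α : ℕ → ℕ) (n : ℕ) (h : ∀ c, n ≠ α c) :
    ⟪e n, ∑ c ∈ Finset.range K, e (α c)⟫_ℂ = 0 := by
  rw [inner_sum]
  exact Finset.sum_eq_zero fun c _ => by rw [inner_e, if_neg (h c)]

theorem sisq (K : ℕ) (α : ℕ → ℕ) (hα : Function.Injective α) :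
    ‖∑ c ∈ Finset.range K, e (α c)‖ ^ 2 = K := by
  have h1 : ⟪∑ c ∈ Finset.range K, e (α c), ∑ c ∈ Finset.range K, e (α c)⟫_ℂ = K := by
    rw [sum_inner, Finset.sum_congr rfl fun b hb => si1 e K α hα b (Finset.mem_range.1 hb)]
    simp
  rw [inner_self_eq_norm_sq_to_K] at h1
  have h2 : ((‖∑ c ∈ Finset.range K, e (α c)‖ ^ 2 : ℝ) : ℂ) = ((K : ℝ) : ℂ) := by
    push_cast
    exact h1
  exact Complex.ofReal_injective h2

theorem wl_symm (L s a b : ℕ) : wl L s a b = wl L s b a := by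
  unfold wl
  rw [QB.yq_symm L a b]
  simp only [and_comm]

theorem wl_row (L : ℕ) (hL : 0 < L) (a : ℕ) (ha : a < 2 ^ L) :
    ∑ b ∈ Finset.range (2 ^ L), wl L (2 ^ L) a b = 1 := by
  have h1 : ∑ b ∈ Finset.range (2 ^ L), wl L (2 ^ L) a b =
      ∑ b ∈ Finset.range (2 ^ L), QB.yq L a b / L :=
    Finset.sum_congr rfl fun b hb => if_pos ⟨ha, Finset.mem_range.1 hb⟩
  rw [h1, ← Finset.sum_div, QB.yq_row L a ha]
  have hLq : (0 : ℚ) < L := by exact_mod_cast hL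
  exact div_self hLq.ne'

theorem X_psi (L : ℕ) (hL : 0 < L) (i : ℕ → ℕ) (hi : ∀ t, i t + 1 < i (t + 1)) :
    X e (FB (2 ^ L) i (wl L (2 ^ L))) (∑ c ∈ Finset.range (2 ^ L), e (i c + 1)) =
      ∑ c ∈ Finset.range (2 ^ L), e (i c) := by
  rw [X_FB_apply]
  refine Finset.sum_congr rfl fun a ha => ?_
  have hinj : Function.Injective fun c => i c + 1 := fun a b h => adm_inj i hi (by simpa using h)
  have h1 : ∀ b ∈ Finset.range (2 ^ L), ((wl L (2 ^ L) a b : ℚ) : ℂ) •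
      Sy e (i a) (i b + 1) (∑ c ∈ Finset.range (2 ^ L), e (i c + 1)) =
      ((wl L (2 ^ L) a b : ℚ) : ℂ) • e (i a) := by
    intro b hb
    have a1 := si1 e (2 ^ L) (fun c => i c + 1) hinj b (Finset.mem_range.1 hb)
    have a2 := si0 e (2 ^ L) (fun c => i c + 1) (i a) fun c => adm_ne i hi a c
    rw [Sy, add_apply, E_apply, E_apply, a1, a2, one_smul, zero_smul, add_zero]
  rw [Finset.sum_congr rfl h1, ← Finset.sum_smul, ← Rat.cast_sum,
    wl_row L hL a (Finset.mem_range.1 ha), Rat.cast_one, one_smul]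

theorem X_phi (L : ℕ) (hL : 0 < L) (i : ℕ → ℕ) (hi : ∀ t, i t + 1 < i (t + 1)) :
    X e (FB (2 ^ L) i (wl L (2 ^ L))) (∑ c ∈ Finset.range (2 ^ L), e (i c)) =
      ∑ c ∈ Finset.range (2 ^ L), e (i c + 1) := by
  rw [X_FB_apply, Finset.sum_comm]
  refine Finset.sum_congr rfl fun b hb => ?_
  have h1 : ∀ a ∈ Finset.range (2 ^ L), ((wl L (2 ^ L) a b : ℚ) : ℂ) •
      Sy e (i a) (i b + 1) (∑ c ∈ Finset.range (2 ^ L), e (i c)) =
      ((wl L (2 ^ L) b a : ℚ) : ℂ) • e (i b + 1) := by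
    intro a ha
    have a1 := si1 e (2 ^ L) i (adm_inj i hi) a (Finset.mem_range.1 ha)
    have a2 := si0 e (2 ^ L) i (i b + 1) fun c => (adm_ne i hi c b).symm
    rw [Sy, add_apply, E_apply, E_apply, a1, a2, one_smul, zero_smul, zero_add, wl_symm]
  rw [Finset.sum_congr rfl h1, ← Finset.sum_smul, ← Rat.cast_sum,
    wl_row L hL b (Finset.mem_range.1 hb), Rat.cast_one, one_smul]

theorem sum_bound (K : ℕ) (hK : 0 < K) (F : ℕ → H) (h : ∀ t < K, ‖F t‖ < 1 / (8 * (K : ℝ))) :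
    ‖∑ t ∈ Finset.range K, F t‖ ≤ 1 / 8 := by
  have hK' : (0 : ℝ) < K := by exact_mod_cast hK
  refine (norm_sum_le_of_le _ fun t ht => (h t (Finset.mem_range.1 ht)).le).trans ?_
  rw [Finset.sum_const, Finset.card_range, nsmul_eq_mul]
  apply le_of_eq
  field_simp

theorem star_uu_apply (γ : GG) (x : H) : star (uu e γ) (uu e γ x) = x := by
  rw [← ContinuousLinearMap.mul_apply, star_uu_mul, ContinuousLinearMap.one_apply]

theorem wit_core (U G Q : H →L[ℂ] H) (hU : ∀ x, ‖U x‖ = ‖x‖) (hUs : ∀ x, star U (U x) = x)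
    (hGn : ∀ x, ‖star G x‖ = ‖x‖) (φ ψ : H) (h1 : U φ = Complex.I • ψ) (hG : G ψ = ψ)
    (hQφ : ‖Q φ - φ‖ ≤ 1 / 8) (hQψ : ‖Q ψ‖ ≤ 1 / 8) (h6 : 1 ≤ ‖ψ‖) :
    1 / 2 < ‖(U * Q * star U) (((‖ψ‖ : ℂ))⁻¹ • ψ) - (star G * Q * G) (((‖ψ‖ : ℂ))⁻¹ • ψ)‖ := by
  have h2 : star U ψ = -(Complex.I • φ) := by
    have e1 := hUs φ
    rw [h1, map_smul] at e1
    rw [← e1, smul_smul, Complex.I_mul_I, neg_one_smul, neg_neg]
  have h3 : ‖(U * Q * star U) ψ - ψ‖ ≤ 1 / 8 := by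
    have : (U * Q * star U) ψ - ψ = -(Complex.I • U (Q φ - φ)) := by
      rw [ContinuousLinearMap.mul_apply, ContinuousLinearMap.mul_apply, h2, map_neg,
        map_neg, map_smul, map_smul, map_sub, h1, smul_sub, smul_smul, Complex.I_mul_I,
        neg_one_smul]
      abel
    rw [this, norm_neg, norm_smul, Complex.norm_I, one_mul, hU]
    exact hQφ
  have h4 : ‖(star G * Q * G) ψ‖ ≤ 1 / 8 := by
    rw [ContinuousLinearMap.mul_apply, ContinuousLinearMap.mul_apply, hG, hGn]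
    exact hQψ
  rw [map_smul, map_smul, ← smul_sub, norm_smul, norm_inv, Complex.norm_real, norm_norm,
      ← div_eq_inv_mul, lt_div_iff₀ (by linarith)]
  generalize (U * Q * star U) ψ = A at *
  generalize (star G * Q * G) ψ = B at *
  have a2 : ‖ψ‖ ≤ ‖A - B‖ + (‖B‖ + ‖A - ψ‖) := by
    calc ‖ψ‖ = ‖(A - B) + (B - (A - ψ))‖ := by congr 1; abel
      _ ≤ ‖A - B‖ + ‖B - (A - ψ)‖ := norm_add_le _ _
      _ ≤ _ := by
        have := norm_sub_le B (A - ψ)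
        linarith
  linarith

theorem wit (L : ℕ) (hL : 0 < L) (i : ℕ → ℕ) (hi : ∀ t, i t + 1 < i (t + 1)) (M : ℕ)
    (hM : ∀ t, M ≤ i t) (g : GG) (hg : LowP e M g) (q : YY e)
    (hq : ∀ t < 2 ^ L, ‖q.1 (i t) - e (i t)‖ < 1 / (8 * ((2 ^ L : ℕ) : ℝ)) ∧
      ‖q.1 (i t + 1)‖ < 1 / (8 * ((2 ^ L : ℕ) : ℝ))) :
    WitP e M (g⁻¹ • q) (Blk L (2 ^ L) i • q) := by
  have hinj : Function.Injective fun c => i c + 1 := fun a b h => adm_inj i hi (by simpa using h)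
  obtain ⟨φ, hφ⟩ : ∃ φ, φ = ∑ c ∈ Finset.range (2 ^ L), e (i c) := ⟨_, rfl⟩
  obtain ⟨ψ, hψ⟩ : ∃ ψ, ψ = ∑ c ∈ Finset.range (2 ^ L), e (i c + 1) := ⟨_, rfl⟩
  have hx := X_sa e (FB (2 ^ L) i (wl L (2 ^ L)))
  have h1 : uu e (Blk L (2 ^ L) i) φ = Complex.I • ψ := by
    rw [uu_Blk, hφ, hψ]
    exact cay_apply_of_swap _ hx _ _ (X_phi e L hL i hi) (X_psi e L hL i hi)
  obtain ⟨K, hK⟩ : ∃ K : ℕ, K = 2 ^ L := ⟨_, rfl⟩
  have hK0 : 0 < K := by rw [hK]; exact Nat.two_pow_pos L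
  rw [← hK] at hq hφ hψ
  have hQφ : ‖Ps e q φ - φ‖ ≤ 1 / 8 := by
    have : Ps e q φ - φ = ∑ t ∈ Finset.range K, (q.1 (i t) - e (i t)) := by
      rw [hφ, map_sum, Finset.sum_sub_distrib]
      simp only [Ps_e]
    rw [this]
    exact sum_bound K hK0 _ fun t ht => (hq t ht).1
  have hQψ : ‖Ps e q ψ‖ ≤ 1 / 8 := by
    have : Ps e q ψ = ∑ t ∈ Finset.range K, q.1 (i t + 1) := by
      rw [hψ, map_sum]
      simp only [Ps_e]
    rw [this]
    exact sum_bound K hK0 _ fun t ht => (hq t ht).2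
  have hgψ : uu e g ψ = ψ := by
    rw [hψ, map_sum]
    exact Finset.sum_congr rfl fun c _ => hg (i c + 1) (by have := hM c; omega)
  have h5 : ‖ψ‖ ^ 2 = (K : ℝ) := by rw [hψ]; exact sisq e K (fun c => i c + 1) hinj
  have h6 : 1 ≤ ‖ψ‖ := by
    have h7 : (1 : ℝ) ≤ ‖ψ‖ ^ 2 := by
      rw [h5]
      exact_mod_cast hK0
    have h8 := norm_nonneg ψ
    nlinarith
  refine ⟨((‖ψ‖ : ℂ))⁻¹ • ψ, ?_, ?_, ?_⟩
  · rw [norm_smul, norm_inv, Complex.norm_real, norm_norm, inv_mul_cancel₀ (by linarith)]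
  · intro n hn
    rw [inner_smul_right, hψ, si0 e K (fun c => i c + 1) n fun c => by have := hM c; omega,
      mul_zero]
  · rw [Ps_smul, Ps_smul]
    unfold cj
    rw [uu_inv, star_star]
    refine wit_core (uu e (Blk L (2 ^ L) i)) (uu e g) (Ps e q) (norm_uu_apply e _) (fun x => ?_)
      (fun x => ?_) φ ψ h1 hgψ hQφ hQψ h6
    · exact star_uu_apply e _ x
    · rw [← uu_inv, norm_uu_apply]

end Pool.Agent.H453R3.QC
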