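import Pool.Agent.H453R3.QC5b
import Pool.Agent.H453R3.QC5c

/-!
# Verification of the block condition
-/

set_option autoImplicit false

open scoped InnerProductSpace
open Filter Topology

namespace Pool.Agent.H453R3.QC

variable {H : Type} [NormedAddCommGroup H] [InnerProductSpace ℂ H] [CompleteSpace H]
variable (e : HilbertBasis ℕ ℂ H)

theorem hB (δ : ℝ) (hδ : 0 < δ) : ∃ (K : ℕ) (Bl : ℕ → (ℕ → ℕ) → GG) (η : ℝ), 0 < η ∧
    (∀ i, Bl 0 i = 1) ∧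
    (∀ s i i', (∀ t < s, i t = i' t) → Bl s i = Bl s i') ∧
    (∀ s i M, (∀ t < s, M ≤ i t) → FarP e M (Bl s i)) ∧
    (∀ i : ℕ → ℕ, (∀ t, i t + 1 < i (t + 1)) → ∀ s < K, ∃ β : GG,
      (∀ M, (∀ t, s < t → M ≤ i t) → FarP e M β) ∧
        ‖uu e (Bl K i * (β * Bl s i)⁻¹) - 1‖ < δ) ∧
    (∀ i : ℕ → ℕ, (∀ t, i t + 1 < i (t + 1)) → ∀ M, (∀ t, M ≤ i t) → ∀ g, LowP e M g →
      ∀ q : YY e, (∀ t < K, ‖q.1 (i t) - e (i t)‖ < η ∧ ‖q.1 (i t + 1)‖ < η) →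
        WitP e M (g⁻¹ • q) (Bl K i • q)) := by
  obtain ⟨L, hL⟩ := exists_nat_gt ((8 / δ) ^ 2)
  have hL0 : 0 < L := by
    have : (0 : ℝ) < L := lt_of_le_of_lt (sq_nonneg _) hL
    exact_mod_cast this
  have hL1 : 8 / Real.sqrt L < δ := by
    have h1 : 8 / δ < Real.sqrt L := Real.lt_sqrt_of_sq_lt hL
    have h2 : 0 < Real.sqrt L := Real.sqrt_pos.2 (by exact_mod_cast hL0)
    rw [div_lt_iff₀ hδ] at h1
    rw [div_lt_iff₀ h2]
    linarith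
  refine ⟨2 ^ L, fun s i => Blk L s i, 1 / (8 * ((2 ^ L : ℕ) : ℝ)), by positivity, Blk_zero L,
    Blk_congr L, fun s i M h => Blk_far e L s i M h, fun i hi s _ => ?_,
    fun i hi M hM g hg q hq => wit e L hL0 i hi M hM g hg q hq⟩
  exact ⟨FreeGroup.of (FB (2 ^ L) i (wg L s)), fun M h => up_far e L s i M h,
    (cross_small e L s hL0 i hi).trans_lt hL1⟩

end Pool.Agent.H453R3.QC
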