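import Pool.Agent.H453R3.QC4

/-!
# Verification of the block condition
-/

set_option autoImplicit false

open scoped InnerProductSpace
open Filter Topology

namespace Pool.Agent.H453R3.QC

variable {H : Type} [NormedAddCommGroup H] [InnerProductSpace ℂ H] [CompleteSpace H]
variable (e : HilbertBasis ℕ ℂ H)

/-- lower part -/
def wl (L s a b : ℕ) : ℚ := if a < s ∧ b < s then QB.yq L a b / L else 0

/-- upper part -/
def wg (L s a b : ℕ) : ℚ := if s < a ∧ s < b then QB.yq L a b / L else 0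

/-- cross part -/
def wc (L s a b : ℕ) : ℚ :=
  if (a < s ∧ b < s) ∨ (s < a ∧ s < b) then 0 else QB.yq L a b / L

/-- blocks -/
noncomputable def Blk (L s : ℕ) (i : ℕ → ℕ) : GG :=
  if s = 0 then 1 else FreeGroup.of (FB (2 ^ L) i (wl L s))

theorem cay_zero : cay (0 : H →L[ℂ] H) = 1 := by
  ext v
  exact cay_apply_of_zero 0 (IsSelfAdjoint.zero _) v rfl

theorem uu_Blk (L s : ℕ) (i : ℕ → ℕ) : uu e (Blk L s i) = cay (X e (FB (2 ^ L) i (wl L s))) := by
  unfold Blk
  split_ifs with h
  · have : FB (2 ^ L) i (wl L s) = 0 := by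
      subst h
      simp [FB, wl]
    rw [this, map_zero, cay_zero, uu_one]
  · exact uu_of e _

theorem Blk_zero (L : ℕ) (i : ℕ → ℕ) : Blk L 0 i = 1 := if_pos rfl

theorem Blk_congr (L s : ℕ) (i i' : ℕ → ℕ) (h : ∀ t < s, i t = i' t) : Blk L s i = Blk L s i' := by
  unfold Blk
  have : FB (2 ^ L) i (wl L s) = FB (2 ^ L) i' (wl L s) := by
    unfold FB
    refine Finset.sum_congr rfl fun a _ => Finset.sum_congr rfl fun b _ => ?_
    by_cases hab : a < s ∧ b < s
    · rw [h a hab.1, h b hab.2]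
    · have : wl L s a b = 0 := if_neg hab
      rw [this, Finsupp.single_zero, Finsupp.single_zero]
  rw [this]

theorem Blk_far (L s : ℕ) (i : ℕ → ℕ) (M : ℕ) (h : ∀ t < s, M ≤ i t) : FarP e M (Blk L s i) := by
  intro n hn
  rw [uu_Blk]
  refine cay_apply_of_zero _ (X_sa e _) _ (X_FB_zero e _ _ _ _ fun a _ b _ hw => ?_)
  have hab : a < s ∧ b < s := by
    by_contra hc
    exact hw (if_neg hc)
  have h1 := h a hab.1
  have h2 := h b hab.2
  omega

theorem up_far (L s : ℕ) (i : ℕ → ℕ) (M : ℕ) (h : ∀ t, s < t → M ≤ i t) :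
    FarP e M (FreeGroup.of (FB (2 ^ L) i (wg L s))) := by
  intro n hn
  rw [uu_of]
  refine cay_apply_of_zero _ (X_sa e _) _ (X_FB_zero e _ _ _ _ fun a _ b _ hw => ?_)
  have hab : s < a ∧ s < b := by
    by_contra hc
    exact hw (if_neg hc)
  have h1 := h a hab.1
  have h2 := h b hab.2
  omega

theorem adm_lt (i : ℕ → ℕ) (h : ∀ t, i t + 1 < i (t + 1)) (a b : ℕ) (hab : a < b) :
    i a + 1 < i b := by
  obtain ⟨k, rfl⟩ := Nat.exists_eq_add_of_lt hab
  clear hab
  induction k with
  | zero => exact h a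
  | succ k ih =>
    have h2 := h (a + k + 1)
    have e1 : a + (k + 1) + 1 = a + k + 1 + 1 := by ring
    rw [e1]; omega

theorem adm_inj (i : ℕ → ℕ) (h : ∀ t, i t + 1 < i (t + 1)) : Function.Injective i := by
  intro a b hab
  rcases lt_trichotomy a b with h1 | h1 | h1
  · have := adm_lt i h a b h1; omega
  · exact h1
  · have := adm_lt i h b a h1; omega

theorem adm_ne (i : ℕ → ℕ) (h : ∀ t, i t + 1 < i (t + 1)) (a b : ℕ) : i a ≠ i b + 1 := by
  rcases lt_trichotomy a b with h1 | h1 | h1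
  · have := adm_lt i h a b h1; omega
  · subst h1; omega
  · have := adm_lt i h b a h1; omega

end Pool.Agent.H453R3.QC
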