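import Pool.Agent.H453R3.QC5a

/-!
# Verification of the block condition
-/

set_option autoImplicit false

open scoped InnerProductSpace
open Filter Topology

namespace Pool.Agent.H453R3.QC

variable {H : Type} [NormedAddCommGroup H] [InnerProductSpace ℂ H] [CompleteSpace H]
variable (e : HilbertBasis ℕ ℂ H)

theorem wg_mul_wl (L s : ℕ) (i : ℕ → ℕ) (hi : ∀ t, i t + 1 < i (t + 1)) :
    X e (FB (2 ^ L) i (wg L s)) * X e (FB (2 ^ L) i (wl L s)) = 0 := by
  ext z
  rw [ContinuousLinearMap.mul_apply, X_FB_apply e (2 ^ L) i (wl L s), map_sum]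
  refine Finset.sum_eq_zero fun a _ => ?_
  rw [map_sum]
  refine Finset.sum_eq_zero fun b _ => ?_
  by_cases hab : a < s ∧ b < s
  · have z1 : X e (FB (2 ^ L) i (wg L s)) (e (i a)) = 0 := by
      refine X_FB_zero e _ _ _ _ fun a' _ b' _ hw => ?_
      have hab' : s < a' ∧ s < b' := by
        by_contra hc
        exact hw (if_neg hc)
      have h1 := adm_lt i hi a a' (by omega)
      have h2 := adm_lt i hi a b' (by omega)
      omega
    have z2 : X e (FB (2 ^ L) i (wg L s)) (e (i b + 1)) = 0 := by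
      refine X_FB_zero e _ _ _ _ fun a' _ b' _ hw => ?_
      have hab' : s < a' ∧ s < b' := by
        by_contra hc
        exact hw (if_neg hc)
      have h1 := adm_lt i hi b a' (by omega)
      have h2 := adm_lt i hi b b' (by omega)
      omega
    rw [map_smul, Sy, add_apply, E_apply, E_apply, map_add, map_smul, map_smul, z1, z2]
    simp
  · have : wl L s a b = 0 := if_neg hab
    rw [this]; simp

theorem FB_split (L s : ℕ) (i : ℕ → ℕ) : FB (2 ^ L) i (wl L (2 ^ L)) =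
    FB (2 ^ L) i (wg L s) + FB (2 ^ L) i (wl L s) + FB (2 ^ L) i (wc L s) := by
  rw [← FB_add, ← FB_add]
  unfold FB
  refine Finset.sum_congr rfl fun a ha => Finset.sum_congr rfl fun b hb => ?_
  congr 1
  change wl L (2 ^ L) a b = wg L s a b + wl L s a b + wc L s a b
  have ha' := Finset.mem_range.1 ha
  have hb' := Finset.mem_range.1 hb
  unfold wl wg wc
  rw [if_pos ⟨ha', hb'⟩]
  by_cases h1 : a < s ∧ b < s
  · rw [if_neg (by omega), if_pos h1, if_pos (Or.inl h1)]; ring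
  · by_cases h2 : s < a ∧ s < b
    · rw [if_pos h2, if_neg h1, if_pos (Or.inr h2)]; ring
    · rw [if_neg h2, if_neg h1, if_neg (by tauto)]; ring

theorem norm_cross (L s : ℕ) (hL : 0 < L) (i : ℕ → ℕ) (hi : ∀ t, i t + 1 < i (t + 1)) :
    ‖X e (FB (2 ^ L) i (wc L s))‖ ≤ 2 * (2 / Real.sqrt L) := by
  refine norm_X_FB e _ i (adm_inj i hi) _ _ (by positivity) ?_
  have hL' : (0 : ℝ) < L := by exact_mod_cast hL
  rw [div_pow, Real.sq_sqrt hL'.le]
  have h1 := QB.cross_le L s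
  have h2 : ∑ a ∈ Finset.range (2 ^ L), ∑ b ∈ Finset.range (2 ^ L), (wc L s a b) ^ 2 =
      (∑ a ∈ Finset.range (2 ^ L), ∑ b ∈ Finset.range (2 ^ L),
        (if (a < s ∧ b < s) ∨ (s < a ∧ s < b) then 0 else (QB.yq L a b) ^ 2)) / (L : ℚ) ^ 2 := by
    rw [Finset.sum_div]
    refine Finset.sum_congr rfl fun a _ => ?_
    rw [Finset.sum_div]
    refine Finset.sum_congr rfl fun b _ => ?_
    unfold wc
    split_ifs
    · simp
    · rw [div_pow]
  have h3 : ∑ a ∈ Finset.range (2 ^ L), ∑ b ∈ Finset.range (2 ^ L), (wc L s a b) ^ 2 ≤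
      4 / (L : ℚ) := by
    rw [h2]
    have hLq : (0 : ℚ) < L := by exact_mod_cast hL
    rw [div_le_div_iff₀ (by positivity) hLq]
    nlinarith
  have h4 : ((∑ a ∈ Finset.range (2 ^ L), ∑ b ∈ Finset.range (2 ^ L), (wc L s a b) ^ 2 : ℚ) : ℝ) ≤
      ((4 / (L : ℚ) : ℚ) : ℝ) := by exact_mod_cast h3
  push_cast at h4
  refine h4.trans ?_
  norm_num

theorem norm_quot (A B : GG) : ‖uu e (A * B⁻¹) - 1‖ ≤ ‖uu e A - uu e B‖ := by
  have e1 : uu e (A * B⁻¹) - 1 = (uu e A - uu e B) * star (uu e B) := by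
    rw [uu_mul, uu_inv, sub_mul, uu_mul_star]
  rw [e1]
  refine (norm_mul_le _ _).trans ?_
  rw [norm_star]
  exact mul_le_of_le_one_right (norm_nonneg _) (norm_uu_le e B)

theorem cross_small (L s : ℕ) (hL : 0 < L) (i : ℕ → ℕ) (hi : ∀ t, i t + 1 < i (t + 1)) :
    ‖uu e (Blk L (2 ^ L) i * (FreeGroup.of (FB (2 ^ L) i (wg L s)) * Blk L s i)⁻¹) - 1‖ ≤
      8 / Real.sqrt L := by
  refine (norm_quot e _ _).trans ?_
  rw [uu_mul, uu_of, uu_Blk, uu_Blk, cay_mul _ _ (X_sa e _) (X_sa e _) (wg_mul_wl e L s i hi)]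
  refine (norm_cay_sub _ _ (X_sa e _) ((X_sa e _).add (X_sa e _))).trans ?_
  have h1 : X e (FB (2 ^ L) i (wl L (2 ^ L))) - (X e (FB (2 ^ L) i (wg L s)) +
      X e (FB (2 ^ L) i (wl L s))) = X e (FB (2 ^ L) i (wc L s)) := by
    rw [FB_split L s i, map_add, map_add]; abel
  rw [h1]
  have h2 := norm_cross e L s hL i hi
  calc 2 * ‖X e (FB (2 ^ L) i (wc L s))‖ ≤ 2 * (2 * (2 / Real.sqrt L)) := by linarith
    _ = _ := by ring

end Pool.Agent.H453R3.QC
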