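import Pool.Agent.H453R3.SC3

/-!
# Hilbert bases of separable Hilbert spaces, traces of positive operators
-/

set_option autoImplicit false

open Filter Topology
open scoped ComplexOrder InnerProductSpace

namespace Pool.Agent.H453R3.SC

variable {H : Type} [NormedAddCommGroup H] [InnerProductSpace ℂ H] [CompleteSpace H]

/-- reindexing a Hilbert basis -/
theorem reindex {ι ι' : Type} (b : HilbertBasis ι ℂ H) (e : ι' ≃ ι) :
    ∃ b' : HilbertBasis ι' ℂ H, ∀ j, b' j = b (e j) := by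
  have h1 : Orthonormal ℂ (fun j => b (e j)) := b.orthonormal.comp e e.injective
  have h2 : ⊤ ≤ (Submodule.span ℂ (Set.range fun j => b (e j))).topologicalClosure := by
    have h3 : (Set.range fun j => b (e j)) = Set.range b := e.surjective.range_comp b
    rw [h3, b.dense_span]
  refine ⟨HilbertBasis.mk h1 h2, fun j => ?_⟩
  exact congrFun (HilbertBasis.coe_mk h1 h2) j

/-- a separable infinite dimensional Hilbert space has a basis indexed by the naturals -/
theorem exists_basis [TopologicalSpace.SeparableSpace H] (hH : ¬ FiniteDimensional ℂ H) :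
    Nonempty (HilbertBasis ℕ ℂ H) := by
  obtain ⟨w, b, hb⟩ := exists_hilbertBasis (𝕜 := ℂ) (E := H)
  have hinf : Infinite w := by
    by_contra hfin
    rw [not_infinite_iff_finite] at hfin
    have := Fintype.ofFinite w
    exact hH b.toOrthonormalBasis.toBasis.finiteDimensional_of_finite
  have hcount : Countable w := by
    have hdist : ∀ i j : w, i ≠ j → 1 ≤ dist (b i) (b j) := by
      intro i j hij
      have h1 := b.orthonormal
      have h2 : ‖b i - b j‖ ^ 2 = 2 := by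
        rw [@norm_sub_sq ℂ, h1.1 i, h1.1 j, h1.2 hij]
        norm_num
      rw [dist_eq_norm]
      by_contra hc
      push Not at hc
      have h3 := norm_nonneg (b i - b j)
      nlinarith
    have hdisj : Pairwise (Function.onFun Disjoint fun i : w => Metric.ball (b i) (1 / 2)) := by
      intro i j hij
      refine Metric.ball_disjoint_ball ?_
      have := hdist i j hij
      linarith
    have h4 := Set.PairwiseDisjoint.countable_of_isOpen (s := fun i : w => Metric.ball (b i) (1 / 2))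
      (a := Set.univ) (fun i _ j _ hij => hdisj hij) (fun i _ => Metric.isOpen_ball)
      (fun i _ => Metric.nonempty_ball.2 (by norm_num))
    exact Set.countable_univ_iff.1 h4
  obtain ⟨e⟩ := nonempty_equiv_of_countable (α := ℕ) (β := w)
  obtain ⟨b', -⟩ := reindex b e
  exact ⟨b'⟩

omit [CompleteSpace H] in
theorem parseval {ι : Type} (b : HilbertBasis ι ℂ H) (x : H) :
    HasSum (fun i => ‖⟪b i, x⟫_ℂ‖ ^ 2) (‖x‖ ^ 2) := by
  have h1 := Complex.hasSum_re (b.hasSum_inner_mul_inner x x)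
  have h2 : ∀ i, (⟪x, b i⟫_ℂ * ⟪b i, x⟫_ℂ).re = ‖⟪b i, x⟫_ℂ‖ ^ 2 := by
    intro i
    rw [← inner_conj_symm x (b i), Complex.conj_mul', ← Complex.ofReal_pow, Complex.ofReal_re]
  simp_rw [h2] at h1
  have h3 : (⟪x, x⟫_ℂ).re = ‖x‖ ^ 2 := by
    rw [inner_self_eq_norm_sq_to_K]
    simp [← Complex.ofReal_pow]
  rwa [h3] at h1

/-- summability of the diagonal of a positive operator does not depend on the basis -/
theorem trace_indep {ι ι' : Type} (b : HilbertBasis ι ℂ H) (b' : HilbertBasis ι' ℂ H)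
    (T : H →L[ℂ] H) (hT : 0 ≤ T) (h : Summable fun i => (⟪b i, T (b i)⟫_ℂ).re) :
    Summable fun i => (⟪b' i, T (b' i)⟫_ℂ).re := by
  set S := CFC.sqrt T with hS
  have hS0 : 0 ≤ S := CFC.sqrt_nonneg _
  have hSS : S * S = T := CFC.sqrt_mul_sqrt_self _ hT
  have hsa : IsSelfAdjoint S := hS0.isSelfAdjoint
  have hsym : ∀ x y, ⟪S x, y⟫_ℂ = ⟪x, S y⟫_ℂ := fun x y => by
    have := ContinuousLinearMap.adjoint_inner_right S x y
    rw [← ContinuousLinearMap.star_eq_adjoint, hsa.star_eq] at this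
    exact this.symm
  have hdiag : ∀ x, (⟪x, T x⟫_ℂ).re = ‖S x‖ ^ 2 := by
    intro x
    rw [← hSS]
    change (⟪x, S (S x)⟫_ℂ).re = _
    rw [← hsym, inner_self_eq_norm_sq_to_K]
    simp [← Complex.ofReal_pow]
  simp_rw [hdiag] at h ⊢
  -- double sum
  have h1 : ∀ i, ENNReal.ofReal (‖S (b i)‖ ^ 2) = ∑' m, ENNReal.ofReal (‖⟪b' m, S (b i)⟫_ℂ‖ ^ 2) := by
    intro i
    rw [← (parseval b' (S (b i))).tsum_eq, ENNReal.ofReal_tsum_of_nonneg (fun _ => sq_nonneg _)
      (parseval b' (S (b i))).summable]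
  have h2 : ∀ m, ENNReal.ofReal (‖S (b' m)‖ ^ 2) = ∑' i, ENNReal.ofReal (‖⟪b i, S (b' m)⟫_ℂ‖ ^ 2) := by
    intro m
    rw [← (parseval b (S (b' m))).tsum_eq, ENNReal.ofReal_tsum_of_nonneg (fun _ => sq_nonneg _)
      (parseval b (S (b' m))).summable]
  have h3 : ∀ i m, ‖⟪b' m, S (b i)⟫_ℂ‖ = ‖⟪b i, S (b' m)⟫_ℂ‖ := by
    intro i m
    rw [← hsym, ← inner_conj_symm, RCLike.norm_conj]
  have h4 : ∑' i, ENNReal.ofReal (‖S (b i)‖ ^ 2) = ∑' m, ENNReal.ofReal (‖S (b' m)‖ ^ 2) := by
    simp_rw [h1, h2, h3]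
    exact ENNReal.tsum_comm
  have h5 : ∑' i, ENNReal.ofReal (‖S (b i)‖ ^ 2) ≠ ⊤ := by
    rw [← ENNReal.ofReal_tsum_of_nonneg (fun _ => sq_nonneg _) h]
    exact ENNReal.ofReal_ne_top
  rw [h4] at h5
  have h6 := ENNReal.summable_toReal h5
  refine h6.congr fun m => ?_
  rw [ENNReal.toReal_ofReal (sq_nonneg _)]

end Pool.Agent.H453R3.SC
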