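import Pool.Agent.H453R3.SA3
import Pool.Agent.H453R3.SC4

/-!
# Trace class equivalence is not reducible to the summability relation
-/

set_option autoImplicit false

open Filter Topology Matrix
open scoped ComplexOrder InnerProductSpace

namespace Pool.Agent.H453R3.SC

open Pool.Agent.H453R3.SA

/-- the standard Borel structure on the bounded operators -/
noncomputable def opMS (H : Type) [NormedAddCommGroup H] [InnerProductSpace ℂ H] :
    MeasurableSpace (H →L[ℂ] H) :=
  ⨆ q : H × H, MeasurableSpace.comap (fun a : H →L[ℂ] H => ⟪a q.1, q.2⟫_ℂ) (borel ℂ)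

/-- trace class operators -/
def TraceClass {H : Type} [NormedAddCommGroup H] [InnerProductSpace ℂ H] [CompleteSpace H]
    (x : H →L[ℂ] H) : Prop :=
  ∀ b : HilbertBasis ℕ ℂ H, Summable fun n => (⟪b n, CFC.abs x (b n)⟫_ℂ).re

section
variable {H : Type} [NormedAddCommGroup H] [InnerProductSpace ℂ H] [CompleteSpace H]

theorem measurable_into {X : Type} [MeasurableSpace X] (F : X → (H →L[ℂ] H))
    (hF : ∀ ξ η : H, Measurable fun x => ⟪F x ξ, η⟫_ℂ) : @Measurable _ _ _ (opMS H) F := by
  rw [measurable_iff_comap_le]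
  unfold opMS
  rw [MeasurableSpace.comap_iSup]
  refine iSup_le fun q => ?_
  rw [MeasurableSpace.comap_comp]
  have h1 := hF q.1 q.2
  have h2 : borel ℂ = (inferInstance : MeasurableSpace ℂ) := (BorelSpace.measurable_eq).symm
  rw [h2]
  exact h1.comap_le

/-- type of a position -/
def po (k : ℕ) : ℕ := (Nat.unpair k).1

/-- index sets at positions -/
abbrev pV (k : ℕ) : Type := tV (po k)

/-- the block of a point -/
noncomputable def bl (x : Z fun k => tg (po k)) (k : ℕ) : Matrix (pV k) (pV k) ℂ :=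
  bm (tS (po k)) (fun _ => 0 : tP (po k)) (pt (po k) (x k))

theorem hs_le_one (t : ℕ) (x y : tP t) : hs (bm (tS t) x y) ≤ 1 := by
  have h1 := hs_bm_le (tS t) x y
  have h2 : (Fintype.card (tV t) : ℝ) = 4 ^ tR t := by
    have : Fintype.card (tV t) = 4 ^ tR t := card_Cu (tR t)
    rw [this]
    push_cast
    rfl
  rw [h2] at h1
  have h3 : tS t * (tN t * 4 ^ tR t) ≤ 1 := by
    unfold tS
    rw [div_mul_eq_mul_div, div_le_one (by positivity), one_mul]
    have h4 : (1 : ℝ) ≤ 2 ^ tQ t := one_le_pow₀ (by norm_num)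
    have h5 : (0 : ℝ) ≤ tN t := Nat.cast_nonneg _
    have h6 : (0 : ℝ) < 4 ^ tR t := by positivity
    calc (tN t : ℝ) * 4 ^ tR t = (tN t : ℝ) * 4 ^ tR t * 1 := by ring
      _ ≤ ((tN t : ℝ) + 1) * 4 ^ tR t * 2 ^ tQ t := by
        apply mul_le_mul _ h4 (by norm_num) (by positivity)
        exact mul_le_mul_of_nonneg_right (by linarith) h6.le
  have h4 : 0 ≤ tS t * (tN t * 4 ^ tR t) := by
    have := tS_pos t
    positivity
  calc hs (bm (tS t) x y) ≤ (tS t * (tN t * 4 ^ tR t)) ^ 2 := h1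
    _ ≤ 1 ^ 2 := pow_le_pow_left₀ h4 h3 2
    _ = 1 := one_pow _

theorem bl_sub (x y : Z fun k => tg (po k)) (k : ℕ) :
    bl y k - bl x k = bm (tS (po k)) (pt (po k) (x k)) (pt (po k) (y k)) := by
  ext i j
  simp only [bl, bm, Matrix.sub_apply, Matrix.of_apply, SB.df]
  push_cast
  ring

/-- the operator of a point -/
noncomputable def OpZ (B : HilbertBasis (Σ k, pV k) ℂ H) (x : Z fun k => tg (po k)) :
    H →L[ℂ] H :=
  Op B (bl x) fun _ => hs_le_one _ _ _

theorem OpZ_meas (B : HilbertBasis (Σ k, pV k) ℂ H) :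
    @Measurable _ _ _ (opMS H) (OpZ B) := by
  apply measurable_into
  intro ξ η
  have h1 : ∀ x, HasSum (fun k => star (bl x k *ᵥ co B ξ k) ⬝ᵥ co B η k) ⟪OpZ B x ξ, η⟫_ℂ := by
    intro x
    have h2 := hasSum_co B (OpZ B x ξ) η
    unfold OpZ at h2 ⊢
    simp_rw [co_Op] at h2
    exact h2
  have h2 : ∀ n : ℕ, Measurable fun x : Z fun k => tg (po k) =>
      ∑ k ∈ Finset.range n, star (bl x k *ᵥ co B ξ k) ⬝ᵥ co B η k := by
    intro n
    refine Finset.measurable_fun_sum _ fun k _ => ?_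
    have h3 : Measurable fun v : Fin (tg (po k) + 1) =>
        star ((bm (tS (po k)) (fun _ => 0 : tP (po k)) (pt (po k) v)) *ᵥ co B ξ k) ⬝ᵥ co B η k :=
      measurable_of_countable _
    exact h3.comp (measurable_pi_apply k)
  refine measurable_of_tendsto_metrizable h2 ?_
  rw [tendsto_pi_nhds]
  intro x
  exact (h1 x).tendsto_sum_nat

/-- there is no reduction -/
theorem no_reduction [TopologicalSpace.SeparableSpace H] (hH : ¬ FiniteDimensional ℂ H) :
    ¬ ∃ f : (H →L[ℂ] H) → (ℕ → ℝ), @Measurable _ _ (opMS H) MeasurableSpace.pi f ∧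
      ∀ a b : H →L[ℂ] H, TraceClass (a - b) ↔ Summable fun n => |f a n - f b n| := by
  rintro ⟨f, hf, hred⟩
  obtain ⟨b0⟩ := exists_basis hH
  have : Infinite (Σ k, pV k) :=
    Infinite.of_injective (fun k : ℕ => (⟨k, fun _ => false⟩ : Σ k, pV k))
      fun k l h => congrArg Sigma.fst h
  obtain ⟨e⟩ := nonempty_equiv_of_countable (α := Σ k, pV k) (β := ℕ)
  obtain ⟨B, hB⟩ := reindex b0 e
  have hm : Measurable fun x : Z (fun k => tg (po k)) => f (OpZ B x) := hf.comp (OpZ_meas B)
  have hθ : ∀ x y : Z (fun k => tg (po k)),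
      Summable (fun k => dd (po k) (x k) (y k)) ↔
        Summable fun i => |f (OpZ B x) i - f (OpZ B y) i| := by
    intro x y
    have h1 := hred (OpZ B y) (OpZ B x)
    have h2 : OpZ B y - OpZ B x =
        Op B (fun k => bm (tS (po k)) (pt (po k) (x k)) (pt (po k) (y k)))
          fun _ => hs_le_one _ _ _ :=
      Op_sub B _ _ _ _ _ _ fun k => bl_sub x y k
    have h3 : TraceClass (OpZ B y - OpZ B x) ↔
        Summable fun k => dd (po k) (x k) (y k) := by
      rw [h2]
      have h4 := trace_crit B (fun k => bm (tS (po k)) (pt (po k) (x k)) (pt (po k) (y k)))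
          fun _ => hs_le_one _ _ _
      refine Iff.trans ?_ h4
      constructor
      · intro h
        exact trace_indep b0 B _ (CFC.abs_nonneg _) (h b0)
      · intro h b
        exact trace_indep B b _ (CFC.abs_nonneg _) h
    rw [← h3, h1]
    simp_rw [abs_sub_comm]
  obtain ⟨c, C, δ, hc, hC, hδ, hall⟩ := uniform_maps po tg
    (fun t N => ⟨Nat.pair t N, Nat.right_le_pair t N, by simp [po]⟩) dd dd_nonneg dd_self dd_pos
    (fun x => f (OpZ B x)) hm hθ
  exact contra c C δ hc hC hδ hall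

end

end Pool.Agent.H453R3.SC
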