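import Pool.Agent.H453R3.QC4
import Pool.Agent.H453R3.SC5

/-!
# Assembly
-/

set_option autoImplicit false

open scoped InnerProductSpace
open Filter Topology

namespace Pool.Agent.H453R3.QC

variable {H : Type} [NormedAddCommGroup H] [InnerProductSpace ℂ H] [CompleteSpace H]
variable (e : HilbertBasis ℕ ℂ H)

/-- the block condition -/
def BlockCond : Prop :=
  ∀ δ : ℝ, 0 < δ → ∃ (K : ℕ) (Bl : ℕ → (ℕ → ℕ) → GG) (η : ℝ), 0 < η ∧
    (∀ i, Bl 0 i = 1) ∧
    (∀ s i i', (∀ t < s, i t = i' t) → Bl s i = Bl s i') ∧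
    (∀ s i M, (∀ t < s, M ≤ i t) → FarP e M (Bl s i)) ∧
    (∀ i : ℕ → ℕ, (∀ t, i t + 1 < i (t + 1)) → ∀ s < K, ∃ β : GG,
      (∀ M, (∀ t, s < t → M ≤ i t) → FarP e M β) ∧
        ‖uu e (Bl K i * (β * Bl s i)⁻¹) - 1‖ < δ) ∧
    (∀ i : ℕ → ℕ, (∀ t, i t + 1 < i (t + 1)) → ∀ M, (∀ t, M ≤ i t) → ∀ g, LowP e M g →
      ∀ q : YY e, (∀ t < K, ‖q.1 (i t) - e (i t)‖ < η ∧ ‖q.1 (i t + 1)‖ < η) →
        WitP e M (g⁻¹ • q) (Bl K i • q))

theorem meas_pt (F : {p : H →L[ℂ] H // IsPr p} → ℕ → ℝ)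
    (hFm : @Measurable _ _ (MeasurableSpace.comap Subtype.val (SC.opMS H)) MeasurableSpace.pi F) :
    @Measurable (YY e) (ℕ → ℝ) (borel (YY e)) MeasurableSpace.pi
      fun y => F ⟨Ps e y, Ps_pr e y⟩ := by
  letI : MeasurableSpace (YY e) := borel (YY e)
  haveI : BorelSpace (YY e) := ⟨rfl⟩
  have h1 : @Measurable (YY e) _ (borel (YY e)) (SC.opMS H) (Ps e) := by
    refine SC.measurable_into (Ps e) fun ξ η => ?_
    exact ((cont_Ps e ξ).inner continuous_const).measurable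
  have h2 : @Measurable (YY e) {p : H →L[ℂ] H // IsPr p} (borel (YY e))
      (MeasurableSpace.comap Subtype.val (SC.opMS H)) (fun y => ⟨Ps e y, Ps_pr e y⟩) := by
    rw [measurable_iff_comap_le, MeasurableSpace.comap_comp]
    exact h1.comap_le
  exact hFm.comp h2

theorem isCM : TopologicalSpace.IsCompletelyMetrizableSpace (YY e) := by
  change TopologicalSpace.IsCompletelyMetrizableSpace ↥(closure (Orb e))
  exact isClosed_closure.isClosedEmbedding_subtypeVal.IsCompletelyMetrizableSpace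

theorem final (hBB : BlockCond e) (F : {p : H →L[ℂ] H // IsPr p} → ℕ → ℝ)
    (hFm : @Measurable _ _ (MeasurableSpace.comap Subtype.val (SC.opMS H)) MeasurableSpace.pi F)
    (hred : ∀ p q : {p : H →L[ℂ] H // IsPr p}, IsCompactOperator (p.1 - q.1 : H →L[ℂ] H) ↔
      Tendsto (fun n => F p n - F q n) atTop (𝓝 0)) : False := by
  have hmeas := meas_pt e F hFm
  haveI := isCM e
  letI := TopologicalSpace.upgradeIsCompletelyMetrizable (YY e)
  letI : MeasurableSpace (YY e) := borel (YY e)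
  haveI : BorelSpace (YY e) := ⟨rfl⟩
  haveI : Nonempty (YY e) := ⟨⟨fun n => cj e 1 (p0 e) (e n), subset_closure ⟨1, rfl⟩⟩⟩
  let D : QA.Data (YY e) GG :=
    { f := fun y => F ⟨Ps e y, Ps_pr e y⟩
      ν := fun γ => ‖uu e γ - 1‖
      Far := FarP e
      Low := LowP e
      Gd := fun i η q => ‖q.1 i - e i‖ < η ∧ ‖q.1 (i + 1)‖ < η
      Wit := WitP e
      hcont := cont_act e
      hν1 := by rw [uu_one, sub_self, norm_zero]
      hνinv := fun γ => by
        rw [uu_inv, ← norm_star, star_sub, star_star, star_one]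
      hA := fun g hg p q h =>
        (hred ⟨Ps e q, Ps_pr e q⟩ ⟨Ps e p, Ps_pr e p⟩).1 (lim_compact e g hg p q h)
      hF := hF e
      hFmono := fun M M' β h hM n hn => h n (hn.trans_le hM)
      hFmul := far_mul e
      hL := low_exists e
      hLmono := fun M M' g h hM n hn => h n (hM.trans hn)
      h4 := h4 e
      hB := hBB
      hO := wit_open e
      hWmono := fun M M' p q h hM => by
        obtain ⟨ξ, a, b, c⟩ := h
        exact ⟨ξ, a, fun n hn => b n (hn.trans_le hM), c⟩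
      hN := fun p q h ht => wit_not_compact e p q h
        ((hred ⟨Ps e q, Ps_pr e q⟩ ⟨Ps e p, Ps_pr e p⟩).2 ht) }
  exact QA.main D hmeas

end Pool.Agent.H453R3.QC
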