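import Pool.Agent.H453R3.QC5
import Pool.Agent.H453R3.QC6

/-!
# There is no reduction
-/

set_option autoImplicit false

open scoped InnerProductSpace
open Filter Topology

namespace Pool.Agent.H453R3.QC

variable {H : Type} [NormedAddCommGroup H] [InnerProductSpace ℂ H] [CompleteSpace H]

theorem no_reduction_pr [TopologicalSpace.SeparableSpace H] (hH : ¬ FiniteDimensional ℂ H) :
    ¬ ∃ f : {p : H →L[ℂ] H // IsPr p} → (ℕ → ℝ),
      @Measurable _ _ (MeasurableSpace.comap Subtype.val (SC.opMS H)) MeasurableSpace.pi f ∧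
      ∀ p q : {p : H →L[ℂ] H // IsPr p}, IsCompactOperator (p.1 - q.1 : H →L[ℂ] H) ↔
        Tendsto (fun n => f p n - f q n) atTop (𝓝 0) := by
  rintro ⟨f, hf, hred⟩
  obtain ⟨e⟩ := SC.exists_basis hH
  exact final e (hB e) f hf hred

theorem no_reduction_all [TopologicalSpace.SeparableSpace H] (hH : ¬ FiniteDimensional ℂ H) :
    ¬ ∃ f : (H →L[ℂ] H) → (ℕ → ℝ), @Measurable _ _ (SC.opMS H) MeasurableSpace.pi f ∧
      ∀ a b : H →L[ℂ] H, IsCompactOperator (a - b : H →L[ℂ] H) ↔
        Tendsto (fun n => f a n - f b n) atTop (𝓝 0) := by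
  rintro ⟨f, hf, hred⟩
  refine no_reduction_pr hH ⟨fun p => f p.1, ?_, fun p q => hred p.1 q.1⟩
  exact hf.comp (comap_measurable _)

end Pool.Agent.H453R3.QC
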