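import Mathlib

/-!
# Generic points and block sums
-/

set_option autoImplicit false

open Filter Topology Set MeasureTheory

namespace Pool.Agent.H453R3.SA

/-- grouping a nonnegative series into blocks -/
theorem block_summable (s : ℕ → ℝ) (hs : ∀ i, 0 ≤ s i) (e : ℕ → ℕ) (he : StrictMono e) :
    Summable s ↔ Summable fun n => ∑ i ∈ Finset.Ico (e n) (e (n + 1)), s i := by
  have h1 : ∀ N, ∑ n ∈ Finset.range N, ∑ i ∈ Finset.Ico (e n) (e (n + 1)), s i =
      ∑ i ∈ Finset.Ico (e 0) (e N), s i := by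
    intro N
    induction N with
    | zero => simp
    | succ N ih =>
      rw [Finset.sum_range_succ, ih, Finset.sum_Ico_consecutive _ (he.monotone (Nat.zero_le N))
        (he.monotone (Nat.le_succ N))]
  constructor
  · intro h
    refine summable_of_sum_range_le (c := ∑' i, s i)
      (fun n => Finset.sum_nonneg fun i _ => hs i) fun N => ?_
    rw [h1]
    exact h.sum_le_tsum _ fun i _ => hs i
  · intro h
    refine summable_of_sum_range_le (c := ∑ i ∈ Finset.range (e 0), s i +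
      ∑' n, ∑ i ∈ Finset.Ico (e n) (e (n + 1)), s i) hs fun N => ?_
    have h2 : ∑ i ∈ Finset.range N, s i ≤ ∑ i ∈ Finset.range (e N), s i :=
      Finset.sum_le_sum_of_subset_of_nonneg
        (Finset.range_subset_range.2 (he.id_le N)) fun i _ _ => hs i
    have h3 : ∑ i ∈ Finset.range (e N), s i = ∑ i ∈ Finset.range (e 0), s i +
        ∑ i ∈ Finset.Ico (e 0) (e N), s i :=
      (Finset.sum_range_add_sum_Ico s (he.monotone (Nat.zero_le N))).symm
    rw [h3, ← h1] at h2
    refine h2.trans ?_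
    gcongr
    exact h.sum_le_tsum _ fun n _ => Finset.sum_nonneg fun i _ => hs i

variable (f : ℕ → ℕ)

/-- the product space -/
abbrev Z : Type := ∀ k, Fin (f k + 1)

variable {f}

/-- agreement below `n` -/
def agz (n : ℕ) (x y : Z f) : Prop := ∀ k < n, x k = y k

theorem exists_agz_of_nhds (x : Z f) (U : Set (Z f)) (hU : U ∈ 𝓝 x) :
    ∃ n, ∀ y, agz n x y → y ∈ U := by
  rw [nhds_pi, Filter.mem_pi] at hU
  obtain ⟨F, hF, t, ht, hsub⟩ := hU
  obtain ⟨n, hn⟩ := hF.bddAbove
  refine ⟨n + 1, fun y hy => hsub fun i hi => ?_⟩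
  rw [← hy i (Nat.lt_succ_of_le (hn hi))]
  exact mem_of_mem_nhds (ht i)

theorem isOpen_agz (n : ℕ) (x : Z f) : IsOpen {y | agz n x y} := by
  have : {y | agz n x y} = ⋂ j ∈ Set.Iio n, {y : Z f | x j = y j} := by
    ext y; simp [agz]
  rw [this]
  refine (Set.finite_Iio n).isOpen_biInter fun j _ => ?_
  have h1 : IsOpen {b : Fin (f j + 1) | x j = b} := isOpen_discrete _
  exact h1.preimage (continuous_apply j)

/-- replacing the first coordinates -/
def md (n : ℕ) (u : ∀ j : Fin n, Fin (f j + 1)) (x : Z f) : Z f :=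
  fun k => if h : k < n then u ⟨k, h⟩ else x k

theorem md_lt {n : ℕ} (u : ∀ j : Fin n, Fin (f j + 1)) (x : Z f) {k : ℕ} (h : k < n) :
    md n u x k = u ⟨k, h⟩ := dif_pos h

theorem md_ge {n : ℕ} (u : ∀ j : Fin n, Fin (f j + 1)) (x : Z f) {k : ℕ} (h : ¬ k < n) :
    md n u x k = x k := dif_neg h

theorem continuous_md (n : ℕ) (u : ∀ j : Fin n, Fin (f j + 1)) : Continuous (md (f := f) n u) := by
  refine continuous_pi fun k => ?_
  by_cases h : k < n
  · have : (fun x : Z f => md n u x k) = fun _ => u ⟨k, h⟩ := by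
      funext x; exact md_lt u x h
    rw [this]; exact continuous_const
  · have : (fun x : Z f => md n u x k) = fun x => x k := by
      funext x; exact md_ge u x h
    rw [this]; exact continuous_apply k

theorem isOpenMap_md (n : ℕ) (u : ∀ j : Fin n, Fin (f j + 1)) : IsOpenMap (md (f := f) n u) := by
  intro U hU
  rw [isOpen_iff_mem_nhds]
  rintro _ ⟨x, hx, rfl⟩
  obtain ⟨N, hN⟩ := exists_agz_of_nhds x U (hU.mem_nhds hx)
  have h1 : {y | agz (max N n) (md n u x) y} ∈ 𝓝 (md n u x) :=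
    (isOpen_agz _ _).mem_nhds fun _ _ => rfl
  filter_upwards [h1] with y hy
  refine ⟨md n (fun j => x j) y, hN _ fun k hk => ?_, ?_⟩
  · by_cases h : k < n
    · rw [md_lt _ _ h]
    · rw [md_ge _ _ h, ← hy k (lt_of_lt_of_le hk (le_max_left _ _)), md_ge _ _ h]
  · funext k
    by_cases h : k < n
    · rw [md_lt _ _ h, ← hy k (lt_of_lt_of_le h (le_max_right _ _)), md_lt _ _ h]
    · rw [md_ge _ _ h, md_ge _ _ h]

theorem residual_md {G : Set (Z f)} (hG : G ∈ residual (Z f)) :
    {x | ∀ n, ∀ u : ∀ j : Fin n, Fin (f j + 1), md n u x ∈ G} ∈ residual (Z f) := by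
  have h1 : {x : Z f | ∀ n, ∀ u : ∀ j : Fin n, Fin (f j + 1), md n u x ∈ G} =
      ⋂ n, ⋂ u : ∀ j : Fin n, Fin (f j + 1), md n u ⁻¹' G := by
    ext x; simp
  rw [h1]
  refine countable_iInter_mem.2 fun n => countable_iInter_mem.2 fun u => ?_
  exact (tendsto_residual_of_isOpenMap (continuous_md n u) (isOpenMap_md n u)) hG

/-- a countable family of measurable sets is decided by finite information at generic points -/
theorem decide_gen {ι : Type} [Countable ι] (S : ι → Set (Z f)) (hS : ∀ i, MeasurableSet (S i)) :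
    ∃ G ∈ residual (Z f), ∀ i, ∀ x ∈ G, x ∈ S i → ∃ N, ∀ x' ∈ G, agz N x x' → x' ∈ S i := by
  have h1 : ∀ i, ∃ U : Set (Z f), IsOpen U ∧ S i =ᶠ[residual (Z f)] U := fun i =>
    (hS i).residualEq_isOpen
  choose U hU hSU using h1
  refine ⟨⋂ i, {x | x ∈ S i ↔ x ∈ U i}, countable_iInter_mem.2 fun i => ?_, ?_⟩
  · exact (hSU i).mem_iff
  · intro i x hx hxS
    rw [mem_iInter] at hx
    have h2 : x ∈ U i := (hx i).1 hxS
    obtain ⟨N, hN⟩ := exists_agz_of_nhds x (U i) ((hU i).mem_nhds h2)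
    refine ⟨N, fun x' hx' h => ?_⟩
    rw [mem_iInter] at hx'
    exact (hx' i).2 (hN x' h)

/-- a residual set contains a decreasing countable intersection of open sets, which is
residual -/
theorem exists_open_seq {G : Set (Z f)} (hG : G ∈ residual (Z f)) :
    ∃ O : ℕ → Set (Z f), (∀ r, IsOpen (O r)) ∧ (⋂ r, O r) ⊆ G ∧ (⋂ r, O r) ∈ residual (Z f) := by
  obtain ⟨S, h1, h2, h3, h4⟩ := mem_residual_iff.1 hG
  rcases S.eq_empty_or_nonempty with h | h
  · refine ⟨fun _ => univ, fun _ => isOpen_univ, ?_, by simp⟩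
    rw [h, sInter_empty] at h4
    exact (subset_univ _).trans h4
  · obtain ⟨O, hO⟩ := h3.exists_eq_range h
    refine ⟨O, fun r => h1 _ (by rw [hO]; exact ⟨r, rfl⟩), ?_, ?_⟩
    · rw [← sInter_range, ← hO]; exact h4
    · refine countable_iInter_mem.2 fun r => ?_
      have hr : O r ∈ S := by rw [hO]; exact ⟨r, rfl⟩
      exact residual_of_dense_open (h1 _ hr) (h2 _ hr)

end Pool.Agent.H453R3.SA
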