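import Pool.Agent.H453R3.SA1

/-!
# Fusion: a Borel reduction becomes additive on a subproduct
-/

set_option autoImplicit false

open Filter Topology Set MeasureTheory

namespace Pool.Agent.H453R3.SA

/-- tails of the `l¹` distance -/
noncomputable def tl (l : ℕ) (a b : ℕ → ℝ) : ENNReal := ∑' i, ENNReal.ofReal |a (i + l) - b (i + l)|

theorem md_md {f : ℕ → ℕ} {n : ℕ} (u v : ∀ j : Fin n, Fin (f j + 1)) (x : Z f) :
    md n u (md n v x) = md n u x := by
  funext k
  by_cases h : k < n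
  · rw [md_lt _ _ h, md_lt _ _ h]
  · rw [md_ge _ _ h, md_ge _ _ h, md_ge _ _ h]

theorem md_self {f : ℕ → ℕ} {n : ℕ} (x : Z f) : md n (fun j => x j) x = x := by
  funext k
  by_cases h : k < n
  · rw [md_lt _ _ h]
  · rw [md_ge _ _ h]

variable {f : ℕ → ℕ} (θ : Z f → ℕ → ℝ) (d : ℕ → ℕ → ℕ → ℝ)

/-- insensitivity of the tail beyond `l` to the first `n` coordinates -/
def BB (n l : ℕ) : Set (Z f) :=
  {x | ∀ u v : ∀ j : Fin n, Fin (f j + 1),
    tl l (θ (md n u x)) (θ (md n v x)) ≤ ENNReal.ofReal ((1 / 2) ^ n)}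

variable {θ d}

theorem measurable_BB (hm : Measurable θ) (n l : ℕ) : MeasurableSet (BB θ n l) := by
  have h1 : BB θ n l = ⋂ u : ∀ j : Fin n, Fin (f j + 1), ⋂ v : ∀ j : Fin n, Fin (f j + 1),
      {x | tl l (θ (md n u x)) (θ (md n v x)) ≤ ENNReal.ofReal ((1 / 2) ^ n)} := by
    ext x; simp [BB]
  rw [h1]
  refine MeasurableSet.iInter fun u => MeasurableSet.iInter fun v => ?_
  have h2 : ∀ (u : ∀ j : Fin n, Fin (f j + 1)) (i : ℕ),
      Measurable fun x => θ (md n u x) i := fun u i =>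
    (measurable_pi_apply i).comp (hm.comp (continuous_md n u).measurable)
  have h3 : Measurable fun x => tl l (θ (md n u x)) (θ (md n v x)) := by
    unfold tl
    refine Measurable.ennreal_tsum fun i => ?_
    have h4 := (h2 u (i + l)).sub (h2 v (i + l))
    exact ENNReal.measurable_ofReal.comp (continuous_abs.measurable.comp h4)
  exact h3 measurableSet_Iic

theorem tl_eq (l : ℕ) (a b : ℕ → ℝ) (h : Summable fun i => |a i - b i|) :
    tl l a b = ENNReal.ofReal (∑' i, |a (i + l) - b (i + l)|) := by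
  unfold tl
  rw [ENNReal.ofReal_tsum_of_nonneg (fun _ => abs_nonneg _)]
  exact (summable_nat_add_iff l).2 h

theorem exists_BB (hd0 : ∀ k v, d k v v = 0)
    (hθ : ∀ x y : Z f, Summable (fun k => d k (x k) (y k)) ↔ Summable fun i => |θ x i - θ y i|)
    (n : ℕ) (x : Z f) (l0 : ℕ) : ∃ l, l0 < l ∧ x ∈ BB θ n l := by
  have h1 : ∀ p : (∀ j : Fin n, Fin (f j + 1)) × (∀ j : Fin n, Fin (f j + 1)),
      ∃ L, ∀ l, L ≤ l → tl l (θ (md n p.1 x)) (θ (md n p.2 x)) ≤ ENNReal.ofReal ((1 / 2) ^ n) := by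
    intro p
    have h2 : Summable (fun k => d k (md n p.1 x k) (md n p.2 x k)) := by
      refine summable_of_ne_finset_zero (s := Finset.range n) fun k hk => ?_
      rw [Finset.mem_range] at hk
      rw [md_ge _ _ hk, md_ge _ _ hk, hd0]
    have h3 := (hθ _ _).1 h2
    have h4 := tendsto_sum_nat_add fun i => |θ (md n p.1 x) i - θ (md n p.2 x) i|
    have h5 := (tendsto_order.1 h4).2 ((1 / 2) ^ n) (by positivity)
    obtain ⟨L, hL⟩ := eventually_atTop.1 h5
    refine ⟨L, fun l hl => ?_⟩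
    rw [tl_eq l _ _ h3]
    exact ENNReal.ofReal_le_ofReal (hL l hl).le
  choose L hL using h1
  obtain ⟨M, hM⟩ := (Set.finite_range L).bddAbove
  refine ⟨max M (l0 + 1), ?_, fun u v => hL (u, v) _ ((hM ⟨(u, v), rfl⟩).trans (le_max_left _ _))⟩
  exact lt_of_lt_of_le (Nat.lt_succ_self l0) (le_max_right _ _)

theorem step (hd0 : ∀ k v, d k v v = 0)
    (hθ : ∀ x y : Z f, Summable (fun k => d k (x k) (y k)) ↔ Summable fun i => |θ x i - θ y i|)
    {G0 : Set (Z f)} {O : ℕ → Set (Z f)} (hOo : ∀ r, IsOpen (O r)) (hO : (⋂ r, O r) ⊆ G0)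
    (hB : ∀ b l, ∀ x ∈ G0, x ∈ BB θ b l → ∃ N, ∀ x' ∈ G0, agz N x x' → x' ∈ BB θ b l)
    (hT : ∀ (i : ℕ) (ε : ℝ), 0 < ε → ∀ x ∈ G0, ∃ N, ∀ x' ∈ G0, agz N x x' → |θ x' i - θ x i| < ε)
    (z : Z f) (hz : ∀ n, ∀ u : ∀ j : Fin n, Fin (f j + 1), md n u z ∈ ⋂ r, O r) (b l0 r : ℕ) :
    ∃ l N, l0 < l ∧ b ≤ N ∧
      (∀ x : Z f, (∀ k, b ≤ k → k < N → x k = z k) → ∀ r' ≤ r, x ∈ O r') ∧
      (∀ x : Z f, md b (fun j => z j) x ∈ G0 → (∀ k, b ≤ k → k < N → x k = z k) → x ∈ BB θ b l) ∧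
      (∀ x ∈ G0, ∀ y ∈ G0, (∀ k, b ≤ k → k < N → x k = z k) → agz N x y → ∀ i < l,
        |θ x i - θ y i| ≤ (1 / 2) ^ b / (l + 1)) := by
  have hzG : z ∈ G0 := by
    have := hz b (fun j => z j)
    rw [md_self] at this
    exact hO this
  obtain ⟨l, hl, hzl⟩ := exists_BB hd0 hθ b z l0
  obtain ⟨N1, hN1⟩ := hB b l z hzG hzl
  -- open sets
  have h2 : ∀ p : (∀ j : Fin b, Fin (f j + 1)) × Fin (r + 1), ∃ N, ∀ x, agz N (md b p.1 z) x →
      x ∈ O p.2 := fun p =>
    exists_agz_of_nhds _ _ ((hOo p.2).mem_nhds (mem_iInter.1 (hz b p.1) p.2))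
  choose N2 hN2 using h2
  obtain ⟨M2, hM2⟩ := (Set.finite_range N2).bddAbove
  -- continuity
  have hε : (0 : ℝ) < (1 / 2) ^ b / (l + 1) / 2 := by positivity
  have h3 : ∀ p : (∀ j : Fin b, Fin (f j + 1)) × Fin l, ∃ N, ∀ x' ∈ G0, agz N (md b p.1 z) x' →
      |θ x' p.2 - θ (md b p.1 z) p.2| < (1 / 2) ^ b / (l + 1) / 2 := fun p =>
    hT p.2 _ hε _ (hO (hz b p.1))
  choose N3 hN3 using h3
  obtain ⟨M3, hM3⟩ := (Set.finite_range N3).bddAbove
  have hag : ∀ (N : ℕ) (x : Z f), (∀ k, b ≤ k → k < N → x k = z k) →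
      agz N (md b (fun j => x j) z) x := by
    intro N x hx k hk
    by_cases h : k < b
    · rw [md_lt _ _ h]
    · rw [md_ge _ _ h, hx k (not_lt.1 h) hk]
  refine ⟨l, max (max N1 b) (max M2 M3), hl,
    (le_max_right _ _).trans (le_max_left _ _), ?_, ?_, ?_⟩
  · intro x hx r' hr'
    have h4 := hN2 (fun j => x j, ⟨r', Nat.lt_succ_of_le hr'⟩) x
    refine h4 fun k hk => hag _ x hx k (hk.trans_le ?_)
    exact (hM2 ⟨_, rfl⟩).trans ((le_max_left _ _).trans (le_max_right _ _))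
  · intro x hxG hx
    have h4 : md b (fun j => z j) x ∈ BB θ b l := by
      refine hN1 _ hxG fun k hk => ?_
      by_cases h : k < b
      · rw [md_lt _ _ h]
      · rw [md_ge _ _ h, hx k (not_lt.1 h)
          (hk.trans_le ((le_max_left _ _).trans (le_max_left _ _)))]
    intro u v
    have h5 := h4 u v
    rwa [md_md, md_md] at h5
  · intro x hx y hy hxz hxy i hi
    have hb : M3 ≤ max (max N1 b) (max M2 M3) := (le_max_right _ _).trans (le_max_right _ _)
    have h5 : N3 (fun j => x j, ⟨i, hi⟩) ≤ max (max N1 b) (max M2 M3) := (hM3 ⟨_, rfl⟩).trans hb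
    have h6 := hN3 (fun j => x j, ⟨i, hi⟩) x hx fun k hk => hag _ x hxz k (hk.trans_le h5)
    have h7 := hN3 (fun j => x j, ⟨i, hi⟩) y hy fun k hk =>
      (hag _ x hxz k (hk.trans_le h5)).trans (hxy k (hk.trans_le h5))
    simp only at h6 h7
    have h8 : θ x i - θ y i = (θ x i - θ (md b (fun j => x j) z) i) -
        (θ y i - θ (md b (fun j => x j) z) i) := by ring
    rw [h8]
    have h9 := abs_sub (θ x i - θ (md b (fun j => x j) z) i)
      (θ y i - θ (md b (fun j => x j) z) i)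
    linarith

theorem exists_decide (hm : Measurable θ) :
    ∃ G0 ∈ residual (Z f),
      (∀ b l, ∀ x ∈ G0, x ∈ BB θ b l → ∃ N, ∀ x' ∈ G0, agz N x x' → x' ∈ BB θ b l) ∧
      (∀ (i : ℕ) (ε : ℝ), 0 < ε → ∀ x ∈ G0, ∃ N, ∀ x' ∈ G0, agz N x x' →
        |θ x' i - θ x i| < ε) := by
  let S : (ℕ × ℕ) ⊕ (ℕ × ℚ × ℚ) → Set (Z f) := fun p =>
    match p with
    | Sum.inl p => BB θ p.1 p.2
    | Sum.inr p => {x | (p.2.1 : ℝ) < θ x p.1 ∧ θ x p.1 < (p.2.2 : ℝ)}
  have hS : ∀ p, MeasurableSet (S p) := by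
    rintro (p | p)
    · exact measurable_BB hm p.1 p.2
    · have h1 : Measurable fun x => θ x p.1 := (measurable_pi_apply p.1).comp hm
      exact (h1 measurableSet_Ioi).inter (h1 measurableSet_Iio)
  obtain ⟨G, hG, hG'⟩ := decide_gen S hS
  refine ⟨G, hG, fun b l x hx hxB => hG' (Sum.inl (b, l)) x hx hxB, ?_⟩
  intro i ε hε x hx
  obtain ⟨q1, h1, h2⟩ := exists_rat_btwn (show θ x i - ε / 2 < θ x i by linarith)
  obtain ⟨q2, h3, h4⟩ := exists_rat_btwn (show θ x i < θ x i + ε / 2 by linarith)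
  obtain ⟨N, hN⟩ := hG' (Sum.inr (i, q1, q2)) x hx ⟨h2, h3⟩
  refine ⟨N, fun x' hx' h => ?_⟩
  obtain ⟨h5, h6⟩ := hN x' hx' h
  simp only at h5 h6
  rw [abs_lt]
  constructor <;> linarith

theorem fusion (hm : Measurable θ) (hd0 : ∀ k v, d k v v = 0)
    (hθ : ∀ x y : Z f, Summable (fun k => d k (x k) (y k)) ↔ Summable fun i => |θ x i - θ y i|)
    (τ des : ℕ → ℕ) (hτ : ∀ t N, ∃ k, N ≤ k ∧ τ k = t) :
    ∃ (z : Z f) (n l : ℕ → ℕ), StrictMono n ∧ StrictMono l ∧ (∀ j, τ (n j) = des j) ∧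
      ∀ x : Z f, (∀ k, k ∉ range n → x k = z k) → ∀ j,
        ∑ i ∈ Finset.Ico (l j) (l (j + 1)),
          |θ x i - θ (Function.update z (n j) (x (n j))) i| ≤ 2 * (1 / 2) ^ j := by
  obtain ⟨G0, hG0, hB, hT⟩ := exists_decide hm
  obtain ⟨O, hOo, hO, hOr⟩ := exists_open_seq hG0
  have hres := residual_md hOr
  obtain ⟨z, hz⟩ := (dense_of_mem_residual hres).nonempty
  have hst := step hd0 hθ hOo hO hB hT z hz
  choose Lf Nf h1 h2 h3 h4 h5 using hst
  choose pos hp1 hp2 using hτ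
  let st : ℕ → ℕ × ℕ := fun j => Nat.rec (0, 0)
    (fun j s => (pos (des j) (Nf s.1 s.2 j) + 1, Lf s.1 s.2 j)) j
  let b : ℕ → ℕ := fun j => (st j).1
  let lp : ℕ → ℕ := fun j => (st j).2
  let n : ℕ → ℕ := fun j => pos (des j) (Nf (b j) (lp j) j)
  have hb : ∀ j, b (j + 1) = n j + 1 := fun j => rfl
  have hlp : ∀ j, lp (j + 1) = Lf (b j) (lp j) j := fun j => rfl
  have hnN : ∀ j, Nf (b j) (lp j) j ≤ n j := fun j => hp1 _ _
  have hNb : ∀ j, b j ≤ Nf (b j) (lp j) j := fun j => h2 _ _ _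
  have hbn : ∀ j, b j ≤ n j := fun j => (hNb j).trans (hnN j)
  have hn : StrictMono n := strictMono_nat_of_lt_succ fun j => by
    have := hbn (j + 1)
    rw [hb] at this
    exact this
  have hlpm : StrictMono lp := strictMono_nat_of_lt_succ fun j => by
    rw [hlp]
    exact h1 _ _ _
  have hbj : ∀ j, j ≤ b j := by
    intro j
    induction j with
    | zero => exact Nat.zero_le _
    | succ j ih =>
      rw [hb]
      have := hbn j
      omega
  have hbm : ∀ i j, i < j → n i < b j := by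
    intro i j hij
    obtain ⟨k, rfl⟩ : ∃ k, j = k + 1 := ⟨j - 1, by omega⟩
    rw [hb]
    exact Nat.lt_succ_of_le (hn.monotone (by omega))
  -- points of the subproduct
  have hcond : ∀ x : Z f, (∀ k, k ∉ range n → x k = z k) → ∀ j, ∀ k, b j ≤ k →
      k < Nf (b j) (lp j) j → x k = z k := by
    intro x hx j k h6 h7
    apply hx
    rintro ⟨i, rfl⟩
    by_cases hij : i < j
    · have := hbm i j hij
      omega
    · have h8 := hn.monotone (not_lt.1 hij)
      have h9 := hnN j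
      omega
  have hmem : ∀ x : Z f, (∀ k, k ∉ range n → x k = z k) → x ∈ G0 := by
    intro x hx
    apply hO
    rw [mem_iInter]
    intro r
    exact h3 (b r) (lp r) r x (hcond x hx r) r le_rfl
  refine ⟨z, n, fun j => lp (j + 1), hn, fun i j hij => hlpm (Nat.succ_lt_succ hij), fun j => hp2 _ _, ?_⟩
  intro x hx j
  -- the intermediate point
  have hx1 : ∀ k, k ∉ range n → md (b j) (fun i => z i) x k = z k := by
    intro k hk
    by_cases h : k < b j
    · rw [md_lt _ _ h]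
    · rw [md_ge _ _ h, hx k hk]
  have hx2 : ∀ k, k ∉ range n → Function.update z (n j) (x (n j)) k = z k := by
    intro k hk
    rw [Function.update_of_ne]
    rintro rfl
    exact hk ⟨j, rfl⟩
  have hBx : x ∈ BB θ (b j) (lp (j + 1)) := by
    rw [hlp]
    exact h4 _ _ _ x (hmem _ hx1) (hcond x hx j)
  have e1 : ∑ i ∈ Finset.Ico (lp (j + 1)) (lp (j + 1 + 1)),
      |θ x i - θ (md (b j) (fun i => z i) x) i| ≤ (1 / 2) ^ (b j) := by
    have h6 := hBx (fun i => x i) (fun i => z i)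
    rw [md_self] at h6
    have h7 : ENNReal.ofReal (∑ i ∈ Finset.Ico (lp (j + 1)) (lp (j + 1 + 1)),
        |θ x i - θ (md (b j) (fun i => z i) x) i|) ≤
          tl (lp (j + 1)) (θ x) (θ (md (b j) (fun i => z i) x)) := by
      rw [ENNReal.ofReal_sum_of_nonneg fun _ _ => abs_nonneg _, Finset.sum_Ico_eq_sum_range]
      unfold tl
      have h8 := ENNReal.sum_le_tsum (f := fun i => ENNReal.ofReal
        |θ x (i + lp (j + 1)) - θ (md (b j) (fun i => z i) x) (i + lp (j + 1))|)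
        (Finset.range (lp (j + 1 + 1) - lp (j + 1)))
      refine le_trans (le_of_eq ?_) h8
      refine Finset.sum_congr rfl fun i _ => ?_
      rw [add_comm]
    exact (ENNReal.ofReal_le_ofReal_iff (by positivity)).1 (h7.trans h6)
  have e2 : ∑ i ∈ Finset.Ico (lp (j + 1)) (lp (j + 1 + 1)),
      |θ (md (b j) (fun i => z i) x) i - θ (Function.update z (n j) (x (n j))) i| ≤
        (1 / 2) ^ (b (j + 1)) := by
    have hag : agz (Nf (b (j + 1)) (lp (j + 1)) (j + 1)) (md (b j) (fun i => z i) x)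
        (Function.update z (n j) (x (n j))) := by
      intro k hk
      by_cases hkn : k = n j
      · subst hkn
        rw [Function.update_self, md_ge _ _ (by have := hbn j; omega)]
      · rw [Function.update_of_ne hkn]
        by_cases h : k < b j
        · rw [md_lt _ _ h]
        · rw [md_ge _ _ h]
          apply hx
          rintro ⟨i, rfl⟩
          by_cases hij : i < j
          · exact h (hbm i j hij)
          · have h8 : j < i := by
              rcases Nat.lt_or_ge j i with h9 | h9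
              · exact h9
              · exact absurd (congrArg n (le_antisymm h9 (not_lt.1 hij))) hkn
            have h9 := hn.monotone (show j + 1 ≤ i by omega)
            have h10 := hnN (j + 1)
            omega
    have h6 := h5 (b (j + 1)) (lp (j + 1)) (j + 1) _ (hmem _ hx1) _ (hmem _ hx2)
      (hcond _ hx1 (j + 1)) hag
    have h7 : ∀ i ∈ Finset.Ico (lp (j + 1)) (lp (j + 1 + 1)),
        |θ (md (b j) (fun i => z i) x) i - θ (Function.update z (n j) (x (n j))) i| ≤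
          (1 / 2) ^ (b (j + 1)) / ((lp (j + 1 + 1) : ℝ) + 1) := by
      intro i hi
      rw [Finset.mem_Ico] at hi
      exact h6 i hi.2
    refine (Finset.sum_le_card_nsmul _ _ _ h7).trans ?_
    rw [Nat.card_Ico, nsmul_eq_mul]
    have h8 : ((lp (j + 1 + 1) - lp (j + 1) : ℕ) : ℝ) ≤ (lp (j + 1 + 1) : ℝ) + 1 := by
      have : (lp (j + 1 + 1) - lp (j + 1) : ℕ) ≤ lp (j + 1 + 1) + 1 := by omega
      exact_mod_cast this
    calc ((lp (j + 1 + 1) - lp (j + 1) : ℕ) : ℝ) *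
          ((1 / 2) ^ (b (j + 1)) / ((lp (j + 1 + 1) : ℝ) + 1))
        ≤ ((lp (j + 1 + 1) : ℝ) + 1) * ((1 / 2) ^ (b (j + 1)) / ((lp (j + 1 + 1) : ℝ) + 1)) := by
          gcongr
      _ = (1 / 2) ^ (b (j + 1)) := by field_simp
  have e3 : ((1 : ℝ) / 2) ^ (b j) ≤ (1 / 2) ^ j :=
    pow_le_pow_of_le_one (by norm_num) (by norm_num) (hbj j)
  have e4 : ((1 : ℝ) / 2) ^ (b (j + 1)) ≤ (1 / 2) ^ j :=
    pow_le_pow_of_le_one (by norm_num) (by norm_num) ((Nat.le_succ j).trans (hbj (j + 1)))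
  calc ∑ i ∈ Finset.Ico (lp (j + 1)) (lp (j + 1 + 1)),
        |θ x i - θ (Function.update z (n j) (x (n j))) i|
      ≤ ∑ i ∈ Finset.Ico (lp (j + 1)) (lp (j + 1 + 1)),
          (|θ x i - θ (md (b j) (fun i => z i) x) i| +
            |θ (md (b j) (fun i => z i) x) i - θ (Function.update z (n j) (x (n j))) i|) :=
        Finset.sum_le_sum fun i _ => abs_sub_le _ _ _
    _ ≤ (1 / 2) ^ (b j) + (1 / 2) ^ (b (j + 1)) := by
        rw [Finset.sum_add_distrib]
        exact add_le_add e1 e2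
    _ ≤ 2 * (1 / 2) ^ j := by linarith

end Pool.Agent.H453R3.SA
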