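import Pool.Agent.H453R3.SA2

/-!
# Uniform two-sided estimates
-/

set_option autoImplicit false

open Filter Topology Set MeasureTheory

namespace Pool.Agent.H453R3.SA

/-- choosing disjoint finite pieces of infinite sets, in increasing blocks -/
theorem exists_blocks (Bad : ℕ → Set ℕ) (hB : ∀ n, (Bad n).Infinite) (M : ℕ → ℕ) :
    ∃ (e : ℕ → ℕ) (A : ℕ → Finset ℕ), StrictMono e ∧ (∀ n, (A n : Set ℕ) ⊆ Bad n) ∧
      (∀ n, (A n).card = M n) ∧ ∀ n, A n ⊆ Finset.Ico (e n) (e (n + 1)) := by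
  have h1 : ∀ n s, ∃ (t : ℕ) (A : Finset ℕ), s < t ∧ (A : Set ℕ) ⊆ Bad n ∧ A.card = M n ∧
      A ⊆ Finset.Ico s t := by
    intro n s
    have h2 : (Bad n \ (Finset.range s : Set ℕ)).Infinite := (hB n).diff (Finset.finite_toSet _)
    obtain ⟨A, hA, hAc⟩ := h2.exists_subset_card_eq (M n)
    refine ⟨max (s + 1) (A.sup id + 1), A, ?_, fun x hx => (hA hx).1, hAc, fun x hx => ?_⟩
    · exact lt_of_lt_of_le (Nat.lt_succ_self s) (le_max_left _ _)
    · rw [Finset.mem_Ico]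
      have h3 := (hA hx).2
      rw [Finset.mem_coe, Finset.mem_range, not_lt] at h3
      refine ⟨h3, ?_⟩
      have h4 : id x ≤ A.sup id := Finset.le_sup hx
      exact lt_of_lt_of_le (Nat.lt_succ_of_le h4) (le_max_right _ _)
  choose t A h2 h3 h4 h5 using h1
  let e : ℕ → ℕ := fun n => Nat.rec 0 (fun n s => t n s) n
  have he : ∀ n, e (n + 1) = t n (e n) := fun n => rfl
  refine ⟨e, fun n => A n (e n), strictMono_nat_of_lt_succ fun n => ?_, fun n => h3 _ _,
    fun n => h4 _ _, fun n => ?_⟩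
  · rw [he]; exact h2 _ _
  · rw [he]; exact h5 _ _

/-- the points differing on chosen blocks -/
theorem exists_pts (Bad : ℕ → Set ℕ) (hB : ∀ n, (Bad n).Infinite) (M : ℕ → ℕ) (v v' : ℕ → ℕ) :
    ∃ (a b : ℕ → ℕ) (e : ℕ → ℕ) (A : ℕ → Finset ℕ), StrictMono e ∧
      (∀ n, (A n : Set ℕ) ⊆ Bad n) ∧ (∀ n, (A n).card = M n) ∧
      (∀ j, (a j = 0 ∧ b j = 0) ∨ ∃ n, j ∈ Bad n ∧ a j = v n ∧ b j = v' n) ∧
      ∀ q : ℕ → ℕ → ℕ → ℝ, (∀ j, q j 0 0 = 0) →
        ∀ n, ∑ j ∈ Finset.Ico (e n) (e (n + 1)), q j (a j) (b j) = ∑ j ∈ A n, q j (v n) (v' n) := by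
  classical
  obtain ⟨e, A, he, hA, hAc, hAe⟩ := exists_blocks Bad hB M
  have huniq : ∀ j n m, j ∈ A n → j ∈ A m → n = m := by
    intro j n m h1 h2
    have h3 := Finset.mem_Ico.1 (hAe n h1)
    have h4 := Finset.mem_Ico.1 (hAe m h2)
    by_contra hne
    rcases lt_or_gt_of_ne hne with h | h
    · have := he.monotone (show n + 1 ≤ m from h)
      omega
    · have := he.monotone (show m + 1 ≤ n from h)
      omega
  let a : ℕ → ℕ := fun j => if h : ∃ n, j ∈ A n then v h.choose else 0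
  let b : ℕ → ℕ := fun j => if h : ∃ n, j ∈ A n then v' h.choose else 0
  have ha : ∀ j n, j ∈ A n → a j = v n := by
    intro j n h
    have h1 : ∃ n, j ∈ A n := ⟨n, h⟩
    simp only [a]
    rw [dif_pos h1, huniq j _ n h1.choose_spec h]
  have hb : ∀ j n, j ∈ A n → b j = v' n := by
    intro j n h
    have h1 : ∃ n, j ∈ A n := ⟨n, h⟩
    simp only [b]
    rw [dif_pos h1, huniq j _ n h1.choose_spec h]
  have h0 : ∀ j, (¬ ∃ n, j ∈ A n) → a j = 0 ∧ b j = 0 := by
    intro j h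
    exact ⟨dif_neg h, dif_neg h⟩
  refine ⟨a, b, e, A, he, hA, hAc, ?_, ?_⟩
  · intro j
    by_cases h : ∃ n, j ∈ A n
    · obtain ⟨n, hn⟩ := h
      exact Or.inr ⟨n, hA n hn, ha j n hn, hb j n hn⟩
    · exact Or.inl (h0 j h)
  · intro q hq n
    rw [← Finset.sum_subset (hAe n)]
    · refine Finset.sum_congr rfl fun j hj => ?_
      rw [ha j n hj, hb j n hj]
    · intro j hj hjA
      have h1 : ¬ ∃ m, j ∈ A m := by
        rintro ⟨m, hm⟩
        have h3 := Finset.mem_Ico.1 hj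
        have h4 := Finset.mem_Ico.1 (hAe m hm)
        have h5 : n = m := by
          by_contra hne
          rcases lt_or_gt_of_ne hne with h | h
          · have := he.monotone (show n + 1 ≤ m from h)
            omega
          · have := he.monotone (show m + 1 ≤ n from h)
            omega
        rw [h5] at hjA
        exact hjA hm
      rw [(h0 j h1).1, (h0 j h1).2, hq]

section claims
variable (des : ℕ → ℕ) (g : ℕ → ℕ) (d : ℕ → ℕ → ℕ → ℝ) (D : ℕ → ℕ → ℕ → ℝ)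

/-- the additive equivalence -/
def Add : Prop := ∀ a b : ℕ → ℕ, (∀ j, a j ≤ g (des j)) → (∀ j, b j ≤ g (des j)) →
  (Summable (fun j => d (des j) (a j) (b j)) ↔ Summable fun j => D j (a j) (b j))

variable {des g d D}

/-- pigeonhole for pairs of codes -/
theorem pigeon (t : ℕ) (P : ℕ → ℕ → ℕ → Prop)
    (h : ∀ j0, ∃ j, j0 ≤ j ∧ des j = t ∧ ∃ v v', v ≤ g t ∧ v' ≤ g t ∧ P j v v') :
    ∃ v v', v ≤ g t ∧ v' ≤ g t ∧ {j | des j = t ∧ P j v v'}.Infinite := by
  by_contra hc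
  push Not at hc
  have h1 : {j | des j = t ∧ ∃ v v', v ≤ g t ∧ v' ≤ g t ∧ P j v v'}.Finite := by
    have h2 : {j | des j = t ∧ ∃ v v', v ≤ g t ∧ v' ≤ g t ∧ P j v v'} ⊆
        ⋃ v ∈ Set.Iic (g t), ⋃ v' ∈ Set.Iic (g t), {j | des j = t ∧ P j v v'} := by
      rintro j ⟨hj, v, v', hv, hv', hP⟩
      simp only [mem_iUnion]
      exact ⟨v, hv, v', hv', hj, hP⟩
    refine Set.Finite.subset ?_ h2
    refine (Set.finite_Iic _).biUnion fun v hv => (Set.finite_Iic _).biUnion fun v' hv' => ?_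
    exact Set.not_infinite.1 fun hi => hi (hc v v' hv hv')
  obtain ⟨M, hM⟩ := h1.bddAbove
  obtain ⟨j, hj, hjt, hjP⟩ := h (M + 1)
  have := hM ⟨hjt, hjP⟩
  omega

theorem half_sum_bdd : Summable fun n : ℕ => (1 / 2 : ℝ) ^ n :=
  summable_geometric_of_lt_one (by norm_num) (by norm_num)

/-- lower estimate -/
theorem claim_lower (hadd : Add des g d D) (hd : ∀ t v v', 0 ≤ d t v v')
    (hd0 : ∀ t v, d t v v = 0) (hD : ∀ j v v', 0 ≤ D j v v') (hD0 : ∀ j v, D j v v = 0) :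
    ∃ c : ℝ, 0 < c ∧ ∀ t, ∃ j0, ∀ j, j0 ≤ j → des j = t → ∀ v v', v ≤ g t → v' ≤ g t →
      d t v v' ≤ 1 → c * d t v v' ≤ D j v v' := by
  by_contra hc
  push Not at hc
  have h1 : ∀ n : ℕ, ∃ t, ∃ v v', v ≤ g t ∧ v' ≤ g t ∧
      {j | des j = t ∧ (d t v v' ≤ 1 ∧ D j v v' < (1 / 2) ^ n * d t v v')}.Infinite := by
    intro n
    obtain ⟨t, ht⟩ := hc ((1 / 2) ^ n) (by positivity)
    refine ⟨t, pigeon t (fun j v v' => d t v v' ≤ 1 ∧ D j v v' < (1 / 2) ^ n * d t v v') ?_⟩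
    intro j0
    obtain ⟨j, hj, hjt, v, v', hv, hv', h2, h3⟩ := ht j0
    exact ⟨j, hj, hjt, v, v', hv, hv', h2, h3⟩
  choose t v v' hv hv' hinf using h1
  have hdn : ∀ n, 0 < d (t n) (v n) (v' n) ∧ d (t n) (v n) (v' n) ≤ 1 := by
    intro n
    obtain ⟨j, -, hj, hj'⟩ := (hinf n).nonempty
    refine ⟨?_, hj⟩
    have h2 := hD j (v n) (v' n)
    by_contra h3
    have h4 : d (t n) (v n) (v' n) = 0 := le_antisymm (not_lt.1 h3) (hd _ _ _)
    rw [h4, mul_zero] at hj'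
    linarith
  obtain ⟨a, b, e, A, he, hA, hAc, hab, hsum⟩ := exists_pts _ hinf
    (fun n => ⌈1 / d (t n) (v n) (v' n)⌉₊) v v'
  have hb : ∀ j, a j ≤ g (des j) ∧ b j ≤ g (des j) := by
    intro j
    rcases hab j with ⟨h2, h3⟩ | ⟨n, h2, h3, h4⟩
    · rw [h2, h3]; exact ⟨Nat.zero_le _, Nat.zero_le _⟩
    · rw [h3, h4, h2.1]; exact ⟨hv n, hv' n⟩
  have h2 := hadd a b (fun j => (hb j).1) (fun j => (hb j).2)
  have h3 : Summable fun j => D j (a j) (b j) := by
    rw [block_summable _ (fun j => hD _ _ _) e he]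
    refine Summable.of_nonneg_of_le (fun n => Finset.sum_nonneg fun j _ => hD _ _ _) (fun n => ?_)
      (half_sum_bdd.mul_left 2)
    rw [hsum D (fun j => hD0 j 0)]
    calc ∑ j ∈ A n, D j (v n) (v' n) ≤ ∑ j ∈ A n, (1 / 2) ^ n * d (t n) (v n) (v' n) :=
          Finset.sum_le_sum fun j hj => (hA n hj).2.2.le
      _ = (⌈1 / d (t n) (v n) (v' n)⌉₊ : ℝ) * ((1 / 2) ^ n * d (t n) (v n) (v' n)) := by
          rw [Finset.sum_const, hAc, nsmul_eq_mul]
      _ ≤ (1 / d (t n) (v n) (v' n) + 1) * ((1 / 2) ^ n * d (t n) (v n) (v' n)) := by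
          have := (Nat.ceil_lt_add_one (show 0 ≤ 1 / d (t n) (v n) (v' n) by
            have := (hdn n).1; positivity)).le
          have h5 := (hdn n).1
          gcongr
      _ = (1 / 2) ^ n * (1 + d (t n) (v n) (v' n)) := by
          have h5 := (hdn n).1.ne'
          field_simp
      _ ≤ 2 * (1 / 2) ^ n := by
          have h5 := (hdn n).2
          have h6 : (0 : ℝ) < (1 / 2) ^ n := by positivity
          nlinarith
  have h4 := h2.2 h3
  rw [block_summable _ (fun j => hd _ _ _) e he] at h4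
  have h5 : ∀ n, 1 ≤ ∑ j ∈ Finset.Ico (e n) (e (n + 1)), d (des j) (a j) (b j) := by
    intro n
    rw [hsum (fun j => d (des j)) (fun j => hd0 _ _)]
    have h6 : ∑ j ∈ A n, d (des j) (v n) (v' n) =
        (⌈1 / d (t n) (v n) (v' n)⌉₊ : ℝ) * d (t n) (v n) (v' n) := by
      rw [← hAc n, ← nsmul_eq_mul, ← Finset.sum_const]
      refine Finset.sum_congr rfl fun j hj => ?_
      rw [(hA n hj).1]
    rw [h6]
    have h7 := Nat.le_ceil (1 / d (t n) (v n) (v' n))
    have h8 := (hdn n).1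
    calc (1 : ℝ) = 1 / d (t n) (v n) (v' n) * d (t n) (v n) (v' n) := by field_simp
      _ ≤ _ := by gcongr
  have h6 := h4.tendsto_atTop_zero
  have h7 := (tendsto_order.1 h6).2 1 one_pos
  obtain ⟨n, hn⟩ := h7.exists
  exact absurd hn (not_lt.2 (h5 n))

/-- upper estimate -/
theorem claim_upper (hadd : Add des g d D) (hd : ∀ t v v', 0 ≤ d t v v')
    (hd0 : ∀ t v, d t v v = 0) (hdp : ∀ t v v', v ≤ g t → v' ≤ g t → v ≠ v' → 0 < d t v v')
    (hD : ∀ j v v', 0 ≤ D j v v') (hD0 : ∀ j v, D j v v = 0) :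
    ∃ C δ : ℝ, 0 < C ∧ 0 < δ ∧ ∀ t, ∃ j0, ∀ j, j0 ≤ j → des j = t → ∀ v v', v ≤ g t → v' ≤ g t →
      d t v v' ≤ δ → D j v v' ≤ C * d t v v' := by
  by_contra hc
  push Not at hc
  have h1 : ∀ n : ℕ, ∃ t, ∃ v v', v ≤ g t ∧ v' ≤ g t ∧
      {j | des j = t ∧ (d t v v' ≤ (1 / 2) ^ n ∧ 4 ^ n * d t v v' < D j v v')}.Infinite := by
    intro n
    obtain ⟨t, ht⟩ := hc (4 ^ n) ((1 / 2) ^ n) (by positivity) (by positivity)
    refine ⟨t, pigeon t (fun j v v' => d t v v' ≤ (1 / 2) ^ n ∧ 4 ^ n * d t v v' < D j v v') ?_⟩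
    intro j0
    obtain ⟨j, hj, hjt, v, v', hv, hv', h2, h3⟩ := ht j0
    exact ⟨j, hj, hjt, v, v', hv, hv', h2, h3⟩
  choose t v v' hv hv' hinf using h1
  have hdn : ∀ n, 0 < d (t n) (v n) (v' n) ∧ d (t n) (v n) (v' n) ≤ (1 / 2) ^ n := by
    intro n
    obtain ⟨j, -, hj, hj'⟩ := (hinf n).nonempty
    refine ⟨hdp _ _ _ (hv n) (hv' n) ?_, hj⟩
    intro h2
    rw [h2, hd0, hD0] at hj'
    simp at hj'
  obtain ⟨a, b, e, A, he, hA, hAc, hab, hsum⟩ := exists_pts _ hinf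
    (fun n => ⌈(1 / 2) ^ n / d (t n) (v n) (v' n)⌉₊) v v'
  have hb : ∀ j, a j ≤ g (des j) ∧ b j ≤ g (des j) := by
    intro j
    rcases hab j with ⟨h2, h3⟩ | ⟨n, h2, h3, h4⟩
    · rw [h2, h3]; exact ⟨Nat.zero_le _, Nat.zero_le _⟩
    · rw [h3, h4, h2.1]; exact ⟨hv n, hv' n⟩
  have h2 := hadd a b (fun j => (hb j).1) (fun j => (hb j).2)
  have h3 : Summable fun j => d (des j) (a j) (b j) := by
    rw [block_summable _ (fun j => hd _ _ _) e he]
    refine Summable.of_nonneg_of_le (fun n => Finset.sum_nonneg fun j _ => hd _ _ _) (fun n => ?_)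
      (half_sum_bdd.mul_left 2)
    rw [hsum (fun j => d (des j)) (fun j => hd0 _ _)]
    have h6 : ∑ j ∈ A n, d (des j) (v n) (v' n) =
        (⌈(1 / 2) ^ n / d (t n) (v n) (v' n)⌉₊ : ℝ) * d (t n) (v n) (v' n) := by
      rw [← hAc n, ← nsmul_eq_mul, ← Finset.sum_const]
      refine Finset.sum_congr rfl fun j hj => ?_
      rw [(hA n hj).1]
    rw [h6]
    have h5 := (hdn n).1
    have h7 := (Nat.ceil_lt_add_one (show 0 ≤ (1 / 2) ^ n / d (t n) (v n) (v' n) by
      positivity)).le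
    calc (⌈(1 / 2) ^ n / d (t n) (v n) (v' n)⌉₊ : ℝ) * d (t n) (v n) (v' n)
        ≤ ((1 / 2) ^ n / d (t n) (v n) (v' n) + 1) * d (t n) (v n) (v' n) := by gcongr
      _ = (1 / 2) ^ n + d (t n) (v n) (v' n) := by field_simp
      _ ≤ 2 * (1 / 2) ^ n := by
          have := (hdn n).2
          linarith
  have h4 := h2.1 h3
  rw [block_summable _ (fun j => hD _ _ _) e he] at h4
  have h5 : ∀ n, 1 ≤ ∑ j ∈ Finset.Ico (e n) (e (n + 1)), D j (a j) (b j) := by
    intro n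
    rw [hsum D (fun j => hD0 _ _)]
    have h7 := Nat.le_ceil ((1 / 2) ^ n / d (t n) (v n) (v' n))
    have h8 := (hdn n).1
    calc (1 : ℝ) ≤ 2 ^ n := one_le_pow₀ (by norm_num)
      _ = ((1 / 2) ^ n / d (t n) (v n) (v' n)) * (4 ^ n * d (t n) (v n) (v' n)) := by
          have h9 : (4 : ℝ) ^ n = 2 ^ n * 2 ^ n := by
            rw [← mul_pow]; norm_num
          have h10 : ((1 : ℝ) / 2) ^ n * 2 ^ n = 1 := by
            rw [← mul_pow]; norm_num
          have h11 : ((1 / 2) ^ n / d (t n) (v n) (v' n)) * (4 ^ n * d (t n) (v n) (v' n)) =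
              (1 / 2 : ℝ) ^ n * 4 ^ n := by
            field_simp
          rw [h11, h9, ← mul_assoc, h10, one_mul]
      _ ≤ (⌈(1 / 2) ^ n / d (t n) (v n) (v' n)⌉₊ : ℝ) * (4 ^ n * d (t n) (v n) (v' n)) := by
          gcongr
      _ = ∑ j ∈ A n, 4 ^ n * d (t n) (v n) (v' n) := by
          rw [Finset.sum_const, hAc, nsmul_eq_mul]
      _ ≤ ∑ j ∈ A n, D j (v n) (v' n) := Finset.sum_le_sum fun j hj => (hA n hj).2.2.le
  have h6 := h4.tendsto_atTop_zero
  have h7 := (tendsto_order.1 h6).2 1 one_pos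
  obtain ⟨n, hn⟩ := h7.exists
  exact absurd hn (not_lt.2 (h5 n))

end claims

/-- the main consequence of a Borel reduction to `R^N / l¹` -/
theorem uniform_maps (τ g : ℕ → ℕ) (hτ : ∀ t N, ∃ k, N ≤ k ∧ τ k = t) (d : ℕ → ℕ → ℕ → ℝ)
    (hd : ∀ t v v', 0 ≤ d t v v') (hd0 : ∀ t v, d t v v = 0)
    (hdp : ∀ t v v', v ≤ g t → v' ≤ g t → v ≠ v' → 0 < d t v v')
    (θ : Z (fun k => g (τ k)) → ℕ → ℝ) (hm : Measurable θ)
    (hθ : ∀ x y : Z (fun k => g (τ k)),
      Summable (fun k => d (τ k) (x k) (y k)) ↔ Summable fun i => |θ x i - θ y i|) :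
    ∃ c C δ : ℝ, 0 < c ∧ 0 < C ∧ 0 < δ ∧ ∀ t, ∃ (I : Finset ℕ) (h : ℕ → ℕ → ℝ),
      ∀ v v', v ≤ g t → v' ≤ g t →
        (d t v v' ≤ 1 → c * d t v v' ≤ ∑ i ∈ I, |h v i - h v' i|) ∧
        (d t v v' ≤ δ → ∑ i ∈ I, |h v i - h v' i| ≤ C * d t v v') := by
  let des : ℕ → ℕ := fun j => (Nat.unpair j).1
  have hdes : ∀ t j0, ∃ j, j0 ≤ j ∧ des j = t := by
    intro t j0
    refine ⟨Nat.pair t j0, Nat.right_le_pair t j0, ?_⟩
    simp [des]
  obtain ⟨z, n, l, hn, hl, hτn, hest⟩ := fusion (d := fun k => d (τ k)) hm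
    (fun k v => hd0 _ _) hθ τ des hτ
  let h : ℕ → ℕ → ℕ → ℝ := fun j v i => θ (Function.update z (n j) (Fin.ofNat _ v)) i
  let D : ℕ → ℕ → ℕ → ℝ := fun j v v' => ∑ i ∈ Finset.Ico (l j) (l (j + 1)), |h j v i - h j v' i|
  have hD : ∀ j v v', 0 ≤ D j v v' := fun j v v' => Finset.sum_nonneg fun _ _ => abs_nonneg _
  have hD0 : ∀ j v, D j v v = 0 := fun j v => by simp [D]
  have hadd : Add des g d D := by
    intro a b ha hb
    classical
    -- the points of the subproduct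
    let pt : (ℕ → ℕ) → Z (fun k => g (τ k)) := fun a k =>
      if hk : ∃ j, n j = k then Fin.ofNat _ (a hk.choose) else z k
    have hpt : ∀ a j, pt a (n j) = Fin.ofNat _ (a j) := by
      intro a j
      have h1 : ∃ i, n i = n j := ⟨j, rfl⟩
      have h2 : h1.choose = j := hn.injective h1.choose_spec
      simp only [pt]
      rw [dif_pos h1, h2]
    have hpt' : ∀ a k, k ∉ range n → pt a k = z k := fun a k hk => dif_neg hk
    have hval : ∀ a : ℕ → ℕ, (∀ j, a j ≤ g (des j)) → ∀ j, ((pt a (n j) : Fin _) : ℕ) = a j := by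
      intro a ha j
      rw [hpt]
      have h1 : a j ≤ g (τ (n j)) := by rw [hτn]; exact ha j
      exact Nat.mod_eq_of_lt (Nat.lt_succ_of_le h1)
    have h1 : Summable (fun k => d (τ k) (pt a k) (pt b k)) ↔
        Summable fun j => d (des j) (a j) (b j) := by
      rw [← hn.injective.summable_iff]
      · refine summable_congr fun j => ?_
        simp only [Function.comp]
        rw [hval a ha, hval b hb, hτn]
      · intro k hk
        rw [hpt' a k hk, hpt' b k hk, hd0]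
    have h2 := hθ (pt a) (pt b)
    rw [← h1, h2, block_summable _ (fun _ => abs_nonneg _) l hl]
    have e1 : ∀ a j, ∑ i ∈ Finset.Ico (l j) (l (j + 1)), |θ (pt a) i - h j (a j) i| ≤
        2 * (1 / 2) ^ j := by
      intro a j
      have := hest (pt a) (hpt' a) j
      rwa [hpt] at this
    have hs : Summable fun j : ℕ => 2 * (1 / 2 : ℝ) ^ j + 2 * (1 / 2) ^ j :=
      (half_sum_bdd.mul_left 2).add (half_sum_bdd.mul_left 2)
    constructor
    · intro h3
      refine Summable.of_nonneg_of_le (fun j => hD _ _ _) (fun j => ?_) (h3.add hs)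
      calc D j (a j) (b j)
          ≤ ∑ i ∈ Finset.Ico (l j) (l (j + 1)), (|θ (pt a) i - θ (pt b) i| +
              (|θ (pt a) i - h j (a j) i| + |θ (pt b) i - h j (b j) i|)) := by
            refine Finset.sum_le_sum fun i _ => ?_
            have h4 : h j (a j) i - h j (b j) i = (θ (pt a) i - θ (pt b) i) +
              (-(θ (pt a) i - h j (a j) i) + (θ (pt b) i - h j (b j) i)) := by ring
            rw [h4]
            refine (abs_add_le _ _).trans ?_
            gcongr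
            refine (abs_add_le _ _).trans ?_
            rw [abs_neg]
        _ ≤ _ := by
            rw [Finset.sum_add_distrib, Finset.sum_add_distrib]
            have h5 := e1 a j
            have h6 := e1 b j
            gcongr
    · intro h3
      refine Summable.of_nonneg_of_le (fun j => Finset.sum_nonneg fun _ _ => abs_nonneg _)
        (fun j => ?_) (h3.add hs)
      calc ∑ i ∈ Finset.Ico (l j) (l (j + 1)), |θ (pt a) i - θ (pt b) i|
          ≤ ∑ i ∈ Finset.Ico (l j) (l (j + 1)), (|h j (a j) i - h j (b j) i| +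
              (|θ (pt a) i - h j (a j) i| + |θ (pt b) i - h j (b j) i|)) := by
            refine Finset.sum_le_sum fun i _ => ?_
            have h4 : θ (pt a) i - θ (pt b) i = (h j (a j) i - h j (b j) i) +
              ((θ (pt a) i - h j (a j) i) + -(θ (pt b) i - h j (b j) i)) := by ring
            rw [h4]
            refine (abs_add_le _ _).trans ?_
            gcongr
            refine (abs_add_le _ _).trans ?_
            rw [abs_neg]
        _ ≤ _ := by
            rw [Finset.sum_add_distrib, Finset.sum_add_distrib]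
            have h5 := e1 a j
            have h6 := e1 b j
            gcongr
  obtain ⟨c, hc, hc'⟩ := claim_lower hadd hd hd0 hD hD0
  obtain ⟨C, δ, hC, hδ, hC'⟩ := claim_upper hadd hd hd0 hdp hD hD0
  refine ⟨c, C, δ, hc, hC, hδ, fun t => ?_⟩
  obtain ⟨j1, h1⟩ := hc' t
  obtain ⟨j2, h2⟩ := hC' t
  obtain ⟨j, hj, hjt⟩ := hdes t (max j1 j2)
  refine ⟨Finset.Ico (l j) (l (j + 1)), h j, fun v v' hv hv' => ⟨fun h3 => ?_, fun h3 => ?_⟩⟩
  · exact h1 j ((le_max_left _ _).trans hj) hjt v v' hv hv' h3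
  · exact h2 j ((le_max_right _ _).trans hj) hjt v v' hv hv' h3

end Pool.Agent.H453R3.SA
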