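import Mathlib

/-!
# A Fourier inequality: sign matrices against rank one sign matrices
-/

set_option autoImplicit false

open Finset

namespace Pool.Agent.H453R3.SB

/-- lazy signs -/
def ls : Fin 4 → ℤ := ![0, 0, 1, -1]

theorem sum_ls (F : ℤ → ℝ) : ∑ k : Fin 4, F (ls k) = 2 * F 0 + F 1 + F (-1) := by
  simp only [Fin.sum_univ_four, ls]
  simp
  ring

section one
variable {ι : Type} [Fintype ι] [DecidableEq ι]

/-- linear form -/
noncomputable def lf (θ : ι → ℝ) (a : ι → Fin 4) : ℝ := ∑ i, θ i * (ls (a i) : ℝ)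

/-- the factor -/
noncomputable def cc (t : ℝ) : ℝ := (1 + Real.cos t) / 2

theorem cc_nonneg (t : ℝ) : 0 ≤ cc t := by
  unfold cc
  have := Real.neg_one_le_cos t
  linarith

theorem cc_le (t : ℝ) : cc t ≤ 1 := by
  unfold cc
  have := Real.cos_le_one t
  linarith

theorem sum_cos (θ : ι → ℝ) : ∑ a : ι → Fin 4, Real.cos (lf θ a) =
    4 ^ Fintype.card ι * ∏ i, cc (θ i) := by
  have h1 : ∑ a : ι → Fin 4, Complex.exp (Complex.I * (lf θ a : ℂ)) =
      ∏ i, ∑ k : Fin 4, Complex.exp (Complex.I * ((θ i * (ls k : ℝ) : ℝ) : ℂ)) := by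
    rw [Finset.prod_univ_sum, Fintype.piFinset_univ]
    refine Finset.sum_congr rfl fun a _ => ?_
    rw [← Complex.exp_sum]
    congr 1
    unfold lf
    push_cast
    rw [Finset.mul_sum]
  have h2 : ∀ i, ∑ k : Fin 4, Complex.exp (Complex.I * ((θ i * (ls k : ℝ) : ℝ) : ℂ)) =
      ((4 * cc (θ i) : ℝ) : ℂ) := by
    intro i
    simp only [Fin.sum_univ_four, ls]
    unfold cc
    have h3 : Complex.exp (Complex.I * (θ i : ℂ)) + Complex.exp (-(Complex.I * (θ i : ℂ))) =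
        2 * Complex.cos (θ i) := by
      rw [Complex.cos]
      ring_nf
    have h4 : Complex.exp (Complex.I * ((θ i * ((![0, 0, 1, -1] : Fin 4 → ℤ) 0 : ℝ) : ℝ) : ℂ)) = 1 := by
      simp
    have h5 : Complex.exp (Complex.I * ((θ i * ((![0, 0, 1, -1] : Fin 4 → ℤ) 1 : ℝ) : ℝ) : ℂ)) = 1 := by
      simp
    have h6 : Complex.exp (Complex.I * ((θ i * ((![0, 0, 1, -1] : Fin 4 → ℤ) 2 : ℝ) : ℝ) : ℂ)) =
        Complex.exp (Complex.I * (θ i : ℂ)) := by
      simp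
    have h7 : Complex.exp (Complex.I * ((θ i * ((![0, 0, 1, -1] : Fin 4 → ℤ) 3 : ℝ) : ℝ) : ℂ)) =
        Complex.exp (-(Complex.I * (θ i : ℂ))) := by
      simp
    rw [h4, h5, h6, h7, add_assoc, h3]
    push_cast
    ring
  simp_rw [h2] at h1
  have h3 := congrArg Complex.re h1
  rw [Complex.re_sum] at h3
  have h4 : ∀ a : ι → Fin 4, (Complex.exp (Complex.I * (lf θ a : ℂ))).re = Real.cos (lf θ a) := by
    intro a
    rw [mul_comm, Complex.exp_ofReal_mul_I_re]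
  simp_rw [h4] at h3
  rw [h3, ← Complex.ofReal_prod, Complex.ofReal_re, Finset.prod_mul_distrib, Finset.prod_const,
    Finset.card_univ]

/-- half of one minus the cosine -/
noncomputable def ww (x : ℝ) : ℝ := (1 - Real.cos x) / 2

theorem ww_nonneg (t : ℝ) : 0 ≤ ww t := by
  unfold ww
  have := Real.cos_le_one t
  linarith

theorem ww_le (t : ℝ) : ww t ≤ 1 := by
  unfold ww
  have := Real.neg_one_le_cos t
  linarith

theorem sum_ww (θ : ι → ℝ) : ∑ a : ι → Fin 4, ww (lf θ a) =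
    4 ^ Fintype.card ι * ((1 - ∏ i, cc (θ i)) / 2) := by
  unfold ww
  rw [← Finset.sum_div, Finset.sum_sub_distrib, sum_cos]
  simp
  ring

theorem lf_two (θ : ι → ℝ) (a : ι → Fin 4) : lf (fun i => 2 * θ i) a = 2 * lf θ a := by
  unfold lf
  rw [Finset.mul_sum]
  exact Finset.sum_congr rfl fun i _ => by ring

theorem sum_ww_sq (θ : ι → ℝ) : ∑ a : ι → Fin 4, ww (lf θ a) ^ 2 =
    4 ^ Fintype.card ι * ((3 / 2 - 2 * ∏ i, cc (θ i) + (∏ i, cc (2 * θ i)) / 2) / 4) := by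
  have h1 : ∀ a : ι → Fin 4, ww (lf θ a) ^ 2 =
      (3 / 2 - 2 * Real.cos (lf θ a) + Real.cos (lf (fun i => 2 * θ i) a) / 2) / 4 := by
    intro a
    rw [lf_two, Real.cos_two_mul]
    unfold ww
    ring
  simp_rw [h1]
  have h2 : ∑ a : ι → Fin 4, Real.cos (lf (fun i => 2 * θ i) a) / 2 =
      (∑ a : ι → Fin 4, Real.cos (lf (fun i => 2 * θ i) a)) / 2 :=
    (Finset.sum_div _ _ _).symm
  rw [← Finset.sum_div, Finset.sum_add_distrib, Finset.sum_sub_distrib, ← Finset.mul_sum,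
    h2, sum_cos, sum_cos]
  simp
  ring

theorem cc_two (t : ℝ) : cc (2 * t) = (2 * cc t - 1) ^ 2 := by
  unfold cc
  rw [Real.cos_two_mul]
  ring

theorem hyper (θ : ι → ℝ) : 3 / 2 - 2 * ∏ i, cc (θ i) + (∏ i, cc (2 * θ i)) / 2 ≤
    8 * (1 - ∏ i, cc (θ i)) ^ 2 := by
  have hp0 : 0 ≤ ∏ i, cc (θ i) := Finset.prod_nonneg fun i _ => cc_nonneg _
  have hp1 : ∏ i, cc (θ i) ≤ 1 := Finset.prod_le_one (fun i _ => cc_nonneg _) fun i _ => cc_le _
  have hr1 : ∏ i, cc (2 * θ i) ≤ 1 := Finset.prod_le_one (fun i _ => cc_nonneg _) fun i _ => cc_le _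
  by_cases h : ∀ i, 1 / 2 ≤ cc (θ i)
  · have h1 : ∏ i, cc (2 * θ i) ≤ ∏ i, cc (θ i) ^ 4 := by
      refine Finset.prod_le_prod (fun i _ => cc_nonneg _) fun i _ => ?_
      rw [cc_two]
      have h2 := h i
      have h3 := cc_le (θ i)
      have h4 : 2 * cc (θ i) - 1 ≤ cc (θ i) ^ 2 := by nlinarith
      calc (2 * cc (θ i) - 1) ^ 2 ≤ (cc (θ i) ^ 2) ^ 2 := by
            apply pow_le_pow_left₀ (by linarith) h4
        _ = _ := by ring
    rw [Finset.prod_pow] at h1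
    set p := ∏ i, cc (θ i)
    have h5 : 3 / 2 - 2 * p + p ^ 4 / 2 ≤ 8 * (1 - p) ^ 2 := by
      nlinarith [mul_nonneg (sq_nonneg (1 - p)) (sub_nonneg.2 hp1), sq_nonneg ((1 - p) * p),
        sq_nonneg ((1 - p) ^ 2), mul_nonneg hp0 (sub_nonneg.2 hp1), sq_nonneg (1 - p),
        mul_nonneg (mul_nonneg hp0 (sub_nonneg.2 hp1)) (sq_nonneg (1 - p)),
        mul_nonneg (mul_nonneg hp0 hp0) (sq_nonneg (1 - p))]
    linarith
  · push Not at h
    obtain ⟨i, hi⟩ := h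
    have h1 : ∏ i, cc (θ i) < 1 / 2 := by
      rw [← Finset.mul_prod_erase _ _ (Finset.mem_univ i)]
      have h2 : ∏ j ∈ Finset.univ.erase i, cc (θ j) ≤ 1 :=
        Finset.prod_le_one (fun i _ => cc_nonneg _) fun i _ => cc_le _
      have h3 : 0 ≤ ∏ j ∈ Finset.univ.erase i, cc (θ j) :=
        Finset.prod_nonneg fun i _ => cc_nonneg _
      have h4 := cc_nonneg (θ i)
      nlinarith
    nlinarith

theorem sum_ww_sq_le (θ : ι → ℝ) : (4 : ℝ) ^ Fintype.card ι * ∑ a : ι → Fin 4, ww (lf θ a) ^ 2 ≤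
    8 * (∑ a : ι → Fin 4, ww (lf θ a)) ^ 2 := by
  rw [sum_ww_sq, sum_ww]
  have h1 := hyper θ
  have h2 : (0 : ℝ) < (4 ^ Fintype.card ι) ^ 2 := by positivity
  nlinarith

end one

section two
variable {ι κ : Type} [Fintype ι] [DecidableEq ι] [Fintype κ] [DecidableEq κ]

/-- the column forms -/
noncomputable def xx (θ : ι → κ → ℝ) (a : ι → Fin 4) (j : κ) : ℝ := lf (fun i => θ i j) a

/-- the bilinear form -/
noncomputable def bf (θ : ι → κ → ℝ) (a : ι → Fin 4) (b : κ → Fin 4) : ℝ :=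
  ∑ i, ∑ j, θ i j * (ls (a i) : ℝ) * (ls (b j) : ℝ)

theorem bf_eq (θ : ι → κ → ℝ) (a : ι → Fin 4) (b : κ → Fin 4) : bf θ a b = lf (xx θ a) b := by
  unfold bf xx lf
  rw [Finset.sum_comm]
  refine Finset.sum_congr rfl fun j _ => ?_
  rw [Finset.sum_mul]

/-- the total weight -/
noncomputable def WW (θ : ι → κ → ℝ) (a : ι → Fin 4) : ℝ := ∑ j, ww (xx θ a j)

theorem WW_nonneg (θ : ι → κ → ℝ) (a : ι → Fin 4) : 0 ≤ WW θ a :=
  Finset.sum_nonneg fun _ _ => ww_nonneg _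

theorem cc_eq (t : ℝ) : cc t = 1 - ww t := by
  unfold cc ww
  ring

theorem sum_bf (θ : ι → κ → ℝ) (a : ι → Fin 4) : ∑ b : κ → Fin 4, Real.cos (bf θ a b) =
    4 ^ Fintype.card κ * ∏ j, (1 - ww (xx θ a j)) := by
  simp_rw [bf_eq]
  rw [sum_cos]
  simp_rw [cc_eq]

theorem prod_upper (s : Finset κ) (w : κ → ℝ) (h0 : ∀ j, 0 ≤ w j) (h1 : ∀ j, w j ≤ 1) :
    (∏ j ∈ s, (1 - w j)) * (1 + ∑ j ∈ s, w j) ≤ 1 := by
  induction s using Finset.induction_on with
  | empty => simp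
  | insert j s hj ih =>
    rw [Finset.prod_insert hj, Finset.sum_insert hj]
    have h2 : 0 ≤ ∏ j ∈ s, (1 - w j) := Finset.prod_nonneg fun j _ => by linarith [h1 j]
    have h3 : 0 ≤ ∑ j ∈ s, w j := Finset.sum_nonneg fun j _ => h0 j
    have h4 := h0 j
    have h5 := h1 j
    have h6 : (1 - w j) * (∏ j ∈ s, (1 - w j)) * (1 + (w j + ∑ j ∈ s, w j)) =
        (∏ j ∈ s, (1 - w j)) * (1 + ∑ j ∈ s, w j) -
          (∏ j ∈ s, (1 - w j)) * (w j * ∑ j ∈ s, w j + w j ^ 2) := by ring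
    rw [h6]
    have h7 : 0 ≤ (∏ j ∈ s, (1 - w j)) * (w j * ∑ j ∈ s, w j + w j ^ 2) := by positivity
    linarith

theorem prod_lower (s : Finset κ) (w : κ → ℝ) (h0 : ∀ j, 0 ≤ w j) (h1 : ∀ j, w j ≤ 1) :
    1 - ∏ j ∈ s, (1 - w j) ≤ ∑ j ∈ s, w j := by
  induction s using Finset.induction_on with
  | empty => simp
  | insert j s hj ih =>
    rw [Finset.prod_insert hj, Finset.sum_insert hj]
    have h2 : 0 ≤ ∏ j ∈ s, (1 - w j) := Finset.prod_nonneg fun j _ => by linarith [h1 j]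
    have h3 : ∏ j ∈ s, (1 - w j) ≤ 1 :=
      Finset.prod_le_one (fun j _ => by linarith [h1 j]) fun j _ => by linarith [h0 j]
    have h4 := h0 j
    nlinarith

/-- normalised double average of the cosine -/
noncomputable def ph (θ : ι → κ → ℝ) : ℝ :=
  (∑ a : ι → Fin 4, ∑ b : κ → Fin 4, Real.cos (bf θ a b)) /
    (4 ^ Fintype.card ι * 4 ^ Fintype.card κ)

/-- normalised average -/
noncomputable def av (F : (ι → Fin 4) → ℝ) : ℝ := (∑ a, F a) / 4 ^ Fintype.card ι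

theorem ph_eq (θ : ι → κ → ℝ) : 1 - ph θ = av fun a => 1 - ∏ j, (1 - ww (xx θ a j)) := by
  unfold ph av
  simp_rw [sum_bf]
  rw [← Finset.mul_sum, Finset.sum_sub_distrib]
  have h1 : (∑ _a : ι → Fin 4, (1 : ℝ)) = 4 ^ Fintype.card ι := by simp
  rw [h1]
  field_simp

theorem av_mono {F G : (ι → Fin 4) → ℝ} (h : ∀ a, F a ≤ G a) : av F ≤ av G := by
  unfold av
  exact div_le_div_of_nonneg_right (Finset.sum_le_sum fun a _ => h a) (by positivity)

theorem av_WW (θ : ι → κ → ℝ) : av (WW θ) = ∑ j, (1 - ∏ i, cc (θ i j)) / 2 := by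
  unfold av WW
  rw [Finset.sum_comm]
  have h1 : ∀ j, ∑ a : ι → Fin 4, ww (xx θ a j) =
      4 ^ Fintype.card ι * ((1 - ∏ i, cc (θ i j)) / 2) := fun j => sum_ww _
  simp_rw [h1]
  rw [← Finset.mul_sum]
  field_simp

theorem upper (θ : ι → κ → ℝ) : 1 - ph θ ≤ min 1 (av (WW θ)) := by
  rw [ph_eq]
  refine le_min ?_ ?_
  · have h1 : (av fun _ : ι → Fin 4 => (1 : ℝ)) = 1 := by
      unfold av; simp
    refine (av_mono fun a => ?_).trans h1.le
    have : 0 ≤ ∏ j, (1 - ww (xx θ a j)) := Finset.prod_nonneg fun j _ => by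
      linarith [ww_le (xx θ a j)]
    linarith
  · exact av_mono fun a => prod_lower _ _ (fun _ => ww_nonneg _) fun _ => ww_le _

theorem second_moment (θ : ι → κ → ℝ) : av (fun a => WW θ a ^ 2) ≤ 8 * av (WW θ) ^ 2 := by
  -- pair correlations
  have h1 : ∀ j k : κ, (4 : ℝ) ^ Fintype.card ι * ∑ a : ι → Fin 4, ww (xx θ a j) * ww (xx θ a k) ≤
      8 * ((∑ a : ι → Fin 4, ww (xx θ a j)) * ∑ a : ι → Fin 4, ww (xx θ a k)) := by
    intro j k
    have h2 := Finset.sum_mul_sq_le_sq_mul_sq Finset.univ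
      (fun a : ι → Fin 4 => ww (xx θ a j)) (fun a => ww (xx θ a k))
    have h3 := sum_ww_sq_le (fun i => θ i j)
    have h4 := sum_ww_sq_le (fun i => θ i k)
    have h3' : (4 : ℝ) ^ Fintype.card ι * ∑ a : ι → Fin 4, ww (xx θ a j) ^ 2 ≤
      8 * (∑ a : ι → Fin 4, ww (xx θ a j)) ^ 2 := h3
    have h4' : (4 : ℝ) ^ Fintype.card ι * ∑ a : ι → Fin 4, ww (xx θ a k) ^ 2 ≤
      8 * (∑ a : ι → Fin 4, ww (xx θ a k)) ^ 2 := h4
    have p1 : 0 ≤ ∑ a : ι → Fin 4, ww (xx θ a j) := Finset.sum_nonneg fun _ _ => ww_nonneg _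
    have p2 : 0 ≤ ∑ a : ι → Fin 4, ww (xx θ a k) := Finset.sum_nonneg fun _ _ => ww_nonneg _
    have p3 : 0 ≤ ∑ a : ι → Fin 4, ww (xx θ a j) ^ 2 := Finset.sum_nonneg fun _ _ => sq_nonneg _
    have p4 : 0 ≤ ∑ a : ι → Fin 4, ww (xx θ a k) ^ 2 := Finset.sum_nonneg fun _ _ => sq_nonneg _
    have q0 : (0 : ℝ) < 4 ^ Fintype.card ι := by positivity
    refine le_of_sq_le_sq ?_ (by positivity)
    calc ((4 : ℝ) ^ Fintype.card ι * ∑ a : ι → Fin 4, ww (xx θ a j) * ww (xx θ a k)) ^ 2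
        = (4 ^ Fintype.card ι) ^ 2 * (∑ a : ι → Fin 4, ww (xx θ a j) * ww (xx θ a k)) ^ 2 := by
          ring
      _ ≤ (4 ^ Fintype.card ι) ^ 2 * ((∑ a : ι → Fin 4, ww (xx θ a j) ^ 2) *
            ∑ a : ι → Fin 4, ww (xx θ a k) ^ 2) := by gcongr
      _ = (4 ^ Fintype.card ι * ∑ a : ι → Fin 4, ww (xx θ a j) ^ 2) *
            (4 ^ Fintype.card ι * ∑ a : ι → Fin 4, ww (xx θ a k) ^ 2) := by ring
      _ ≤ (8 * (∑ a : ι → Fin 4, ww (xx θ a j)) ^ 2) *
            (8 * (∑ a : ι → Fin 4, ww (xx θ a k)) ^ 2) := by gcongr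
      _ = _ := by ring
  have h2 : (4 : ℝ) ^ Fintype.card ι * ∑ a : ι → Fin 4, WW θ a ^ 2 ≤
      8 * (∑ a : ι → Fin 4, WW θ a) ^ 2 := by
    have e1 : ∑ a : ι → Fin 4, WW θ a ^ 2 =
        ∑ j, ∑ k, ∑ a : ι → Fin 4, ww (xx θ a j) * ww (xx θ a k) := by
      unfold WW
      simp_rw [sq, Finset.sum_mul_sum]
      rw [Finset.sum_comm]
      refine Finset.sum_congr rfl fun j _ => ?_
      rw [Finset.sum_comm]
    have e2 : (∑ a : ι → Fin 4, WW θ a) ^ 2 =
        ∑ j, ∑ k, (∑ a : ι → Fin 4, ww (xx θ a j)) * ∑ a : ι → Fin 4, ww (xx θ a k) := by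
      have e3 : ∑ a : ι → Fin 4, WW θ a = ∑ j, ∑ a : ι → Fin 4, ww (xx θ a j) := by
        unfold WW
        rw [Finset.sum_comm]
      rw [e3, sq, Finset.sum_mul_sum]
    rw [e1, e2, Finset.mul_sum, Finset.mul_sum]
    refine Finset.sum_le_sum fun j _ => ?_
    rw [Finset.mul_sum, Finset.mul_sum]
    exact Finset.sum_le_sum fun k _ => h1 j k
  unfold av
  have q0 : (0 : ℝ) < 4 ^ Fintype.card ι := by positivity
  rw [div_pow, ← mul_div_assoc, div_le_div_iff₀ q0 (by positivity)]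
  calc (∑ a : ι → Fin 4, WW θ a ^ 2) * (4 ^ Fintype.card ι) ^ 2
      = (4 ^ Fintype.card ι) * ((4 : ℝ) ^ Fintype.card ι * ∑ a : ι → Fin 4, WW θ a ^ 2) := by ring
    _ ≤ (4 ^ Fintype.card ι) * (8 * (∑ a : ι → Fin 4, WW θ a) ^ 2) := by gcongr
    _ = _ := by ring

theorem av_nonneg {F : (ι → Fin 4) → ℝ} (h : ∀ a, 0 ≤ F a) : 0 ≤ av F :=
  div_nonneg (Finset.sum_nonneg fun a _ => h a) (by positivity)

theorem lower (θ : ι → κ → ℝ) : av (WW θ) ≤ (1 + 8 * av (WW θ)) * (1 - ph θ) := by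
  set u := av (WW θ) with hu
  have hu0 : 0 ≤ u := av_nonneg fun a => WW_nonneg θ a
  have h1 : av (fun a => WW θ a / (1 + WW θ a)) ≤ 1 - ph θ := by
    rw [ph_eq]
    refine av_mono fun a => ?_
    have h2 := prod_upper Finset.univ (fun j => ww (xx θ a j)) (fun _ => ww_nonneg _)
      fun _ => ww_le _
    have h3 := WW_nonneg θ a
    have h4 : (∏ j, (1 - ww (xx θ a j))) * (1 + WW θ a) ≤ 1 := h2
    rw [div_le_iff₀ (by linarith)]
    nlinarith
  have h2 : u ^ 2 ≤ av (fun a => WW θ a / (1 + WW θ a)) *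
      av (fun a => WW θ a * (1 + WW θ a)) := by
    have h3 := Finset.sum_sq_le_sum_mul_sum_of_sq_le_mul (Finset.univ : Finset (ι → Fin 4))
      (r := fun a => WW θ a) (f := fun a => WW θ a / (1 + WW θ a))
      (g := fun a => WW θ a * (1 + WW θ a))
      (fun a _ => div_nonneg (WW_nonneg θ a) (by linarith [WW_nonneg θ a]))
      (fun a _ => mul_nonneg (WW_nonneg θ a) (by linarith [WW_nonneg θ a]))
      (fun a _ => by
        have := WW_nonneg θ a
        apply le_of_eq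
        field_simp)
    rw [hu]
    unfold av
    rw [div_pow, div_mul_div_comm, ← sq]
    exact div_le_div_of_nonneg_right h3 (by positivity)
  have h3 : av (fun a => WW θ a * (1 + WW θ a)) = u + av (fun a => WW θ a ^ 2) := by
    rw [hu]
    unfold av
    rw [← add_div, ← Finset.sum_add_distrib]
    congr 1
    exact Finset.sum_congr rfl fun a _ => by ring
  have h4 := second_moment θ
  rw [← hu] at h4
  have h5 : av (fun a => WW θ a * (1 + WW θ a)) ≤ u * (1 + 8 * u) := by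
    rw [h3]; nlinarith
  have h6 : 0 ≤ av (fun a => WW θ a / (1 + WW θ a)) :=
    av_nonneg fun a => div_nonneg (WW_nonneg θ a) (by linarith [WW_nonneg θ a])
  rcases hu0.eq_or_lt with h7 | h7
  · rw [← h7]
    have : 0 ≤ 1 - ph θ := h6.trans h1
    linarith
  · have h8 : u ^ 2 ≤ (1 - ph θ) * (u * (1 + 8 * u)) :=
      h2.trans (mul_le_mul h1 h5 (av_nonneg fun a => mul_nonneg (WW_nonneg θ a)
        (by linarith [WW_nonneg θ a])) (h6.trans h1))
    have h9 : u * u ≤ u * ((1 + 8 * u) * (1 - ph θ)) := by nlinarith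
    exact le_of_mul_le_mul_left h9 h7

/-- the comparison inequality -/
theorem compare (θ : ι → κ → ℝ) (H : ι → κ → ℝ) (hH : ∀ i j, H i j = 1 ∨ H i j = -1) :
    0 ≤ ph (fun i j => H i j * θ i j) - 9 * ph θ + 8 := by
  have h1 := upper (fun i j => H i j * θ i j)
  have h2 := lower θ
  have h3 : av (WW fun i j => H i j * θ i j) = av (WW θ) := by
    rw [av_WW, av_WW]
    refine Finset.sum_congr rfl fun j _ => ?_
    congr 2
    refine Finset.prod_congr rfl fun i _ => ?_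
    unfold cc
    rcases hH i j with h | h
    · rw [h, one_mul]
    · rw [h, neg_one_mul, Real.cos_neg]
  rw [h3] at h1
  set u := av (WW θ)
  have hu0 : 0 ≤ u := av_nonneg fun a => WW_nonneg θ a
  have h4 : min 1 u ≤ 9 * (1 - ph θ) := by
    have h5 : (1 + 8 * u) * min 1 u ≤ 9 * u := by
      rcases le_total u 1 with h6 | h6
      · rw [min_eq_right h6]; nlinarith
      · rw [min_eq_left h6]; linarith
    have h6 : (1 + 8 * u) * min 1 u ≤ (1 + 8 * u) * (9 * (1 - ph θ)) := by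
      calc (1 + 8 * u) * min 1 u ≤ 9 * u := h5
        _ ≤ 9 * ((1 + 8 * u) * (1 - ph θ)) := by linarith
        _ = _ := by ring
    exact le_of_mul_le_mul_left h6 (by linarith)
  linarith

end two

end Pool.Agent.H453R3.SB
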