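import Pool.Agent.H453R3.SB1

/-!
# Positive definite kernels and the kernel inequality
-/

set_option autoImplicit false

open Finset MeasureTheory

namespace Pool.Agent.H453R3.SB

/-- positive semidefinite kernels -/
def PSD {B : Type} [Fintype B] (K : B → B → ℝ) : Prop :=
  (∀ x y, K x y = K y x) ∧ ∀ f : B → ℝ, 0 ≤ ∑ x, ∑ y, f x * K x y * f y

section psd
variable {B : Type} [Fintype B]

theorem psd_iff (K : B → B → ℝ) : PSD K ↔ (Matrix.of K).PosSemidef := by
  rw [Matrix.posSemidef_iff_dotProduct_mulVec]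
  have h1 : ∀ f : B → ℝ, (star f) ⬝ᵥ ((Matrix.of K).mulVec f) = ∑ x, ∑ y, f x * K x y * f y := by
    intro f
    simp only [dotProduct, Matrix.mulVec, Matrix.of_apply, Pi.star_apply, star_trivial]
    refine Finset.sum_congr rfl fun x _ => ?_
    rw [Finset.mul_sum]
    exact Finset.sum_congr rfl fun y _ => by ring
  simp_rw [h1]
  unfold PSD
  refine and_congr ?_ Iff.rfl
  constructor
  · intro h
    ext x y
    simp [Matrix.conjTranspose, h x y]
  · intro h x y
    have := congrFun (congrFun h x) y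
    simpa [Matrix.conjTranspose] using this.symm

theorem psd_mul {K K' : B → B → ℝ} (h : PSD K) (h' : PSD K') : PSD fun x y => K x y * K' x y := by
  rw [psd_iff] at h h' ⊢
  exact h.hadamard h'

theorem psd_rank_one (g : B → ℝ) : PSD fun x y => g x * g y := by
  refine ⟨fun x y => mul_comm _ _, fun f => ?_⟩
  have h1 : ∑ x, ∑ y, f x * (g x * g y) * f y = (∑ x, f x * g x) ^ 2 := by
    rw [sq, Finset.sum_mul_sum]
    exact Finset.sum_congr rfl fun x _ => Finset.sum_congr rfl fun y _ => by ring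
  rw [h1]
  exact sq_nonneg _

theorem psd_one : PSD fun _ _ : B => (1 : ℝ) := by
  have := psd_rank_one (fun _ : B => (1 : ℝ))
  simpa using this

theorem psd_prod {I : Type} (s : Finset I) (K : I → B → B → ℝ) (h : ∀ i, PSD (K i)) :
    PSD fun x y => ∏ i ∈ s, K i x y := by
  classical
  induction s using Finset.induction_on with
  | empty => simpa using psd_one
  | insert i s hi ih =>
    simp_rw [Finset.prod_insert hi]
    exact psd_mul (h i) ih

theorem integral_ind (a R : ℝ) (h0 : 0 ≤ a) (hR : a ≤ R) :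
    ∫ r in Set.Ioc 0 R, (if r ≤ a then (1 : ℝ) else 0) = a := by
  have h1 : (fun r : ℝ => if r ≤ a then (1 : ℝ) else 0) = Set.indicator (Set.Iic a) fun _ => 1 := by
    funext r
    simp [Set.indicator]
  rw [h1, setIntegral_indicator measurableSet_Iic]
  have h2 : Set.Ioc 0 R ∩ Set.Iic a = Set.Ioc 0 a := by
    ext r
    simp only [Set.mem_inter_iff, Set.mem_Ioc, Set.mem_Iic]
    constructor
    · rintro ⟨⟨h3, -⟩, h4⟩; exact ⟨h3, h4⟩
    · rintro ⟨h3, h4⟩; exact ⟨⟨h3, h4.trans hR⟩, h4⟩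
  rw [h2]
  simp [h0]

theorem psd_min (α : B → ℝ) (h0 : ∀ x, 0 ≤ α x) : PSD fun x y => min (α x) (α y) := by
  refine ⟨fun x y => min_comm _ _, fun f => ?_⟩
  set R := ∑ x, α x
  have hR : ∀ x, α x ≤ R := fun x => Finset.single_le_sum (fun i _ => h0 i) (Finset.mem_univ x)
  have hint : ∀ a : ℝ, IntegrableOn (fun r : ℝ => if r ≤ a then (1 : ℝ) else 0) (Set.Ioc 0 R) := by
    intro a
    have h1 : (fun r : ℝ => if r ≤ a then (1 : ℝ) else 0) =
        Set.indicator (Set.Iic a) fun _ => 1 := by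
      funext r
      simp [Set.indicator]
    rw [h1]
    exact (integrable_const (1 : ℝ)).indicator measurableSet_Iic
  have h1 : ∑ x, ∑ y, f x * min (α x) (α y) * f y =
      ∫ r in Set.Ioc 0 R, (∑ x, f x * (if r ≤ α x then (1 : ℝ) else 0)) ^ 2 := by
    have h2 : ∀ r : ℝ, (∑ x, f x * (if r ≤ α x then (1 : ℝ) else 0)) ^ 2 =
        ∑ x, ∑ y, f x * (if r ≤ min (α x) (α y) then (1 : ℝ) else 0) * f y := by
      intro r
      rw [sq, Finset.sum_mul_sum]
      refine Finset.sum_congr rfl fun x _ => Finset.sum_congr rfl fun y _ => ?_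
      by_cases hx : r ≤ α x
      · by_cases hy : r ≤ α y
        · simp [hx, hy]
        · simp [hx, hy]
      · simp [hx]
    simp_rw [h2]
    rw [integral_finset_sum _ fun x _ => integrable_finset_sum _ fun y _ =>
      ((hint _).const_mul _).mul_const _]
    refine Finset.sum_congr rfl fun x _ => ?_
    rw [integral_finset_sum _ fun y _ => ((hint _).const_mul _).mul_const _]
    refine Finset.sum_congr rfl fun y _ => ?_
    rw [integral_mul_const, integral_const_mul,
      integral_ind _ _ (le_min (h0 x) (h0 y)) ((min_le_left _ _).trans (hR x))]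
  rw [h1]
  exact integral_nonneg fun r => sq_nonneg _

theorem psd_exp (u : B → ℝ) : PSD fun x y => Real.exp (-|u x - u y|) := by
  have h1 : (fun x y => Real.exp (-|u x - u y|)) = fun x y =>
      (Real.exp (-u x) * Real.exp (-u y)) *
        min (Real.exp (2 * u x)) (Real.exp (2 * u y)) := by
    funext x y
    rcases le_total (u x) (u y) with h | h
    · rw [min_eq_left (Real.exp_le_exp.2 (by linarith)), ← Real.exp_add, ← Real.exp_add,
        abs_of_nonpos (by linarith)]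
      congr 1; ring
    · rw [min_eq_right (Real.exp_le_exp.2 (by linarith)), ← Real.exp_add, ← Real.exp_add,
        abs_of_nonneg (by linarith)]
      congr 1; ring
  rw [h1]
  exact psd_mul (psd_rank_one fun x => Real.exp (-u x))
    (psd_min (fun x => Real.exp (2 * u x)) fun x => (Real.exp_pos _).le)

/-- the exponential kernel of an `l¹` metric -/
theorem psd_l1 (I : Finset ℕ) (lam : ℝ) (hlam : 0 ≤ lam) (h : B → ℕ → ℝ) :
    PSD fun x y => Real.exp (-(lam * ∑ i ∈ I, |h x i - h y i|)) := by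
  have h1 : (fun x y => Real.exp (-(lam * ∑ i ∈ I, |h x i - h y i|))) = fun x y =>
      ∏ i ∈ I, Real.exp (-|lam * h x i - lam * h y i|) := by
    funext x y
    rw [← Real.exp_sum, Finset.mul_sum, ← Finset.sum_neg_distrib]
    congr 1
    refine Finset.sum_congr rfl fun i _ => ?_
    rw [← mul_sub, abs_mul, abs_of_nonneg hlam]
  rw [h1]
  exact psd_prod I (fun i x y => Real.exp (-|lam * h x i - lam * h y i|))
    fun i => psd_exp fun x => lam * h x i

theorem psd_cos {K : B → B → ℝ} (h : PSD K) (u : B → ℝ) :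
    0 ≤ ∑ x, ∑ y, K x y * Real.cos (u x - u y) := by
  have h1 := h.2 fun x => Real.cos (u x)
  have h2 := h.2 fun x => Real.sin (u x)
  have h3 : ∑ x, ∑ y, K x y * Real.cos (u x - u y) =
      (∑ x, ∑ y, Real.cos (u x) * K x y * Real.cos (u y)) +
        ∑ x, ∑ y, Real.sin (u x) * K x y * Real.sin (u y) := by
    rw [← Finset.sum_add_distrib]
    refine Finset.sum_congr rfl fun x _ => ?_
    rw [← Finset.sum_add_distrib]
    refine Finset.sum_congr rfl fun y _ => ?_
    rw [Real.cos_sub]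
    ring
  rw [h3]
  linarith

end psd

/-- the discrete angles -/
noncomputable def ang (N : ℕ) (k : Fin N) : ℝ := 2 * Real.pi * (k : ℕ) / N

/-- orthogonality of cosines -/
theorem sum_cos_ang {P : Type} [Fintype P] [DecidableEq P] (N : ℕ) (hN : 0 < N) (v : P → ℤ)
    (hv : ∀ p, |v p| < N) :
    ∑ t : P → Fin N, Real.cos (∑ p, ang N (t p) * (v p : ℝ)) =
      if ∀ p, v p = 0 then (N : ℝ) ^ Fintype.card P else 0 := by
  have h1 : ∑ t : P → Fin N, Complex.exp (Complex.I * ((∑ p, ang N (t p) * (v p : ℝ) : ℝ) : ℂ)) =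
      ∏ p, ∑ k : Fin N, Complex.exp (Complex.I * ((ang N k * (v p : ℝ) : ℝ) : ℂ)) := by
    rw [Finset.prod_univ_sum, Fintype.piFinset_univ]
    refine Finset.sum_congr rfl fun t _ => ?_
    rw [← Complex.exp_sum]
    congr 1
    push_cast
    rw [Finset.mul_sum]
  have hN' : (N : ℂ) ≠ 0 := by exact_mod_cast hN.ne'
  have h2 : ∀ p, ∑ k : Fin N, Complex.exp (Complex.I * ((ang N k * (v p : ℝ) : ℝ) : ℂ)) =
      if v p = 0 then (N : ℂ) else 0 := by
    intro p
    split_ifs with h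
    · rw [h]; simp
    · set ζ := Complex.exp (Complex.I * (2 * Real.pi * (v p : ℂ) / N)) with hζ
      have h3 : ∀ k : Fin N, Complex.exp (Complex.I * ((ang N k * (v p : ℝ) : ℝ) : ℂ)) =
          ζ ^ (k : ℕ) := by
        intro k
        rw [hζ, ← Complex.exp_nat_mul]
        congr 1
        unfold ang
        push_cast
        ring
      simp_rw [h3]
      rw [Fin.sum_univ_eq_sum_range (fun k => ζ ^ k) N]
      have h4 : ζ ≠ 1 := by
        rw [hζ, Ne, Complex.exp_eq_one_iff]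
        rintro ⟨n, hn⟩
        have hpi : (2 * Real.pi * Complex.I : ℂ) ≠ 0 := Complex.two_pi_I_ne_zero
        have h5 : (v p : ℂ) = n * N := by
          have h6 : Complex.I * (2 * Real.pi * (v p : ℂ) / N) =
              (2 * Real.pi * Complex.I) * ((v p : ℂ) / N) := by ring
          rw [h6, mul_comm (n : ℂ)] at hn
          have h7 := mul_left_cancel₀ hpi hn
          rw [div_eq_iff hN'] at h7
          exact h7
        have h6 : v p = n * N := by exact_mod_cast h5
        have h7 := hv p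
        rw [h6, abs_mul, Nat.abs_cast] at h7
        have h8 : |n| < 1 := by
          by_contra hc
          have h9 : 1 ≤ |n| := not_lt.1 hc
          have h10 : (0 : ℤ) < N := by exact_mod_cast hN
          nlinarith
        have h9 : n = 0 := Int.abs_lt_one_iff.1 h8
        rw [h9, zero_mul] at h6
        exact h h6
      have h5 : ζ ^ N = 1 := by
        rw [hζ, ← Complex.exp_nat_mul]
        have h6 : (N : ℂ) * (Complex.I * (2 * Real.pi * (v p : ℂ) / N)) =
            (v p : ℂ) * (2 * Real.pi * Complex.I) := by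
          field_simp
        rw [h6, Complex.exp_int_mul_two_pi_mul_I]
      have h6 := geom_sum_eq h4 N
      rw [h6, h5, sub_self, zero_div]
  simp_rw [h2] at h1
  have h3 := congrArg Complex.re h1
  rw [Complex.re_sum] at h3
  have h4 : ∀ t : P → Fin N, (Complex.exp (Complex.I *
      ((∑ p, ang N (t p) * (v p : ℝ) : ℝ) : ℂ))).re =
      Real.cos (∑ p, ang N (t p) * (v p : ℝ)) := by
    intro t
    rw [mul_comm, Complex.exp_ofReal_mul_I_re]
  simp_rw [h4] at h3
  rw [h3]
  split_ifs with h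
  · have h5 : ∏ p, (if v p = 0 then (N : ℂ) else 0) = ((N ^ Fintype.card P : ℝ) : ℂ) := by
      rw [Finset.prod_congr rfl fun p _ => if_pos (h p), Finset.prod_const, Finset.card_univ]
      push_cast
      rfl
    rw [h5, Complex.ofReal_re]
  · push Not at h
    obtain ⟨p, hp⟩ := h
    rw [Finset.prod_eq_zero (Finset.mem_univ p) (if_neg hp)]
    rfl

section main
variable {ι κ : Type} [Fintype ι] [DecidableEq ι] [Fintype κ] [DecidableEq κ]

/-- the box -/
abbrev Bx (ι κ : Type) (n : ℕ) : Type := ι × κ → Fin (n + 1)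

/-- the difference of two points of the box -/
def df {n : ℕ} (x y : Bx ι κ n) : ι × κ → ℤ := fun p => ((y p : ℕ) : ℤ) - ((x p : ℕ) : ℤ)

/-- the mass of the kernel along a difference -/
noncomputable def Tm {n : ℕ} (K : Bx ι κ n → Bx ι κ n → ℝ) (g : ι × κ → ℤ) : ℝ :=
  ∑ x, ∑ y, if ∀ p, df x y p = g p then K x y else 0

theorem abs_df {n : ℕ} (x y : Bx ι κ n) (p : ι × κ) : |df x y p| ≤ n := by
  unfold df
  have h1 := (x p).2
  have h2 := (y p).2
  rw [abs_le]
  constructor <;> omega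

theorem Tm_spec {n : ℕ} (K : Bx ι κ n → Bx ι κ n → ℝ) (hK : ∀ x y, K x y = K y x)
    (g : ι × κ → ℤ) (hg : ∀ p, |g p| ≤ 1) :
    ∑ t : ι × κ → Fin (n + 2), Real.cos (∑ p, ang (n + 2) (t p) * (g p : ℝ)) *
      (∑ x, ∑ y, K x y * Real.cos ((∑ p, ang (n + 2) (t p) * ((x p : ℕ) : ℝ)) -
        ∑ p, ang (n + 2) (t p) * ((y p : ℕ) : ℝ))) =
    ((n + 2 : ℕ) : ℝ) ^ Fintype.card (ι × κ) * Tm K g := by
  -- exchange sums
  have h1 : ∀ x y : Bx ι κ n, ∑ t : ι × κ → Fin (n + 2),
      Real.cos (∑ p, ang (n + 2) (t p) * (g p : ℝ)) *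
        Real.cos ((∑ p, ang (n + 2) (t p) * ((x p : ℕ) : ℝ)) -
          ∑ p, ang (n + 2) (t p) * ((y p : ℕ) : ℝ)) =
      ((n + 2 : ℕ) : ℝ) ^ Fintype.card (ι × κ) *
        (((if ∀ p, df x y p = g p then 1 else 0) + (if ∀ p, df y x p = g p then 1 else 0)) / 2) := by
    intro x y
    have h2 : ∀ t : ι × κ → Fin (n + 2),
        Real.cos (∑ p, ang (n + 2) (t p) * (g p : ℝ)) *
        Real.cos ((∑ p, ang (n + 2) (t p) * ((x p : ℕ) : ℝ)) -
          ∑ p, ang (n + 2) (t p) * ((y p : ℕ) : ℝ)) =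
        (Real.cos (∑ p, ang (n + 2) (t p) * ((g p - df x y p : ℤ) : ℝ)) +
          Real.cos (∑ p, ang (n + 2) (t p) * ((g p - df y x p : ℤ) : ℝ))) / 2 := by
      intro t
      have e1 : ∑ p, ang (n + 2) (t p) * ((g p - df x y p : ℤ) : ℝ) =
          (∑ p, ang (n + 2) (t p) * (g p : ℝ)) +
            ((∑ p, ang (n + 2) (t p) * ((x p : ℕ) : ℝ)) -
              ∑ p, ang (n + 2) (t p) * ((y p : ℕ) : ℝ)) := by
        rw [← Finset.sum_sub_distrib, ← Finset.sum_add_distrib]
        refine Finset.sum_congr rfl fun p _ => ?_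
        unfold df
        push_cast
        ring
      have e2 : ∑ p, ang (n + 2) (t p) * ((g p - df y x p : ℤ) : ℝ) =
          (∑ p, ang (n + 2) (t p) * (g p : ℝ)) -
            ((∑ p, ang (n + 2) (t p) * ((x p : ℕ) : ℝ)) -
              ∑ p, ang (n + 2) (t p) * ((y p : ℕ) : ℝ)) := by
        rw [← Finset.sum_sub_distrib, ← Finset.sum_sub_distrib]
        refine Finset.sum_congr rfl fun p _ => ?_
        unfold df
        push_cast
        ring
      rw [e1, e2]
      generalize (∑ p, ang (n + 2) (t p) * (g p : ℝ)) = A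
      generalize ((∑ p, ang (n + 2) (t p) * ((x p : ℕ) : ℝ)) -
              ∑ p, ang (n + 2) (t p) * ((y p : ℕ) : ℝ)) = X
      rw [Real.cos_add A X, Real.cos_sub A X]
      ring
    simp_rw [h2]
    rw [← Finset.sum_div, Finset.sum_add_distrib]
    have h3 : ∀ x y : Bx ι κ n, ∀ p, |g p - df x y p| < ((n + 2 : ℕ) : ℤ) := by
      intro x y p
      have h4 := hg p
      have h5 := abs_df x y p
      have h6 := abs_sub (g p) (df x y p)
      push_cast
      omega
    rw [sum_cos_ang (n + 2) (by omega) _ (h3 x y), sum_cos_ang (n + 2) (by omega) _ (h3 y x)]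
    have h4 : ∀ x y : Bx ι κ n, (∀ p, g p - df x y p = 0) ↔ ∀ p, df x y p = g p := by
      intro x y
      refine forall_congr' fun p => ?_
      rw [sub_eq_zero, eq_comm]
    simp only [h4]
    split_ifs <;> ring
  have h2 : ∑ t : ι × κ → Fin (n + 2), Real.cos (∑ p, ang (n + 2) (t p) * (g p : ℝ)) *
      (∑ x, ∑ y, K x y * Real.cos ((∑ p, ang (n + 2) (t p) * ((x p : ℕ) : ℝ)) -
        ∑ p, ang (n + 2) (t p) * ((y p : ℕ) : ℝ))) =
      ∑ x, ∑ y, K x y * ∑ t : ι × κ → Fin (n + 2),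
        Real.cos (∑ p, ang (n + 2) (t p) * (g p : ℝ)) *
        Real.cos ((∑ p, ang (n + 2) (t p) * ((x p : ℕ) : ℝ)) -
          ∑ p, ang (n + 2) (t p) * ((y p : ℕ) : ℝ)) := by
    simp_rw [Finset.mul_sum]
    rw [Finset.sum_comm]
    refine Finset.sum_congr rfl fun x _ => ?_
    rw [Finset.sum_comm]
    refine Finset.sum_congr rfl fun y _ => Finset.sum_congr rfl fun t _ => ?_
    ring
  rw [h2]
  simp_rw [h1]
  have h3 : ∑ x : Bx ι κ n, ∑ y : Bx ι κ n, K x y *
      (((n + 2 : ℕ) : ℝ) ^ Fintype.card (ι × κ) *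
        (((if ∀ p, df x y p = g p then 1 else 0) +
          (if ∀ p, df y x p = g p then 1 else 0)) / 2)) =
      ((n + 2 : ℕ) : ℝ) ^ Fintype.card (ι × κ) *
        (((∑ x : Bx ι κ n, ∑ y : Bx ι κ n, if ∀ p, df x y p = g p then K x y else 0) +
          ∑ x : Bx ι κ n, ∑ y : Bx ι κ n, if ∀ p, df y x p = g p then K x y else 0) / 2) := by
    rw [← Finset.sum_add_distrib, Finset.sum_div, Finset.mul_sum]
    refine Finset.sum_congr rfl fun x _ => ?_
    rw [← Finset.sum_add_distrib, Finset.sum_div, Finset.mul_sum]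
    refine Finset.sum_congr rfl fun y _ => ?_
    split_ifs <;> ring
  rw [h3]
  have h4 : (∑ x : Bx ι κ n, ∑ y : Bx ι κ n, if ∀ p, df y x p = g p then K x y else 0) =
      Tm K g := by
    unfold Tm
    rw [Finset.sum_comm]
    refine Finset.sum_congr rfl fun x _ => Finset.sum_congr rfl fun y _ => ?_
    rw [hK]
  rw [h4]
  unfold Tm
  ring

/-- rank one sign differences -/
def Rg (a : ι → Fin 4) (b : κ → Fin 4) : ι × κ → ℤ := fun p => ls (a p.1) * ls (b p.2)

/-- twisted sign differences -/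
def Hg (H : ι → κ → ℤ) (a : ι → Fin 4) (b : κ → Fin 4) : ι × κ → ℤ :=
  fun p => H p.1 p.2 * (ls (a p.1) * ls (b p.2))

theorem abs_ls (k : Fin 4) : |ls k| ≤ 1 := by
  fin_cases k <;> simp [ls]

theorem abs_Rg (a : ι → Fin 4) (b : κ → Fin 4) (p : ι × κ) : |Rg a b p| ≤ 1 := by
  unfold Rg
  rw [abs_mul]
  have h1 := abs_ls (a p.1)
  have h2 := abs_ls (b p.2)
  have h3 := abs_nonneg (ls (a p.1))
  have h4 := abs_nonneg (ls (b p.2))
  nlinarith

theorem abs_Hg (H : ι → κ → ℤ) (hH : ∀ i j, H i j = 1 ∨ H i j = -1) (a : ι → Fin 4)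
    (b : κ → Fin 4) (p : ι × κ) : |Hg H a b p| ≤ 1 := by
  have h1 : |Hg H a b p| = |Rg a b p| := by
    unfold Hg Rg
    rw [abs_mul (H p.1 p.2)]
    rcases hH p.1 p.2 with h | h <;> rw [h] <;> simp
  rw [h1]
  exact abs_Rg a b p

/-- the kernel inequality -/
theorem kernel_ineq {n : ℕ} (K : Bx ι κ n → Bx ι κ n → ℝ) (hK : PSD K)
    (H : ι → κ → ℤ) (hH : ∀ i j, H i j = 1 ∨ H i j = -1) :
    0 ≤ (∑ a : ι → Fin 4, ∑ b : κ → Fin 4, Tm K (Hg H a b)) -
      9 * (∑ a : ι → Fin 4, ∑ b : κ → Fin 4, Tm K (Rg a b)) +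
      8 * (4 ^ Fintype.card ι * 4 ^ Fintype.card κ) * Tm K (fun _ => 0) := by
  set M : ℝ := 4 ^ Fintype.card ι * 4 ^ Fintype.card κ with hM
  have hM0 : 0 < M := by positivity
  -- abbreviations
  let KK : (ι × κ → Fin (n + 2)) → ℝ := fun t =>
    ∑ x : Bx ι κ n, ∑ y : Bx ι κ n, K x y *
      Real.cos ((∑ p, ang (n + 2) (t p) * ((x p : ℕ) : ℝ)) -
        ∑ p, ang (n + 2) (t p) * ((y p : ℕ) : ℝ))
  have hKK : ∀ t, 0 ≤ KK t := fun t => psd_cos hK fun x => ∑ p, ang (n + 2) (t p) * ((x p : ℕ) : ℝ)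
  let θ : (ι × κ → Fin (n + 2)) → ι → κ → ℝ := fun t i j => ang (n + 2) (t (i, j))
  let cg : (ι × κ → Fin (n + 2)) → (ι × κ → ℤ) → ℝ := fun t g =>
    Real.cos (∑ p, ang (n + 2) (t p) * (g p : ℝ))
  have h1 : ∀ t, 0 ≤ (∑ a : ι → Fin 4, ∑ b : κ → Fin 4, cg t (Hg H a b)) -
      9 * (∑ a : ι → Fin 4, ∑ b : κ → Fin 4, cg t (Rg a b)) + 8 * M * cg t (fun _ => 0) := by
    intro t
    have h2 := compare (θ t) (fun i j => (H i j : ℝ)) (fun i j => by
      rcases hH i j with h | h
      · left; rw [h]; norm_num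
      · right; rw [h]; norm_num)
    have e1 : ∀ a b, cg t (Rg a b) = Real.cos (bf (θ t) a b) := by
      intro a b
      simp only [cg, θ]
      unfold bf Rg
      rw [Fintype.sum_prod_type]
      congr 1
      refine Finset.sum_congr rfl fun i _ => Finset.sum_congr rfl fun j _ => ?_
      push_cast
      ring
    have e2 : ∀ a b, cg t (Hg H a b) = Real.cos (bf (fun i j => (H i j : ℝ) * θ t i j) a b) := by
      intro a b
      simp only [cg, θ]
      unfold bf Hg
      rw [Fintype.sum_prod_type]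
      congr 1
      refine Finset.sum_congr rfl fun i _ => Finset.sum_congr rfl fun j _ => ?_
      push_cast
      ring
    have e3 : cg t (fun _ => 0) = 1 := by
      simp [cg]
    simp_rw [e1, e2]
    rw [e3, mul_one]
    unfold ph at h2
    rw [← hM] at h2
    have h3 := mul_nonneg hM0.le h2
    have h4 : M * ((∑ a : ι → Fin 4, ∑ b : κ → Fin 4,
        Real.cos (bf (fun i j => (H i j : ℝ) * θ t i j) a b)) / M -
        9 * ((∑ a : ι → Fin 4, ∑ b : κ → Fin 4, Real.cos (bf (θ t) a b)) / M) + 8) =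
        (∑ a : ι → Fin 4, ∑ b : κ → Fin 4,
          Real.cos (bf (fun i j => (H i j : ℝ) * θ t i j) a b)) -
        9 * (∑ a : ι → Fin 4, ∑ b : κ → Fin 4, Real.cos (bf (θ t) a b)) + 8 * M := by
      field_simp
    rw [h4] at h3
    exact h3
  have h2 : 0 ≤ ∑ t, ((∑ a : ι → Fin 4, ∑ b : κ → Fin 4, cg t (Hg H a b)) -
      9 * (∑ a : ι → Fin 4, ∑ b : κ → Fin 4, cg t (Rg a b)) + 8 * M * cg t (fun _ => 0)) * KK t :=
    Finset.sum_nonneg fun t _ => mul_nonneg (h1 t) (hKK t)
  have hT : ∀ g : ι × κ → ℤ, (∀ p, |g p| ≤ 1) → ∑ t, cg t g * KK t =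
      ((n + 2 : ℕ) : ℝ) ^ Fintype.card (ι × κ) * Tm K g := fun g hg => Tm_spec K hK.1 g hg
  have h3 : ∑ t, ((∑ a : ι → Fin 4, ∑ b : κ → Fin 4, cg t (Hg H a b)) -
      9 * (∑ a : ι → Fin 4, ∑ b : κ → Fin 4, cg t (Rg a b)) + 8 * M * cg t (fun _ => 0)) * KK t =
      ((n + 2 : ℕ) : ℝ) ^ Fintype.card (ι × κ) *
        ((∑ a : ι → Fin 4, ∑ b : κ → Fin 4, Tm K (Hg H a b)) -
          9 * (∑ a : ι → Fin 4, ∑ b : κ → Fin 4, Tm K (Rg a b)) +
          8 * M * Tm K (fun _ => 0)) := by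
    have e1 : ∑ t, (∑ a : ι → Fin 4, ∑ b : κ → Fin 4, cg t (Hg H a b)) * KK t =
        ((n + 2 : ℕ) : ℝ) ^ Fintype.card (ι × κ) *
          ∑ a : ι → Fin 4, ∑ b : κ → Fin 4, Tm K (Hg H a b) := by
      simp_rw [Finset.sum_mul, Finset.mul_sum]
      rw [Finset.sum_comm]
      refine Finset.sum_congr rfl fun a _ => ?_
      rw [Finset.sum_comm]
      refine Finset.sum_congr rfl fun b _ => ?_
      exact hT _ (abs_Hg H hH a b)
    have e2 : ∑ t, (∑ a : ι → Fin 4, ∑ b : κ → Fin 4, cg t (Rg a b)) * KK t =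
        ((n + 2 : ℕ) : ℝ) ^ Fintype.card (ι × κ) *
          ∑ a : ι → Fin 4, ∑ b : κ → Fin 4, Tm K (Rg a b) := by
      simp_rw [Finset.sum_mul, Finset.mul_sum]
      rw [Finset.sum_comm]
      refine Finset.sum_congr rfl fun a _ => ?_
      rw [Finset.sum_comm]
      refine Finset.sum_congr rfl fun b _ => ?_
      exact hT _ (abs_Rg a b)
    have e3 := hT (fun _ => 0) (by simp)
    have e4 : ∀ t, ((∑ a : ι → Fin 4, ∑ b : κ → Fin 4, cg t (Hg H a b)) -
        9 * (∑ a : ι → Fin 4, ∑ b : κ → Fin 4, cg t (Rg a b)) + 8 * M * cg t (fun _ => 0)) * KK t =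
        (∑ a : ι → Fin 4, ∑ b : κ → Fin 4, cg t (Hg H a b)) * KK t -
        9 * ((∑ a : ι → Fin 4, ∑ b : κ → Fin 4, cg t (Rg a b)) * KK t) +
        8 * M * (cg t (fun _ => 0) * KK t) := fun t => by ring
    simp_rw [e4]
    rw [Finset.sum_add_distrib, Finset.sum_sub_distrib, ← Finset.mul_sum, ← Finset.mul_sum, e1,
      e2, e3]
    ring
  rw [h3] at h2
  have h4 : (0 : ℝ) < ((n + 2 : ℕ) : ℝ) ^ Fintype.card (ι × κ) := by positivity
  exact nonneg_of_mul_nonneg_right h2 h4

end main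

end Pool.Agent.H453R3.SB
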