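import Pool.Agent.H453R3.SB2

/-!
# Quantitative obstruction for boxes of matrices
-/

set_option autoImplicit false

open Finset

namespace Pool.Agent.H453R3.SB

variable {ι κ : Type} [Fintype ι] [DecidableEq ι] [Fintype κ] [DecidableEq κ]

/-- the number of nonzero signs -/
noncomputable def lz (a : ι → Fin 4) : ℝ := ∑ i, (ls (a i) : ℝ) ^ 2

omit [DecidableEq ι] in
theorem lz_nonneg (a : ι → Fin 4) : 0 ≤ lz a := Finset.sum_nonneg fun _ _ => sq_nonneg _

theorem ls_sq_le (k : Fin 4) : (ls k : ℝ) ^ 2 ≤ 1 := by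
  fin_cases k <;> simp [ls]

omit [DecidableEq ι] in
theorem lz_le (a : ι → Fin 4) : lz a ≤ Fintype.card ι := by
  unfold lz
  calc ∑ i, (ls (a i) : ℝ) ^ 2 ≤ ∑ _i : ι, (1 : ℝ) := Finset.sum_le_sum fun i _ => ls_sq_le _
    _ = _ := by simp

theorem ls_add_two (k : Fin 4) : (ls k : ℝ) ^ 2 + (ls (k + 2) : ℝ) ^ 2 = 1 := by
  fin_cases k <;> simp [ls]

theorem sum_lz : ∑ a : ι → Fin 4, lz a = 4 ^ Fintype.card ι * ((Fintype.card ι : ℝ) / 2) := by
  unfold lz
  rw [Finset.sum_comm]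
  have h1 : ∀ i : ι, ∑ a : ι → Fin 4, (ls (a i) : ℝ) ^ 2 = 4 ^ Fintype.card ι / 2 := by
    intro i
    have h2 : ∑ a : ι → Fin 4, (ls (a i) : ℝ) ^ 2 = ∑ a : ι → Fin 4, (ls (a i + 2) : ℝ) ^ 2 := by
      refine (Fintype.sum_equiv (Equiv.addRight (fun _ : ι => (2 : Fin 4))) _ _ fun a => ?_).symm
      simp
    have h3 : ∑ a : ι → Fin 4, (ls (a i) : ℝ) ^ 2 + ∑ a : ι → Fin 4, (ls (a i) : ℝ) ^ 2 =
        4 ^ Fintype.card ι := by
      nth_rewrite 2 [h2]
      rw [← Finset.sum_add_distrib]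
      simp_rw [ls_add_two]
      simp
    linarith
  simp_rw [h1]
  simp
  ring

/-- pairs of points with a given difference -/
def Pr (n : ℕ) (g : ι × κ → ℤ) : Finset (Bx ι κ n × Bx ι κ n) :=
  Finset.univ.filter fun q => ∀ p, df q.1 q.2 p = g p

theorem Tm_eq {n : ℕ} (K : Bx ι κ n → Bx ι κ n → ℝ) (g : ι × κ → ℤ) :
    Tm K g = ∑ q ∈ Pr n g, K q.1 q.2 := by
  unfold Tm Pr
  rw [Finset.sum_filter, Fintype.sum_prod_type]

theorem card_Pr_le (n : ℕ) (g : ι × κ → ℤ) :
    (Pr n g).card ≤ (n + 1) ^ Fintype.card (ι × κ) := by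
  have h1 : (Pr n g).card ≤ (Finset.univ : Finset (Bx ι κ n)).card := by
    refine Finset.card_le_card_of_injOn (fun q => q.1) (fun q _ => Finset.mem_coe.2 (Finset.mem_univ _)) ?_
    intro q hq q' hq' he
    have h2 := (Finset.mem_filter.1 (Finset.mem_coe.1 hq)).2
    have h3 := (Finset.mem_filter.1 (Finset.mem_coe.1 hq')).2
    have he' : q.1 = q'.1 := he
    refine Prod.ext he' ?_
    funext p
    have h4 := h2 p
    have h5 := h3 p
    unfold df at h4 h5
    rw [he'] at h4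
    apply Fin.ext
    omega
  refine h1.trans ?_
  simp

theorem card_Pr_ge (n : ℕ) (g : ι × κ → ℤ) (hg : ∀ p, |g p| ≤ 1) :
    n ^ Fintype.card (ι × κ) ≤ (Pr n g).card := by
  let F : (ι × κ → Fin n) → Bx ι κ n × Bx ι κ n := fun z =>
    (fun p => ⟨(z p : ℕ) + if g p = -1 then 1 else 0, by
        have := (z p).2
        split_ifs <;> omega⟩,
      fun p => ⟨(z p : ℕ) + if g p = 1 then 1 else 0, by
        have := (z p).2
        split_ifs <;> omega⟩)
  have h1 : (Finset.univ : Finset (ι × κ → Fin n)).card ≤ (Pr n g).card := by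
    refine Finset.card_le_card_of_injOn F ?_ ?_
    · intro z _
      refine Finset.mem_coe.2 (Finset.mem_filter.2 ⟨Finset.mem_univ _, fun p => ?_⟩)
      have h2 := abs_le.1 (hg p)
      simp only [df, F]
      have h3 : g p = -1 ∨ g p = 0 ∨ g p = 1 := by omega
      rcases h3 with h | h | h <;> rw [h] <;> simp
    · intro z _ z' _ he
      funext p
      have h2 := congrFun (congrArg Prod.fst he) p
      simp only [F, Fin.mk.injEq] at h2
      apply Fin.ext
      omega
  simpa using h1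

/-- the quantitative obstruction -/
theorem block_bound [Nonempty ι] [Nonempty κ] (n : ℕ) (I : Finset ℕ) (h : Bx ι κ n → ℕ → ℝ)
    (H : ι → κ → ℤ) (hH : ∀ i j, H i j = 1 ∨ H i j = -1) (U L : ℝ) (hU : 0 ≤ U) (hL : 0 < L)
    (hUb : ∀ x y a b, (∀ p, df x y p = Rg a b p) → ∑ i ∈ I, |h x i - h y i| ≤ U)
    (hLb : ∀ x y a b, (∀ p, df x y p = Hg H a b p) →
      L * (lz a * lz b) ≤ ∑ i ∈ I, |h x i - h y i|) :
    1 / 8 ≤ 9 * (1 - ((n : ℝ) / (n + 1)) ^ Fintype.card (ι × κ)) +
      9 * (U / (L * (Fintype.card ι * Fintype.card κ))) := by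
  set mi : ℝ := (Fintype.card ι : ℝ) with hmi
  set mk : ℝ := (Fintype.card κ : ℝ) with hmk
  have hi0 : 0 < mi := by
    rw [hmi]; exact_mod_cast Fintype.card_pos
  have hk0 : 0 < mk := by
    rw [hmk]; exact_mod_cast Fintype.card_pos
  set lam : ℝ := 1 / (L * (mi * mk)) with hlam
  have hlam0 : 0 < lam := by positivity
  let D : Bx ι κ n → Bx ι κ n → ℝ := fun x y => ∑ i ∈ I, |h x i - h y i|
  have hD0 : ∀ x y, 0 ≤ D x y := fun x y => Finset.sum_nonneg fun _ _ => abs_nonneg _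
  let K : Bx ι κ n → Bx ι κ n → ℝ := fun x y => Real.exp (-(lam * D x y))
  have hK : PSD K := psd_l1 I lam hlam0.le h
  have hmain := kernel_ineq K hK H hH
  set P := Fintype.card (ι × κ) with hP
  set N : ℝ := ((n : ℝ) + 1) ^ P with hN
  have hN0 : 0 < N := by positivity
  have hcard : ∀ g : ι × κ → ℤ, ((Pr n g).card : ℝ) ≤ N := by
    intro g
    have := card_Pr_le n g
    rw [hN]
    exact_mod_cast this
  have hcard' : ∀ g : ι × κ → ℤ, (∀ p, |g p| ≤ 1) → (n : ℝ) ^ P ≤ ((Pr n g).card : ℝ) := by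
    intro g hg
    have := card_Pr_ge n g hg
    exact_mod_cast this
  -- upper bound for twisted differences
  have hup : ∀ a b, Tm K (Hg H a b) ≤ (1 - lz a * lz b / (mi * mk) / 2) * N := by
    intro a b
    rw [Tm_eq]
    set y := lz a * lz b / (mi * mk) with hy
    have hy0 : 0 ≤ y := div_nonneg (mul_nonneg (lz_nonneg a) (lz_nonneg b)) (by positivity)
    have hy1 : y ≤ 1 := by
      rw [hy, div_le_one (by positivity)]
      exact mul_le_mul (lz_le a) (lz_le b) (lz_nonneg b) hi0.le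
    have h1 : Real.exp (-y) ≤ 1 - y / 2 := by
      have h2 := Real.exp_bound_div_one_sub_of_interval' (x := y / 2)
      have h3 : 0 < 1 + y := by linarith
      have h4 : Real.exp (-y) ≤ 1 / (1 + y) := by
        rw [Real.exp_neg, inv_eq_one_div]
        exact one_div_le_one_div_of_le h3 (by linarith [Real.add_one_le_exp y])
      refine h4.trans ?_
      rw [div_le_iff₀ h3]
      nlinarith
    have h2 : ∀ q ∈ Pr n (Hg H a b), K q.1 q.2 ≤ 1 - y / 2 := by
      intro q hq
      refine le_trans ?_ h1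
      apply Real.exp_le_exp.2
      have h3 := hLb q.1 q.2 a b (Finset.mem_filter.1 hq).2
      have h4 : lam * (L * (lz a * lz b)) ≤ lam * D q.1 q.2 :=
        mul_le_mul_of_nonneg_left h3 hlam0.le
      have h5 : lam * (L * (lz a * lz b)) = y := by
        rw [hlam, hy]
        field_simp
      linarith
    calc ∑ q ∈ Pr n (Hg H a b), K q.1 q.2 ≤ ∑ _q ∈ Pr n (Hg H a b), (1 - y / 2) :=
          Finset.sum_le_sum h2
      _ = ((Pr n (Hg H a b)).card : ℝ) * (1 - y / 2) := by rw [Finset.sum_const, nsmul_eq_mul]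
      _ ≤ N * (1 - y / 2) := by
          apply mul_le_mul_of_nonneg_right (hcard _)
          linarith
      _ = _ := mul_comm _ _
  -- lower bound for rank one differences
  have hlow : ∀ a b, (n : ℝ) ^ P - lam * U * N ≤ Tm K (Rg a b) := by
    intro a b
    rw [Tm_eq]
    have h2 : ∀ q ∈ Pr n (Rg a b), 1 - lam * U ≤ K q.1 q.2 := by
      intro q hq
      have h3 := hUb q.1 q.2 a b (Finset.mem_filter.1 hq).2
      have h4 : lam * D q.1 q.2 ≤ lam * U := mul_le_mul_of_nonneg_left h3 hlam0.le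
      have h5 := Real.add_one_le_exp (-(lam * D q.1 q.2))
      have h6 : K q.1 q.2 = Real.exp (-(lam * D q.1 q.2)) := rfl
      rw [h6]
      linarith
    have h3 : ((Pr n (Rg a b)).card : ℝ) * (1 - lam * U) ≤ ∑ q ∈ Pr n (Rg a b), K q.1 q.2 := by
      rw [← nsmul_eq_mul, ← Finset.sum_const]
      exact Finset.sum_le_sum h2
    have h4 := hcard' (Rg a b) (abs_Rg a b)
    have h5 := hcard (Rg a b)
    have h6 : 0 ≤ lam * U := mul_nonneg hlam0.le hU
    nlinarith
  have hdiag : Tm K (fun _ => 0) ≤ N := by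
    rw [Tm_eq]
    calc ∑ q ∈ Pr n (fun _ => 0), K q.1 q.2 ≤ ∑ _q ∈ Pr n (fun _ : ι × κ => (0 : ℤ)), (1 : ℝ) := by
          refine Finset.sum_le_sum fun q _ => ?_
          have : 0 ≤ lam * D q.1 q.2 := mul_nonneg hlam0.le (hD0 _ _)
          exact Real.exp_le_one_iff.2 (by linarith)
      _ = ((Pr n (fun _ : ι × κ => (0 : ℤ))).card : ℝ) := by simp
      _ ≤ N := hcard _
  set M : ℝ := 4 ^ Fintype.card ι * 4 ^ Fintype.card κ with hM
  have hM0 : 0 < M := by positivity
  have hsum1 : ∑ a : ι → Fin 4, ∑ b : κ → Fin 4, Tm K (Hg H a b) ≤ (1 - 1 / 8) * (M * N) := by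
    calc ∑ a : ι → Fin 4, ∑ b : κ → Fin 4, Tm K (Hg H a b)
        ≤ ∑ a : ι → Fin 4, ∑ b : κ → Fin 4, (1 - lz a * lz b / (mi * mk) / 2) * N :=
          Finset.sum_le_sum fun a _ => Finset.sum_le_sum fun b _ => hup a b
      _ = M * N - (∑ a : ι → Fin 4, lz a) * (∑ b : κ → Fin 4, lz b) / (mi * mk) / 2 * N := by
          have e1 : ∀ a : ι → Fin 4, ∀ b : κ → Fin 4, (1 - lz a * lz b / (mi * mk) / 2) * N =
              N - (lz a * lz b) * (N / (mi * mk) / 2) := fun a b => by ring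
          simp_rw [e1]
          simp_rw [Finset.sum_sub_distrib, ← Finset.sum_mul]
          rw [Finset.sum_mul_sum]
          simp only [Finset.sum_const, Finset.card_univ, nsmul_eq_mul, Fintype.card_fun,
            Fintype.card_fin, Nat.cast_pow, Nat.cast_ofNat]
          rw [hM]
          ring
      _ = _ := by
          rw [sum_lz, sum_lz, ← hmi, ← hmk, hM]
          field_simp
          ring
  have hsum2 : M * ((n : ℝ) ^ P - lam * U * N) ≤
      ∑ a : ι → Fin 4, ∑ b : κ → Fin 4, Tm K (Rg a b) := by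
    calc M * ((n : ℝ) ^ P - lam * U * N)
        = ∑ a : ι → Fin 4, ∑ b : κ → Fin 4, ((n : ℝ) ^ P - lam * U * N) := by
          simp only [Finset.sum_const, Finset.card_univ, nsmul_eq_mul, Fintype.card_fun,
            Fintype.card_fin, Nat.cast_pow, Nat.cast_ofNat]
          rw [hM]
          ring
      _ ≤ _ := Finset.sum_le_sum fun a _ => Finset.sum_le_sum fun b _ => hlow a b
  have hfin : 0 ≤ (1 - 1 / 8) * (M * N) - 9 * (M * ((n : ℝ) ^ P - lam * U * N)) +
      8 * M * N := by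
    have h1 : 8 * M * Tm K (fun _ => 0) ≤ 8 * M * N :=
      mul_le_mul_of_nonneg_left hdiag (by positivity)
    linarith
  have e1 : ((n : ℝ) / (n + 1)) ^ P = (n : ℝ) ^ P / N := by rw [hN, div_pow]
  have e2 : U / (L * (mi * mk)) = lam * U := by rw [hlam]; ring
  rw [e1, e2]
  have e3 : (1 - 1 / 8) * (M * N) - 9 * (M * ((n : ℝ) ^ P - lam * U * N)) + 8 * M * N =
      (M * N) * (9 * (1 - (n : ℝ) ^ P / N) + 9 * (lam * U) - 1 / 8) := by
    field_simp
    ring
  rw [e3] at hfin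
  have h1 : 0 < M * N := by positivity
  have h2 := nonneg_of_mul_nonneg_right hfin h1
  linarith

end Pool.Agent.H453R3.SB
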