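import Pool.Agent.H453R3.SB3

/-!
# Trace norms of square matrices
-/

set_option autoImplicit false

open Finset Matrix
open scoped MatrixOrder ComplexOrder

namespace Pool.Agent.H453R3.SC

variable {V : Type} [Fintype V] [DecidableEq V]

/-- the modulus of a matrix -/
noncomputable def am (X : Matrix V V ℂ) : Matrix V V ℂ := CFC.sqrt (Xᴴ * X)

theorem am_psd (X : Matrix V V ℂ) : (am X).PosSemidef := (CFC.sqrt_nonneg _).posSemidef

theorem am_sq (X : Matrix V V ℂ) : am X * am X = Xᴴ * X :=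
  CFC.sqrt_mul_sqrt_self _ (posSemidef_conjTranspose_mul_self X).nonneg

theorem am_unique (X P : Matrix V V ℂ) (hP : P.PosSemidef) (h : P * P = Xᴴ * X) : am X = P :=
  CFC.sqrt_unique h hP.nonneg

/-- the trace norm -/
noncomputable def tn (X : Matrix V V ℂ) : ℝ := (am X).trace.re

theorem trace_am (X : Matrix V V ℂ) : (am X).trace = (tn X : ℂ) := by
  have h1 := (am_psd X).trace_nonneg
  have h2 := Complex.le_def.1 h1
  apply Complex.ext
  · simp [tn]
  · simpa using h2.2.symm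

theorem tn_nonneg (X : Matrix V V ℂ) : 0 ≤ tn X := (Complex.le_def.1 (am_psd X).trace_nonneg).1

theorem tn_zero : tn (0 : Matrix V V ℂ) = 0 := by
  have h1 : am (0 : Matrix V V ℂ) = 0 := am_unique _ _ PosSemidef.zero (by simp)
  unfold tn
  rw [h1]
  simp

theorem tn_pos {X : Matrix V V ℂ} (h : X ≠ 0) : 0 < tn X := by
  refine lt_of_le_of_ne (tn_nonneg X) fun h1 => h ?_
  have h2 : (am X).trace = 0 := by rw [trace_am, ← h1]; simp
  have h3 : am X = 0 := (am_psd X).trace_eq_zero_iff.1 h2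
  have h4 := am_sq X
  rw [h3, zero_mul] at h4
  exact Matrix.conjTranspose_mul_self_eq_zero.1 h4.symm

/-- the square of the Hilbert-Schmidt norm -/
noncomputable def hs (X : Matrix V V ℂ) : ℝ := ∑ i, ∑ j, ‖X i j‖ ^ 2

theorem trace_hs (X : Matrix V V ℂ) : (Xᴴ * X).trace = (hs X : ℂ) := by
  unfold hs Matrix.trace
  simp only [Matrix.diag_apply, Matrix.mul_apply, Matrix.conjTranspose_apply]
  rw [Finset.sum_comm]
  push_cast
  refine Finset.sum_congr rfl fun i _ => Finset.sum_congr rfl fun j _ => ?_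
  rw [Complex.star_def, Complex.conj_mul']

theorem hs_am (X : Matrix V V ℂ) : hs (am X) = hs X := by
  have h1 := trace_hs (am X)
  rw [(am_psd X).1.eq, am_sq, trace_hs] at h1
  exact_mod_cast h1.symm

theorem tn_sq_le (X : Matrix V V ℂ) : tn X ^ 2 ≤ Fintype.card V * hs X := by
  rw [← hs_am]
  have h1 : tn X = ∑ i, (am X i i).re := by
    unfold tn Matrix.trace
    rw [Complex.re_sum]
    rfl
  rw [h1]
  have h2 := sq_sum_le_card_mul_sum_sq (s := (Finset.univ : Finset V))
    (f := fun i => (am X i i).re)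
  refine h2.trans ?_
  rw [Finset.card_univ]
  refine mul_le_mul_of_nonneg_left ?_ (Nat.cast_nonneg _)
  unfold hs
  refine Finset.sum_le_sum fun i _ => ?_
  calc (am X i i).re ^ 2 ≤ ‖am X i i‖ ^ 2 := by
        rw [← sq_abs]
        exact pow_le_pow_left₀ (abs_nonneg _) (Complex.abs_re_le_norm _) 2
    _ ≤ _ := Finset.single_le_sum (f := fun j => ‖am X i j‖ ^ 2) (fun _ _ => sq_nonneg _)
        (Finset.mem_univ i)

theorem trace_mul_psd {P Q : Matrix V V ℂ} (hP : P.PosSemidef) (hQ : Q.PosSemidef) :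
    0 ≤ (P * Q).trace := by
  set C := CFC.sqrt P with hC
  have hCp : C.PosSemidef := (CFC.sqrt_nonneg _).posSemidef
  have h1 : C * C = P := CFC.sqrt_mul_sqrt_self _ hP.nonneg
  have h2 := (hQ.mul_mul_conjTranspose_same C).trace_nonneg
  rw [hCp.1.eq] at h2
  have h3 : (P * Q).trace = (C * Q * C).trace := by
    rw [← h1, Matrix.trace_mul_comm (C * Q) C, ← Matrix.mul_assoc]
  rw [h3]
  exact h2

theorem hs_le_tn (X : Matrix V V ℂ) (ρ : ℝ) (hρ : 0 < ρ)
    (h : ∀ v : V → ℂ, ∑ i, ‖(X *ᵥ v) i‖ ^ 2 ≤ ρ ^ 2 * ∑ i, ‖v i‖ ^ 2) :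
    hs X ≤ ρ * tn X := by
  set P := am X with hP
  have hPp : P.PosSemidef := am_psd X
  have hPH : Pᴴ = P := hPp.1.eq
  have hdot : ∀ w : V → ℂ, star w ⬝ᵥ w = ((∑ i, ‖w i‖ ^ 2 : ℝ) : ℂ) := by
    intro w
    simp only [dotProduct, Pi.star_apply]
    push_cast
    refine Finset.sum_congr rfl fun i _ => ?_
    rw [Complex.star_def, Complex.conj_mul']
  have hQ : (((ρ ^ 2 : ℝ) : ℂ) • (1 : Matrix V V ℂ) - P * P).PosSemidef := by
    apply PosSemidef.of_dotProduct_mulVec_nonneg
    · apply IsHermitian.sub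
      · unfold IsHermitian
        rw [Matrix.conjTranspose_smul, Matrix.conjTranspose_one]
        congr 1
        simp
      · unfold IsHermitian
        rw [Matrix.conjTranspose_mul, hPH]
    · intro v
      rw [Matrix.sub_mulVec, dotProduct_sub, Matrix.smul_mulVec, Matrix.one_mulVec,
        dotProduct_smul, hdot, hP, am_sq, ← Matrix.mulVec_mulVec, Matrix.dotProduct_mulVec,
        ← Matrix.star_mulVec, hdot, smul_eq_mul, ← Complex.ofReal_mul, ← Complex.ofReal_sub]
      have := h v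
      exact_mod_cast sub_nonneg.2 this
  have h1 := trace_mul_psd hPp hQ
  have hR : (((ρ : ℂ) • (1 : Matrix V V ℂ) - P) * P * ((ρ : ℂ) • (1 : Matrix V V ℂ) - P)).PosSemidef := by
    have hH : ((ρ : ℂ) • (1 : Matrix V V ℂ) - P)ᴴ = (ρ : ℂ) • (1 : Matrix V V ℂ) - P := by
      rw [Matrix.conjTranspose_sub, Matrix.conjTranspose_smul, Matrix.conjTranspose_one, hPH]
      congr 2
      simp
    have := hPp.mul_mul_conjTranspose_same ((ρ : ℂ) • (1 : Matrix V V ℂ) - P)
    rwa [hH] at this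
  have h2 := hR.trace_nonneg
  have e1 : ((ρ : ℂ) • (1 : Matrix V V ℂ) - P) * P * ((ρ : ℂ) • (1 : Matrix V V ℂ) - P) =
      ((ρ : ℂ) ^ 2) • P - (2 * (ρ : ℂ)) • (P * P) + P * (P * P) := by
    simp only [sub_mul, mul_sub, smul_mul_assoc, mul_smul_comm, one_mul, mul_one, smul_smul]
    rw [← mul_assoc P P P]
    rw [show (2 * (ρ : ℂ)) • (P * P) = (ρ : ℂ) • (P * P) + (ρ : ℂ) • (P * P) by
      rw [← add_smul]; ring_nf]
    rw [sq]
    simp only [smul_sub, smul_smul]
    abel
  have e2 : P * (((ρ ^ 2 : ℝ) : ℂ) • (1 : Matrix V V ℂ) - P * P) =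
      ((ρ : ℂ) ^ 2) • P - P * (P * P) := by
    rw [mul_sub, mul_smul_comm, mul_one]
    push_cast
    rfl
  rw [e2] at h1
  rw [e1] at h2
  rw [Matrix.trace_sub, Matrix.trace_smul] at h1
  rw [Matrix.trace_add, Matrix.trace_sub, Matrix.trace_smul, Matrix.trace_smul] at h2
  have h3 := (Complex.le_def.1 (add_nonneg h1 h2)).1
  have e3 : ((ρ : ℂ) ^ 2 • P.trace - (P * (P * P)).trace +
      ((ρ : ℂ) ^ 2 • P.trace - (2 * (ρ : ℂ)) • (P * P).trace + (P * (P * P)).trace)) =
      ((2 * ρ * (ρ * tn X - hs X) : ℝ) : ℂ) := by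
    have h4 : P.trace = (tn X : ℂ) := trace_am X
    have h5 : (P * P).trace = (hs X : ℂ) := by rw [hP, am_sq, trace_hs]
    rw [h4, h5]
    simp only [smul_eq_mul]
    push_cast
    ring
  rw [e3, Complex.ofReal_re, Complex.zero_re] at h3
  have h4 : 0 ≤ ρ * tn X - hs X := nonneg_of_mul_nonneg_right h3 (by positivity)
  linarith

/-- a rank one matrix -/
noncomputable def rk (s : ℝ) (a b : V → ℝ) : Matrix V V ℂ :=
  Matrix.of fun i j => ((s * a i * b j : ℝ) : ℂ)

/-- trace norm of a rank one matrix -/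
theorem tn_rank_one (s : ℝ) (hs0 : 0 ≤ s) (a b : V → ℝ) :
    tn (rk s a b) =
      s * (Real.sqrt (∑ i, a i ^ 2) * Real.sqrt (∑ i, b i ^ 2)) := by
  set α := ∑ i, a i ^ 2 with hα
  set β := ∑ i, b i ^ 2 with hβ
  have hα0 : 0 ≤ α := Finset.sum_nonneg fun _ _ => sq_nonneg _
  have hβ0 : 0 ≤ β := Finset.sum_nonneg fun _ _ => sq_nonneg _
  set κ := s * Real.sqrt α / Real.sqrt β with hκ
  have hκ0 : 0 ≤ κ := by positivity
  have hb : β = 0 → ∀ i, b i = 0 := by
    intro h i
    have := (Finset.sum_eq_zero_iff_of_nonneg fun i _ => sq_nonneg (b i)).1 (hβ ▸ h) i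
      (Finset.mem_univ i)
    exact pow_eq_zero_iff (two_ne_zero) |>.1 this
  let P : Matrix V V ℂ := fun i j => ((κ * (b i * b j) : ℝ) : ℂ)
  have hP : P.PosSemidef := by
    have h1 := posSemidef_vecMulVec_self_star (fun i => (b i : ℂ))
    have h2 : P = κ • (vecMulVec (fun i => (b i : ℂ)) (star fun i => (b i : ℂ))) := by
      ext i j
      simp [P, vecMulVec_apply]
    rw [h2]
    exact h1.smul hκ0
  have hPP : P * P = (rk s a b)ᴴ * rk s a b := by
    ext i j
    rw [Matrix.mul_apply, Matrix.mul_apply]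
    simp only [P, Matrix.conjTranspose_apply, Complex.star_def, Complex.conj_ofReal, rk,
      Matrix.of_apply]
    have e0' : ((∑ l, κ * (b i * b l) * (κ * (b l * b j))) =
      ∑ l, s * a l * b i * (s * a l * b j)) → (∑ x, ((κ * (b i * b x) : ℝ) : ℂ) *
        ((κ * (b x * b j) : ℝ) : ℂ) = ∑ x, ((s * a x * b i : ℝ) : ℂ) *
        ((s * a x * b j : ℝ) : ℂ)) := fun e0 => by
      have e3 := Complex.ofReal_inj.2 e0
      rw [Complex.ofReal_sum, Complex.ofReal_sum] at e3
      simp only [Complex.ofReal_mul] at e3 ⊢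
      exact e3
    apply e0'
    · have e1 : ∑ l, κ * (b i * b l) * (κ * (b l * b j)) = κ ^ 2 * β * (b i * b j) := by
        rw [hβ, Finset.mul_sum, Finset.sum_mul]
        exact Finset.sum_congr rfl fun l _ => by ring
      have e2 : ∑ l, s * a l * b i * (s * a l * b j) = s ^ 2 * α * (b i * b j) := by
        rw [hα, Finset.mul_sum, Finset.sum_mul]
        exact Finset.sum_congr rfl fun l _ => by ring
      rw [e1, e2]
      rcases hβ0.eq_or_lt with h | h
      · rw [hb h.symm i]; ring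
      · congr 1
        rw [hκ, div_pow, mul_pow, Real.sq_sqrt hα0, Real.sq_sqrt hβ0]
        field_simp
  unfold tn
  rw [am_unique _ P hP hPP]
  unfold Matrix.trace
  simp only [Matrix.diag_apply, P]
  rw [← Complex.ofReal_sum, Complex.ofReal_re, ← Finset.mul_sum]
  have e1 : ∑ i, b i * b i = β := by
    rw [hβ]
    exact Finset.sum_congr rfl fun i _ => by ring
  rw [e1, hκ]
  rcases hβ0.eq_or_lt with h | h
  · rw [← h]; simp
  · have h1 : 0 < Real.sqrt β := Real.sqrt_pos.2 h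
    rw [div_mul_eq_mul_div, div_eq_iff h1.ne']
    have h2 := Real.mul_self_sqrt hβ0
    calc s * Real.sqrt α * β = s * Real.sqrt α * (Real.sqrt β * Real.sqrt β) := by rw [h2]
      _ = _ := by ring

end Pool.Agent.H453R3.SC
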