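import Pool.Agent.H453R3.SC0

/-!
# Sign matrices of Sylvester type and the blocks
-/

set_option autoImplicit false

open Finset Matrix
open scoped MatrixOrder ComplexOrder

namespace Pool.Agent.H453R3.SC

open Pool.Agent.H453R3.SB

/-- cube of even dimension -/
abbrev Cu (r : ℕ) : Type := Fin (2 * r) → Bool

theorem card_Cu (r : ℕ) : Fintype.card (Cu r) = 4 ^ r := by
  simp [pow_mul]

/-- the sign of a pair of bits -/
def sg (u v : Bool) : ℤ := if u && v then -1 else 1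

/-- the Sylvester matrix -/
def HH (r : ℕ) (u v : Cu r) : ℤ := ∏ l, sg (u l) (v l)

theorem sg_cases (u v : Bool) : sg u v = 1 ∨ sg u v = -1 := by
  cases u <;> cases v <;> simp [sg]

theorem HH_cases (r : ℕ) (u v : Cu r) : HH r u v = 1 ∨ HH r u v = -1 := by
  unfold HH
  refine Finset.prod_induction _ (fun z : ℤ => z = 1 ∨ z = -1) ?_ (Or.inl rfl)
    fun l _ => sg_cases _ _
  rintro a b (rfl | rfl) (rfl | rfl) <;> simp

theorem HH_orth (r : ℕ) (v v' : Cu r) :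
    ∑ u : Cu r, HH r u v * HH r u v' = if v = v' then 4 ^ r else 0 := by
  have h1 : ∑ u : Cu r, HH r u v * HH r u v' = ∏ l, ∑ b : Bool, sg b (v l) * sg b (v' l) := by
    rw [Finset.prod_univ_sum, Fintype.piFinset_univ]
    refine Finset.sum_congr rfl fun u _ => ?_
    unfold HH
    rw [Finset.prod_mul_distrib]
  have h2 : ∀ b b' : Bool, ∑ x : Bool, sg x b * sg x b' = if b = b' then 2 else 0 := by
    decide
  rw [h1]
  simp_rw [h2]
  split_ifs with h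
  · subst h
    simp [pow_mul]
  · obtain ⟨l, hl⟩ := Function.ne_iff.1 h
    exact Finset.prod_eq_zero (Finset.mem_univ l) (if_neg hl)

theorem HH_norm (r : ℕ) (w : Cu r → ℂ) :
    ∑ i, ‖∑ j, (HH r i j : ℂ) * w j‖ ^ 2 = 4 ^ r * ∑ j, ‖w j‖ ^ 2 := by
  have h1 : ∀ z : ℂ, ((‖z‖ ^ 2 : ℝ) : ℂ) = (starRingEnd ℂ) z * z := by
    intro z
    rw [Complex.conj_mul']
    push_cast
    rfl
  have h2 : ((∑ i, ‖∑ j, (HH r i j : ℂ) * w j‖ ^ 2 : ℝ) : ℂ) =
      ((4 ^ r * ∑ j, ‖w j‖ ^ 2 : ℝ) : ℂ) := by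
    rw [Complex.ofReal_sum, Complex.ofReal_mul, Complex.ofReal_sum]
    simp_rw [h1]
    have h3 : ∀ i, (starRingEnd ℂ) (∑ j, (HH r i j : ℂ) * w j) * ∑ j, (HH r i j : ℂ) * w j =
        ∑ j, ∑ j', ((HH r i j * HH r i j' : ℤ) : ℂ) * ((starRingEnd ℂ) (w j) * w j') := by
      intro i
      rw [map_sum, Finset.sum_mul_sum]
      refine Finset.sum_congr rfl fun j _ => Finset.sum_congr rfl fun j' _ => ?_
      rw [map_mul]
      have h4 : (starRingEnd ℂ) (HH r i j : ℂ) = (HH r i j : ℂ) := by simp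
      rw [h4]
      push_cast
      ring
    simp_rw [h3]
    rw [Finset.sum_comm]
    have h5 : ∀ j : Cu r, ∑ i, ∑ j', ((HH r i j * HH r i j' : ℤ) : ℂ) *
        ((starRingEnd ℂ) (w j) * w j') = 4 ^ r * ((starRingEnd ℂ) (w j) * w j) := by
      intro j
      rw [Finset.sum_comm]
      simp_rw [← Finset.sum_mul, ← Int.cast_sum, HH_orth]
      rw [Finset.sum_eq_single j]
      · simp
      · intro b _ hb
        rw [if_neg (fun h => hb h.symm)]
        simp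
      · intro h
        exact absurd (Finset.mem_univ j) h
    rw [Finset.sum_congr rfl fun j _ => h5 j, ← Finset.mul_sum]
    push_cast
    rfl
  exact_mod_cast h2

/-- the block matrix of a difference -/
noncomputable def bm {V : Type} {n : ℕ} (s : ℝ) (x y : Bx V V n) : Matrix V V ℂ :=
  Matrix.of fun i j => ((s * (df x y (i, j) : ℝ) : ℝ) : ℂ)

section blocks
variable {V : Type} [Fintype V] [DecidableEq V] {n : ℕ}

omit [Fintype V] [DecidableEq V] in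
theorem bm_self (s : ℝ) (x : Bx V V n) : bm s x x = 0 := by
  ext i j
  simp [bm, df]

omit [Fintype V] [DecidableEq V] in
theorem bm_ne {s : ℝ} (hs : 0 < s) {x y : Bx V V n} (h : x ≠ y) : bm s x y ≠ 0 := by
  intro h1
  apply h
  funext p
  have h2 : bm s x y p.1 p.2 = 0 := by rw [h1]; rfl
  simp only [bm, Matrix.of_apply, Complex.ofReal_eq_zero, mul_eq_zero, hs.ne', false_or] at h2
  have h3 : df x y p = 0 := by exact_mod_cast h2
  unfold df at h3
  apply Fin.ext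
  omega

theorem hs_bm (s : ℝ) (x y : Bx V V n) :
    hs (bm s x y) = s ^ 2 * ∑ i, ∑ j, (df x y (i, j) : ℝ) ^ 2 := by
  unfold hs
  simp_rw [Finset.mul_sum]
  refine Finset.sum_congr rfl fun i _ => Finset.sum_congr rfl fun j _ => ?_
  simp only [bm, Matrix.of_apply, Complex.norm_real, Real.norm_eq_abs, sq_abs]
  ring

theorem hs_bm_le (s : ℝ) (x y : Bx V V n) :
    hs (bm s x y) ≤ (s * (n * Fintype.card V)) ^ 2 := by
  rw [hs_bm]
  have h1 : ∑ i : V, ∑ j : V, (df x y (i, j) : ℝ) ^ 2 ≤ ∑ _i : V, ∑ _j : V, (n : ℝ) ^ 2 := by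
    refine Finset.sum_le_sum fun i _ => Finset.sum_le_sum fun j _ => ?_
    rw [← sq_abs]
    refine pow_le_pow_left₀ (abs_nonneg _) ?_ 2
    have := abs_df x y (i, j)
    exact_mod_cast this
  have h2 : ∑ _i : V, ∑ _j : V, (n : ℝ) ^ 2 = (Fintype.card V) ^ 2 * (n : ℝ) ^ 2 := by
    simp
    ring
  calc s ^ 2 * ∑ i : V, ∑ j : V, (df x y (i, j) : ℝ) ^ 2
      ≤ s ^ 2 * ((Fintype.card V) ^ 2 * (n : ℝ) ^ 2) := by
        rw [← h2]
        exact mul_le_mul_of_nonneg_left h1 (sq_nonneg _)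
    _ = _ := by ring

theorem tn_bm_rk {s : ℝ} (hs0 : 0 ≤ s) {x y : Bx V V n} {a b : V → Fin 4}
    (h : ∀ p, df x y p = Rg a b p) : tn (bm s x y) ≤ s * Fintype.card V := by
  have h1 : bm s x y = rk s (fun i => (ls (a i) : ℝ)) (fun j => (ls (b j) : ℝ)) := by
    ext i j
    simp only [bm, rk, Matrix.of_apply, h, Rg]
    push_cast
    ring
  rw [h1, tn_rank_one s hs0]
  refine mul_le_mul_of_nonneg_left ?_ hs0
  have h2 : Real.sqrt (∑ i, (ls (a i) : ℝ) ^ 2) ≤ Real.sqrt (Fintype.card V) :=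
    Real.sqrt_le_sqrt (lz_le a)
  have h3 : Real.sqrt (∑ i, (ls (b i) : ℝ) ^ 2) ≤ Real.sqrt (Fintype.card V) :=
    Real.sqrt_le_sqrt (lz_le b)
  calc _ ≤ Real.sqrt (Fintype.card V) * Real.sqrt (Fintype.card V) :=
        mul_le_mul h2 h3 (Real.sqrt_nonneg _) (Real.sqrt_nonneg _)
    _ = _ := Real.mul_self_sqrt (Nat.cast_nonneg _)

theorem tn_bm_le {s : ℝ} (hs0 : 0 ≤ s) {x y : Bx V V n}
    (h : ∀ p, |df x y p| ≤ 1) : tn (bm s x y) ≤ s * (Fintype.card V) ^ 2 := by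
  have h1 := tn_sq_le (bm s x y)
  rw [hs_bm] at h1
  set m : ℝ := (Fintype.card V : ℝ) with hm
  have hm0 : 0 ≤ m := Nat.cast_nonneg _
  have h2 : ∑ i : V, ∑ j : V, (df x y (i, j) : ℝ) ^ 2 ≤ m ^ 2 := by
    calc ∑ i : V, ∑ j : V, (df x y (i, j) : ℝ) ^ 2 ≤ ∑ _i : V, ∑ _j : V, (1 : ℝ) := by
          refine Finset.sum_le_sum fun i _ => Finset.sum_le_sum fun j _ => ?_
          rw [← sq_abs]
          have h3 : |(df x y (i, j) : ℝ)| ≤ 1 := by exact_mod_cast h (i, j)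
          calc |(df x y (i, j) : ℝ)| ^ 2 ≤ 1 ^ 2 := pow_le_pow_left₀ (abs_nonneg _) h3 2
            _ = 1 := one_pow _
      _ = m ^ 2 := by simp; ring
  have h3 : tn (bm s x y) ^ 2 ≤ (s * m ^ 2) ^ 2 := by
    have h4 : m * m ^ 2 ≤ m ^ 2 * m ^ 2 := by
      rcases Nat.eq_zero_or_pos (Fintype.card V) with h5 | h5
      · rw [hm, h5]; simp
      · have h6 : 1 ≤ m := by rw [hm]; exact_mod_cast h5
        have h7 : m ≤ m ^ 2 := by nlinarith
        exact mul_le_mul_of_nonneg_right h7 (sq_nonneg _)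
    calc tn (bm s x y) ^ 2 ≤ m * (s ^ 2 * ∑ i : V, ∑ j : V, (df x y (i, j) : ℝ) ^ 2) := h1
      _ ≤ m * (s ^ 2 * m ^ 2) := by gcongr
      _ = s ^ 2 * (m * m ^ 2) := by ring
      _ ≤ s ^ 2 * (m ^ 2 * m ^ 2) := mul_le_mul_of_nonneg_left h4 (sq_nonneg _)
      _ = _ := by ring
  exact le_of_sq_le_sq h3 (by positivity)

end blocks

theorem tn_bm_ge (r n : ℕ) {s : ℝ} (hs0 : 0 < s) {x y : Bx (Cu r) (Cu r) n} {a b : Cu r → Fin 4}
    (h : ∀ p, df x y p = Hg (HH r) a b p) : s / 2 ^ r * (lz a * lz b) ≤ tn (bm s x y) := by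
  have h1 : ∀ v : Cu r → ℂ, ∑ i, ‖(bm s x y *ᵥ v) i‖ ^ 2 ≤ (s * 2 ^ r) ^ 2 * ∑ i, ‖v i‖ ^ 2 := by
    intro v
    have h2 : ∀ i, (bm s x y *ᵥ v) i = ((s * (ls (a i) : ℝ) : ℝ) : ℂ) *
        ∑ j, (HH r i j : ℂ) * (((ls (b j) : ℝ) : ℂ) * v j) := by
      intro i
      simp only [Matrix.mulVec, dotProduct, bm, Matrix.of_apply, h, Hg]
      rw [Finset.mul_sum]
      refine Finset.sum_congr rfl fun j _ => ?_
      push_cast
      ring
    have h3 : ∀ i, ‖(bm s x y *ᵥ v) i‖ ^ 2 ≤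
        s ^ 2 * ‖∑ j, (HH r i j : ℂ) * (((ls (b j) : ℝ) : ℂ) * v j)‖ ^ 2 := by
      intro i
      rw [h2, norm_mul, mul_pow, Complex.norm_real, Real.norm_eq_abs, sq_abs, mul_pow]
      have h4 := ls_sq_le (a i)
      have h5 : 0 ≤ ‖∑ j, (HH r i j : ℂ) * (((ls (b j) : ℝ) : ℂ) * v j)‖ ^ 2 := sq_nonneg _
      have h6 : s ^ 2 * (ls (a i) : ℝ) ^ 2 ≤ s ^ 2 * 1 :=
        mul_le_mul_of_nonneg_left h4 (sq_nonneg _)
      calc _ ≤ s ^ 2 * 1 * ‖∑ j, (HH r i j : ℂ) * (((ls (b j) : ℝ) : ℂ) * v j)‖ ^ 2 :=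
            mul_le_mul_of_nonneg_right h6 h5
        _ = _ := by ring
    calc ∑ i, ‖(bm s x y *ᵥ v) i‖ ^ 2
        ≤ ∑ i, s ^ 2 * ‖∑ j, (HH r i j : ℂ) * (((ls (b j) : ℝ) : ℂ) * v j)‖ ^ 2 :=
          Finset.sum_le_sum fun i _ => h3 i
      _ = s ^ 2 * (4 ^ r * ∑ j, ‖((ls (b j) : ℝ) : ℂ) * v j‖ ^ 2) := by
          rw [← Finset.mul_sum, HH_norm r fun j => ((ls (b j) : ℝ) : ℂ) * v j]
      _ ≤ s ^ 2 * (4 ^ r * ∑ j, ‖v j‖ ^ 2) := by
          refine mul_le_mul_of_nonneg_left (mul_le_mul_of_nonneg_left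
            (Finset.sum_le_sum fun j _ => ?_) (by positivity)) (sq_nonneg _)
          rw [norm_mul, mul_pow, Complex.norm_real, Real.norm_eq_abs, sq_abs]
          have h4 := ls_sq_le (b j)
          have h5 : 0 ≤ ‖v j‖ ^ 2 := sq_nonneg _
          nlinarith
      _ = _ := by
          rw [mul_pow, ← pow_mul, mul_comm r 2, pow_mul]
          norm_num
          ring
  have h2 := hs_le_tn (bm s x y) (s * 2 ^ r) (by positivity) h1
  have h3 : hs (bm s x y) = s ^ 2 * (lz a * lz b) := by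
    rw [hs_bm]
    congr 1
    unfold lz
    rw [Finset.sum_mul_sum]
    refine Finset.sum_congr rfl fun i _ => Finset.sum_congr rfl fun j _ => ?_
    rw [h]
    unfold Hg
    rcases HH_cases r i j with h4 | h4 <;> rw [h4] <;> push_cast <;> ring
  rw [h3] at h2
  have h4 : (0 : ℝ) < 2 ^ r := by positivity
  have h5 : s * (s / 2 ^ r * (lz a * lz b)) * 2 ^ r ≤ s * tn (bm s x y) * 2 ^ r := by
    have e1 : s * (s / 2 ^ r * (lz a * lz b)) * 2 ^ r = s ^ 2 * (lz a * lz b) := by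
      field_simp
    rw [e1]
    linarith
  exact le_of_mul_le_mul_left (le_of_mul_le_mul_right h5 h4) hs0

end Pool.Agent.H453R3.SC
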