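import Pool.Agent.H453R3.SC1

/-!
# Types of blocks, codes of points, and the finite contradiction
-/

set_option autoImplicit false

open Finset Matrix Filter Topology

namespace Pool.Agent.H453R3.SC

open Pool.Agent.H453R3.SB

/-- exponent of a type -/
def tR (t : ℕ) : ℕ := t.unpair.1

/-- size of the box of a type -/
def tN (t : ℕ) : ℕ := t.unpair.2.unpair.1

/-- scale exponent of a type -/
def tQ (t : ℕ) : ℕ := t.unpair.2.unpair.2

/-- index set of a type -/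
abbrev tV (t : ℕ) : Type := Cu (tR t)

/-- points of a type -/
abbrev tP (t : ℕ) : Type := Bx (tV t) (tV t) (tN t)

/-- scale of a type -/
noncomputable def tS (t : ℕ) : ℝ := 1 / (((tN t : ℝ) + 1) * 4 ^ tR t * 2 ^ tQ t)

theorem tS_pos (t : ℕ) : 0 < tS t := by unfold tS; positivity

/-- largest code -/
def tg (t : ℕ) : ℕ := Fintype.card (tP t) - 1

theorem lt_card {t v : ℕ} (h : v ≤ tg t) : v < Fintype.card (tP t) := by
  unfold tg at h
  have : 0 < Fintype.card (tP t) := Fintype.card_pos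
  omega

/-- decoding -/
noncomputable def pt (t v : ℕ) : tP t :=
  if h : v < Fintype.card (tP t) then (Fintype.equivFin (tP t)).symm ⟨v, h⟩ else fun _ => 0

theorem pt_inj {t v v' : ℕ} (h : v ≤ tg t) (h' : v' ≤ tg t) (he : pt t v = pt t v') : v = v' := by
  unfold pt at he
  rw [dif_pos (lt_card h), dif_pos (lt_card h')] at he
  have := (Fintype.equivFin (tP t)).symm.injective he
  exact congrArg Fin.val this

/-- coding -/
noncomputable def cod (t : ℕ) (x : tP t) : ℕ := (Fintype.equivFin (tP t) x : ℕ)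

theorem cod_le (t : ℕ) (x : tP t) : cod t x ≤ tg t := by
  unfold cod tg
  have := (Fintype.equivFin (tP t) x).2
  omega

theorem pt_cod (t : ℕ) (x : tP t) : pt t (cod t x) = x := by
  unfold pt cod
  rw [dif_pos (Fintype.equivFin (tP t) x).2]
  simp

/-- block distance -/
noncomputable def dd (t v v' : ℕ) : ℝ := tn (bm (tS t) (pt t v) (pt t v'))

theorem dd_nonneg (t v v' : ℕ) : 0 ≤ dd t v v' := tn_nonneg _

theorem dd_self (t v : ℕ) : dd t v v = 0 := by
  unfold dd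
  rw [bm_self, tn_zero]

theorem dd_pos (t v v' : ℕ) (h : v ≤ tg t) (h' : v' ≤ tg t) (hne : v ≠ v') : 0 < dd t v v' :=
  tn_pos (bm_ne (tS_pos t) fun he => hne (pt_inj h h' he))

theorem exists_type (c C δ : ℝ) (hc : 0 < c) (hC : 0 < C) (hδ : 0 < δ) :
    ∃ t, 9 * (C / (c * 2 ^ tR t)) < 1 / 16 ∧
      9 * (1 - ((tN t : ℝ) / (tN t + 1)) ^ (4 ^ tR t * 4 ^ tR t)) < 1 / 16 ∧
      tS t * (4 ^ tR t) ^ 2 ≤ 1 ∧ tS t * 4 ^ tR t ≤ δ := by
  obtain ⟨r, hr⟩ : ∃ r : ℕ, 9 * (C / (c * 2 ^ r)) < 1 / 16 := by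
    obtain ⟨r, hr⟩ := pow_unbounded_of_one_lt (144 * C / c) (by norm_num : (1 : ℝ) < 2)
    refine ⟨r, ?_⟩
    rw [div_lt_iff₀ hc] at hr
    have h1 : (0 : ℝ) < c * 2 ^ r := by positivity
    rw [← mul_div_assoc, div_lt_iff₀ h1]
    nlinarith
  obtain ⟨n, hn⟩ : ∃ n : ℕ, 9 * (1 - ((n : ℝ) / (n + 1)) ^ (4 ^ r * 4 ^ r)) < 1 / 16 := by
    have h1 : Tendsto (fun n : ℕ => 9 * (1 - ((n : ℝ) / (n + 1)) ^ (4 ^ r * 4 ^ r))) atTop
        (𝓝 (9 * (1 - (1 : ℝ) ^ (4 ^ r * 4 ^ r)))) :=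
      ((tendsto_natCast_div_add_atTop (1 : ℝ)).pow _).const_sub 1 |>.const_mul 9
    rw [one_pow, sub_self, mul_zero] at h1
    exact (h1.eventually (gt_mem_nhds (by norm_num : (0 : ℝ) < 1 / 16))).exists
  obtain ⟨q, hq⟩ : ∃ q : ℕ, 4 ^ r < (2 : ℝ) ^ q * min 1 δ := by
    obtain ⟨q, hq⟩ := pow_unbounded_of_one_lt (4 ^ r / min 1 δ) (by norm_num : (1 : ℝ) < 2)
    refine ⟨q, ?_⟩
    rwa [div_lt_iff₀ (lt_min one_pos hδ)] at hq
  refine ⟨Nat.pair r (Nat.pair n q), ?_⟩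
  have e1 : tR (Nat.pair r (Nat.pair n q)) = r := by simp [tR]
  have e2 : tN (Nat.pair r (Nat.pair n q)) = n := by simp [tN]
  have e3 : tQ (Nat.pair r (Nat.pair n q)) = q := by simp [tQ]
  unfold tS
  rw [e1, e2, e3]
  refine ⟨hr, hn, ?_, ?_⟩
  · have h1 : (1 : ℝ) ≤ (n : ℝ) + 1 := by
      have : (0 : ℝ) ≤ n := Nat.cast_nonneg n
      linarith
    have h2 : (0 : ℝ) < 2 ^ q := by positivity
    have h3 : (0 : ℝ) < 4 ^ r := by positivity
    have h4 : (2 : ℝ) ^ q * min 1 δ ≤ 2 ^ q := by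
      have := min_le_left 1 δ
      nlinarith
    rw [div_mul_eq_mul_div, div_le_one (by positivity), one_mul]
    calc ((4 : ℝ) ^ r) ^ 2 = 1 * 4 ^ r * 4 ^ r := by ring
      _ ≤ ((n : ℝ) + 1) * 4 ^ r * 2 ^ q := by
          apply mul_le_mul _ (by linarith) h3.le (by positivity)
          exact mul_le_mul_of_nonneg_right h1 h3.le
  · have h1 : (1 : ℝ) ≤ (n : ℝ) + 1 := by
      have : (0 : ℝ) ≤ n := Nat.cast_nonneg n
      linarith
    have h2 : (0 : ℝ) < 2 ^ q := by positivity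
    have h3 : (1 : ℝ) ≤ 4 ^ r := one_le_pow₀ (by norm_num)
    have h4 : (2 : ℝ) ^ q * min 1 δ ≤ 2 ^ q * δ :=
      mul_le_mul_of_nonneg_left (min_le_right _ _) h2.le
    rw [div_mul_eq_mul_div, div_le_iff₀ (by positivity), one_mul]
    have h5 : 4 ^ r ≤ 2 ^ q * δ := by linarith
    have h6 : 1 * (2 ^ q * δ) ≤ (((n : ℝ) + 1) * 4 ^ r) * (2 ^ q * δ) := by
      apply mul_le_mul_of_nonneg_right _ (by positivity)
      nlinarith
    calc (4 : ℝ) ^ r ≤ 1 * (2 ^ q * δ) := by linarith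
      _ ≤ _ := h6
      _ = _ := by ring

/-- the uniform maps do not exist -/
theorem contra (c C δ : ℝ) (hc : 0 < c) (hC : 0 < C) (hδ : 0 < δ)
    (hall : ∀ t, ∃ (I : Finset ℕ) (h : ℕ → ℕ → ℝ), ∀ v v', v ≤ tg t → v' ≤ tg t →
      (dd t v v' ≤ 1 → c * dd t v v' ≤ ∑ i ∈ I, |h v i - h v' i|) ∧
      (dd t v v' ≤ δ → ∑ i ∈ I, |h v i - h v' i| ≤ C * dd t v v')) : False := by
  obtain ⟨t, h1, h2, h3, h4⟩ := exists_type c C δ hc hC hδ
  obtain ⟨I, h, hI⟩ := hall t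
  have hs := tS_pos t
  have hcard : (Fintype.card (tV t) : ℝ) = 4 ^ tR t := by
    have : Fintype.card (tV t) = 4 ^ tR t := card_Cu (tR t)
    rw [this]
    push_cast
    rfl
  have hcardP : Fintype.card (tV t × tV t) = 4 ^ tR t * 4 ^ tR t := by
    rw [Fintype.card_prod]
    have : Fintype.card (tV t) = 4 ^ tR t := card_Cu (tR t)
    rw [this]
  have hdd : ∀ x y : tP t, dd t (cod t x) (cod t y) = tn (bm (tS t) x y) := by
    intro x y
    unfold dd
    rw [pt_cod, pt_cod]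
  have hb := block_bound (ι := tV t) (κ := tV t) (tN t) I (fun x => h (cod t x))
    (HH (tR t)) (HH_cases (tR t)) (C * (tS t * 4 ^ tR t)) (c * (tS t / 2 ^ tR t))
    (by positivity) (by positivity)
    (fun x y a b hxy => by
      have h5 := tn_bm_rk hs.le hxy
      rw [hcard] at h5
      have h6 := (hI (cod t x) (cod t y) (cod_le _ _) (cod_le _ _)).2
      rw [hdd] at h6
      exact (h6 (h5.trans h4)).trans (mul_le_mul_of_nonneg_left h5 hC.le))
    (fun x y a b hxy => by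
      have h5 := tn_bm_ge (tR t) (tN t) hs hxy
      have h6 := (hI (cod t x) (cod t y) (cod_le _ _) (cod_le _ _)).1
      rw [hdd] at h6
      have h7 : tn (bm (tS t) x y) ≤ tS t * (Fintype.card (tV t)) ^ 2 :=
        tn_bm_le hs.le fun p => by rw [hxy p]; exact abs_Hg _ (HH_cases _) a b p
      rw [hcard] at h7
      have h8 := h6 (h7.trans h3)
      calc c * (tS t / 2 ^ tR t) * (lz a * lz b) = c * (tS t / 2 ^ tR t * (lz a * lz b)) := by
            ring
        _ ≤ c * tn (bm (tS t) x y) := mul_le_mul_of_nonneg_left h5 hc.le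
        _ ≤ _ := h8)
  rw [hcardP, hcard] at hb
  have e1 : C * (tS t * 4 ^ tR t) / (c * (tS t / 2 ^ tR t) * (4 ^ tR t * 4 ^ tR t)) =
      C / (c * 2 ^ tR t) := by
    have e2 : (4 : ℝ) ^ tR t = 2 ^ tR t * 2 ^ tR t := by
      rw [← mul_pow]; norm_num
    rw [e2]
    field_simp
  rw [e1] at hb
  linarith

end Pool.Agent.H453R3.SC
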