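import Pool.Agent.H453R3.SC2

/-!
# Block diagonal operators
-/

set_option autoImplicit false

open Matrix Filter Topology
open scoped ComplexOrder InnerProductSpace MatrixOrder

namespace Pool.Agent.H453R3.SC

theorem block_cs {V : Type} [Fintype V] (A : Matrix V V ℂ) (hA : hs A ≤ 1) (v : V → ℂ) :
    ∑ i, ‖(A *ᵥ v) i‖ ^ 2 ≤ ∑ i, ‖v i‖ ^ 2 := by
  have h1 : ∀ i, ‖(A *ᵥ v) i‖ ^ 2 ≤ (∑ j, ‖A i j‖ ^ 2) * ∑ j, ‖v j‖ ^ 2 := by
    intro i
    have h2 : ‖(A *ᵥ v) i‖ ≤ ∑ j, ‖A i j‖ * ‖v j‖ := by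
      simp only [Matrix.mulVec, dotProduct]
      refine (norm_sum_le _ _).trans (Finset.sum_le_sum fun j _ => ?_)
      rw [norm_mul]
    calc ‖(A *ᵥ v) i‖ ^ 2 ≤ (∑ j, ‖A i j‖ * ‖v j‖) ^ 2 :=
          pow_le_pow_left₀ (norm_nonneg _) h2 2
      _ ≤ _ := Finset.sum_mul_sq_le_sq_mul_sq _ _ _
  calc ∑ i, ‖(A *ᵥ v) i‖ ^ 2 ≤ ∑ i, (∑ j, ‖A i j‖ ^ 2) * ∑ j, ‖v j‖ ^ 2 :=
        Finset.sum_le_sum fun i _ => h1 i
    _ = hs A * ∑ j, ‖v j‖ ^ 2 := by rw [← Finset.sum_mul]; rfl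
    _ ≤ 1 * ∑ j, ‖v j‖ ^ 2 :=
        mul_le_mul_of_nonneg_right hA (Finset.sum_nonneg fun _ _ => sq_nonneg _)
    _ = _ := one_mul _

section op
variable {V : ℕ → Type} [∀ k, Fintype (V k)] [∀ k, DecidableEq (V k)]

omit [∀ k, Fintype (V k)] [∀ k, DecidableEq (V k)] in
theorem l2_summable (f : lp (fun _ : Σ k, V k => ℂ) 2) : Summable fun j => ‖f j‖ ^ 2 := by
  have := (lp.memℓp f).summable (by norm_num : 0 < (2 : ENNReal).toReal)
  simpa using this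

omit [∀ k, Fintype (V k)] [∀ k, DecidableEq (V k)] in
theorem l2_mem {f : (Σ k, V k) → ℂ} (h : Summable fun j => ‖f j‖ ^ 2) :
    Memℓp (E := fun _ : Σ k, V k => ℂ) f 2 := by
  apply memℓp_gen
  simpa using h

omit [∀ k, Fintype (V k)] [∀ k, DecidableEq (V k)] in
theorem l2_norm_sq (f : lp (fun _ : Σ k, V k => ℂ) 2) : ‖f‖ ^ 2 = ∑' j, ‖f j‖ ^ 2 := by
  have := lp.norm_rpow_eq_tsum (by norm_num : 0 < (2 : ENNReal).toReal) f
  simpa using this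

/-- block diagonal action -/
noncomputable def act (A : ∀ k, Matrix (V k) (V k) ℂ) (ξ : (Σ k, V k) → ℂ) : (Σ k, V k) → ℂ :=
  fun j => (A j.1 *ᵥ fun i => ξ ⟨j.1, i⟩) j.2

omit [∀ k, DecidableEq (V k)] in
theorem act_summable (A : ∀ k, Matrix (V k) (V k) ℂ) (hA : ∀ k, hs (A k) ≤ 1)
    (ξ : (Σ k, V k) → ℂ) (hξ : Summable fun j => ‖ξ j‖ ^ 2) :
    Summable (fun j => ‖act A ξ j‖ ^ 2) ∧ ∑' j, ‖act A ξ j‖ ^ 2 ≤ ∑' j, ‖ξ j‖ ^ 2 := by
  have h1 := (summable_sigma_of_nonneg (f := fun j : Σ k, V k => ‖ξ j‖ ^ 2)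
    fun j => sq_nonneg _).1 hξ
  have h2 : ∀ k, ∑' i, ‖act A ξ ⟨k, i⟩‖ ^ 2 ≤ ∑' i, ‖ξ ⟨k, i⟩‖ ^ 2 := by
    intro k
    rw [tsum_fintype, tsum_fintype]
    exact block_cs (A k) (hA k) fun i => ξ ⟨k, i⟩
  have h3 : Summable (fun k => ∑' i, ‖act A ξ ⟨k, i⟩‖ ^ 2) :=
    Summable.of_nonneg_of_le (fun k => tsum_nonneg fun i => sq_nonneg _) h2 h1.2
  have h4 : Summable (fun j => ‖act A ξ j‖ ^ 2) := by
    rw [summable_sigma_of_nonneg fun j => sq_nonneg _]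
    exact ⟨fun k => (hasSum_fintype _).summable, h3⟩
  refine ⟨h4, ?_⟩
  rw [h4.tsum_sigma, hξ.tsum_sigma]
  exact h3.tsum_le_tsum h2 h1.2

/-- the block diagonal operator on sequences -/
noncomputable def T0 (A : ∀ k, Matrix (V k) (V k) ℂ) (hA : ∀ k, hs (A k) ≤ 1) :
    lp (fun _ : Σ k, V k => ℂ) 2 →L[ℂ] lp (fun _ : Σ k, V k => ℂ) 2 :=
  LinearMap.mkContinuous
    { toFun := fun ξ => ⟨act A ξ, l2_mem (act_summable A hA ξ (l2_summable ξ)).1⟩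
      map_add' := by
        intro ξ η
        apply lp.ext
        funext j
        change (A j.1 *ᵥ fun i => ξ ⟨j.1, i⟩ + η ⟨j.1, i⟩) j.2 =
          (A j.1 *ᵥ fun i => ξ ⟨j.1, i⟩) j.2 + (A j.1 *ᵥ fun i => η ⟨j.1, i⟩) j.2
        rw [← Pi.add_apply, ← Matrix.mulVec_add]
        rfl
      map_smul' := by
        intro c ξ
        apply lp.ext
        funext j
        change (A j.1 *ᵥ fun i => c • ξ ⟨j.1, i⟩) j.2 =
          c • (A j.1 *ᵥ fun i => ξ ⟨j.1, i⟩) j.2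
        rw [← Pi.smul_apply, ← Matrix.mulVec_smul]
        rfl } 1 (by
    intro ξ
    rw [one_mul]
    have h1 := (act_summable A hA ξ (l2_summable ξ)).2
    have h2 : ‖(⟨act A ξ, l2_mem (act_summable A hA ξ (l2_summable ξ)).1⟩ :
        lp (fun _ : Σ k, V k => ℂ) 2)‖ ^ 2 ≤ ‖ξ‖ ^ 2 := by
      rw [l2_norm_sq, l2_norm_sq]
      exact h1
    exact le_of_sq_le_sq h2 (norm_nonneg _))

omit [∀ k, DecidableEq (V k)] in
theorem T0_apply (A : ∀ k, Matrix (V k) (V k) ℂ) (hA : ∀ k, hs (A k) ≤ 1)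
    (ξ : lp (fun _ : Σ k, V k => ℂ) 2) (j : Σ k, V k) : T0 A hA ξ j = act A ξ j := rfl

variable {H : Type} [NormedAddCommGroup H] [InnerProductSpace ℂ H] [CompleteSpace H]

/-- the block diagonal operator -/
noncomputable def Op (B : HilbertBasis (Σ k, V k) ℂ H) (A : ∀ k, Matrix (V k) (V k) ℂ)
    (hA : ∀ k, hs (A k) ≤ 1) : H →L[ℂ] H :=
  (B.repr.symm.toContinuousLinearEquiv : lp (fun _ : Σ k, V k => ℂ) 2 →L[ℂ] H).comp
    ((T0 A hA).comp (B.repr.toContinuousLinearEquiv : H →L[ℂ] lp (fun _ : Σ k, V k => ℂ) 2))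

/-- block coordinates -/
noncomputable def co (B : HilbertBasis (Σ k, V k) ℂ H) (x : H) (k : ℕ) : V k → ℂ :=
  fun i => B.repr x ⟨k, i⟩

omit [∀ k, DecidableEq (V k)] [CompleteSpace H] in
theorem co_Op (B : HilbertBasis (Σ k, V k) ℂ H) (A : ∀ k, Matrix (V k) (V k) ℂ)
    (hA : ∀ k, hs (A k) ≤ 1) (x : H) (k : ℕ) : co B (Op B A hA x) k = A k *ᵥ co B x k := by
  funext i
  have h1 : B.repr (Op B A hA x) = T0 A hA (B.repr x) := by
    change B.repr (B.repr.symm (T0 A hA (B.repr x))) = _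
    rw [LinearIsometryEquiv.apply_symm_apply]
  unfold co
  rw [h1, T0_apply]
  rfl

omit [∀ k, Fintype (V k)] [∀ k, DecidableEq (V k)] [CompleteSpace H] in
theorem co_ext (B : HilbertBasis (Σ k, V k) ℂ H) {x y : H} (h : ∀ k, co B x k = co B y k) :
    x = y := by
  apply B.repr.injective
  apply lp.ext
  funext j
  exact congrFun (h j.1) j.2

omit [∀ k, DecidableEq (V k)] [CompleteSpace H] in
theorem hasSum_co (B : HilbertBasis (Σ k, V k) ℂ H) (x y : H) :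
    HasSum (fun k => star (co B x k) ⬝ᵥ co B y k) ⟪x, y⟫_ℂ := by
  have h1 := lp.hasSum_inner (𝕜 := ℂ) (B.repr x) (B.repr y)
  rw [B.repr.inner_map_map] at h1
  refine h1.sigma fun k => ?_
  have h2 := hasSum_fintype (fun i : V k => ⟪B.repr x ⟨k, i⟩, B.repr y ⟨k, i⟩⟫_ℂ)
  have h3 : star (co B x k) ⬝ᵥ co B y k = ∑ i : V k, ⟪B.repr x ⟨k, i⟩, B.repr y ⟨k, i⟩⟫_ℂ := by
    simp only [dotProduct, Pi.star_apply, co]
    refine Finset.sum_congr rfl fun i _ => ?_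
    rw [RCLike.inner_apply, mul_comm]
    rfl
  rw [h3]
  exact h2

theorem hs_conj {V : Type} [Fintype V] (A : Matrix V V ℂ) : hs Aᴴ = hs A := by
  unfold hs
  rw [Finset.sum_comm]
  refine Finset.sum_congr rfl fun i _ => Finset.sum_congr rfl fun j _ => ?_
  rw [Matrix.conjTranspose_apply, norm_star]

omit [∀ k, DecidableEq (V k)] in
theorem star_Op (B : HilbertBasis (Σ k, V k) ℂ H) (A : ∀ k, Matrix (V k) (V k) ℂ)
    (hA : ∀ k, hs (A k) ≤ 1) (hA' : ∀ k, hs (A k)ᴴ ≤ 1) :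
    star (Op B A hA) = Op B (fun k => (A k)ᴴ) hA' := by
  rw [ContinuousLinearMap.star_eq_adjoint]
  symm
  rw [ContinuousLinearMap.eq_adjoint_iff]
  intro x y
  have h1 := hasSum_co B (Op B (fun k => (A k)ᴴ) hA' x) y
  have h2 := hasSum_co B x (Op B A hA y)
  simp_rw [co_Op] at h1 h2
  have h3 : ∀ k, star ((A k)ᴴ *ᵥ co B x k) ⬝ᵥ co B y k = star (co B x k) ⬝ᵥ (A k *ᵥ co B y k) := by
    intro k
    rw [Matrix.star_mulVec, Matrix.conjTranspose_conjTranspose, ← Matrix.dotProduct_mulVec]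
  simp_rw [h3] at h1
  exact h1.unique h2

omit [∀ k, DecidableEq (V k)] in
theorem Op_nonneg (B : HilbertBasis (Σ k, V k) ℂ H) (A : ∀ k, Matrix (V k) (V k) ℂ)
    (hA : ∀ k, hs (A k) ≤ 1) (hp : ∀ k, (A k).PosSemidef) : 0 ≤ Op B A hA := by
  rw [ContinuousLinearMap.nonneg_iff_isPositive, ContinuousLinearMap.isPositive_iff_complex]
  intro x
  have h1 := hasSum_co B (Op B A hA x) x
  simp_rw [co_Op] at h1
  have h2 : ∀ k, 0 ≤ star (A k *ᵥ co B x k) ⬝ᵥ co B x k := by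
    intro k
    rw [Matrix.star_mulVec, (hp k).1.eq, ← Matrix.dotProduct_mulVec]
    exact (hp k).dotProduct_mulVec_nonneg _
  have h3 : 0 ≤ ⟪Op B A hA x, x⟫_ℂ := by
    rw [Complex.le_def]
    have hre := Complex.hasSum_re h1
    have him := Complex.hasSum_im h1
    refine ⟨?_, ?_⟩
    · rw [Complex.zero_re, ← hre.tsum_eq]
      exact tsum_nonneg fun k => (Complex.le_def.1 (h2 k)).1
    · rw [Complex.zero_im, ← him.tsum_eq]
      have h4 : ∀ k, (star (A k *ᵥ co B x k) ⬝ᵥ co B x k).im = 0 :=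
        fun k => (Complex.le_def.1 (h2 k)).2.symm
      simp_rw [h4]
      simp
  have h4 := Complex.le_def.1 h3
  refine ⟨?_, h4.1⟩
  apply Complex.ext
  · simp
  · simpa using h4.2

theorem abs_Op (B : HilbertBasis (Σ k, V k) ℂ H) (A : ∀ k, Matrix (V k) (V k) ℂ)
    (hA : ∀ k, hs (A k) ≤ 1) (hA' : ∀ k, hs (am (A k)) ≤ 1) :
    CFC.abs (Op B A hA) = Op B (fun k => am (A k)) hA' := by
  unfold CFC.abs
  apply CFC.sqrt_unique
  · rw [star_Op B A hA fun k => by rw [hs_conj]; exact hA k]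
    ext x
    apply co_ext B
    intro k
    change co B (Op B _ hA' (Op B _ hA' x)) k = co B (Op B _ _ (Op B A hA x)) k
    rw [co_Op, co_Op, co_Op, co_Op, Matrix.mulVec_mulVec, Matrix.mulVec_mulVec, am_sq]
  · exact Op_nonneg B _ _ fun k => am_psd (A k)

omit [CompleteSpace H] in
theorem inner_Op_basis (B : HilbertBasis (Σ k, V k) ℂ H) (A : ∀ k, Matrix (V k) (V k) ℂ)
    (hA : ∀ k, hs (A k) ≤ 1) (k : ℕ) (i : V k) :
    ⟪B ⟨k, i⟩, Op B A hA (B ⟨k, i⟩)⟫_ℂ = A k i i := by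
  rw [← B.repr_apply_apply]
  have h1 := congrFun (co_Op B A hA (B ⟨k, i⟩) k) i
  have h2 : co B (B ⟨k, i⟩) k = Pi.single i 1 := by
    funext j
    unfold co
    rw [B.repr_apply_apply]
    have h3 := (orthonormal_iff_ite.1 B.orthonormal) ⟨k, j⟩ ⟨k, i⟩
    rw [h3]
    by_cases h : j = i
    · subst h; simp
    · rw [Pi.single_eq_of_ne h, if_neg]
      intro h4
      apply h
      simpa using h4
  rw [h2, Matrix.mulVec_single_one] at h1
  exact h1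

theorem trace_crit (B : HilbertBasis (Σ k, V k) ℂ H) (A : ∀ k, Matrix (V k) (V k) ℂ)
    (hA : ∀ k, hs (A k) ≤ 1) :
    (Summable fun j => (⟪B j, CFC.abs (Op B A hA) (B j)⟫_ℂ).re) ↔ Summable fun k => tn (A k) := by
  rw [abs_Op B A hA fun k => by rw [hs_am]; exact hA k]
  have h1 : ∀ j : Σ k, V k, 0 ≤ (⟪B j, Op B (fun k => am (A k))
      (fun k => by rw [hs_am]; exact hA k) (B j)⟫_ℂ).re := by
    rintro ⟨k, i⟩
    rw [inner_Op_basis]
    exact (Complex.le_def.1 (am_psd (A k)).diag_nonneg).1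
  rw [summable_sigma_of_nonneg h1]
  have h2 : ∀ k, ∑' i : V k, (⟪B ⟨k, i⟩, Op B (fun k => am (A k))
      (fun k => by rw [hs_am]; exact hA k) (B ⟨k, i⟩)⟫_ℂ).re = tn (A k) := by
    intro k
    rw [tsum_fintype]
    simp_rw [inner_Op_basis]
    unfold tn Matrix.trace
    rw [Complex.re_sum]
    rfl
  simp_rw [h2]
  exact ⟨fun h => h.2, fun h => ⟨fun k => (hasSum_fintype _).summable, h⟩⟩

omit [∀ k, DecidableEq (V k)] [CompleteSpace H] in
theorem Op_sub (B : HilbertBasis (Σ k, V k) ℂ H) (A A' A'' : ∀ k, Matrix (V k) (V k) ℂ)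
    (hA : ∀ k, hs (A k) ≤ 1) (hA' : ∀ k, hs (A' k) ≤ 1) (hA'' : ∀ k, hs (A'' k) ≤ 1)
    (h : ∀ k, A k - A' k = A'' k) : Op B A hA - Op B A' hA' = Op B A'' hA'' := by
  ext x
  apply co_ext B
  intro k
  have h1 : co B ((Op B A hA - Op B A' hA') x) k =
      co B (Op B A hA x) k - co B (Op B A' hA' x) k := by
    funext i
    unfold co
    rw [_root_.sub_apply, map_sub]
    rfl
  rw [h1, co_Op, co_Op, co_Op, ← h, Matrix.sub_mulVec]

end op

end Pool.Agent.H453R3.SC
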