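import Pool.Agent.H453R3.TrShift

/-!
# Recovering the relation from the dynamics
-/

set_option autoImplicit false

open Filter Topology Set

namespace Pool.Agent.H453R3.TC

/-- heteroclinic connection by a nonfixed point -/
def Het {X : Type} [TopologicalSpace X] (τ : X ≃ₜ X) (p p' : X) : Prop :=
  ∃ x, τ x ≠ x ∧ Tendsto (fun k : ℕ => τ^[k] x) atTop (𝓝 p') ∧
    Tendsto (fun k : ℕ => τ.symm^[k] x) atTop (𝓝 p)

theorem het_map {X Y : Type} [TopologicalSpace X] [TopologicalSpace Y] (τ : X ≃ₜ X) (τ' : Y ≃ₜ Y)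
    (θ : X ≃ₜ Y) (h : ∀ x, θ (τ x) = τ' (θ x)) (p p' : X) (hh : Het τ p p') :
    Het τ' (θ p) (θ p') := by
  obtain ⟨x, h1, h2, h3⟩ := hh
  have hs : ∀ x, θ (τ.symm x) = τ'.symm (θ x) := by
    intro x
    have := h (τ.symm x)
    rw [τ.apply_symm_apply] at this
    rw [this, τ'.symm_apply_apply]
  refine ⟨θ x, ?_, ?_, ?_⟩
  · rw [← h]
    exact fun h4 => h1 (θ.injective h4)
  · have e : ∀ k, τ'^[k] (θ x) = θ (τ^[k] x) := by
      intro k
      induction k with
      | zero => rfl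
      | succ k ih => rw [Function.iterate_succ_apply', Function.iterate_succ_apply', ih, h]
    simp only [e]
    exact (θ.continuous.tendsto p').comp h2
  · have e : ∀ k, τ'.symm^[k] (θ x) = θ (τ.symm^[k] x) := by
      intro k
      induction k with
      | zero => rfl
      | succ k ih => rw [Function.iterate_succ_apply', Function.iterate_succ_apply', ih, hs]
    simp only [e]
    exact (θ.continuous.tendsto p).comp h3

/-- the constant configuration -/
def vv (n : ℕ) : Cf := fun p => decide (p.2 = n + 1)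

/-- the empty configuration -/
def zz : Cf := fun _ => false

/-- limit configurations -/
def inf (f : ℤ → ℕ) : Cf := fun p => decide (p.2 = f p.1)

theorem inf_iff (f : ℤ → ℕ) (i : ℤ) (n : ℕ) : inf f (i, n) = true ↔ n = f i := by
  simp [inf]

theorem inf_mem (R : ℕ → ℕ → Bool) (f : ℤ → ℕ) (h : ∀ L, Good R (blk L f)) :
    inf f ∈ closure (DD R) := by
  rw [mem_closure_agr (q := qq)]
  intro n
  obtain ⟨M, hM, hMn⟩ := exists_bound n
  refine ⟨blk M f, h M, fun j hj => ?_⟩
  have h1 := hMn j hj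
  unfold inf blk
  simp [h1]

theorem vv_mem (R : ℕ → ℕ → Bool) (n : ℕ) : vv n ∈ closure (DD R) :=
  inf_mem R (fun _ => n + 1) fun L => good_const R L n

theorem zz_mem (R : ℕ → ℕ → Bool) : zz ∈ closure (DD R) := by
  have h1 := good_const R (-1) 0
  have h2 : (blk (-1) fun _ => 0 + 1) = zz := by
    funext p
    unfold blk zz
    rw [decide_eq_false_iff_not]
    omega
  rw [h2] at h1
  exact subset_closure h1

theorem exists_approx {R : ℕ → ℕ → Bool} {y : Cf} (hy : y ∈ closure (DD R)) {F : Set (ℤ × ℕ)}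
    (hF : F.Finite) : ∃ y', Good R y' ∧ ∀ p ∈ F, y' p = y p := by
  obtain ⟨n, hn⟩ := (hF.image qq.symm).bddAbove
  obtain ⟨y', hy', h⟩ := (mem_closure_agr (q := qq)).1 hy (n + 1)
  refine ⟨y', hy', fun p hp => ?_⟩
  have h1 := h (qq.symm p) (Nat.lt_succ_of_le (hn ⟨p, hp, rfl⟩))
  rw [qq.apply_symm_apply] at h1
  exact h1.symm

theorem cl_fn {R : ℕ → ℕ → Bool} {y : Cf} (hy : y ∈ closure (DD R)) (i : ℤ) (n m : ℕ)
    (h1 : y (i, n) = true) (h2 : y (i, m) = true) : n = m := by
  obtain ⟨y', g, h⟩ := exists_approx hy (F := {(i, n), (i, m)}) (by simp)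
  refine g.fn i n m ?_ ?_
  · rw [h _ (by simp), h1]
  · rw [h _ (by simp), h2]

theorem eq_vv {R : ℕ → ℕ → Bool} {y : Cf} (hy : y ∈ closure (DD R)) (n : ℕ)
    (h : ∀ t : ℤ, y (t, n + 1) = true) : y = vv n := by
  funext p
  unfold vv
  by_cases hp : p.2 = n + 1
  · rw [decide_eq_true hp]
    have := h p.1
    rw [← hp] at this
    exact this
  · rw [decide_eq_false hp]
    cases hb : y p with
    | false => rfl
    | true => exact absurd (cl_fn hy p.1 p.2 (n + 1) hb (h p.1)) hp

theorem shK_vv (R : ℕ → ℕ → Bool) (n : ℕ) : shK R ⟨vv n, vv_mem R n⟩ = ⟨vv n, vv_mem R n⟩ :=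
  Subtype.ext rfl

theorem shK_zz (R : ℕ → ℕ → Bool) : shK R ⟨zz, zz_mem R⟩ = ⟨zz, zz_mem R⟩ :=
  Subtype.ext rfl

theorem fixed_cases (R : ℕ → ℕ → Bool) (x : closure (DD R)) (hx : shK R x = x) :
    x = ⟨zz, zz_mem R⟩ ∨ ∃ n, x = ⟨vv n, vv_mem R n⟩ := by
  have h0 : sft 1 x.1 = x.1 := congrArg Subtype.val hx
  have h1 : ∀ (t : ℤ) (n : ℕ), x.1 (t + 1, n) = x.1 (t, n) := fun t n => congrFun h0 (t, n)
  have h2 : ∀ (t : ℤ) (n : ℕ), x.1 (t, n) = x.1 (0, n) := by
    intro t n
    induction t using Int.induction_on with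
    | zero => rfl
    | succ i ih => rw [h1, ih]
    | pred i ih =>
      have e : -(i : ℤ) - 1 + 1 = -i := by ring
      rw [← ih, ← h1 (-(i : ℤ) - 1) n, e]
  by_cases hn : ∃ n, x.1 (0, n) = true
  · obtain ⟨n, hn⟩ := hn
    right
    cases n with
    | zero =>
      exfalso
      obtain ⟨y', g, h⟩ := exists_approx x.2 (F := {((0 : ℤ), 0), ((1 : ℤ), 0)}) (by simp)
      have e0 : y' (0, 0) = true := by rw [h _ (by simp), hn]
      have e1 : y' (1, 0) = true := by rw [h _ (by simp), h2, hn]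
      have := g.one 0 1 (by norm_num) (fun t h3 h4 => by
        rcases (show t = 0 ∨ t = 1 by omega) with h5 | h5
        · rw [h5]; exact ⟨0, e0⟩
        · rw [h5]; exact ⟨0, e1⟩) e0 e1
      omega
    | succ n =>
      refine ⟨n, Subtype.ext (eq_vv x.2 n fun t => ?_)⟩
      rw [h2, hn]
  · left
    push Not at hn
    apply Subtype.ext
    funext p
    have := hn p.2
    rw [← h2 p.1] at this
    exact Bool.eq_false_iff.2 this

theorem iter_val (R : ℕ → ℕ → Bool) (x : closure (DD R)) (k : ℕ) :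
    ((shK R)^[k] x).1 = sft k x.1 := by
  induction k with
  | zero => simp [sft_zero]
  | succ k ih =>
    rw [Function.iterate_succ_apply', shK_val, ih, sft_sft]
    congr 1
    push_cast
    ring

theorem symm_val (R : ℕ → ℕ → Bool) (x : closure (DD R)) :
    ((shK R).symm x).1 = sft (-1) x.1 := rfl

theorem iter_symm_val (R : ℕ → ℕ → Bool) (x : closure (DD R)) (k : ℕ) :
    ((shK R).symm^[k] x).1 = sft (-k) x.1 := by
  induction k with
  | zero => simp [sft_zero]
  | succ k ih =>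
    rw [Function.iterate_succ_apply', symm_val, ih, sft_sft]
    congr 1
    push_cast
    ring

theorem tendsto_cl {R : ℕ → ℕ → Bool} {u : ℕ → closure (DD R)} {p : closure (DD R)} :
    Tendsto u atTop (𝓝 p) ↔ ∀ i : ℤ × ℕ, ∀ᶠ k in atTop, (u k).1 i = p.1 i := by
  rw [tendsto_subtype_rng, tendsto_pi_nhds]
  refine forall_congr' fun i => ?_
  rw [nhds_discrete, tendsto_pure]

/-- from the relation to a connection -/
theorem het_of_rel (R : ℕ → ℕ → Bool) (n m : ℕ) (h : R n m = true) :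
    Het (shK R) ⟨vv n, vv_mem R n⟩ ⟨vv m, vv_mem R m⟩ := by
  let f : ℤ → ℕ := fun t => if t < 0 then n + 1 else if t = 0 then 0 else m + 1
  have f0 : ∀ t, f t = 0 ↔ t = 0 := by
    intro t
    simp only [f]
    split_ifs with h1 h2
    · exact ⟨fun h3 => by simp at h3, fun h3 => by omega⟩
    · simp [h2]
    · exact ⟨fun h3 => by simp at h3, fun h3 => by omega⟩
  have fn : ∀ t, t < 0 → f t = n + 1 := fun t ht => by simp only [f]; rw [if_pos ht]
  have fp : ∀ t, 0 < t → f t = m + 1 := fun t ht => by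
    simp only [f]; rw [if_neg (by omega), if_neg (by omega)]
  have hg : ∀ L, Good R (blk L f) := by
    intro L
    refine good_blk R L f (fun a b h1 h2 => ?_) (fun a b i j hab h1 h2 h3 => ?_)
      (fun a b i j hab h1 h2 h3 => ?_)
    · rw [f0] at h1 h2
      omega
    · have h4 : a ≠ 0 := fun h5 => h3 a le_rfl hab ((f0 a).2 h5)
      have h4' : b ≠ 0 := fun h5 => h3 b hab le_rfl ((f0 b).2 h5)
      by_cases ha : a < 0
      · by_cases hb : b < 0
        · rw [fn a ha] at h1
          rw [fn b hb] at h2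
          omega
        · exact absurd ((f0 0).2 rfl) (h3 0 (by omega) (by omega))
      · rw [fp a (by omega)] at h1
        rw [fp b (by omega)] at h2
        omega
    · obtain ⟨t, h4, h5, h6⟩ := h3
      rw [f0] at h6
      have ha : a < 0 := by
        by_contra hc
        have : a = 0 := by omega
        rw [(f0 a).2 this] at h1
        omega
      have hb : 0 < b := by
        by_contra hc
        have : b = 0 := by omega
        rw [(f0 b).2 this] at h2
        omega
      rw [fn a ha] at h1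
      rw [fp b hb] at h2
      have e1 : i = n := by omega
      have e2 : j = m := by omega
      rw [e1, e2, h]
  refine ⟨⟨inf f, inf_mem R f hg⟩, fun hc => ?_, ?_, ?_⟩
  · have h1 : sft 1 (inf f) = inf f := congrArg Subtype.val hc
    have h2 := congrFun h1 (-1, 0)
    have h3 : inf f (-1, 0) = true := by
      rw [← h2]
      show inf f (-1 + 1, 0) = true
      rw [inf_iff]
      exact ((f0 _).2 (by norm_num)).symm
    rw [inf_iff] at h3
    have := (f0 (-1)).1 h3.symm
    omega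
  · rw [tendsto_cl]
    rintro ⟨i, s⟩
    filter_upwards [eventually_ge_atTop (i.natAbs + 1)] with k hk
    rw [iter_val]
    show inf f (i + k, s) = vv m (i, s)
    unfold inf vv
    simp only
    rw [fp (i + k) (by omega)]
  · rw [tendsto_cl]
    rintro ⟨i, s⟩
    filter_upwards [eventually_ge_atTop (i.natAbs + 1)] with k hk
    rw [iter_symm_val]
    show inf f (i + -k, s) = vv n (i, s)
    unfold inf vv
    simp only
    rw [fn (i + -k) (by omega)]

/-- from a connection to the relation -/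
theorem rel_of_het (R : ℕ → ℕ → Bool) (n m : ℕ)
    (h : Het (shK R) ⟨vv n, vv_mem R n⟩ ⟨vv m, vv_mem R m⟩) : R n m = true := by
  obtain ⟨x, hx, h1, h2⟩ := h
  rw [tendsto_cl] at h1 h2
  obtain ⟨B1, hB1⟩ := eventually_atTop.1 (h1 (0, m + 1))
  obtain ⟨B2, hB2⟩ := eventually_atTop.1 (h2 (0, n + 1))
  obtain ⟨B, hB1', hB2'⟩ : ∃ B : ℤ, (B1 : ℤ) ≤ B ∧ (B2 : ℤ) ≤ B :=
    ⟨max B1 B2, le_max_left _ _, le_max_right _ _⟩
  have r : ∀ t : ℤ, B ≤ t → x.1 (t, m + 1) = true := by
    intro t ht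
    have := hB1 t.toNat (by omega)
    rw [iter_val] at this
    have h3 : x.1 (0 + (t.toNat : ℤ), m + 1) = vv m (0, m + 1) := this
    have h4 : (0 + (t.toNat : ℤ)) = t := by omega
    rw [h4] at h3
    rw [h3]
    simp [vv]
  have l : ∀ t : ℤ, t ≤ -B → x.1 (t, n + 1) = true := by
    intro t ht
    have := hB2 (-t).toNat (by omega)
    rw [iter_symm_val] at this
    have h3 : x.1 (0 + -((-t).toNat : ℤ), n + 1) = vv n (0, n + 1) := this
    have h4 : (0 + -((-t).toNat : ℤ)) = t := by omega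
    rw [h4] at h3
    rw [h3]
    simp [vv]
  -- approximation
  have hF : (Set.Icc (-(3 * B + 5)) (3 * B + 5) ×ˢ ({0, n + 1, m + 1} : Set ℕ)).Finite :=
    (Set.finite_Icc _ _).prod (by simp)
  obtain ⟨y, g, hy⟩ := exists_approx x.2 hF
  have hy' : ∀ (t : ℤ) (s : ℕ), -(3 * B + 5) ≤ t → t ≤ 3 * B + 5 → (s = 0 ∨ s = n + 1 ∨ s = m + 1) →
      y (t, s) = x.1 (t, s) := by
    intro t s h3 h4 h5
    exact hy (t, s) ⟨⟨h3, h4⟩, by simpa using h5⟩
  have hB0 : 0 ≤ B := by omega
  have dr : ∀ t : ℤ, B ≤ t → t ≤ 3 * B + 5 → df y t := fun t h3 h4 =>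
    ⟨m + 1, by rw [hy' t _ (by omega) h4 (by simp), r t h3]⟩
  have dl : ∀ t : ℤ, t ≤ -B → -(3 * B + 5) ≤ t → df y t := fun t h3 h4 =>
    ⟨n + 1, by rw [hy' t _ h4 (by omega) (by simp), l t h3]⟩
  have hconn : conn y (-B) B := by
    by_contra hc
    unfold conn at hc
    push Not at hc
    obtain ⟨t, h3, h4, h5⟩ := hc
    have := g.sep (2 * B + 2) (-(3 * B + 1)) B (fun s h6 h7 => dl s (by omega) (by omega))
      (fun s h6 h7 => dr s h6 (by omega)) ⟨t, by omega, h4, h5⟩
    omega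
  have ea : y (-B, n + 1) = true := by
    rw [hy' _ _ (by omega) (by omega) (by simp), l _ le_rfl]
  have eb : y (B, m + 1) = true := by
    rw [hy' _ _ (by omega) (by omega) (by simp), r _ le_rfl]
  by_contra hR
  have hno : ∀ t, -B ≤ t → t ≤ B → y (t, 0) = false := by
    intro t h3 h4
    cases hb : y (t, 0) with
    | false => rfl
    | true => exact absurd (g.edge (-B) B n m (by omega) hconn ea eb ⟨t, h3, h4, hb⟩) hR
  have hnm : n = m := g.noe (-B) B n m (by omega) hconn ea eb hno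
  apply hx
  have hall : ∀ t : ℤ, x.1 (t, n + 1) = true := by
    intro t
    by_cases h3 : t ≤ -B
    · exact l t h3
    by_cases h4 : B ≤ t
    · rw [hnm]; exact r t h4
    · obtain ⟨s, hs⟩ := hconn t (by omega) (by omega)
      cases s with
      | zero =>
        rw [hno t (by omega) (by omega)] at hs
        exact absurd hs Bool.false_ne_true
      | succ s =>
        have h5 : n = s := g.noe (-B) t n s (by omega)
          (fun u h6 h7 => hconn u h6 (by omega)) ea hs
          (fun u h6 h7 => hno u h6 (by omega))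
        rw [← h5, hy' _ _ (by omega) (by omega) (by simp)] at hs
        exact hs
  have hxv : x = ⟨vv n, vv_mem R n⟩ := Subtype.ext (eq_vv x.2 n hall)
  rw [hxv]
  exact shK_vv R n

theorem vv_inj {n m : ℕ} (h : vv n = vv m) : n = m := by
  have := congrFun h (0, n + 1)
  unfold vv at this
  simpa using this

theorem vv_ne_zz (n : ℕ) : vv n ≠ zz := by
  intro h
  have := congrFun h (0, n + 1)
  unfold vv zz at this
  simp at this

theorem tendsto_vv (R : ℕ → ℕ → Bool) :
    Tendsto (fun n => (⟨vv n, vv_mem R n⟩ : closure (DD R))) atTop (𝓝 ⟨zz, zz_mem R⟩) := by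
  rw [tendsto_cl]
  rintro ⟨i, s⟩
  filter_upwards [eventually_ge_atTop s] with k hk
  unfold vv zz
  simp only
  rw [decide_eq_false_iff_not]
  omega

section conj
variable {R R' : ℕ → ℕ → Bool} (θ : closure (DD R) ≃ₜ closure (DD R'))
  (h : ∀ x, θ (shK R x) = shK R' (θ x))

include h

theorem th_zz : θ ⟨zz, zz_mem R⟩ = ⟨zz, zz_mem R'⟩ := by
  have h1 : shK R' (θ ⟨zz, zz_mem R⟩) = θ ⟨zz, zz_mem R⟩ := by rw [← h, shK_zz]
  rcases fixed_cases R' _ h1 with h2 | ⟨m, h2⟩
  · exact h2
  · exfalso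
    have h3 := (θ.continuous.tendsto _).comp (tendsto_vv R)
    rw [h2, tendsto_cl] at h3
    obtain ⟨n, hn⟩ := (h3 (0, m + 1)).exists
    have h4 : (θ ⟨vv n, vv_mem R n⟩).1 (0, m + 1) = true := by
      have h5 : (θ ⟨vv n, vv_mem R n⟩).1 (0, m + 1) = vv m (0, m + 1) := hn
      rw [h5]
      simp [vv]
    have h6 : shK R' (θ ⟨vv n, vv_mem R n⟩) = θ ⟨vv n, vv_mem R n⟩ := by rw [← h, shK_vv]
    have h7 : θ ⟨vv n, vv_mem R n⟩ = ⟨vv m, vv_mem R' m⟩ := by
      rcases fixed_cases R' _ h6 with h8 | ⟨k, h8⟩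
      · rw [h8] at h4
        exact absurd h4 Bool.false_ne_true
      · rw [h8] at h4
        have h9 : m + 1 = k + 1 := by
          have h10 : vv k (0, m + 1) = true := h4
          simpa [vv] using h10
        have h11 : m = k := by omega
        rw [h8]
        subst h11
        rfl
    rw [← h2] at h7
    have h8 := congrArg Subtype.val (θ.injective h7)
    exact vv_ne_zz n h8

theorem th_vv (n : ℕ) : ∃ m, θ ⟨vv n, vv_mem R n⟩ = ⟨vv m, vv_mem R' m⟩ := by
  have h1 : shK R' (θ ⟨vv n, vv_mem R n⟩) = θ ⟨vv n, vv_mem R n⟩ := by rw [← h, shK_vv]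
  rcases fixed_cases R' _ h1 with h2 | h2
  · exfalso
    rw [← th_zz θ h] at h2
    have h8 := congrArg Subtype.val (θ.injective h2)
    exact vv_ne_zz n h8
  · exact h2

theorem iso_of_conj : ∃ σ : Equiv.Perm ℕ, ∀ i j, R i j = R' (σ i) (σ j) := by
  have hs : ∀ x, θ.symm (shK R' x) = shK R (θ.symm x) := by
    intro x
    have := h (θ.symm x)
    rw [θ.apply_symm_apply] at this
    rw [← this, θ.symm_apply_apply]
  choose f hf using th_vv θ h
  choose g hg using th_vv θ.symm hs
  have e1 : ∀ n, g (f n) = n := by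
    intro n
    have h1 := hg (f n)
    rw [← hf n, θ.symm_apply_apply] at h1
    exact (vv_inj (congrArg Subtype.val h1)).symm
  have e2 : ∀ n, f (g n) = n := by
    intro n
    have h1 := hf (g n)
    rw [← hg n, θ.apply_symm_apply] at h1
    exact (vv_inj (congrArg Subtype.val h1)).symm
  refine ⟨⟨f, g, e1, e2⟩, fun i j => ?_⟩
  show R i j = R' (f i) (f j)
  have h1 : R i j = true ↔ R' (f i) (f j) = true := by
    constructor
    · intro h2
      have h3 := het_map _ _ θ h _ _ (het_of_rel R i j h2)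
      rw [hf i, hf j] at h3
      exact rel_of_het R' _ _ h3
    · intro h2
      have h3 := het_map _ _ θ.symm hs _ _ (het_of_rel R' _ _ h2)
      rw [hg (f i), hg (f j)] at h3
      have h4 := rel_of_het R _ _ h3
      rwa [e1, e1] at h4
  exact Bool.eq_iff_iff.2 h1

end conj

/-- action on symbols -/
def sp (σ : Equiv.Perm ℕ) : ℕ → ℕ
  | 0 => 0
  | n + 1 => σ n + 1

theorem sp_sp (σ : Equiv.Perm ℕ) (s : ℕ) : sp σ (sp σ.symm s) = s := by
  cases s with
  | zero => rfl
  | succ n => simp [sp]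

theorem sp_sp' (σ : Equiv.Perm ℕ) (s : ℕ) : sp σ.symm (sp σ s) = s := by
  cases s with
  | zero => rfl
  | succ n => simp [sp]

/-- the homeomorphism of configurations -/
def ps (σ : Equiv.Perm ℕ) : Cf ≃ₜ Cf where
  toFun := fun y p => y (p.1, sp σ.symm p.2)
  invFun := fun y p => y (p.1, sp σ p.2)
  left_inv := fun y => by
    funext p
    simp [sp_sp']
  right_inv := fun y => by
    funext p
    simp [sp_sp]
  continuous_toFun := continuous_pi fun p => continuous_apply (p.1, sp σ.symm p.2)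
  continuous_invFun := continuous_pi fun p => continuous_apply (p.1, sp σ p.2)

theorem ps_symm (σ : Equiv.Perm ℕ) : (ps σ).symm = ps σ.symm := rfl

theorem df_ps (σ : Equiv.Perm ℕ) (y : Cf) (t : ℤ) : df (ps σ y) t ↔ df y t := by
  constructor
  · rintro ⟨s, hs⟩
    exact ⟨_, hs⟩
  · rintro ⟨s, hs⟩
    refine ⟨sp σ s, ?_⟩
    show y (t, sp σ.symm (sp σ s)) = true
    rw [sp_sp', hs]

theorem good_ps {R R' : ℕ → ℕ → Bool} (σ : Equiv.Perm ℕ) (hσ : ∀ i j, R i j = R' (σ i) (σ j))
    {y : Cf} (g : Good R y) : Good R' (ps σ y) where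
  fin := by
    have h1 : Function.Injective fun p : ℤ × ℕ => (p.1, sp σ.symm p.2) := by
      rintro ⟨a, b⟩ ⟨a', b'⟩ hab
      simp only [Prod.mk.injEq] at hab ⊢
      refine ⟨hab.1, ?_⟩
      have := congrArg (sp σ) hab.2
      rwa [sp_sp, sp_sp] at this
    exact g.fin.preimage h1.injOn
  fn := fun i n m h1 h2 => by
    have h3 := g.fn i _ _ h1 h2
    have := congrArg (sp σ) h3
    rwa [sp_sp, sp_sp] at this
  one := fun a b hab hc h1 h2 =>
    g.one a b hab (fun t h3 h4 => (df_ps σ y t).1 (hc t h3 h4)) h1 h2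
  noe := fun a b n m hab hc h1 h2 h5 => by
    have h6 := g.noe a b (σ.symm n) (σ.symm m) hab
      (fun t h3 h4 => (df_ps σ y t).1 (hc t h3 h4)) h1 h2 (fun t h3 h4 => h5 t h3 h4)
    exact σ.symm.injective h6
  edge := fun a b n m hab hc h1 h2 h5 => by
    obtain ⟨t, h6, h7, h8⟩ := h5
    have h9 := g.edge a b (σ.symm n) (σ.symm m) hab
      (fun t h3 h4 => (df_ps σ y t).1 (hc t h3 h4)) h1 h2 ⟨t, h6, h7, h8⟩
    rw [hσ, σ.apply_symm_apply, σ.apply_symm_apply] at h9
    exact h9
  sep := fun k a b h1 h2 h3 => by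
    obtain ⟨t, h4, h5, h6⟩ := h3
    exact g.sep k a b (fun s h7 h8 => (df_ps σ y s).1 (h1 s h7 h8))
      (fun s h7 h8 => (df_ps σ y s).1 (h2 s h7 h8)) ⟨t, h4, h5, fun h9 => h6 ((df_ps σ y t).2 h9)⟩

theorem conj_of_iso {R R' : ℕ → ℕ → Bool} (σ : Equiv.Perm ℕ)
    (hσ : ∀ i j, R i j = R' (σ i) (σ j)) :
    ∃ θ : closure (DD R) ≃ₜ closure (DD R'), ∀ x, θ (shK R x) = shK R' (θ x) := by
  have hσ' : ∀ i j, R' i j = R (σ.symm i) (σ.symm j) := by
    intro i j
    rw [hσ, σ.apply_symm_apply, σ.apply_symm_apply]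
  have hmem : ∀ y, y ∈ DD R ↔ ps σ y ∈ DD R' := by
    intro y
    constructor
    · intro hy
      exact good_ps σ hσ hy
    · intro hy
      have h1 : Good R (ps σ.symm (ps σ y)) := good_ps σ.symm hσ' hy
      rw [← ps_symm, (ps σ).symm_apply_apply] at h1
      exact h1
  exact ⟨(ps σ).subtype (cl_iff (ps σ) (DD R) (DD R') hmem), fun x => Subtype.ext rfl⟩

end Pool.Agent.H453R3.TC
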