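import Pool.Agent.H453R3.TrInv

/-!
# Borel measurability and transitivity
-/

set_option autoImplicit false

open Filter Topology Set MeasureTheory

namespace Pool.Agent.H453R3.TC

/-- the codes -/
abbrev Rl : Type := ℕ → ℕ → Bool

theorem meas_R (n m : ℕ) (b : Bool) : MeasurableSet {R : Rl | R n m = b} := by
  have h1 : Measurable fun R : Rl => R n m := (measurable_pi_apply m).comp (measurable_pi_apply n)
  exact h1 (measurableSet_singleton b)

theorem meas_imp {Γ : Type} [MeasurableSpace Γ] (P : Prop) (s : Set Γ) (hs : MeasurableSet s) :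
    MeasurableSet {g | P → g ∈ s} := by
  by_cases h : P
  · have : {g | P → g ∈ s} = s := by
      ext g; simp [h]
    rw [this]; exact hs
  · have : {g | P → g ∈ s} = univ := by
      ext g; simp [h]
    rw [this]; exact MeasurableSet.univ

theorem meas_and {Γ : Type} [MeasurableSpace Γ] (P : Prop) (s : Set Γ) (hs : MeasurableSet s) :
    MeasurableSet {g | P ∧ g ∈ s} := by
  by_cases h : P
  · have : {g | P ∧ g ∈ s} = s := by
      ext g; simp [h]
    rw [this]; exact hs
  · have : {g | P ∧ g ∈ s} = ∅ := by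
      ext g; simp [h]
    rw [this]; exact MeasurableSet.empty

/-- the conditions independent of the relation -/
def Base (y : Cf) : Prop :=
  {p | y p = true}.Finite ∧ (∀ i n m, y (i, n) = true → y (i, m) = true → n = m) ∧
  (∀ a b, a ≤ b → conn y a b → y (a, 0) = true → y (b, 0) = true → a = b) ∧
  (∀ a b n m, a ≤ b → conn y a b → y (a, n + 1) = true → y (b, m + 1) = true →
    (∀ t, a ≤ t → t ≤ b → y (t, 0) = false) → n = m) ∧
  (∀ k a b : ℤ, (∀ t, a ≤ t → t < a + k → df y t) → (∀ t, b ≤ t → t < b + k → df y t) →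
    (∃ t, a ≤ t ∧ t ≤ b ∧ ¬ df y t) → a + 2 * k ≤ b)

/-- the premise of the edge condition -/
def Pre (y : Cf) (a b : ℤ) (n m : ℕ) : Prop :=
  a ≤ b ∧ conn y a b ∧ y (a, n + 1) = true ∧ y (b, m + 1) = true ∧
    (∃ t, a ≤ t ∧ t ≤ b ∧ y (t, 0) = true)

theorem good_iff (R : Rl) (y : Cf) :
    Good R y ↔ Base y ∧ ∀ a b n m, Pre y a b n m → R n m = true := by
  constructor
  · intro h
    exact ⟨⟨h.fin, h.fn, h.one, h.noe, h.sep⟩, fun a b n m ⟨h1, h2, h3, h4, h5⟩ =>
      h.edge a b n m h1 h2 h3 h4 h5⟩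
  · rintro ⟨⟨h1, h2, h3, h4, h5⟩, h6⟩
    exact ⟨h1, h2, h3, h4, fun a b n m k1 k2 k3 k4 k5 => h6 a b n m ⟨k1, k2, k3, k4, k5⟩, h5⟩

theorem meas_good (y : Cf) : MeasurableSet {R : Rl | Good R y} := by
  have h1 : {R : Rl | Good R y} = {R : Rl | Base y ∧ R ∈ ⋂ (a : ℤ), ⋂ (b : ℤ), ⋂ (n : ℕ), ⋂ (m : ℕ),
      {R : Rl | Pre y a b n m → R ∈ {R : Rl | R n m = true}}} := by
    ext R
    simp only [mem_ofPred_eq, good_iff, mem_iInter]
  rw [h1]
  refine meas_and _ _ ?_
  exact MeasurableSet.iInter fun a => MeasurableSet.iInter fun b => MeasurableSet.iInter fun n =>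
    MeasurableSet.iInter fun m => meas_imp _ _ (meas_R n m true)

/-- characteristic functions -/
def chi (S : Finset (ℤ × ℕ)) : Cf := fun p => decide (p ∈ S)

theorem exists_DD (R : Rl) (P : Cf → Prop) :
    (∃ c ∈ DD R, P c) ↔ ∃ S : Finset (ℤ × ℕ), chi S ∈ DD R ∧ P (chi S) := by
  constructor
  · rintro ⟨c, hc, hP⟩
    have hc' : Good R c := hc
    have h1 : chi hc'.fin.toFinset = c := by
      funext p
      unfold chi
      cases h : c p with
      | false => simp [h]
      | true => simp [h]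
    exact ⟨hc'.fin.toFinset, by rw [h1]; exact hc, by rw [h1]; exact hP⟩
  · rintro ⟨S, h1, h2⟩
    exact ⟨_, h1, h2⟩

theorem meas_ex (P : Cf → Prop) : MeasurableSet {R : Rl | ∃ c ∈ DD R, P c} := by
  have h1 : {R : Rl | ∃ c ∈ DD R, P c} =
      ⋃ S : Finset (ℤ × ℕ), {R : Rl | P (chi S) ∧ R ∈ {R : Rl | Good R (chi S)}} := by
    ext R
    simp only [mem_ofPred_eq, mem_iUnion, exists_DD]
    exact exists_congr fun S => and_comm
  rw [h1]
  exact MeasurableSet.iUnion fun S => meas_and _ _ (meas_good _)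

theorem meas_spl (x : Cf) (n : ℕ) : MeasurableSet {R : Rl | spl qq (DD R) x n} :=
  (meas_ex fun y => agr qq n x y ∧ y (qq n) = false).inter
    (meas_ex fun y => agr qq n x y ∧ y (qq n) = true)

theorem sInf_eq_iff (s : Set ℕ) (n : ℕ) :
    sInf s = n ↔ (n ∈ s ∧ ∀ m < n, m ∉ s) ∨ (n = 0 ∧ ∀ m, m ∉ s) := by
  constructor
  · rintro rfl
    rcases s.eq_empty_or_nonempty with h | h
    · right
      rw [h]
      simp
    · left
      exact ⟨Nat.sInf_mem h, fun m hm => Nat.notMem_of_lt_sInf hm⟩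
  · rintro (⟨h1, h2⟩ | ⟨h1, h2⟩)
    · apply le_antisymm (Nat.sInf_le h1)
      by_contra hc
      exact h2 _ (not_le.1 hc) (Nat.sInf_mem ⟨n, h1⟩)
    · have : s = ∅ := Set.eq_empty_iff_forall_notMem.2 h2
      rw [this, h1, Nat.sInf_empty]

theorem meas_sInf {Γ : Type} [MeasurableSpace Γ] (s : Γ → Set ℕ)
    (h : ∀ n, MeasurableSet {g | n ∈ s g}) : Measurable fun g => sInf (s g) := by
  refine measurable_to_countable' fun n => ?_
  have h1 : (fun g => sInf (s g)) ⁻¹' {n} =
      ({g | n ∈ s g} ∩ ⋂ m, {g | m < n → g ∈ {g | m ∈ s g}ᶜ}) ∪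
        {g | n = 0 ∧ g ∈ ⋂ m, {g | m ∈ s g}ᶜ} := by
    ext g
    rw [mem_preimage, mem_singleton_iff, sInf_eq_iff]
    simp
  rw [h1]
  exact ((h n).inter (MeasurableSet.iInter fun m => meas_imp _ _ (h m).compl)).union
    (meas_and _ _ (MeasurableSet.iInter fun m => (h m).compl))

theorem meas_nth {Γ : Type} [MeasurableSpace Γ] (p : Γ → ℕ → Prop)
    (hp : ∀ n, MeasurableSet {g | p g n}) (j : ℕ) : Measurable fun g => Nat.nth (p g) j := by
  induction j using Nat.strong_induction_on with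
  | _ j ih =>
    have h1 : (fun g => Nat.nth (p g) j) =
        fun g => sInf {x | p g x ∧ ∀ k < j, Nat.nth (p g) k < x} := by
      funext g
      exact Nat.nth_eq_sInf _ _
    rw [h1]
    refine meas_sInf _ fun n => ?_
    have h2 : {g | n ∈ {x | p g x ∧ ∀ k < j, Nat.nth (p g) k < x}} =
        {g | p g n} ∩ ⋂ k ∈ Set.Iio j, {g | Nat.nth (p g) k < n} := by
      ext g
      simp
    rw [h2]
    refine (hp n).inter (MeasurableSet.biInter (Set.to_countable _) fun k hk => ?_)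
    exact (ih k hk) (measurableSet_Iio (a := n))

theorem meas_ev (x : Cf) (j : ℕ) : Measurable fun R : Rl => ev qq (DD R) x j := by
  have h1 := meas_nth (fun R : Rl => spl qq (DD R) x) (fun n => meas_spl x n) j
  exact (measurable_from_nat (f := fun n => x (qq n))).comp h1

/-- the homeomorphism of the Cantor set attached to a relation -/
noncomputable def TT (R : Rl) : (ℕ → Bool) ≃ₜ (ℕ → Bool) :=
  TF (DD R) (perf_DD R) (DD_ne R) (shK R)

theorem meas_TT_apply (z : ℕ → Bool) (j : ℕ) (b : Bool) : MeasurableSet {R : Rl | TT R z j = b} := by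
  have h1 : {R : Rl | TT R z j = b} = ⋂ m : ℕ, ⋃ S : Finset (ℤ × ℕ),
      ({R : Rl | Good R (chi S)} ∩ (⋂ i ∈ Set.Iio m, {R : Rl | ev qq (DD R) (chi S) i = z i})) ∩
        {R : Rl | ev qq (DD R) (sft 1 (chi S)) j = b} := by
    ext R
    have h2 := TF_iff (DD R) (perf_DD R) (DD_ne R) (shK R) z j b
    simp only [mem_ofPred_eq, mem_iInter, mem_iUnion, mem_inter_iff, mem_Iio]
    unfold TT
    rw [h2]
    refine forall_congr' fun m => ?_
    constructor
    · rintro ⟨c, h3, h4, h5⟩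
      obtain ⟨S, h6, h7, h8⟩ := (exists_DD R fun c => (∀ i < m, ev qq (DD R) c i = z i) ∧
        ev qq (DD R) (sft 1 c) j = b).1 ⟨c.1, h3, h4, h5⟩
      exact ⟨S, ⟨h6, h7⟩, h8⟩
    · rintro ⟨S, ⟨h6, h7⟩, h8⟩
      exact ⟨⟨chi S, subset_closure h6⟩, h6, h7, h8⟩
  rw [h1]
  refine MeasurableSet.iInter fun m => MeasurableSet.iUnion fun S => ?_
  refine ((meas_good _).inter (MeasurableSet.biInter (Set.to_countable _) fun i _ => ?_)).inter ?_
  · exact (meas_ev (chi S) i) (measurableSet_singleton (z i))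
  · exact (meas_ev (sft 1 (chi S)) j) (measurableSet_singleton b)

theorem meas_TT (z : ℕ → Bool) : Measurable fun R : Rl => TT R z := by
  refine measurable_pi_lambda _ fun j => ?_
  exact measurable_to_countable' fun b => meas_TT_apply z j b

/-- transitivity -/
theorem TT_trans (R : Rl) (U V : Set (ℕ → Bool)) (hU : IsOpen U) (hV : IsOpen V)
    (hUn : U.Nonempty) (hVn : V.Nonempty) :
    ∃ n : ℤ, (((TT R ^ n : (ℕ → Bool) ≃ₜ (ℕ → Bool)) '' U) ∩ V).Nonempty := by
  set E := EE qq (DD R) (perf_DD R) (DD_ne R) with hE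
  -- integer powers
  have hpow : ∀ (n : ℤ) (x : closure (DD R)) (y : closure (DD R)), y.1 = sft n x.1 →
      (TT R ^ n : (ℕ → Bool) ≃ₜ (ℕ → Bool)) (E x) = E y := by
    have h1 : ∀ x, TT R (E x) = E (shK R x) := fun x =>
      TF_EE (DD R) (perf_DD R) (DD_ne R) (shK R) x
    have h2 : ∀ (n : ℕ) (x y : closure (DD R)), y.1 = sft n x.1 →
        (TT R ^ n : (ℕ → Bool) ≃ₜ (ℕ → Bool)) (E x) = E y := by
      intro n
      induction n with
      | zero =>
        intro x y h
        have : y = x := Subtype.ext (by rw [h]; exact sft_zero x.1)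
        rw [this]
        rfl
      | succ n ih =>
        intro x y h
        rw [pow_succ, Homeomorph.mul_apply, h1]
        refine ih (shK R x) y ?_
        rw [h, shK_val, sft_sft]
        congr 1
    intro n x y h
    obtain ⟨k, rfl | rfl⟩ := n.eq_nat_or_neg
    · rw [zpow_natCast]
      exact h2 k x y h
    · rw [zpow_neg, zpow_natCast, Homeomorph.inv_apply, Homeomorph.symm_apply_eq]
      refine (h2 k y x ?_).symm
      rw [h, sft_sft, add_neg_cancel, sft_zero]
  -- open sets in the closure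
  have key : ∀ W : Set (ℕ → Bool), IsOpen W → W.Nonempty → ∃ c ∈ DD R, ∃ n, ∀ y : closure (DD R),
      agr qq n c y.1 → E y ∈ W := by
    intro W hW hWn
    obtain ⟨w, hw⟩ := hWn
    have hW' : IsOpen (E ⁻¹' W) := hW.preimage E.continuous
    obtain ⟨O, hO, hO'⟩ := isOpen_induced_iff.1 hW'
    have hw' : (E.symm w) ∈ E ⁻¹' W := by
      rw [mem_preimage, E.apply_symm_apply]
      exact hw
    rw [← hO'] at hw'
    obtain ⟨n, hn⟩ := exists_agr_of_nhds (q := qq) (E.symm w).1 O (hO.mem_nhds hw')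
    obtain ⟨c, hc, hc'⟩ := (mem_closure_agr (q := qq)).1 (E.symm w).2 n
    refine ⟨c, hc, n, fun y hy => ?_⟩
    have h1 : y ∈ Subtype.val ⁻¹' O := hn y.1 (agr_trans hc' hy)
    rw [hO'] at h1
    exact h1
  obtain ⟨c, hc, n1, h1⟩ := key U hU hUn
  obtain ⟨c', hc', n2, h2⟩ := key V hV hVn
  obtain ⟨z, hz, N, h3, h4⟩ := trans_DD R c c' hc hc' (max n1 n2)
  have hz' : sft N z ∈ DD R := (mem_DD_sft R N z).1 hz
  refine ⟨N, E ⟨sft N z, subset_closure hz'⟩, ⟨E ⟨z, subset_closure hz⟩, ?_, ?_⟩, ?_⟩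
  · exact h1 _ (agr_mono (le_max_left _ _) h3)
  · exact hpow N _ _ rfl
  · exact h2 _ (agr_mono (le_max_right _ _) h4)

/-- conjugacy of the attached homeomorphisms is isomorphism of the relations -/
theorem TT_conj_iff (R R' : Rl) :
    (∃ σ : Equiv.Perm ℕ, ∀ i j, R i j = R' (σ i) (σ j)) ↔
      ∃ h : (ℕ → Bool) ≃ₜ (ℕ → Bool), TT R = h * TT R' * h⁻¹ := by
  set E := EE qq (DD R) (perf_DD R) (DD_ne R) with hE
  set E' := EE qq (DD R') (perf_DD R') (DD_ne R') with hE'
  have h1 : ∀ x, TT R (E x) = E (shK R x) := fun x =>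
    TF_EE (DD R) (perf_DD R) (DD_ne R) (shK R) x
  have h1' : ∀ x, TT R' (E' x) = E' (shK R' x) := fun x =>
    TF_EE (DD R') (perf_DD R') (DD_ne R') (shK R') x
  constructor
  · rintro ⟨σ, hσ⟩
    obtain ⟨θ, hθ⟩ := conj_of_iso σ hσ
    refine ⟨(E'.symm.trans θ.symm).trans E, ?_⟩
    ext z
    obtain ⟨x, rfl⟩ := E.surjective z
    rw [h1, Homeomorph.mul_apply, Homeomorph.mul_apply, Homeomorph.inv_apply]
    have h2 : ((E'.symm.trans θ.symm).trans E).symm (E x) = E' (θ x) := by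
      simp
    rw [h2, h1', ← hθ]
    simp
  · rintro ⟨h, hh⟩
    have h3 : ∀ z, h.symm (TT R z) = TT R' (h.symm z) := by
      intro z
      rw [hh]
      simp [Homeomorph.mul_apply, Homeomorph.inv_apply]
    refine iso_of_conj ((E.trans h.symm).trans E'.symm) fun x => ?_
    show E'.symm (h.symm (E (shK R x))) = shK R' (E'.symm (h.symm (E x)))
    rw [← h1, h3, Homeomorph.symm_apply_eq, ← h1', E'.apply_symm_apply]

/-- the topology of uniform convergence -/
def homeoTop : TopologicalSpace ((ℕ → Bool) ≃ₜ (ℕ → Bool)) :=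
  TopologicalSpace.induced (fun T => (⟨T, T.continuous⟩ : C(ℕ → Bool, ℕ → Bool))) inferInstance

/-- pointwise measurable families of homeomorphisms are Borel -/
theorem measurable_homeo {Γ : Type} [MeasurableSpace Γ] (f : Γ → (ℕ → Bool) ≃ₜ (ℕ → Bool))
    (h : ∀ z, Measurable fun g => f g z) : @Measurable _ _ _ (@borel _ homeoTop) f := by
  have h0 : @borel _ homeoTop = MeasurableSpace.comap
      (fun T : (ℕ → Bool) ≃ₜ (ℕ → Bool) => (⟨T, T.continuous⟩ : C(ℕ → Bool, ℕ → Bool)))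
      (borel C(ℕ → Bool, ℕ → Bool)) := borel_comap
  rw [h0, measurable_comap_iff]
  rw [borel_eq_generateFrom_of_subbasis ContinuousMap.compactOpen_eq]
  refine measurable_generateFrom ?_
  rintro _ ⟨K, hK, U, hU, rfl⟩
  have hK' : IsCompact K := hK
  have hU' : IsOpen U := hU
  haveI : Countable (TopologicalSpace.Clopens (ℕ → Bool)) :=
    TopologicalSpace.Clopens.countable_iff_secondCountable.2 inferInstance
  obtain ⟨D, hDc, hDd⟩ := TopologicalSpace.exists_countable_dense K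
  have h1 : ((fun T : (ℕ → Bool) ≃ₜ (ℕ → Bool) => (⟨T, T.continuous⟩ : C(ℕ → Bool, ℕ → Bool))) ∘ f)
      ⁻¹' {g | MapsTo g K U} = ⋃ W : TopologicalSpace.Clopens (ℕ → Bool),
        {g : Γ | (W : Set (ℕ → Bool)) ⊆ U ∧ g ∈ ⋂ x ∈ D, {g | f g x.1 ∈ (W : Set (ℕ → Bool))}} := by
    ext g
    simp only [mem_preimage, Function.comp, mem_ofPred_eq, mem_iUnion, mem_iInter]
    constructor
    · intro hm
      have hm' : f g '' K ⊆ U := by
        rintro _ ⟨x, hx, rfl⟩
        exact hm hx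
      obtain ⟨W, hW, hW1, hW2⟩ := exists_clopen_of_closed_subset_open
        (hK'.image (f g).continuous).isClosed hU' hm'
      exact ⟨⟨W, hW⟩, hW2, fun x _ => hW1 ⟨x.1, x.2, rfl⟩⟩
    · rintro ⟨W, hW, hW'⟩ x hx
      refine hW ?_
      have hcl : IsClosed {x : K | f g x.1 ∈ (W : Set (ℕ → Bool))} :=
        W.isClopen.isClosed.preimage ((f g).continuous.comp continuous_subtype_val)
      have h2 : D ⊆ {x : K | f g x.1 ∈ (W : Set (ℕ → Bool))} := fun x hx => hW' x hx
      have h3 := hcl.closure_subset_iff.2 h2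
      rw [hDd.closure_eq] at h3
      exact h3 (mem_univ (⟨x, hx⟩ : K))
  rw [h1]
  refine MeasurableSet.iUnion fun W => meas_and _ _ (MeasurableSet.biInter hDc fun x _ => ?_)
  exact (h x.1) W.isClopen.isOpen.measurableSet

end Pool.Agent.H453R3.TC
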