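import Pool.Agent.H453R3.Brouwer

/-!
# The shift spaces attached to a binary relation
-/

set_option autoImplicit false

open Filter Topology Set

namespace Pool.Agent.H453R3.TC

/-- configurations -/
abbrev Cf : Type := ℤ × ℕ → Bool

/-- the position carries a symbol -/
def df (y : Cf) (i : ℤ) : Prop := ∃ n, y (i, n) = true

/-- all positions of the interval carry a symbol -/
def conn (y : Cf) (a b : ℤ) : Prop := ∀ t, a ≤ t → t ≤ b → df y t

/-- the good finite configurations -/
structure Good (R : ℕ → ℕ → Bool) (y : Cf) : Prop where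
  fin : {p | y p = true}.Finite
  fn : ∀ i n m, y (i, n) = true → y (i, m) = true → n = m
  one : ∀ a b, a ≤ b → conn y a b → y (a, 0) = true → y (b, 0) = true → a = b
  noe : ∀ a b n m, a ≤ b → conn y a b → y (a, n + 1) = true → y (b, m + 1) = true →
    (∀ t, a ≤ t → t ≤ b → y (t, 0) = false) → n = m
  edge : ∀ a b n m, a ≤ b → conn y a b → y (a, n + 1) = true → y (b, m + 1) = true →
    (∃ t, a ≤ t ∧ t ≤ b ∧ y (t, 0) = true) → R n m = true
  sep : ∀ k a b : ℤ, (∀ t, a ≤ t → t < a + k → df y t) → (∀ t, b ≤ t → t < b + k → df y t) →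
    (∃ t, a ≤ t ∧ t ≤ b ∧ ¬ df y t) → a + 2 * k ≤ b

/-- the translate -/
def sft (c : ℤ) (y : Cf) : Cf := fun p => y (p.1 + c, p.2)

theorem df_sft (c : ℤ) (y : Cf) (t : ℤ) : df (sft c y) t ↔ df y (t + c) := Iff.rfl

theorem conn_sft (c : ℤ) (y : Cf) (a b : ℤ) (h : conn (sft c y) a b) : conn y (a + c) (b + c) := by
  intro t h1 h2
  have := h (t - c) (by omega) (by omega)
  rwa [df_sft, sub_add_cancel] at this

theorem good_sft {R : ℕ → ℕ → Bool} {y : Cf} (h : Good R y) (c : ℤ) : Good R (sft c y) where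
  fin := by
    have h1 : Function.Injective fun p : ℤ × ℕ => (p.1 + c, p.2) := by
      rintro ⟨a, b⟩ ⟨a', b'⟩ hab
      simp only [Prod.mk.injEq] at hab ⊢
      exact ⟨by omega, hab.2⟩
    exact h.fin.preimage h1.injOn
  fn := fun i n m h1 h2 => h.fn (i + c) n m h1 h2
  one := fun a b hab hc h1 h2 => by
    have := h.one (a + c) (b + c) (by omega) (conn_sft c y a b hc) h1 h2
    omega
  noe := fun a b n m hab hc h1 h2 h3 => by
    refine h.noe (a + c) (b + c) n m (by omega) (conn_sft c y a b hc) h1 h2 fun t h4 h5 => ?_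
    have := h3 (t - c) (by omega) (by omega)
    unfold sft at this
    simpa using this
  edge := fun a b n m hab hc h1 h2 h3 => by
    obtain ⟨t, h4, h5, h6⟩ := h3
    exact h.edge (a + c) (b + c) n m (by omega) (conn_sft c y a b hc) h1 h2
      ⟨t + c, by omega, by omega, h6⟩
  sep := fun k a b h1 h2 h3 => by
    obtain ⟨t, h4, h5, h6⟩ := h3
    have := h.sep k (a + c) (b + c)
      (fun s h7 h8 => by
        have := h1 (s - c) (by omega) (by omega)
        rwa [df_sft, sub_add_cancel] at this)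
      (fun s h7 h8 => by
        have := h2 (s - c) (by omega) (by omega)
        rwa [df_sft, sub_add_cancel] at this)
      ⟨t + c, by omega, by omega, h6⟩
    omega

/-- support in positions -/
def supp (L : ℤ) (y : Cf) : Prop := ∀ p : ℤ × ℕ, y p = true → -L ≤ p.1 ∧ p.1 ≤ L

theorem exists_supp {y : Cf} (h : {p | y p = true}.Finite) : ∃ L : ℤ, 0 ≤ L ∧ supp L y := by
  obtain ⟨L, hL⟩ := (h.image fun p : ℤ × ℕ => |p.1|).bddAbove
  refine ⟨max L 0, le_max_right _ _, fun p hp => ?_⟩
  have h1 : |p.1| ≤ L := hL ⟨p, hp, rfl⟩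
  have h2 := abs_le.1 h1
  have h3 := le_max_left L 0
  omega

theorem supp_mono {L L' : ℤ} {y : Cf} (h : supp L y) (hL : L ≤ L') : supp L' y := by
  intro p hp
  have := h p hp
  omega

/-- concatenation -/
def cat (N : ℤ) (y z : Cf) : Cf := fun p => y p || z (p.1 - N, p.2)

section cat
variable {N L : ℤ} {y z : Cf}

theorem cat_left (hz : supp L z) (t : ℤ) (n : ℕ) (ht : t < N - L) :
    cat N y z (t, n) = y (t, n) := by
  unfold cat
  cases h : z (t - N, n) with
  | false => simp [h]
  | true =>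
    have := hz _ h
    simp only at this
    omega

theorem cat_right (hy : supp L y) (t : ℤ) (n : ℕ) (ht : L < t) :
    cat N y z (t, n) = z (t - N, n) := by
  unfold cat
  cases h : y (t, n) with
  | false => simp [h]
  | true =>
    have := hy _ h
    simp only at this
    omega

theorem df_cat_left (hz : supp L z) (t : ℤ) (ht : t < N - L) : df (cat N y z) t ↔ df y t := by
  unfold df
  simp only [cat_left hz t _ ht]

theorem df_cat_right (hy : supp L y) (t : ℤ) (ht : L < t) : df (cat N y z) t ↔ df z (t - N) := by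
  unfold df
  simp only [cat_right hy t _ ht]

theorem df_cat (hy : supp L y) (hz : supp L z) (t : ℤ) (h : df (cat N y z) t) :
    (-L ≤ t ∧ t ≤ L) ∨ (N - L ≤ t ∧ t ≤ N + L) := by
  obtain ⟨n, hn⟩ := h
  unfold cat at hn
  rw [Bool.or_eq_true] at hn
  rcases hn with h1 | h1
  · exact Or.inl (hy _ h1)
  · right
    have := hz _ h1
    simp only at this
    omega

theorem conn_cat (hy : supp L y) (hz : supp L z) (hN : 6 * L + 6 ≤ N) (hL : 0 ≤ L) (a b : ℤ)
    (hab : a ≤ b) (h : conn (cat N y z) a b) :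
    (b ≤ L ∧ conn y a b) ∨ (N - L ≤ a ∧ conn z (a - N) (b - N)) := by
  have ha := df_cat hy hz a (h a le_rfl hab)
  have hb := df_cat hy hz b (h b hab le_rfl)
  rcases ha with h1 | h1
  · left
    have hbL : b ≤ L := by
      by_contra hc
      have := df_cat hy hz (L + 1) (h (L + 1) (by omega) (by omega))
      omega
    refine ⟨hbL, fun t h2 h3 => ?_⟩
    exact (df_cat_left hz t (by omega)).1 (h t h2 h3)
  · right
    refine ⟨h1.1, fun t h2 h3 => ?_⟩
    have := (df_cat_right (N := N) (z := z) hy (t + N) (by omega)).1 (h (t + N) (by omega) (by omega))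
    rwa [add_sub_cancel_right] at this

theorem good_cat {R : ℕ → ℕ → Bool} (gy : Good R y) (gz : Good R z) (hy : supp L y)
    (hz : supp L z) (hL : 0 ≤ L) (hN : 6 * L + 6 ≤ N) : Good R (cat N y z) where
  fin := by
    have h1 : Function.Injective fun p : ℤ × ℕ => (p.1 - N, p.2) := by
      rintro ⟨a, b⟩ ⟨a', b'⟩ hab
      simp only [Prod.mk.injEq] at hab ⊢
      exact ⟨by omega, hab.2⟩
    refine (gy.fin.union (gz.fin.preimage h1.injOn)).subset fun p hp => ?_
    have hp' : (y p || z (p.1 - N, p.2)) = true := hp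
    rw [Bool.or_eq_true] at hp'
    exact hp'
  fn := fun i n m h1 h2 => by
    by_cases hi : i ≤ L
    · rw [cat_left hz i _ (by omega)] at h1 h2
      exact gy.fn i n m h1 h2
    · rw [cat_right hy i _ (by omega)] at h1 h2
      exact gz.fn _ n m h1 h2
  one := fun a b hab hc h1 h2 => by
    rcases conn_cat hy hz hN hL a b hab hc with ⟨h3, h4⟩ | ⟨h3, h4⟩
    · rw [cat_left hz _ _ (by omega)] at h1 h2
      exact gy.one a b hab h4 h1 h2
    · rw [cat_right hy _ _ (by omega)] at h1 h2
      have := gz.one _ _ (by omega) h4 h1 h2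
      omega
  noe := fun a b n m hab hc h1 h2 h5 => by
    rcases conn_cat hy hz hN hL a b hab hc with ⟨h3, h4⟩ | ⟨h3, h4⟩
    · rw [cat_left hz _ _ (by omega)] at h1 h2
      refine gy.noe a b n m hab h4 h1 h2 fun t h6 h7 => ?_
      rw [← cat_left (N := N) (y := y) hz t 0 (by omega)]
      exact h5 t h6 h7
    · rw [cat_right hy _ _ (by omega)] at h1 h2
      refine gz.noe _ _ n m (by omega) h4 h1 h2 fun t h6 h7 => ?_
      have := h5 (t + N) (by omega) (by omega)
      rwa [cat_right hy _ _ (by omega), add_sub_cancel_right] at this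
  edge := fun a b n m hab hc h1 h2 h5 => by
    obtain ⟨t, h6, h7, h8⟩ := h5
    rcases conn_cat hy hz hN hL a b hab hc with ⟨h3, h4⟩ | ⟨h3, h4⟩
    · rw [cat_left hz _ _ (by omega)] at h1 h2 h8
      exact gy.edge a b n m hab h4 h1 h2 ⟨t, h6, h7, h8⟩
    · rw [cat_right hy _ _ (by omega)] at h1 h2 h8
      exact gz.edge _ _ n m (by omega) h4 h1 h2 ⟨t - N, by omega, by omega, h8⟩
  sep := fun k a b h1 h2 h3 => by
    obtain ⟨t, h4, h5, h6⟩ := h3
    by_cases hk : k ≤ 0
    · omega
    have ha := df_cat hy hz a (h1 a le_rfl (by omega))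
    have hb := df_cat hy hz b (h2 b le_rfl (by omega))
    -- ends of the runs
    have ha' := df_cat hy hz (a + k - 1) (h1 (a + k - 1) (by omega) (by omega))
    have hb' := df_cat hy hz (b + k - 1) (h2 (b + k - 1) (by omega) (by omega))
    have hcut : ∀ s : ℤ, L < s → s < N - L → ¬ df (cat N y z) s := by
      intro s h7 h8 h9
      have := df_cat hy hz s h9
      omega
    have haL : a ≤ L → a + k - 1 ≤ L := by
      intro h7
      by_contra hc
      exact hcut (L + 1) (by omega) (by omega) (h1 (L + 1) (by omega) (by omega))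
    have hbL : b ≤ L → b + k - 1 ≤ L := by
      intro h7
      by_contra hc
      exact hcut (L + 1) (by omega) (by omega) (h2 (L + 1) (by omega) (by omega))
    rcases ha with h7 | h7
    · have e1 := haL h7.2
      rcases hb with h8 | h8
      · have e2 := hbL h8.2
        refine gy.sep k a b (fun s h9 h10 => ?_) (fun s h9 h10 => ?_) ⟨t, h4, h5, fun h9 => ?_⟩
        · exact (df_cat_left hz s (by omega)).1 (h1 s h9 h10)
        · exact (df_cat_left hz s (by omega)).1 (h2 s h9 h10)
        · exact h6 ((df_cat_left hz t (by omega)).2 h9)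
      · omega
    · rcases hb with h8 | h8
      · omega
      · have := gz.sep k (a - N) (b - N) (fun s h9 h10 => ?_) (fun s h9 h10 => ?_)
          ⟨t - N, by omega, by omega, fun h9 => ?_⟩
        · omega
        · have := (df_cat_right (N := N) (z := z) hy (s + N) (by omega)).1
            (h1 (s + N) (by omega) (by omega))
          rwa [add_sub_cancel_right] at this
        · have := (df_cat_right (N := N) (z := z) hy (s + N) (by omega)).1
            (h2 (s + N) (by omega) (by omega))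
          rwa [add_sub_cancel_right] at this
        · exact h6 ((df_cat_right hy t (by omega)).2 h9)

end cat

/-- the good configurations -/
def DD (R : ℕ → ℕ → Bool) : Set Cf := {y | Good R y}

/-- configurations supported on an interval, where symbols are given by a function -/
def blk (L : ℤ) (f : ℤ → ℕ) : Cf := fun p => decide ((-L ≤ p.1 ∧ p.1 ≤ L) ∧ p.2 = f p.1)

theorem blk_iff (L : ℤ) (f : ℤ → ℕ) (i : ℤ) (n : ℕ) :
    blk L f (i, n) = true ↔ (-L ≤ i ∧ i ≤ L) ∧ n = f i := by
  simp [blk]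

theorem df_blk (L : ℤ) (f : ℤ → ℕ) (i : ℤ) : df (blk L f) i ↔ (-L ≤ i ∧ i ≤ L) := by
  constructor
  · rintro ⟨n, hn⟩
    exact ((blk_iff L f i n).1 hn).1
  · intro h
    exact ⟨f i, (blk_iff L f i _).2 ⟨h, rfl⟩⟩

theorem good_blk (R : ℕ → ℕ → Bool) (L : ℤ) (f : ℤ → ℕ)
    (h1 : ∀ a b, f a = 0 → f b = 0 → a = b)
    (h2 : ∀ a b n m, a ≤ b → f a = n + 1 → f b = m + 1 → (∀ t, a ≤ t → t ≤ b → f t ≠ 0) → n = m)
    (h3 : ∀ a b n m, a ≤ b → f a = n + 1 → f b = m + 1 → (∃ t, a ≤ t ∧ t ≤ b ∧ f t = 0) →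
      R n m = true) : Good R (blk L f) where
  fin := by
    refine ((Set.finite_Icc (-L) L).image fun i => (i, f i)).subset ?_
    rintro ⟨i, n⟩ hp
    have := (blk_iff L f i n).1 hp
    exact ⟨i, ⟨this.1.1, this.1.2⟩, by rw [this.2]⟩
  fn := fun i n m h4 h5 => by
    rw [blk_iff] at h4 h5
    rw [h4.2, h5.2]
  one := fun a b _ _ h4 h5 => by
    rw [blk_iff] at h4 h5
    exact h1 a b h4.2.symm h5.2.symm
  noe := fun a b n m hab _ h4 h5 h6 => by
    rw [blk_iff] at h4 h5
    refine h2 a b n m hab h4.2.symm h5.2.symm fun t h7 h8 h9 => ?_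
    have := h6 t h7 h8
    have h10 : blk L f (t, 0) = true := (blk_iff L f t 0).2 ⟨by omega, h9.symm⟩
    rw [this] at h10
    exact Bool.false_ne_true h10
  edge := fun a b n m hab _ h4 h5 h6 => by
    rw [blk_iff] at h4 h5
    obtain ⟨t, h7, h8, h9⟩ := h6
    rw [blk_iff] at h9
    exact h3 a b n m hab h4.2.symm h5.2.symm ⟨t, h7, h8, h9.2.symm⟩
  sep := fun k a b h4 h5 h6 => by
    obtain ⟨t, h7, h8, h9⟩ := h6
    by_cases hk : k ≤ 0
    · omega
    exfalso
    apply h9
    rw [df_blk]
    have e1 := (df_blk L f a).1 (h4 a le_rfl (by omega))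
    have e2 := (df_blk L f b).1 (h5 b le_rfl (by omega))
    omega

theorem good_const (R : ℕ → ℕ → Bool) (L : ℤ) (n : ℕ) : Good R (blk L fun _ => n + 1) := by
  refine good_blk R L _ (fun a b h => ?_) (fun a b k m _ h h' _ => ?_) (fun a b k m _ _ _ h => ?_)
  · omega
  · omega
  · obtain ⟨t, -, -, h⟩ := h
    omega

/-- an enumeration of the index set -/
noncomputable def qq : ℕ ≃ ℤ × ℕ := (Denumerable.eqv (ℤ × ℕ)).symm

theorem exists_bound (n : ℕ) : ∃ M : ℤ, 0 ≤ M ∧ ∀ j < n, -M ≤ (qq j).1 ∧ (qq j).1 ≤ M := by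
  obtain ⟨M, hM⟩ := ((Set.finite_Iio n).image fun j => |(qq j).1|).bddAbove
  refine ⟨max M 0, le_max_right _ _, fun j hj => ?_⟩
  have h1 : |(qq j).1| ≤ M := hM ⟨j, hj, rfl⟩
  have h2 := abs_le.1 h1
  have h3 := le_max_left M 0
  omega

theorem DD_ne (R : ℕ → ℕ → Bool) : (DD R).Nonempty := ⟨_, good_const R 0 0⟩

theorem perf_DD (R : ℕ → ℕ → Bool) : Perf qq (DD R) := by
  intro x hx n
  have hx' : Good R x := hx
  obtain ⟨L, hL, hLx⟩ := exists_supp hx'.fin
  obtain ⟨M, hM, hMn⟩ := exists_bound n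
  have g2 := good_const R 0 0
  have s2 : supp L (blk 0 fun _ => 0 + 1) := by
    rintro ⟨i, m⟩ hp
    rw [blk_iff] at hp
    simp only
    omega
  refine ⟨cat (6 * L + 6 + M) x (blk 0 fun _ => 0 + 1),
    good_cat hx' g2 hLx s2 hL (by omega), fun j hj => ?_, fun h => ?_⟩
  · have h1 := hMn j hj
    have h2 := cat_left (N := 6 * L + 6 + M) (y := x) s2 (qq j).1 (qq j).2 (by omega)
    exact h2.symm
  · have h1 := congrFun h (6 * L + 6 + M, 1)
    rw [cat_right hLx _ _ (by omega)] at h1
    have h2 : (blk 0 fun _ => 0 + 1) ((6 * L + 6 + M) - (6 * L + 6 + M), 1) = true := by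
      rw [blk_iff]
      simp
    rw [h2] at h1
    have := hLx _ h1.symm
    simp only at this
    omega

/-- the shift -/
def sh : Cf ≃ₜ Cf where
  toFun := sft 1
  invFun := sft (-1)
  left_inv := fun y => by
    funext p
    simp [sft]
  right_inv := fun y => by
    funext p
    simp [sft]
  continuous_toFun := continuous_pi fun p => continuous_apply (p.1 + 1, p.2)
  continuous_invFun := continuous_pi fun p => continuous_apply (p.1 + -1, p.2)

theorem sft_sft (c d : ℤ) (y : Cf) : sft c (sft d y) = sft (c + d) y := by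
  funext p
  simp only [sft]
  congr 2
  ring

theorem sft_zero (y : Cf) : sft 0 y = y := by
  funext p
  simp [sft]

theorem mem_DD_sft (R : ℕ → ℕ → Bool) (c : ℤ) (y : Cf) : y ∈ DD R ↔ sft c y ∈ DD R := by
  constructor
  · intro h
    exact good_sft h c
  · intro h
    have h1 : Good R (sft (-c) (sft c y)) := good_sft h (-c)
    rw [sft_sft, neg_add_cancel, sft_zero] at h1
    exact h1

theorem cl_iff (θ : Cf ≃ₜ Cf) (D D' : Set Cf) (h : ∀ x, x ∈ D ↔ θ x ∈ D') (x : Cf) :
    x ∈ closure D ↔ θ x ∈ closure D' := by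
  have h1 : D = θ ⁻¹' D' := by
    ext y
    exact h y
  rw [h1, ← θ.preimage_closure]
  rfl

/-- the shift on the closure -/
def shK (R : ℕ → ℕ → Bool) : closure (DD R) ≃ₜ closure (DD R) :=
  sh.subtype (cl_iff sh (DD R) (DD R) (mem_DD_sft R 1))

theorem shK_val (R : ℕ → ℕ → Bool) (x : closure (DD R)) : (shK R x).1 = sft 1 x.1 := rfl

/-- topological transitivity, at the level of good configurations -/
theorem trans_DD (R : ℕ → ℕ → Bool) (c c' : Cf) (hc : c ∈ DD R) (hc' : c' ∈ DD R) (n : ℕ) :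
    ∃ z ∈ DD R, ∃ N : ℤ, agr qq n c z ∧ agr qq n c' (sft N z) := by
  have g1 : Good R c := hc
  have g2 : Good R c' := hc'
  obtain ⟨L1, h1, h1'⟩ := exists_supp g1.fin
  obtain ⟨L2, h2, h2'⟩ := exists_supp g2.fin
  obtain ⟨M, hM, hMn⟩ := exists_bound n
  have s1 : supp (L1 + L2) c := supp_mono h1' (by omega)
  have s2 : supp (L1 + L2) c' := supp_mono h2' (by omega)
  refine ⟨cat (6 * (L1 + L2) + 6 + M) c c', good_cat g1 g2 s1 s2 (by omega) (by omega),
    6 * (L1 + L2) + 6 + M, fun j hj => ?_, fun j hj => ?_⟩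
  · have h3 := hMn j hj
    exact (cat_left s2 (qq j).1 (qq j).2 (by omega)).symm
  · have h3 := hMn j hj
    have h4 := cat_right (N := 6 * (L1 + L2) + 6 + M) (z := c') s1
      ((qq j).1 + (6 * (L1 + L2) + 6 + M)) (qq j).2 (by omega)
    rw [add_sub_cancel_right] at h4
    exact h4.symm

end Pool.Agent.H453R3.TC
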