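import Pool.Agent.H453R3.TrMeas

/-!
# Stone duality: conjugacy reduces to isomorphism of binary relations
-/

set_option autoImplicit false

open Filter Topology Set MeasureTheory TopologicalSpace

namespace Pool.Agent.H453R3.TC

/-- the Cantor set -/
abbrev CC : Type := ℕ → Bool

/-- its clopen algebra -/
abbrev BB : Type := Clopens CC

instance instCountBB : Countable BB := Clopens.countable_iff_secondCountable.2 inferInstance

/-- subbasic clopen sets -/
def sb (n : ℕ) : BB := ⟨{x | x n = true}, (isClopen_discrete ({true} : Set Bool)).preimage (continuous_apply n)⟩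

instance instInfBB : Infinite BB := by
  refine Infinite.of_injective sb fun n m h => ?_
  by_contra hne
  have h1 : (fun k => decide (k = n) : CC) ∈ (sb n : Set CC) := by
    show decide (n = n) = true
    simp
  rw [h] at h1
  have h2 : decide (m = n) = true := h1
  rw [decide_eq_true_eq] at h2
  exact hne h2.symm

theorem eq_of_clopen {x y : CC} (h : ∀ a : BB, x ∈ (a : Set CC) → y ∈ (a : Set CC)) : x = y := by
  by_contra hne
  obtain ⟨a, ha, hx, hy⟩ := exists_isClopen_of_totally_separated hne
  exact hy (h ⟨a, ha⟩ hx)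

section stone
variable (f : BB ≃o BB)

theorem f_compl (a : BB) : ((f aᶜ : BB) : Set CC) = (f a : Set CC)ᶜ := by
  have h1 : IsCompl (f a) (f aᶜ) := f.isCompl isCompl_compl
  rw [← h1.compl_eq]
  rfl

theorem exists_pt (x : CC) : ∃ y : CC, ∀ a : BB, x ∈ (a : Set CC) → y ∈ (f a : Set CC) := by
  have h1 := IsCompact.nonempty_iInter_of_directed_nonempty_isCompact_isClosed
    (ι := {a : BB // x ∈ (a : Set CC)}) (hι := ⟨⟨⊤, mem_univ x⟩⟩)
    (fun a => (f a.1 : Set CC)) ?_ ?_ ?_ ?_
  · obtain ⟨y, hy⟩ := h1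
    rw [mem_iInter] at hy
    exact ⟨y, fun a ha => hy ⟨a, ha⟩⟩
  · intro a b
    refine ⟨⟨a.1 ⊓ b.1, a.2, b.2⟩, ?_, ?_⟩
    · show (f (a.1 ⊓ b.1) : Set CC) ⊆ (f a.1 : Set CC)
      have h2 : f (a.1 ⊓ b.1) ≤ f a.1 := f.monotone inf_le_left
      exact h2
    · show (f (a.1 ⊓ b.1) : Set CC) ⊆ (f b.1 : Set CC)
      have h2 : f (a.1 ⊓ b.1) ≤ f b.1 := f.monotone inf_le_right
      exact h2
  · intro a
    rw [Set.nonempty_iff_ne_empty]
    intro h2
    have h3 : f a.1 = ⊥ := Clopens.ext h2
    have h4 : a.1 = ⊥ := by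
      rw [← f.map_bot] at h3
      exact f.injective h3
    have h5 := a.2
    rw [h4] at h5
    exact h5
  · intro a
    exact (f a.1).isClosed.isCompact
  · intro a
    exact (f a.1).isClosed

/-- the point map -/
noncomputable def pt (x : CC) : CC := (exists_pt f x).choose

theorem pt_mem (x : CC) (a : BB) : x ∈ (a : Set CC) ↔ pt f x ∈ (f a : Set CC) := by
  constructor
  · exact (exists_pt f x).choose_spec a
  · intro h
    by_contra hx
    have h1 : x ∈ ((aᶜ : BB) : Set CC) := hx
    have h2 := (exists_pt f x).choose_spec aᶜ h1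
    rw [f_compl] at h2
    exact h2 h

theorem pt_symm (x : CC) : pt f.symm (pt f x) = x := by
  refine (eq_of_clopen fun a ha => ?_).symm
  rw [pt_mem f] at ha
  rw [pt_mem f.symm, f.symm_apply_apply] at ha
  exact ha

theorem continuous_pt : Continuous (pt f) := by
  rw [isTopologicalBasis_isClopen.continuous_iff]
  intro s hs
  have h1 : pt f ⁻¹' s = (f.symm ⟨s, hs⟩ : Set CC) := by
    ext x
    rw [pt_mem f x (f.symm ⟨s, hs⟩), f.apply_symm_apply]
    rfl
  rw [h1]
  exact (f.symm ⟨s, hs⟩).isOpen

/-- Stone duality for automorphisms -/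
noncomputable def stone : CC ≃ₜ CC where
  toFun := pt f
  invFun := pt f.symm
  left_inv := pt_symm f
  right_inv := fun x => pt_symm f.symm x
  continuous_toFun := continuous_pt f
  continuous_invFun := continuous_pt f.symm

theorem stone_image (a : BB) : stone f '' (a : Set CC) = (f a : Set CC) := by
  ext y
  constructor
  · rintro ⟨x, hx, rfl⟩
    exact (pt_mem f x a).1 hx
  · intro hy
    refine ⟨(stone f).symm y, ?_, (stone f).apply_symm_apply y⟩
    rw [SetLike.mem_coe, ← SetLike.mem_coe, pt_mem f]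
    have : pt f ((stone f).symm y) = y := (stone f).apply_symm_apply y
    rw [this]
    exact hy

end stone

/-- the relation coding a homeomorphism, on two copies of the clopen algebra -/
def st (T : CC ≃ₜ CC) : BB ⊕ BB → BB ⊕ BB → Prop
  | Sum.inl a, Sum.inl b => a ≤ b
  | Sum.inr a, Sum.inl b => a = b
  | Sum.inl a, Sum.inr b => T '' (a : Set CC) = (b : Set CC)
  | Sum.inr _, Sum.inr _ => False

theorem st_of_conj (S T h : CC ≃ₜ CC) (hc : T = h * S * h⁻¹) :
    ∃ φ : BB ⊕ BB ≃ BB ⊕ BB, ∀ x y, st S x y ↔ st T (φ x) (φ y) := by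
  let F : (CC ≃ₜ CC) → BB → BB := fun h a =>
    ⟨h '' (a : Set CC), ⟨h.isClosed_image.2 a.isClosed, h.isOpen_image.2 a.isOpen⟩⟩
  have F1 : ∀ (h : CC ≃ₜ CC) (a : BB), F h.symm (F h a) = a := fun h a => by
    apply Clopens.ext
    show h.symm '' (h '' (a : Set CC)) = a
    rw [← image_comp]
    have : (h.symm ∘ h : CC → CC) = id := by
      funext x; simp
    rw [this, image_id]
  let f : BB ≃ BB :=
    { toFun := F h
      invFun := F h.symm
      left_inv := F1 h
      right_inv := fun a => F1 h.symm a }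
  refine ⟨Equiv.sumCongr f f, fun x y => ?_⟩
  have e1 : ∀ a b : BB, a ≤ b ↔ f a ≤ f b := by
    intro a b
    show (a : Set CC) ⊆ b ↔ h '' (a : Set CC) ⊆ h '' (b : Set CC)
    exact (image_subset_image_iff h.injective).symm
  have e2 : ∀ a b : BB, S '' (a : Set CC) = (b : Set CC) ↔ T '' (f a : Set CC) = (f b : Set CC) := by
    intro a b
    show S '' (a : Set CC) = (b : Set CC) ↔ T '' (h '' (a : Set CC)) = h '' (b : Set CC)
    have h1 : T '' (h '' (a : Set CC)) = h '' (S '' (a : Set CC)) := by
      rw [hc, ← image_comp, ← image_comp]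
      apply image_congr
      intro x _
      simp [Homeomorph.mul_apply, Homeomorph.inv_apply]
    rw [h1]
    exact (h.injective.image_injective.eq_iff).symm
  cases x with
  | inl a =>
    cases y with
    | inl b => exact e1 a b
    | inr b => exact e2 a b
  | inr a =>
    cases y with
    | inl b => exact f.injective.eq_iff.symm
    | inr b => exact Iff.rfl

theorem conj_of_st (S T : CC ≃ₜ CC) (φ : BB ⊕ BB ≃ BB ⊕ BB)
    (h : ∀ x y, st S x y ↔ st T (φ x) (φ y)) : ∃ h : CC ≃ₜ CC, T = h * S * h⁻¹ := by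
  have loop : ∀ (T : CC ≃ₜ CC) (x : BB ⊕ BB), st T x x ↔ ∃ a, x = Sum.inl a := by
    intro T x
    cases x with
    | inl a => exact ⟨fun _ => ⟨a, rfl⟩, fun _ => le_refl a⟩
    | inr a =>
      constructor
      · intro h
        exact absurd h id
      · rintro ⟨b, hb⟩
        exact absurd hb (by simp)
  have hl : ∀ a : BB, ∃ b, φ (Sum.inl a) = Sum.inl b := fun a =>
    (loop T _).1 ((h _ _).1 ((loop S _).2 ⟨a, rfl⟩))
  have hl' : ∀ b : BB, ∃ a, φ.symm (Sum.inl b) = Sum.inl a := fun b => by
    have h1 := (h (φ.symm (Sum.inl b)) (φ.symm (Sum.inl b))).2 (by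
      rw [φ.apply_symm_apply]
      exact (loop T _).2 ⟨b, rfl⟩)
    exact (loop S _).1 h1
  have hr : ∀ a : BB, ∃ b, φ (Sum.inr a) = Sum.inr b := fun a => by
    cases hφ : φ (Sum.inr a) with
    | inl b =>
      exfalso
      obtain ⟨c, hc⟩ := hl' b
      rw [← hφ, φ.symm_apply_apply] at hc
      exact absurd hc (by simp)
    | inr b => exact ⟨b, rfl⟩
  choose f hf using hl
  choose f' hf' using hl'
  choose g hg using hr
  have ff' : ∀ b, f (f' b) = b := by
    intro b
    have h1 := hf (f' b)
    rw [← hf' b, φ.apply_symm_apply] at h1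
    exact (Sum.inl.inj h1).symm
  have f'f : ∀ a, f' (f a) = a := by
    intro a
    have h1 := hf' (f a)
    rw [← hf a, φ.symm_apply_apply] at h1
    exact (Sum.inl.inj h1).symm
  have hle : ∀ a b, f a ≤ f b ↔ a ≤ b := by
    intro a b
    have h1 := h (Sum.inl a) (Sum.inl b)
    rw [hf, hf] at h1
    exact h1.symm
  have hgf : ∀ a, g a = f a := by
    intro a
    have h1 := h (Sum.inr a) (Sum.inl a)
    rw [hf, hg] at h1
    exact h1.1 rfl
  have hact : ∀ a b : BB, S '' (a : Set CC) = (b : Set CC) ↔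
      T '' (f a : Set CC) = (f b : Set CC) := by
    intro a b
    have h1 := h (Sum.inl a) (Sum.inr b)
    rw [hf, hg, hgf] at h1
    exact h1
  let F : BB ≃o BB :=
    { toFun := f
      invFun := f'
      left_inv := f'f
      right_inv := ff'
      map_rel_iff' := fun {a b} => hle a b }
  have hF : ∀ a : BB, stone F '' (a : Set CC) = (f a : Set CC) := fun a => stone_image F a
  refine ⟨stone F, ?_⟩
  have key : ∀ x, stone F (S x) = T (stone F x) := by
    intro x
    refine (eq_of_clopen fun c hc => ?_).symm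
    -- pull the clopen set back
    have hcl : IsClopen (T.symm '' (c : Set CC)) :=
      ⟨T.symm.isClosed_image.2 c.isClosed, T.symm.isOpen_image.2 c.isOpen⟩
    obtain ⟨a, ha⟩ : ∃ a : BB, f a = ⟨_, hcl⟩ := ⟨f' ⟨_, hcl⟩, ff' _⟩
    have h1 : T '' (f a : Set CC) = (f (f' c) : Set CC) := by
      rw [ha, ff']
      show T '' (T.symm '' (c : Set CC)) = c
      rw [← image_comp]
      have : (T ∘ T.symm : CC → CC) = id := by
        funext x; simp
      rw [this, image_id]
    have h2 := (hact a (f' c)).2 h1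
    have h3 : stone F x ∈ (f a : Set CC) := by
      rw [ha]
      exact ⟨T (stone F x), hc, T.symm_apply_apply _⟩
    rw [← hF] at h3
    obtain ⟨x', hx', hx''⟩ := h3
    have h4 := (stone F).injective hx''
    subst h4
    have h5 : S x' ∈ (f' c : Set CC) := by
      rw [← h2]
      exact ⟨x', hx', rfl⟩
    have h6 : stone F (S x') ∈ (f (f' c) : Set CC) := by
      rw [← hF]
      exact ⟨_, h5, rfl⟩
    rw [ff'] at h6
    exact h6
  ext1 y
  rw [Homeomorph.mul_apply, Homeomorph.mul_apply, Homeomorph.inv_apply, key,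
    Homeomorph.apply_symm_apply]

/-- an enumeration of two copies of the clopen algebra -/
noncomputable def en : ℕ ≃ BB ⊕ BB :=
  (Classical.choice (nonempty_denumerable (BB ⊕ BB))).eqv.symm

open Classical in
/-- the code of a homeomorphism -/
noncomputable def cd (T : CC ≃ₜ CC) : Rl := fun i j => decide (st T (en i) (en j))

theorem cd_iff (S T : CC ≃ₜ CC) :
    (∃ h : CC ≃ₜ CC, T = h * S * h⁻¹) ↔
      ∃ σ : Equiv.Perm ℕ, ∀ i j, cd S i j = cd T (σ i) (σ j) := by
  classical
  constructor
  · rintro ⟨h, hh⟩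
    obtain ⟨φ, hφ⟩ := st_of_conj S T h hh
    refine ⟨(en.trans φ).trans en.symm, fun i j => ?_⟩
    unfold cd
    have h1 : ∀ i, en (((en.trans φ).trans en.symm) i) = φ (en i) := by
      intro i
      simp
    rw [h1, h1]
    exact decide_eq_decide.2 (hφ _ _)
  · rintro ⟨σ, hσ⟩
    refine conj_of_st S T ((en.symm.trans σ).trans en) fun x y => ?_
    have h1 := hσ (en.symm x) (en.symm y)
    unfold cd at h1
    rw [en.apply_symm_apply, en.apply_symm_apply] at h1
    exact decide_eq_decide.1 h1

theorem meas_act (a b : BB) :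
    MeasurableSet[@borel _ homeoTop] {T : CC ≃ₜ CC | T '' (a : Set CC) = (b : Set CC)} := by
  have h1 : {T : CC ≃ₜ CC | T '' (a : Set CC) = (b : Set CC)} =
      (fun T : CC ≃ₜ CC => (⟨T, T.continuous⟩ : C(CC, CC))) ⁻¹'
        ({f | MapsTo f (a : Set CC) (b : Set CC)} ∩ {f | MapsTo f (a : Set CC)ᶜ (b : Set CC)ᶜ}) := by
    ext T
    constructor
    · intro h
      have h' : T '' (a : Set CC) = (b : Set CC) := h
      refine ⟨fun x hx => ?_, fun x hx hb => ?_⟩
      · rw [← h']; exact ⟨x, hx, rfl⟩
      · rw [← h'] at hb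
        obtain ⟨x', hx', he⟩ := hb
        rw [T.injective he] at hx'
        exact hx hx'
    · rintro ⟨h2, h3⟩
      apply Subset.antisymm
      · rintro _ ⟨x, hx, rfl⟩
        exact h2 hx
      · intro y hy
        refine ⟨T.symm y, ?_, T.apply_symm_apply y⟩
        by_contra hc
        have h4 := h3 hc
        have h5 : T (T.symm y) = y := T.apply_symm_apply y
        have h6 : T (T.symm y) ∈ (b : Set CC)ᶜ := h4
        rw [h5] at h6
        exact h6 hy
  rw [h1]
  letI : TopologicalSpace (CC ≃ₜ CC) := homeoTop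
  letI : MeasurableSpace (CC ≃ₜ CC) := borel _
  haveI : BorelSpace (CC ≃ₜ CC) := ⟨rfl⟩
  have hc : Continuous (fun T : CC ≃ₜ CC => (⟨T, T.continuous⟩ : C(CC, CC))) :=
    continuous_induced_dom
  refine IsOpen.measurableSet (IsOpen.preimage hc ?_)
  exact (ContinuousMap.isOpen_setOfPred_mapsTo a.isClosed.isCompact b.isOpen).inter
    (ContinuousMap.isOpen_setOfPred_mapsTo a.isOpen.isClosed_compl.isCompact
      b.isClosed.isOpen_compl)

theorem meas_st (x y : BB ⊕ BB) :
    MeasurableSet[@borel _ homeoTop] {T : CC ≃ₜ CC | st T x y} := by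
  letI : MeasurableSpace (CC ≃ₜ CC) := @borel _ homeoTop
  cases x with
  | inl a =>
    cases y with
    | inl b => exact MeasurableSet.const (a ≤ b)
    | inr b => exact meas_act a b
  | inr a =>
    cases y with
    | inl b => exact MeasurableSet.const (a = b)
    | inr b => exact MeasurableSet.const False

theorem meas_cd : @Measurable _ _ (@borel _ homeoTop) _ cd := by
  classical
  letI : MeasurableSpace (CC ≃ₜ CC) := @borel _ homeoTop
  refine measurable_pi_lambda _ fun i => measurable_pi_lambda _ fun j => ?_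
  refine measurable_to_bool ?_
  have h1 : (fun T => cd T i j) ⁻¹' {true} = {T : CC ≃ₜ CC | st T (en i) (en j)} := by
    ext T
    simp [cd]
  rw [h1]
  exact meas_st _ _

end Pool.Agent.H453R3.TC
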